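import Pool.Agent.H902.CB.Ind
import Pool.Graph.R_seed8.TH167.SH.Conv
import Pool.Graph.R_seed8.TH167.SH.Segre2

set_option autoImplicit false

/-!
# Plane curves: from the strip to the plane, and quadratic transformations
-/

namespace Pool.Agent.H902.CB

open Finset Pool.Agent.TH176.Nag Pool.Agent.TH603.Sur Pool.Agent.TH641.UM Pool.Agent.H932R3

/-- the multiplicities `d - 2 m`, `m`, ..., `m` -/
def wp (r m d : ℕ) : Fin (r + 1) → ℕ := Fin.cons (d - 2 * m) (fun _ => m)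

theorem cond_wp (r m d : ℕ) :
    cond (wp r m d) = (d - 2 * m + 1).choose 2 + cond (fun _ : Fin r => m) := by
  unfold Pool.Agent.TH603.Sur.cond wp
  rw [Fin.sum_univ_succ]
  simp only [Fin.cons_zero, Fin.cons_succ]

/-- the map of the indices -/
def gI (r : ℕ) : Fin r ⊕ Fin 1 → Fin (r + 1) := Sum.elim Fin.succ (fun _ => 0)

theorem gI_inj (r : ℕ) : Function.Injective (gI r) := by
  rintro (i | i) (j | j) h
  · exact congrArg _ (Fin.succ_injective _ h)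
  · exact absurd h (Fin.succ_ne_zero i)
  · exact absurd h.symm (Fin.succ_ne_zero j)
  · exact congrArg _ (Subsingleton.elim i j)

/-- the top triangle -/
def Tp (m : ℕ) (d : ℕ) : Set (ℤ × ℤ) := {p | 0 ≤ p.1 ∧ 2 * (m : ℤ) + 1 ≤ p.2 ∧ p.1 + p.2 ≤ d}

theorem Tp_fin (m d : ℕ) : (Tp m d).Finite :=
  fin_box d d (by rintro a b ⟨h1, h2, h3⟩; simp only at *; omega)

theorem E_Tp {m d : ℕ} (hd : 2 * m ≤ d) : E (d - 2 * m) 1 (Tp m d) := by
  refine E_A1.comap 1 0 0 1 0 (-(2 * m + 1)) (by norm_num) ?_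
  rintro ⟨a, b⟩ ⟨h1, h2, h3⟩
  simp only at h1 h2 h3
  refine ⟨?_, ?_, ?_⟩
  · simp only; omega
  · simp only; omega
  · simp only
    push_cast [Nat.cast_sub hd]
    omega

theorem I_Tp {m d : ℕ} (hd : 2 * m ≤ d) : I (d - 2 * m) 1 (Tp m d) := by
  refine I_A1.shift 0 (-(2 * m + 1)) ?_
  rintro ⟨a, b⟩ ⟨h1, h2, h3⟩
  simp only at h1 h2 h3
  push_cast [Nat.cast_sub hd] at h3
  refine ⟨?_, ?_, ?_⟩
  · simp only; omega
  · simp only; omega
  · simp only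
    omega

theorem cutT (m d : ℕ) : ∀ p ∈ D (φ1 m) (2 * m + 1) ((d : ℤ) + 1 - m), ∀ q ∈ Tp m d,
    (0 : ℤ) * p.1 + 1 * p.2 < 0 * q.1 + 1 * q.2 ∨
      ((0 : ℤ) * p.1 + 1 * p.2 = 0 * q.1 + 1 * q.2 ∧
        (0 : ℤ) * p.1 + 0 * p.2 < 0 * q.1 + 0 * q.2) := by
  rintro p ⟨_, _, _, h1⟩ q ⟨_, h2, _⟩
  left
  push_cast at h1
  linarith

theorem Emp_wp {r m d : ℕ} (hr : 8 ≤ r) (hd : 2 * m ≤ d)
    (h : ((d : ℤ) + 1 - m) * (2 * m + 1) ≤ cond (fun _ : Fin r => m)) : Emp (wp r m d) (TZ d) := by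
  have h1 := ((trap_eight m r hr) ((d : ℤ) + 1 - m)).1 (by push_cast; exact h)
  have h2 := Emp_lex (D_fin _ _ _) (Tp_fin m d) 0 1 0 0 (cutT m d) h1 (E_Tp hd)
  refine (Emp_emb (v := wp r m d) (gI r) (gI_inj r) ?_ h2).mono ?_
  · rintro (i | i)
    · simp [gI, wp]
    · simp [gI, wp]
  · rintro ⟨a, b⟩ ⟨k1, k2, k3⟩
    simp only at k1 k2 k3
    simp only [D, φ1, Tp, Set.mem_union, Set.mem_ofPred_eq]
    omega

theorem Sur_wp {r m d : ℕ} (hr : 8 ≤ r) (hd : 2 * m ≤ d)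
    (h : (cond (fun _ : Fin r => m) : ℤ) ≤ ((d : ℤ) + 1 - m) * (2 * m + 1)) :
    Sur (wp r m d) (TZ d) := by
  have h1 := ((trap_eight m r hr) ((d : ℤ) + 1 - m)).2 (by push_cast; exact h)
  obtain ⟨T, k1, k2, k3⟩ := Sur_lex 0 1 0 0 (cutT m d) h1 (I_Tp hd)
  refine ⟨T, k1.trans ?_, ?_, Emp_emb (gI r) (gI_inj r) ?_ k3⟩
  · rintro ⟨a, b⟩ h
    simp only [D, φ1, Tp, Set.mem_union, Set.mem_ofPred_eq] at h
    refine ⟨?_, ?_, ?_⟩ <;> simp only <;> omega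
  · rw [k2, cond_sum, cond_wp, cond_const 1]
    ring
  · rintro (i | i)
    · simp [gI, wp]
    · simp [gI, wp]

/-- the expected dimension at general points -/
theorem expDim_wp {r m d : ℕ} (hr : 8 ≤ r) (hd : 2 * m ≤ d) :
    ∃ F : MvPolynomial (Fin (r + 1) × Fin 2) ℚ, F ≠ 0 ∧ ∀ {L : Type} [Field L] [CharZero L]
      (P : Fin (r + 1) → Fin 2 → L),
      MvPolynomial.aeval (fun ij : Fin (r + 1) × Fin 2 => P ij.1 ij.2) F ≠ 0 →
      ExpDim L (wp r m d) P d := by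
  rcases le_total (((d : ℤ) + 1 - m) * (2 * m + 1)) (cond (fun _ : Fin r => m)) with h | h
  · obtain ⟨F, hF, h1⟩ := full_open (Emp_wp hr hd h)
    exact ⟨F, hF, fun P hP => h1 P hP d le_rfl⟩
  · obtain ⟨F, hF, h1⟩ := indep_open (Sur_wp hr hd h)
    exact ⟨F, hF, fun P hP => h1 P hP d le_rfl⟩

end Pool.Agent.H902.CB
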