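import Pool.Agent.H902.CB.Few
import Pool.Agent.H902.CB.Plane

set_option autoImplicit false

/-!
# Equal multiplicities
-/

namespace Pool.Agent.H902.CB

open Finset Pool.Agent.TH176.Nag Pool.Agent.TH603.Sur Pool.Agent.TH641.UM Pool.Agent.H932R3

/-- removing linear conditions one by one, each together with an exponent -/
theorem drop {K : Type} [Field K] {ν : Type} (C : Submodule K ((ℤ × ℤ) →₀ K))
    (L : ν → ((ℤ × ℤ) →₀ K) →ₗ[K] K) (Λ : Finset ν) : ∀ T : Finset (ℤ × ℤ),
    (∀ f : (ℤ × ℤ) →₀ K, f.support ⊆ T → f ∈ C → (∀ j ∈ Λ, L j f = 0) → f = 0) →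
    ∃ T0 ⊆ T, T.card ≤ T0.card + Λ.card ∧
      ∀ f : (ℤ × ℤ) →₀ K, f.support ⊆ T0 → f ∈ C → f = 0 := by
  classical
  induction Λ using Finset.induction_on with
  | empty =>
    intro T hT
    exact ⟨T, subset_rfl, by simp, fun f h1 h2 => hT f h1 h2 (by simp)⟩
  | insert j Λ hj ih =>
    intro T hT
    by_cases hg : ∃ g : (ℤ × ℤ) →₀ K, g.support ⊆ T ∧ g ∈ C ∧ (∀ i ∈ Λ, L i g = 0) ∧ g ≠ 0
    · obtain ⟨g, g1, g2, g3, g4⟩ := hg
      have hgj : L j g ≠ 0 := fun h0 => g4 (hT g g1 g2 fun i hi => by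
        rcases Finset.mem_insert.1 hi with rfl | hi
        · exact h0
        · exact g3 i hi)
      obtain ⟨m, hm⟩ := Finsupp.support_nonempty_iff.2 g4
      have hgm := Finsupp.mem_support_iff.1 hm
      obtain ⟨T0, h1, h2, h3⟩ := ih (T.erase m) (by
        intro f hf hfC hfL
        have hfm : f m = 0 := by
          by_contra h0
          exact (notMem_erase m T) (hf (Finsupp.mem_support_iff.2 h0))
        have hfT : f.support ⊆ T := hf.trans (erase_subset _ _)
        have h0 : L j g • f - L j f • g = 0 := by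
          refine hT _ ?_ (C.sub_mem (C.smul_mem _ hfC) (C.smul_mem _ g2)) ?_
          · intro p hp
            have hne := Finsupp.mem_support_iff.1 hp
            by_cases h2 : f p = 0
            · refine g1 (Finsupp.mem_support_iff.2 fun h3 => hne ?_)
              simp [h2, h3]
            · exact hfT (Finsupp.mem_support_iff.2 h2)
          · intro i hi
            rw [map_sub, map_smul, map_smul, smul_eq_mul, smul_eq_mul]
            rcases Finset.mem_insert.1 hi with rfl | hi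
            · ring
            · rw [hfL i hi, g3 i hi]
              ring
        have h4 := DFunLike.congr_fun h0 m
        simp only [Finsupp.coe_sub, Finsupp.coe_smul, Pi.sub_apply, Pi.smul_apply, smul_eq_mul,
          hfm, mul_zero, zero_sub, Finsupp.coe_zero, Pi.zero_apply, neg_eq_zero] at h4
        have h5 : L j f = 0 := (mul_eq_zero.1 h4).resolve_right hgm
        refine hT f hfT hfC fun i hi => ?_
        rcases Finset.mem_insert.1 hi with rfl | hi
        · exact h5
        · exact hfL i hi)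
      refine ⟨T0, h1.trans (erase_subset _ _), ?_, h3⟩
      rw [card_insert_of_notMem hj]
      have := card_erase_of_mem (g1 hm)
      have := card_pos.2 ⟨m, g1 hm⟩
      omega
    · push Not at hg
      obtain ⟨T0, h1, h2, h3⟩ := ih T fun f hf hfC hfL => hg f hf hfC hfL
      refine ⟨T0, h1, ?_, h3⟩
      rw [card_insert_of_notMem hj]
      omega

/-- independence for fewer points -/
theorem Sur_fewer {ι κ : Type} [Fintype ι] [Fintype κ] {w : ι → ℕ} {v : κ → ℕ}
    {S : Set (ℤ × ℤ)} (h : Sur (Sum.elim w v) S) : Sur w S := by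
  classical
  obtain ⟨T, hTS, hcard, K, _, _, x, y, hx, hy, hf⟩ := h
  obtain ⟨C, hC⟩ : ∃ C : Submodule K ((ℤ × ℤ) →₀ K), ∀ f, f ∈ C ↔
      ∀ i : ι, LM f (x (Sum.inl i)) (y (Sum.inl i)) (w i) := by
    refine ⟨{ carrier := {f | ∀ i : ι, LM f (x (Sum.inl i)) (y (Sum.inl i)) (w i)}
              add_mem' := fun {a b} ha hb i => LM_add (ha i) (hb i)
              zero_mem' := fun i P _ => by simp [pr]
              smul_mem' := fun c f hf i => LM_smul (hf i) c }, fun f => Iff.rfl⟩
  obtain ⟨L, hL⟩ : ∃ L : (Σ _ : κ, ℤ × ℤ) → ((ℤ × ℤ) →₀ K) →ₗ[K] K, ∀ q f,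
      L q f = pr f (x (Sum.inr q.1)) (y (Sum.inr q.1))
        (fun u => u.1 ^ q.2.1.toNat * u.2 ^ q.2.2.toNat) :=
    ⟨fun q => { toFun := fun f => pr f (x (Sum.inr q.1)) (y (Sum.inr q.1))
                  (fun u => u.1 ^ q.2.1.toNat * u.2 ^ q.2.2.toNat)
                map_add' := fun f g => pr_add_left' f g _ _ _
                map_smul' := fun c f => pr_smul_left c f _ _ _ }, fun _ _ => rfl⟩
  have hΛ : ((univ : Finset κ).sigma fun k => TR (v k)).card = cond v := by
    rw [card_sigma]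
    unfold Pool.Agent.TH603.Sur.cond
    exact sum_congr rfl fun k _ => card_TR (v k)
  obtain ⟨T0, h1, h2, h3⟩ := drop C L ((univ : Finset κ).sigma fun k => TR (v k)) T (by
    intro f hfT hfC hfL
    refine hf f (by exact_mod_cast hfT) ?_
    rintro (i | k)
    · exact (hC f).1 hfC i
    · refine LM_of_mono fun a b hab => ?_
      have h4 := hfL ⟨k, ((a : ℤ), (b : ℤ))⟩ (by
        rw [mem_sigma]
        refine ⟨mem_univ _, mem_TR.2 ⟨Int.natCast_nonneg a, Int.natCast_nonneg b, ?_⟩⟩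
        have : v k = Sum.elim w v (Sum.inr k) := rfl
        simp only
        rw [this]
        exact_mod_cast hab)
      rw [hL] at h4
      simpa using h4)
  have hc2 : cond (Sum.elim w v) = cond w + cond v := cond_sum w v
  obtain ⟨T1, h5, h6⟩ := exists_subset_card_eq (s := T0) (n := cond w) (by omega)
  refine ⟨T1, ?_, h6, K, inferInstance, inferInstance, fun i => x (Sum.inl i),
    fun i => y (Sum.inl i), fun i => hx _, fun i => hy _, fun f hfS hfL => ?_⟩
  · exact (Finset.coe_subset.2 (h5.trans h1)).trans hTS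
  · exact h3 f ((Finset.coe_subset.1 hfS).trans h5) ((hC f).2 hfL)

theorem EI_of_Sur {ι : Type} [Fintype ι] {w : ι → ℕ} {S : Finset (ℤ × ℤ)}
    (h : Sur w (↑S : Set (ℤ × ℤ))) : EI w S := by
  refine ⟨fun hle => ?_, fun _ => h⟩
  obtain ⟨T, h1, h2, h3⟩ := h
  have h4 : T = S := Finset.eq_of_subset_of_card_le (Finset.coe_subset.1 h1) (by rw [h2]; exact hle)
  rw [← h4]
  exact h3

/-- fewer points -/
theorem M_fewer {s0 s : Multiset ℕ} (h : s0 ≤ s) {S : Finset (ℤ × ℤ)} (hc : cM s ≤ S.card)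
    (hE : EIM s S) : EIM s0 S := by
  obtain ⟨u, rfl⟩ := Multiset.le_iff_exists_add.1 h
  have hs : (univ : Finset (s0.ToType ⊕ u.ToType)).val.map
      (Sum.elim (fun x : s0.ToType => x.1) (fun x : u.ToType => x.1)) = s0 + u := by
    rw [vals_sum, vals_self, vals_self]
  rw [EIM_iff hs] at hE
  exact EI_of_Sur (Sur_fewer (hE.2 (by rw [cond_cM hs]; exact hc)))

theorem M_join {s : Multiset ℕ} {μ : ℕ} {A B S : Finset (ℤ × ℤ)}
    (a b c d u v : ℤ) (hdet : a * d - b * c ≠ 0)
    (h1 : ∀ m ∈ A, ((a * m.1 + b * m.2 + u, c * m.1 + d * m.2 + v) : ℤ × ℤ) ∈ TR μ)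
    (h2 : ∀ m' ∈ TR μ, ∃ m ∈ A, ((a * m.1 + b * m.2 + u, c * m.1 + d * m.2 + v) : ℤ × ℤ) = m')
    (p q : ℤ) (hcut : ∀ m ∈ B, ∀ m' ∈ A, p * m.1 + q * m.2 < p * m'.1 + q * m'.2)
    (hS : ∀ m, m ∈ S ↔ m ∈ B ∨ m ∈ A) (h : EIM s B) : EIM (μ ::ₘ s) S :=
  (EIM_iff (vals_cons _ _)).2 (EI_join a b c d u v hdet h1 h2 p q hcut hS h)

/-- three points -/
theorem three_pts {d x y z : ℕ} (h : x + y + z ≤ d) :
    EIM (x ::ₘ y ::ₘ z ::ₘ 0) (PT d d d) := by
  classical
  obtain ⟨B0, hB0⟩ : ∃ B0 : Finset (ℤ × ℤ), B0 = (PT d d d).filter fun p : ℤ × ℤ =>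
    (x : ℤ) ≤ p.1 + p.2 ∧ p.1 + y ≤ d ∧ p.2 + z ≤ d := ⟨_, rfl⟩
  obtain ⟨B1, hB1⟩ : ∃ B1 : Finset (ℤ × ℤ), B1 = (PT d d d).filter fun p : ℤ × ℤ =>
    (x : ℤ) ≤ p.1 + p.2 ∧ p.1 + y ≤ d := ⟨_, rfl⟩
  obtain ⟨B2, hB2⟩ : ∃ B2 : Finset (ℤ × ℤ), B2 = (PT d d d).filter fun p : ℤ × ℤ =>
    (x : ℤ) ≤ p.1 + p.2 := ⟨_, rfl⟩
  have m0 : ∀ p : ℤ × ℤ, p ∈ B0 ↔ (0 ≤ p.1 ∧ 0 ≤ p.2 ∧ p.1 + p.2 ≤ d) ∧
      (x : ℤ) ≤ p.1 + p.2 ∧ p.1 + y ≤ d ∧ p.2 + z ≤ d := by
    intro p
    rw [hB0, mem_filter, mem_PT]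
    omega
  have m1 : ∀ p : ℤ × ℤ, p ∈ B1 ↔ (0 ≤ p.1 ∧ 0 ≤ p.2 ∧ p.1 + p.2 ≤ d) ∧
      (x : ℤ) ≤ p.1 + p.2 ∧ p.1 + y ≤ d := by
    intro p
    rw [hB1, mem_filter, mem_PT]
    omega
  have m2 : ∀ p : ℤ × ℤ, p ∈ B2 ↔ (0 ≤ p.1 ∧ 0 ≤ p.2 ∧ p.1 + p.2 ≤ d) ∧
      (x : ℤ) ≤ p.1 + p.2 := by
    intro p
    rw [hB2, mem_filter, mem_PT]
    omega
  have k0 : EIM 0 B0 := M_zero B0
  have k1 : EIM (z ::ₘ 0) B1 := by
    refine M_join (A := B1.filter fun p => (d : ℤ) < p.2 + z) 1 0 0 1 0 (-(d - z + 1)) (by norm_num)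
      ?_ ?_ 0 1 ?_ ?_ k0
    · intro m hm
      rw [mem_filter, m1] at hm
      rw [mem_TR]
      simp only
      omega
    · rintro ⟨a, b⟩ hm
      rw [mem_TR] at hm
      simp only at hm
      refine ⟨(a, b + (d - z + 1)), ?_, ?_⟩
      · rw [mem_filter, m1]
        simp only
        omega
      · ext
        · simp only; ring
        · simp only; ring
    · intro m hm m' hm'
      rw [m0] at hm
      rw [mem_filter, m1] at hm'
      omega
    · intro m
      rw [mem_filter, m0, m1]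
      omega
  have k2 : EIM (y ::ₘ z ::ₘ 0) B2 := by
    refine M_join (A := B2.filter fun p => (d : ℤ) < p.1 + y) 1 0 0 1 (-(d - y + 1)) 0 (by norm_num)
      ?_ ?_ 1 0 ?_ ?_ k1
    · intro m hm
      rw [mem_filter, m2] at hm
      rw [mem_TR]
      simp only
      omega
    · rintro ⟨a, b⟩ hm
      rw [mem_TR] at hm
      simp only at hm
      refine ⟨(a + (d - y + 1), b), ?_, ?_⟩
      · rw [mem_filter, m2]
        simp only
        omega
      · ext
        · simp only; ring
        · simp only; ring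
    · intro m hm m' hm'
      rw [m1] at hm
      rw [mem_filter, m2] at hm'
      omega
    · intro m
      rw [mem_filter, m1, m2]
      omega
  refine M_join (A := (PT d d d).filter fun p => p.1 + p.2 < (x : ℤ)) 1 0 0 1 0 0 (by norm_num)
    ?_ ?_ (-1) (-1) ?_ ?_ k2
  · intro m hm
    rw [mem_filter, mem_PT] at hm
    rw [mem_TR]
    simp only
    omega
  · rintro ⟨a, b⟩ hm
    rw [mem_TR] at hm
    simp only at hm
    refine ⟨(a, b), ?_, ?_⟩
    · rw [mem_filter, mem_PT]
      simp only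
      omega
    · ext
      · simp only; ring
      · simp only; ring
  · intro m hm m' hm'
    rw [m2] at hm
    rw [mem_filter, mem_PT] at hm'
    omega
  · intro m
    rw [mem_filter, m2, mem_PT]
    omega

/-- at most three points -/
theorem few_pts {d : ℕ} {s : Multiset ℕ} (hc : s.card ≤ 3) (h : LE 3 d s) :
    EIM s (PT d d d) := by
  have h1 : (Multiset.replicate (3 - s.card) 0 + s).card = 3 := by
    rw [Multiset.card_add, Multiset.card_replicate]
    omega
  obtain ⟨x, y, z, h2⟩ := Multiset.card_eq_three.1 h1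
  rw [← M_add_zeros (3 - s.card), h2]
  refine three_pts ?_
  have h3 : (Multiset.replicate (3 - s.card) 0 + s).sum = s.sum := by
    rw [Multiset.sum_add, Multiset.sum_replicate]
    simp
  rw [h2] at h3
  have h4 := h s le_rfl hc
  rw [← h3] at h4
  have e : ({x, y, z} : Multiset ℕ).sum = x + y + z := by
    show (x ::ₘ y ::ₘ z ::ₘ 0 : Multiset ℕ).sum = _
    simp only [Multiset.sum_cons, Multiset.sum_zero]
    ring
  rw [e] at h4
  exact h4

theorem cM_rep (H : Multiset ℕ) (k m : ℕ) :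
    cM (H + Multiset.replicate k m) = cM H + k * (m + 1).choose 2 := by
  rw [cM_add]
  congr 1
  unfold cM
  rw [Multiset.map_replicate, Multiset.sum_replicate, smul_eq_mul]

/-- the numbers of conditions and of exponents differ by less than the conditions of one point -/
def Near (m : ℕ) (s : Multiset ℕ) (d : ℕ) : Prop :=
  (d + 2).choose 2 < cM s + (m + 1).choose 2 ∧ cM s < (d + 2).choose 2 + (m + 1).choose 2

/-- only the numbers of points close to the critical one matter -/
theorem window {m d : ℕ} (hm : 1 ≤ m) {H : Multiset ℕ} (hH : cM H ≤ (d + 2).choose 2)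
    (base : ∀ k, Near m (H + Multiset.replicate k m) d →
      EIM (H + Multiset.replicate k m) (PT d d d)) (k : ℕ) :
    EIM (H + Multiset.replicate k m) (PT d d d) := by
  obtain ⟨c, hc⟩ : ∃ c, c = (m + 1).choose 2 := ⟨_, rfl⟩
  obtain ⟨D, hD⟩ : ∃ D, D = (d + 2).choose 2 := ⟨_, rfl⟩
  have hcpos : 0 < c := by
    rw [hc]
    exact Nat.choose_pos (by omega)
  have hdm := Nat.div_add_mod (D - cM H) c
  have hlt := Nat.mod_lt (D - cM H) hcpos
  obtain ⟨k0, hk0⟩ : ∃ k0, k0 = (D - cM H) / c := ⟨_, rfl⟩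
  rw [← hk0, Nat.mul_comm] at hdm
  rw [← hD] at hH
  have hcard : (PT d d d).card = D := by rw [card_PT, hD]
  have e : ∀ j, cM (H + Multiset.replicate j m) = cM H + j * c := fun j => by rw [cM_rep, hc]
  have hle : ∀ i j, i ≤ j → H + Multiset.replicate i m ≤ H + Multiset.replicate j m :=
    fun i j hij => add_le_add_right (Multiset.replicate_mono m hij) H
  have b0 : EIM (H + Multiset.replicate k0 m) (PT d d d) :=
    base k0 ⟨by rw [← hD, ← hc, e]; omega, by rw [← hD, ← hc, e]; omega⟩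
  rcases Nat.lt_or_ge k0 k with hk | hk
  · rcases Nat.eq_or_lt_of_le (show cM H + k0 * c ≤ D by omega) with h0 | h0
    · refine M_mono (hle k0 k hk.le) ?_ b0
      rw [hcard, e]
      omega
    · have e1 : (k0 + 1) * c = k0 * c + c := by ring
      have b1 : EIM (H + Multiset.replicate (k0 + 1) m) (PT d d d) :=
        base (k0 + 1) ⟨by rw [← hD, ← hc, e]; omega, by rw [← hD, ← hc, e]; omega⟩
      refine M_mono (hle (k0 + 1) k hk) ?_ b1
      rw [hcard, e]
      omega
  · refine M_fewer (hle k k0 hk) ?_ b0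
    rw [hcard, e]
    omega

theorem vals_fcons {n : ℕ} (x : ℕ) (f : Fin n → ℕ) :
    (univ : Finset (Fin (n + 1))).val.map (Fin.cons x f : Fin (n + 1) → ℕ) =
      x ::ₘ (univ : Finset (Fin n)).val.map f := by
  rw [Fin.univ_val_map, Fin.univ_val_map, List.ofFn_succ, Multiset.cons_coe]
  simp

theorem vals_const (n m : ℕ) :
    (univ : Finset (Fin n)).val.map (fun _ => m) = Multiset.replicate n m := by
  rw [Multiset.map_const', Finset.card_val, Finset.card_univ, Fintype.card_fin]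

/-- one point of multiplicity `d - 2 m`, the others of multiplicity `m` -/
theorem M_wp {r m d : ℕ} (hd : 3 * m ≤ d) :
    EIM ((d - 2 * m) ::ₘ Multiset.replicate r m) (PT d d d) := by
  have hv : ∀ r, (univ : Finset (Fin (r + 1))).val.map (wp r m d) =
      (d - 2 * m) ::ₘ Multiset.replicate r m := fun r => by
    unfold wp
    rw [vals_fcons, vals_const]
  obtain ⟨e, rfl⟩ : ∃ e, d = e + 2 * m := ⟨d - 2 * m, by omega⟩
  have t1 := two_chN m
  have t2 := two_chN e
  have t3 := two_chN (e + 2 * m + 1)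
  have key : ∀ r, 8 ≤ r → EIM ((e + 2 * m - 2 * m) ::ₘ Multiset.replicate r m)
      (PT (e + 2 * m) (e + 2 * m) (e + 2 * m)) := by
    intro r hr
    rw [EIM_iff (hv r)]
    have hc : cond (wp r m (e + 2 * m)) = (e + 1).choose 2 + cond (fun _ : Fin r => m) := by
      rw [cond_wp, Nat.add_sub_cancel]
    have hcard := card_PT (e + 2 * m)
    refine ⟨fun hle => ?_, fun hle => ?_⟩
    · rw [coe_PT]
      refine Emp_wp hr (by omega) ?_
      rw [hcard, hc] at hle
      zify at hle t2 t3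
      push_cast at hle t2 t3 ⊢
      nlinarith
    · rw [coe_PT]
      refine Sur_wp hr (by omega) ?_
      rw [hcard, hc] at hle
      zify at hle t2 t3
      push_cast at hle t2 t3 ⊢
      nlinarith
  rcases Nat.lt_or_ge r 8 with h | h
  · refine M_fewer (Multiset.cons_le_cons _ (Multiset.replicate_mono m h.le)) ?_ (key 8 le_rfl)
    rw [cM_cons, ← zero_add (Multiset.replicate 8 m), cM_rep, cM_zero, zero_add, card_PT,
      Nat.add_sub_cancel]
    nlinarith
  · exact key r h

/-- at most nine points -/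
theorem M_nine {k m d : ℕ} (hk : k ≤ 9) (hd : 3 * m ≤ d) :
    EIM (Multiset.replicate k m) (PT d d d) := by
  have h1 : EIM (Multiset.replicate 9 m) (PT (3 * m) (3 * m) (3 * m)) := by
    have := M_wp (r := 8) (m := m) (d := 3 * m) le_rfl
    rw [show 3 * m - 2 * m = m by omega, ← Multiset.replicate_succ] at this
    exact this
  have t1 := two_chN m
  have hc : cM (Multiset.replicate 9 m) = 9 * (m + 1).choose 2 := by
    rw [← zero_add (Multiset.replicate 9 m), cM_rep, cM_zero, zero_add]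
  have hv := cond_cM (vals_self (Multiset.replicate 9 m))
  have h2 : Sur (fun x : (Multiset.replicate 9 m).ToType => x.1)
      (↑(PT (3 * m) (3 * m) (3 * m)) : Set (ℤ × ℤ)) := by
    refine h1.2 ?_
    rw [hv, hc, card_PT]
    have t3 := two_chN (3 * m + 1)
    nlinarith
  have h3 : EIM (Multiset.replicate 9 m) (PT d d d) := by
    refine EI_of_Sur (h2.mono ?_)
    intro p hp
    rw [mem_coe, mem_PT] at hp ⊢
    omega
  refine M_fewer (Multiset.replicate_mono m hk) ?_ h3
  rw [hc, card_PT]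
  have t3 := two_chN (d + 1)
  have t4 : (3 * m + 1) * (3 * m + 2) ≤ (d + 1) * (d + 1 + 1) :=
    Nat.mul_le_mul (by omega) (by omega)
  nlinarith

/-- **equal multiplicities** -/
theorem uni {m : ℕ} (hm : 1 ≤ m)
    (h1 : ∀ k d, 10 ≤ k → 3 * m < d → 4 * d < 21 * m + 8 → Near m (Multiset.replicate k m) d →
      EIM (Multiset.replicate k m) (PT d d d))
    (h2 : ∀ k d b, 3 * m ≤ d → 4 * d < 21 * m + 8 → 2 * m < b → 4 * b ≤ 9 * m + 4 → b ≤ d →
      Near m ((d - b) ::ₘ Multiset.replicate k m) d →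
      EIM ((d - b) ::ₘ Multiset.replicate k m) (PT d d d))
    (h3 : ∀ k a b, 2 * m < a → 4 * a ≤ 9 * m + 4 → 2 * m < b → 4 * b ≤ 9 * m + 4 →
      Near m ((a - m) ::ₘ (b - m) ::ₘ Multiset.replicate k m) (a + b - m) →
      EIM ((a - m) ::ₘ (b - m) ::ₘ Multiset.replicate k m) (PT (a + b - m) (a + b - m) (a + b - m)))
    (k d : ℕ) (hd : 3 * m ≤ d) : EIM (Multiset.replicate k m) (PT d d d) := by
  have hrep : ∀ {s : Multiset ℕ}, (∀ x ∈ s, m ≤ x ∧ x ≤ m) → s = Multiset.replicate s.card m :=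
    fun {s} h => Multiset.eq_replicate_card.2 fun x hx => le_antisymm (h x hx).2 (h x hx).1
  have hsmall : ∀ {s : Multiset ℕ} {d : ℕ}, s = Multiset.replicate s.card m → LE 3 d s →
      d < 3 * m → s.card ≤ 2 := by
    intro s d hs hL hlt
    by_contra hcon
    have h4 := hL (Multiset.replicate 3 m) (by
      rw [hs]
      exact Multiset.replicate_mono m (by omega)) (by rw [Multiset.card_replicate])
    rw [Multiset.sum_replicate, smul_eq_mul] at h4
    omega
  refine all' hm le_rfl ?_ d _ (QR.zero d _ fun x hx => ?_) ?_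
  · intro d hd s hs hL
    rcases hs with ⟨d, s, h⟩ | ⟨d, b, s, h, hb, hb1, hb2⟩ | ⟨a, b, t, s, h, ht, ha1, ha2, hb1, hb2⟩
    · rcases Nat.lt_or_ge d (3 * m) with h0 | h0
      · exact few_pts ((hsmall (hrep h) hL h0).trans (by norm_num)) hL
      · rw [hrep h, ← zero_add (Multiset.replicate s.card m)]
        refine window hm (by rw [cM_zero]; exact Nat.zero_le _) (fun k hk => ?_) _
        rw [zero_add] at hk ⊢
        rcases Nat.lt_or_ge k 10 with hk9 | hk9
        · exact M_nine (by omega) h0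
        · rcases Nat.eq_or_lt_of_le h0 with h5 | h5
          · subst h5
            have h6 := M_wp (r := k - 1) (m := m) (d := 3 * m) le_rfl
            rw [show 3 * m - 2 * m = m by omega, ← Multiset.replicate_succ,
              show k - 1 + 1 = k by omega] at h6
            exact h6
          · exact h1 k d hk9 h5 hd hk
    · rcases Nat.lt_or_ge d (3 * m) with h0 | h0
      · refine few_pts ?_ hL
        rw [Multiset.card_cons]
        have := hsmall (hrep h) (hL.mono (Multiset.le_cons_self _ _)) h0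
        omega
      · rcases Nat.eq_or_lt_of_le hb1 with h5 | h5
        · rw [hrep h, ← h5]
          exact M_wp h0
        rw [hrep h, ← Multiset.singleton_add]
        refine window hm ?_ (fun k hk => ?_) _
        · have e : cM {d - b} = (d - b + 1).choose 2 := by
            show cM ((d - b) ::ₘ 0) = _
            rw [cM_cons, cM_zero, add_zero]
          rw [e]
          exact Nat.choose_le_choose 2 (by omega)
        · rw [Multiset.singleton_add] at hk ⊢
          exact h2 k d b h0 hd h5 hb2 hb hk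
    · obtain rfl : t = m := le_antisymm ht.2 ht.1
      rw [hrep h]
      rcases Nat.eq_or_lt_of_le ha1 with h5 | h5
      · have h6 := M_wp (r := s.card + 1) (m := t) (d := b + t) (by omega)
        rw [Multiset.replicate_succ, show b + t - 2 * t = b - t by omega,
          Multiset.cons_swap] at h6
        rw [← h5, show 2 * t - t = t by omega, show 2 * t + b - t = b + t by omega]
        exact h6
      rcases Nat.eq_or_lt_of_le hb1 with h5' | h5'
      · have h6 := M_wp (r := s.card + 1) (m := t) (d := a + t) (by omega)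
        rw [Multiset.replicate_succ, show a + t - 2 * t = a - t by omega] at h6
        rw [← h5', show 2 * t - t = t by omega, show a + 2 * t - t = a + t by omega]
        exact h6
      have e : (a - t) ::ₘ (b - t) ::ₘ Multiset.replicate s.card t =
          ((a - t) ::ₘ (b - t) ::ₘ 0) + Multiset.replicate s.card t := by
        rw [Multiset.cons_add, Multiset.cons_add, zero_add]
      rw [e]
      refine window hm ?_ (fun k hk => ?_) _
      · rw [cM_cons, cM_cons, cM_zero]
        have e1 := two_chN (a - t)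
        have e2 := two_chN (b - t)
        have e3 := two_chN (a + b - t + 1)
        obtain ⟨a', rfl⟩ : ∃ a', a = a' + t := ⟨a - t, by omega⟩
        obtain ⟨b', rfl⟩ : ∃ b', b = b' + t := ⟨b - t, by omega⟩
        rw [Nat.add_sub_cancel] at e1 e2 ⊢
        rw [Nat.add_sub_cancel]
        rw [show a' + t + (b' + t) - t = a' + b' + t by omega] at e3 ⊢
        nlinarith
      · have e' : ((a - t) ::ₘ (b - t) ::ₘ 0) + Multiset.replicate k t =
            (a - t) ::ₘ (b - t) ::ₘ Multiset.replicate k t := by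
          rw [Multiset.cons_add, Multiset.cons_add, zero_add]
        rw [e'] at hk ⊢
        exact h3 k a b h5 ha2 h5' hb2 hk
  · have := Multiset.eq_of_mem_replicate hx
    omega
  · intro t ht hc
    have : ∀ x ∈ t, x ≤ m := fun x hx =>
      (Multiset.eq_of_mem_replicate (Multiset.mem_of_le ht hx)).le
    have h8 := Multiset.sum_le_card_nsmul t m this
    rw [smul_eq_mul] at h8
    have h9 : t.card * m ≤ 3 * m := Nat.mul_le_mul_right _ hc
    omega

/-- **equal multiplicities, all degrees at once** -/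
theorem uni_open {m n : ℕ} (hm : 1 ≤ m) (hn : 10 ≤ n)
    (h : ∀ d, 3 * m ≤ d → EIM (Multiset.replicate n m) (PT d d d)) :
    ∃ F : MvPolynomial (Fin n × Fin 2) ℂ, F ≠ 0 ∧ ∀ P : Fin n → Fin 2 → ℂ,
      MvPolynomial.eval (fun q : Fin n × Fin 2 => P q.1 q.2) F ≠ 0 →
      ∀ d, ExpDim ℂ (fun _ => m) P d := by
  have hv := vals_const n m
  have hc : cond (fun _ : Fin n => m) = n * (m + 1).choose 2 := by
    rw [cond_cM hv, ← zero_add (Multiset.replicate n m), cM_rep, cM_zero, zero_add]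
  have hEI : ∀ d, 3 * m ≤ d → EI (fun _ : Fin n => m) (PT d d d) := fun d hd =>
    (EIM_iff hv).1 (h d hd)
  have t1 := two_chN m
  have hbig : ∀ d, d ≤ 3 * m → (d + 2).choose 2 ≤ n * (m + 1).choose 2 := by
    intro d hd
    have t2 := two_chN (d + 1)
    have t3 : (d + 1) * (d + 1 + 1) ≤ (3 * m + 1) * (3 * m + 2) :=
      Nat.mul_le_mul (by omega) (by omega)
    have t4 : 10 * (m + 1).choose 2 ≤ n * (m + 1).choose 2 := Nat.mul_le_mul_right _ hn
    nlinarith
  have hE : ∀ d, (d + 2).choose 2 ≤ cond (fun _ : Fin n => m) →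
      Emp (fun _ : Fin n => m) (TZ d) := by
    intro d hd
    rcases Nat.lt_or_ge d (3 * m) with h0 | h0
    · have h1 := (hEI (3 * m) le_rfl).1 (by rw [card_PT, hc]; exact hbig _ le_rfl)
      rw [coe_PT] at h1
      refine h1.mono ?_
      rintro p ⟨a1, a2, a3⟩
      exact ⟨a1, a2, a3.trans (by exact_mod_cast h0.le)⟩
    · have h1 := (hEI d h0).1 (by rw [card_PT]; exact hd)
      rw [coe_PT] at h1
      exact h1
  have hS : ∀ d, cond (fun _ : Fin n => m) ≤ (d + 2).choose 2 →
      Sur (fun _ : Fin n => m) (TZ d) := by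
    intro d hd
    rcases Nat.lt_or_ge d (3 * m) with h0 | h0
    · have h1 := hbig d h0.le
      rw [← hc] at h1
      have h2 := hE d h1
      rw [← coe_PT] at h2 ⊢
      exact ⟨PT d d d, subset_rfl, by rw [card_PT]; exact le_antisymm h1 hd, h2⟩
    · have h1 := (hEI d h0).2 (by rw [card_PT]; exact hd)
      rw [coe_PT] at h1
      exact h1
  obtain ⟨F, hF, hF'⟩ := expDim_of_sign hE hS
  refine ⟨F.map (algebraMap ℚ ℂ), fun h0 => hF ?_, fun P hP => hF' P ?_⟩
  · exact MvPolynomial.map_injective _ (algebraMap ℚ ℂ).injective (by rw [h0, map_zero])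
  · rw [MvPolynomial.eval_map] at hP
    exact hP

/-- all but at most two members are between `μ` and `M` -/
def AB (μ M : ℕ) (s : Multiset ℕ) : Prop := s.countP (fun x => ¬ (μ ≤ x ∧ x ≤ M)) ≤ 2

theorem AB.mono {μ M : ℕ} {s s0 : Multiset ℕ} (h : AB μ M s) (hs : s0 ≤ s) : AB μ M s0 :=
  (Multiset.countP_le_of_le _ hs).trans h

theorem QR.ab {μ M d : ℕ} {s : Multiset ℕ} (h : QR μ M d s) : AB μ M s := by
  have key : ∀ {s : Multiset ℕ}, (∀ x ∈ s, μ ≤ x ∧ x ≤ M) →
      s.countP (fun x => ¬ (μ ≤ x ∧ x ≤ M)) = 0 := fun {s} h =>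
    Multiset.countP_eq_zero.2 fun x hx h' => h' (h x hx)
  unfold AB
  rcases h with ⟨d, s, h⟩ | ⟨d, b, s, h, hb, hb1, hb2⟩ | ⟨a, b, t, s, h, ht, ha1, ha2, hb1, hb2⟩
  · rw [key h]
    norm_num
  · rw [Multiset.countP_cons, key h]
    split_ifs <;> norm_num
  · rw [Multiset.countP_cons, Multiset.countP_cons, key h]
    split_ifs <;> norm_num

theorem small2 {μ M N : ℕ} (hN : ∀ d, 4 * d < 21 * M + 8 → (d + 1) * (d + 2) ≤ N * (μ * (μ + 1)))
    (base : ∀ d, 4 * d < 21 * M + 8 → ∀ s : Multiset ℕ, s.card ≤ N → LE 3 d s → AB μ M s →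
      EIM s (PT d d d)) {d : ℕ} (hd : 4 * d < 21 * M + 8) {s : Multiset ℕ} (hs : QR μ M d s)
    (h3 : LE 3 d s) : EIM s (PT d d d) := by
  rcases Nat.lt_or_ge N s.card with hc | hc
  swap
  · exact base d hd s hc h3 hs.ab
  have hab := hs.ab
  obtain ⟨s1, h1, h2, h4⟩ : ∃ s1 ≤ s, N ≤ s1.card ∧ ∀ x ∈ s1, μ ≤ x := by
    rcases hs with ⟨d, s, h⟩ | ⟨d, b, s, h, hb, hb1, hb2⟩ | ⟨a, b, t, s, h, ht, ha1, ha2, hb1, hb2⟩
    · exact ⟨s, le_rfl, hc.le, fun x hx => (h x hx).1⟩
    · refine ⟨s, Multiset.le_cons_self _ _, ?_, fun x hx => (h x hx).1⟩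
      rw [Multiset.card_cons] at hc
      omega
    · refine ⟨_, le_rfl, hc.le, fun x hx => ?_⟩
      rw [Multiset.mem_cons, Multiset.mem_cons] at hx
      rcases hx with rfl | rfl | hx
      · omega
      · omega
      · exact (h x hx).1
  obtain ⟨s0, h5, h6⟩ := exists_sub h2
  have h7 := cM_ge s0 fun x hx => h4 x (Multiset.mem_of_le h5 hx)
  have h8 := hN d hd
  rw [h6] at h7
  have h9 : (PT d d d).card ≤ cM s0 := by
    rw [card_PT]
    have h10 : 2 * (d + 2).choose 2 = (d + 1) * (d + 2) := two_chN (d + 1)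
    omega
  exact M_mono (h5.trans h1) h9
    (base d hd s0 h6.le (h3.mono (h5.trans h1)) (hab.mono (h5.trans h1)))

/-- **a bounded number of points suffices** -/
theorem few2 {μ M N : ℕ} (hμ : 1 ≤ μ) (hM : μ ≤ M)
    (hN : ∀ d, 4 * d < 21 * M + 8 → (d + 1) * (d + 2) ≤ N * (μ * (μ + 1)))
    (base : ∀ n ≤ N, ∀ (w : Fin n → ℕ) (d : ℕ), 4 * d < 21 * M + 8 → Stw w d →
      (univ.filter fun i => ¬ (μ ≤ w i ∧ w i ≤ M)).card ≤ 2 → NSw w d)
    {n : ℕ} (w : Fin n → ℕ) (hw : ∀ i, μ ≤ w i ∧ w i ≤ M) {d : ℕ} (h3 : Stw w d) : NSw w d := by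
  have h1 := all' hμ hM (fun d hd s hs h3 => small2 hN (fun d hd s hs h3 hab => by
    obtain ⟨l, rfl⟩ : ∃ l : List ℕ, (l : Multiset ℕ) = s := Quot.exists_rep s
    have hv : (univ : Finset (Fin l.length)).val.map l.get = (l : Multiset ℕ) := by
      rw [Fin.univ_val_map, List.ofFn_get]
    rw [EIM_iff hv]
    have hlen : l.length ≤ N := hs
    refine gen_iff.1 (base l.length hlen l.get d hd (fin_of_LE ?_) ?_)
    · rw [hv]
      exact h3
    · unfold AB at hab
      rw [← hv, Multiset.countP_map] at hab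
      exact hab) hd hs h3) d (univ.val.map w) (QR.zero d _ fun x hx => by
      obtain ⟨i, _, rfl⟩ := Multiset.mem_map.1 hx
      exact hw i) (LE_of_fin h3)
  exact gen_iff.2 ((EIM_iff rfl).1 h1)

end Pool.Agent.H902.CB
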