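import Pool.Agent.H902.CB.PenB
import Pool.Agent.H902.CB.Uni

set_option autoImplicit false

/-!
# Six, seven and nine points of multiplicity `m` in fibre degree `2 m`; simple points
-/

namespace Pool.Agent.H902.CB

open Finset Pool.Agent.TH176.Nag Pool.Agent.TH603.Sur Pool.Agent.TH641.UM Pool.Agent.H932R3

/-- a simple point -/
theorem EI_one {ι : Type} [Fintype ι] {w : ι → ℕ} {S : Finset (ℤ × ℤ)} (h : EI w S) :
    EI (Sum.elim w (fun _ : Fin 1 => 1)) S := by
  have hcond : cond (Sum.elim w (fun _ : Fin 1 => 1)) = cond w + 1 := by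
    rw [cond_sum, cond_one]
    rfl
  refine ⟨fun hle => ?_, fun hle => ?_⟩
  · rw [hcond] at hle
    rcases Nat.lt_or_ge (cond w) S.card with h1 | h1
    · exact Emp_ones_of_Sur (h.2 h1.le) (by omega)
    · exact Emp_emb Sum.inl Sum.inl_injective (fun i => by simp) (h.1 h1)
  · rw [hcond] at hle
    obtain ⟨k, hk⟩ : ∃ k, S.card = cond w + 1 + k := ⟨S.card - (cond w + 1), by omega⟩
    have h2 : Emp (Sum.elim w (fun _ : Fin (1 + k) => 1)) (↑S : Set (ℤ × ℤ)) :=
      Emp_ones_of_Sur (h.2 (by omega)) (by omega)
    have h3 : Emp (Sum.elim (Sum.elim w (fun _ : Fin 1 => 1)) (fun _ : Fin k => 1))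
        (↑S : Set (ℤ × ℤ)) := by
      refine Emp_emb (fun x => match x with
          | Sum.inl i => Sum.inl (Sum.inl i)
          | Sum.inr j => (finSumFinEquiv.symm j).elim (fun a => Sum.inl (Sum.inr a)) Sum.inr)
        ?_ ?_ h2
      · rintro (i | j) (i' | j') h4
        · simpa using h4
        · exfalso
          simp only at h4
          rcases hj : finSumFinEquiv.symm j' with a | a <;> rw [hj] at h4 <;> simp at h4
        · exfalso
          simp only at h4
          rcases hj : finSumFinEquiv.symm j with a | a <;> rw [hj] at h4 <;> simp at h4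
        · simp only at h4
          have h5 : finSumFinEquiv.symm j = finSumFinEquiv.symm j' := by
            rcases hj : finSumFinEquiv.symm j with a | a <;>
              rcases hj' : finSumFinEquiv.symm j' with a' | a' <;> rw [hj, hj'] at h4 <;>
              simp at h4 <;> simp [h4]
          exact congrArg _ (finSumFinEquiv.symm.injective h5)
      · rintro (i | j)
        · simp
        · simp only
          rcases hj : finSumFinEquiv.symm j with a | a <;> simp
    exact Sur_of_Emp _ (by rw [hcond]; omega) h3

theorem BR_one {b : ℕ} {s : Multiset ℕ} (h : BR b s) : BR b (1 ::ₘ s) := fun a =>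
  (EIM_iff (vals_cons _ _)).2 (EI_one (h a))

theorem BR_none {b : ℕ} {s : Multiset ℕ} (h : BR b s) : BR b (0 ::ₘ s) := fun a =>
  M_cons_zero.2 (h a)

theorem BR_four (m : ℕ) : BR (2 * m) (Multiset.replicate 4 m) := BR_of_Bal (Bal_rect4 m)

theorem BR_six (m : ℕ) : BR (2 * m) (Multiset.replicate 6 m) := BR_of_Bal (Bal_rect6 m)

theorem BR_seven (m : ℕ) : BR (2 * m) (Multiset.replicate 7 m) := BR_of_Bal (Bal_rect7 m)

theorem BR_nine (m : ℕ) : BR (2 * m) (Multiset.replicate 9 m) := by
  intro a
  have t1 := two_chN m
  rcases Nat.lt_or_ge a m with h | h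
  · refine M_mono (Multiset.replicate_mono m (by norm_num : 4 ≤ 9)) ?_ (BR_four m a)
    rw [card_rect, ← zero_add (Multiset.replicate 4 m), cM_rep, cM_zero, zero_add]
    nlinarith
  · obtain ⟨e, rfl⟩ : ∃ e, a = e + m := ⟨a - m, by omega⟩
    have h0 : EIM (e ::ₘ Multiset.replicate 9 m)
        (PT (e + 2 * m) (e + 2 * m) (e + 2 * m)) := by
      have hv : (univ : Finset (Fin (9 + 1))).val.map (wp 9 m (e + 2 * m)) =
          e ::ₘ Multiset.replicate 9 m := by
        unfold wp
        rw [vals_fcons, vals_const, Nat.add_sub_cancel]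
      have t2 := two_chN e
      have t3 := two_chN (e + 2 * m + 1)
      rw [EIM_iff hv]
      have hc : cond (wp 9 m (e + 2 * m)) = (e + 1).choose 2 + cond (fun _ : Fin 9 => m) := by
        rw [cond_wp, Nat.add_sub_cancel]
      have hcard := card_PT (e + 2 * m)
      refine ⟨fun hle => ?_, fun hle => ?_⟩
      · rw [coe_PT]
        refine Emp_wp (by norm_num) (by omega) ?_
        rw [hcard, hc] at hle
        zify at hle t2 t3
        push_cast at hle t2 t3 ⊢
        nlinarith
      · rw [coe_PT]
        refine Sur_wp (by norm_num) (by omega) ?_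
        rw [hcard, hc] at hle
        zify at hle t2 t3
        push_cast at hle t2 t3 ⊢
        nlinarith
    have h1 : EIM (m ::ₘ Multiset.replicate 8 m) (PT (e + m) (2 * m) (e + m + 2 * m)) := by
      refine M_rect (t := m) (by omega) (by omega) ?_
      rw [show e + m - m = e by omega, show 2 * m - m = m by omega,
        show e + m + 2 * m - m = e + 2 * m by omega]
      exact h0
    exact h1

end Pool.Agent.H902.CB
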