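import Pool.Agent.H902.CB.Ind

set_option autoImplicit false

/-!
# Polynomials of bidegree at most `(a, b)` with assigned multiplicities
-/

namespace Pool.Agent.H902.CB

open Polynomial Finset Pool.Agent.H932R2 Pool.Agent.H932R3 Pool.Agent.TH603.Sur
  Pool.Agent.TH545.SD Pool.Agent.TH641.UM
open Pool.Agent.TH176.Nag (Emp LM)

/-- the polynomials of bidegree at most `(a, b)` -/
noncomputable def bi (K : Type) [Field K] (a b : ℕ) : Submodule K K[X][X] :=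
  Submodule.span K {f | ∃ i j : ℕ, i ≤ a ∧ j ≤ b ∧ f = C (X ^ i) * X ^ j}

/-- the ideal of a point -/
noncomputable def idl {K : Type} [Field K] (p : Fin 2 → K) : Ideal K[X][X] :=
  Ideal.span {X - C (C (p 1)), C (X - C (p 0))}

/-- bidegree at most `(a, b)` and multiplicity at least `w i` at `P i` -/
noncomputable def sysB {K : Type} [Field K] {n : ℕ} (P : Fin n → Fin 2 → K) (a b : ℕ)
    (w : Fin n → ℕ) : Submodule K K[X][X] :=
  bi K a b ⊓ Submodule.restrictScalars K (⨅ i, idl (P i) ^ (w i))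

/-- the expected dimension at general points -/
def Reg (a b : ℕ) {n : ℕ} (w : Fin n → ℕ) : Prop :=
  ∃ F : MvPolynomial (Fin n × Fin 2) ℚ, F ≠ 0 ∧ ∀ (K : Type) [Field K] [CharZero K]
    (P : Fin n → Fin 2 → K),
    MvPolynomial.aeval (fun q : Fin n × Fin 2 => P q.1 q.2) F ≠ 0 →
      Module.finrank K (sysB P a b w) = (a + 1) * (b + 1) - ∑ i, (w i + 1).choose 2

/-- the exponents -/
def MR (a b : ℕ) : Finset (ℕ × ℕ) := Finset.range (a + 1) ×ˢ Finset.range (b + 1)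

theorem card_MR (a b : ℕ) : (MR a b).card = (a + 1) * (b + 1) := by
  unfold MR
  rw [card_product, Finset.card_range, Finset.card_range]

theorem mem_MR {a b : ℕ} {p : ℕ × ℕ} : p ∈ MR a b ↔ p.1 ≤ a ∧ p.2 ≤ b := by
  unfold MR
  rw [mem_product, Finset.mem_range, Finset.mem_range]
  omega

theorem bi_eq (K : Type) [Field K] (a b : ℕ) : bi K a b = mspan K (↑(MR a b) : Set (ℕ × ℕ)) := by
  unfold bi mspan
  congr 1
  ext f
  constructor
  · rintro ⟨i, j, hi, hj, rfl⟩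
    exact ⟨(i, j), mem_coe.2 (mem_MR.2 ⟨hi, hj⟩), rfl⟩
  · rintro ⟨⟨i, j⟩, hp, rfl⟩
    have := mem_MR.1 (mem_coe.1 hp)
    exact ⟨i, j, this.1, this.2, rfl⟩

theorem idl_eq {K : Type} [Field K] (p : Fin 2 → K) (w : ℕ) :
    idl p ^ w = cIdeal (fun _ : Fin 1 => p 0) (C (p 1)) w := by
  unfold idl cIdeal
  rw [rootPoly_const, pow_one]

theorem sysB_eq {K : Type} [Field K] {n : ℕ} (P : Fin n → Fin 2 → K) (a b : ℕ) (w : Fin n → ℕ) :
    sysB P a b w = mspan K (↑(MR a b) : Set (ℕ × ℕ)) ⊓ Submodule.restrictScalars K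
      (vIdeal 1 w (fun i => P i 0) (fun i => C (P i 1))) := by
  unfold sysB vIdeal
  rw [bi_eq]
  congr 2
  exact iInf_congr fun i => idl_eq (P i) (w i)

theorem sum_EE {n : ℕ} (w : Fin n → ℕ) : ∑ a, (EE 1 (w a)).card = ∑ i, (w i + 1).choose 2 :=
  Finset.sum_congr rfl fun i _ => card_EE_eq (w i)

theorem mem_D0 {a b : ℕ} {x y : ℤ} : ((x, y) : ℤ × ℤ) ∈ D φ0 (b + 1) ((a : ℤ) + 1) ↔
    0 ≤ x ∧ x ≤ a ∧ 0 ≤ y ∧ y ≤ b := by
  show (0 ≤ x ∧ x + 0 < (a : ℤ) + 1 ∧ 0 ≤ y ∧ y < ((b + 1 : ℕ) : ℤ)) ↔ _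
  push_cast
  omega

theorem castS_MR (a b : ℕ) : castS (MR a b) = D φ0 (b + 1) ((a : ℤ) + 1) := by
  ext ⟨x, y⟩
  rw [mem_D0]
  simp only [castS, Set.mem_ofPred_eq, Prod.mk.injEq]
  constructor
  · rintro ⟨p, hp, rfl, rfl⟩
    rw [mem_MR] at hp
    omega
  · rintro ⟨h1, h2, h3, h4⟩
    refine ⟨(x.toNat, y.toNat), mem_MR.2 ?_, ?_, ?_⟩
    · simp only
      omega
    · simp only; omega
    · simp only; omega

/-- from emptiness -/
theorem Reg_of_Emp {n a b : ℕ} {w : Fin n → ℕ} (h : Emp w (D φ0 (b + 1) ((a : ℤ) + 1))) :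
    Reg a b w := by
  obtain ⟨F, hF, hF'⟩ := Emp_open (D_fin _ _ _) (fun p hp => ⟨hp.1, hp.2.2.1⟩) h
  refine ⟨F, hF, fun K _ _ P hP => ?_⟩
  obtain ⟨h1, h2⟩ := hF' _ hP
  have h3 : RkI (vIdeal 1 w (fun i => P i 0) (fun i => C (P i 1))) (↑(MR a b) : Set (ℕ × ℕ))
      (MR a b).card :=
    RkI_of_LM (fun i => h1 (i, 0)) (fun i => h1 (i, 1)) subset_rfl fun f hf hL =>
      h2 f (by rw [castS_MR] at hf; exact hf) hL
  rw [sysB_eq, finrank_infV h3 (Or.inl rfl), card_MR, sum_EE]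

/-- from independence -/
theorem Reg_of_Sur {n a b : ℕ} {w : Fin n → ℕ} (h : Sur w (D φ0 (b + 1) ((a : ℤ) + 1))) :
    Reg a b w := by
  obtain ⟨T, hT, hcard, hE⟩ := h
  have hTZ : (↑T : Set (ℤ × ℤ)) ⊆ TZ (a + b) := by
    rintro ⟨x, y⟩ hp
    obtain ⟨h1, h2, h3, h4⟩ := mem_D0.1 (hT hp)
    refine ⟨h1, h3, ?_⟩
    simp only
    push_cast
    omega
  obtain ⟨T', hT1, hT2, hT3⟩ := exists_nat hTZ
  obtain ⟨F, hF, hF'⟩ := Emp_open T.finite_toSet (fun m hm => ⟨(hTZ hm).1, (hTZ hm).2.1⟩) hE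
  refine ⟨F, hF, fun K _ _ P hP => ?_⟩
  obtain ⟨h1, h2⟩ := hF' _ hP
  have hT4 : (↑T' : Set (ℕ × ℕ)) ⊆ (↑(MR a b) : Set (ℕ × ℕ)) := by
    rintro ⟨x, y⟩ hp
    have h5 : (((x : ℤ), (y : ℤ)) : ℤ × ℤ) ∈ castS T' := ⟨(x, y), mem_coe.1 hp, rfl⟩
    rw [hT1] at h5
    obtain ⟨k1, k2, k3, k4⟩ := mem_D0.1 (hT h5)
    rw [mem_coe, mem_MR]
    simp only
    omega
  have h3 : RkI (vIdeal 1 w (fun i => P i 0) (fun i => C (P i 1))) (↑(MR a b) : Set (ℕ × ℕ))
      T'.card :=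
    RkI_of_LM (fun i => h1 (i, 0)) (fun i => h1 (i, 1)) hT4 fun f hf hL =>
      h2 f (by rw [← hT1]; exact hf) hL
  rw [hT2, hcard] at h3
  have hsum : ∑ a, (EE 1 (w a)).card = cond w := sum_EE w
  rw [← hsum] at h3
  rw [sysB_eq, finrank_infV h3 (Or.inr rfl), card_MR, sum_EE]

/-- the dimension of the space of Laurent polynomials -/
theorem finrank_VS_le' {K : Type} [Field K] [CharZero K] {n a b : ℕ} {w : Fin n → ℕ}
    {P : Fin n → Fin 2 → K} (hP : ∀ i j, P i j ≠ 0) :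
    Module.finrank K (Pool.Agent.TH772.QB.VS (fun i => P i 0) (fun i => P i 1) w
      (D φ0 (b + 1) ((a : ℤ) + 1))) ≤ Module.finrank K (sysB P a b w) := by
  have hfin : FiniteDimensional K ↥(sysB P a b w) := by
    have h2 : FiniteDimensional K ↥(bi K a b) := by
      rw [bi_eq]
      unfold mspan
      exact FiniteDimensional.span_of_finite K ((MR a b).finite_toSet.image _)
    exact Submodule.finiteDimensional_of_le (inf_le_left : sysB P a b w ≤ _)
  have hmem : ∀ f : (ℤ × ℤ) →₀ K,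
      f ∈ Pool.Agent.TH772.QB.VS (fun i => P i 0) (fun i => P i 1) w
        (D φ0 (b + 1) ((a : ℤ) + 1)) → Psi K f ∈ sysB P a b w := by
    intro f hf
    obtain ⟨hf1, hf2⟩ := hf
    rw [sysB_eq]
    refine ⟨?_, ?_⟩
    · rw [Psi_apply]
      refine Submodule.sum_mem _ fun u hu => Submodule.smul_mem _ _ (Submodule.subset_span ⟨_, ?_, rfl⟩)
      obtain ⟨q1, q2, q3, q4⟩ := mem_D0.1 (hf1 (mem_coe.2 hu))
      rw [mem_coe, mem_MR]
      simp only
      omega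
    · rw [SetLike.mem_coe, Submodule.restrictScalars_mem]
      unfold vIdeal
      rw [Ideal.mem_iInf]
      intro i
      exact Psi_mem_cIdeal (hP i 0) (hP i 1)
        (fun u hu => ⟨(hf1 (mem_coe.2 hu)).1, (hf1 (mem_coe.2 hu)).2.2.1⟩) (hf2 i)
  refine LinearMap.finrank_le_finrank_of_injective
    (f := LinearMap.restrict (Psi K) hmem) ?_
  rw [injective_iff_map_eq_zero]
  intro f hf
  have h3 : Psi K f.1 = 0 := congrArg Subtype.val hf
  exact Subtype.ext (Psi_injOn (fun u hu => ⟨(f.2.1 (mem_coe.2 hu)).1,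
    (f.2.1 (mem_coe.2 hu)).2.2.1⟩) h3)

/-- **from the expected dimension at general points to emptiness and independence** -/
theorem emp_sur_of_Reg {n a b : ℕ} {w : Fin n → ℕ} (h : Reg a b w) :
    ((a + 1) * (b + 1) ≤ cond w → Emp w (D φ0 (b + 1) ((a : ℤ) + 1))) ∧
      (cond w ≤ (a + 1) * (b + 1) → Sur w (D φ0 (b + 1) ((a : ℤ) + 1))) := by
  obtain ⟨F, hF, hF'⟩ := h
  have hG : F * ∏ q : Fin n × Fin 2, (MvPolynomial.X q : MvPolynomial (Fin n × Fin 2) ℚ) ≠ 0 :=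
    mul_ne_zero hF (Finset.prod_ne_zero_iff.2 fun q _ => MvPolynomial.X_ne_zero q)
  obtain ⟨v, hv⟩ : ∃ v : Fin n × Fin 2 → ℚ, MvPolynomial.eval v
      (F * ∏ q : Fin n × Fin 2, (MvPolynomial.X q : MvPolynomial (Fin n × Fin 2) ℚ)) ≠ 0 := by
    by_contra hcon
    push Not at hcon
    exact hG (MvPolynomial.funext fun v => by rw [hcon v, map_zero])
  rw [map_mul, map_prod] at hv
  have hv1 := left_ne_zero_of_mul hv
  have hv2 := right_ne_zero_of_mul hv
  rw [Finset.prod_ne_zero_iff] at hv2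
  obtain ⟨P, hPdef⟩ : ∃ P : Fin n → Fin 2 → ℚ, ∀ i j, P i j = v (i, j) :=
    ⟨fun i j => v (i, j), fun _ _ => rfl⟩
  have hP0 : ∀ i j, P i j ≠ 0 := by
    intro i j
    rw [hPdef]
    simpa using hv2 (i, j) (mem_univ _)
  have hPv : (fun ij : Fin n × Fin 2 => P ij.1 ij.2) = v := funext fun ij => hPdef _ _
  have hid : ∀ g : ℚ →+* ℚ, MvPolynomial.eval₂ g v F = MvPolynomial.eval v F := by
    intro g
    rw [Subsingleton.elim g (RingHom.id ℚ)]
    rfl
  have h1 := hF' ℚ P (by rw [hPv]; exact fun h => hv1 ((hid _).symm.trans h))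
  have h2 := finrank_VS_le' (a := a) (b := b) (w := w) hP0
  rw [h1] at h2
  have h3 := Pool.Agent.TH772.QB.Emp_of_finrank (fun i => hP0 i 0) (fun i => hP0 i 1)
    (D_fin φ0 (b + 1) ((a : ℤ) + 1)) h2
  have hcond : ∑ i, (w i + 1).choose 2 = cond w := rfl
  rw [hcond] at h3
  refine ⟨fun hle => ?_, fun hle => ?_⟩
  · obtain ⟨K, _, _, x, y, hx, hy, hf⟩ := h3
    refine ⟨K, inferInstance, inferInstance, fun i => x (Sum.inl i), fun i => y (Sum.inl i),
      fun i => hx _, fun i => hy _, fun f hfS hfL => hf f hfS ?_⟩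
    rintro (i | j)
    · exact hfL i
    · have := j.2
      omega
  · rw [← coe_DF] at h3 ⊢
    refine Sur_of_Emp _ ?_ h3
    have h4 : ((DF φ0 (b + 1) ((a : ℤ) + 1)).card : ℤ) = ((b + 1 : ℕ) : ℤ) * ((a : ℤ) + 1) :=
      card_DF' (by simp) fun y _ _ => by show (0 : ℤ) ≤ (a : ℤ) + 1; positivity
    have h5 : (DF φ0 (b + 1) ((a : ℤ) + 1)).card = (a + 1) * (b + 1) := by
      have h6 : ((DF φ0 (b + 1) ((a : ℤ) + 1)).card : ℤ) = (((a + 1) * (b + 1) : ℕ) : ℤ) := by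
        rw [h4]
        push_cast
        ring
      exact_mod_cast h6
    rw [h5]
    omega

/-- the two descriptions of the expected behaviour -/
theorem Bal_iff {n b : ℕ} {w : Fin n → ℕ} : Bal w φ0 (b + 1) ↔ ∀ a, Reg a b w := by
  constructor
  · intro h a
    rcases le_total (((a : ℤ) + 1) * (b + 1)) (cond w) with h1 | h1
    · exact Reg_of_Emp ((h _).1 (by push_cast; exact h1))
    · exact Reg_of_Sur ((h _).2 (by push_cast; exact h1))
  · intro h c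
    rcases lt_or_ge 0 c with h0 | h0
    · obtain ⟨a, rfl⟩ : ∃ a : ℕ, c = (a : ℤ) + 1 := ⟨(c - 1).toNat, by omega⟩
      obtain ⟨h1, h2⟩ := emp_sur_of_Reg (h a)
      refine ⟨fun h3 => h1 ?_, fun h3 => h2 ?_⟩
      · exact_mod_cast h3
      · exact_mod_cast h3
    · refine ⟨fun _ => ?_, fun h3 => ?_⟩
      · rw [D_empty fun y _ _ => h0]
        exact Emp_empty _
      · refine Sur_zero ?_
        have h4 : c * ((b + 1 : ℕ) : ℤ) ≤ 0 :=
          mul_nonpos_of_nonpos_of_nonneg h0 (by positivity)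
        have h5 : (cond w : ℤ) ≤ 0 := h3.trans h4
        omega

/-- **additivity in the set of points, for a fixed degree `b` on the fibres** -/
theorem Reg_append {b r s : ℕ} {w : Fin r → ℕ} {v : Fin s → ℕ} (hw : ∀ a, Reg a b w)
    (hv : ∀ a, Reg a b v) (a : ℕ) : Reg a b (Fin.append w v) := by
  have h1 := glue (Bal_iff.2 hw) (Bal_iff.2 hv)
    ⟨by omega, fun _ _ _ _ _ => le_rfl, by simp, fun y _ _ => by simp⟩
  refine Bal_iff.1 (Bal_equiv finSumFinEquiv.symm ?_ h1) a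
  intro i
  refine Fin.addCases (fun j => ?_) (fun j => ?_) i
  · rw [Fin.append_left, finSumFinEquiv_symm_apply_castAdd]
    rfl
  · rw [Fin.append_right, finSumFinEquiv_symm_apply_natAdd]
    rfl

end Pool.Agent.H902.CB
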