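import Pool.Agent.H902.CB.One

set_option autoImplicit false
set_option linter.unusedSimpArgs false

/-!
# Blocks at a wall: two and three points; four, six points on a rectangle, four on a trapezoid
-/

namespace Pool.Agent.H902.CB

open Finset Pool.Agent.TH176.Nag Pool.Agent.TH603.Sur

/-- the strip of `h` rows, with the left wall `x = 0` and the right wall `x + φ y = c` -/
def D (φ : ℤ → ℤ) (h : ℕ) (c : ℤ) : Set (ℤ × ℤ) :=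
  {p | 0 ≤ p.1 ∧ p.1 + φ p.2 < c ∧ 0 ≤ p.2 ∧ p.2 < h}

/-- vertical right wall -/
abbrev φ0 : ℤ → ℤ := fun _ => 0

/-- slanted right wall -/
abbrev φ1 (m : ℕ) : ℤ → ℤ := fun y => y - m

theorem fin_box {S : Set (ℤ × ℤ)} (A B : ℤ)
    (h : ∀ a b : ℤ, ((a, b) : ℤ × ℤ) ∈ S → 0 ≤ a ∧ a ≤ A ∧ 0 ≤ b ∧ b ≤ B) : S.Finite := by
  apply Set.Finite.subset (Set.finite_Icc ((0, 0) : ℤ × ℤ) (A, B))
  rintro ⟨a, b⟩ hab
  obtain ⟨h1, h2, h3, h4⟩ := h a b hab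
  rw [Set.mem_Icc, Prod.mk_le_mk, Prod.mk_le_mk]
  exact ⟨⟨h1, h3⟩, h2, h4⟩

def A1 (m : ℕ) : Set (ℤ × ℤ) := {p | 0 ≤ p.1 ∧ 0 ≤ p.2 ∧ p.1 + p.2 < m}
def A2 (m : ℕ) : Set (ℤ × ℤ) := {p | 0 ≤ p.1 ∧ (m : ℤ) ≤ p.1 + p.2 ∧ 2 * p.1 + p.2 < 2 * m}
def A3 (m : ℕ) : Set (ℤ × ℤ) :=
  {p | 0 ≤ p.1 ∧ 0 ≤ p.2 ∧ p.2 ≤ 2 * m ∧ (2 * m : ℤ) ≤ 2 * p.1 + p.2 ∧ 4 * p.1 + p.2 < 4 * m}
def B2 (m : ℕ) : Set (ℤ × ℤ) := {p | 0 ≤ p.1 ∧ 0 ≤ p.2 ∧ p.2 ≤ 2 * m ∧ 2 * p.1 + p.2 < 2 * m}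
def B3 (m : ℕ) : Set (ℤ × ℤ) := {p | 0 ≤ p.1 ∧ 0 ≤ p.2 ∧ p.2 ≤ 2 * m ∧ 4 * p.1 + p.2 < 4 * m}

variable {m : ℕ}

theorem E_A1 : E m 1 (A1 m) := by
  refine Emp_one 1 0 1 0 (by norm_num) (fun c => c) (fun _ => 0) ?_ ?_
  · rintro a b ⟨h1, h2, h3⟩
    simp only at *
    omega
  · intro c c' _ _ _ _ h
    exact h

theorem I_A1 : I m 1 (A1 m) := by
  refine Sur_one 1 0 1 0 (by norm_num) (fun s => s) (fun _ => 0) ?_ ?_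
  · intro s s' _ _ _ _ h
    exact h
  · intro s k h1 h2 h3
    simp only [A1, Set.mem_ofPred_eq]
    omega

theorem E_A2 : E m 1 (A2 m) := by
  refine Emp_one 1 0 1 0 (by norm_num) (fun c => c) (fun c => m - c) ?_ ?_
  · rintro a b ⟨h1, h2, h3⟩
    simp only at *
    omega
  · intro c c' _ _ _ _ h
    exact h

theorem I_A2 : I m 1 (A2 m) := by
  refine Sur_one 1 0 1 0 (by norm_num) (fun s => s) (fun s => m - s) ?_ ?_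
  · intro s s' _ _ _ _ h
    exact h
  · intro s k h1 h2 h3
    simp only [A2, Set.mem_ofPred_eq]
    omega

theorem E_A3 : E m 1 (A3 m) := by
  refine Emp_one 1 0 1 0 (by norm_num) (fun c => if 2 * c < m then m - 2 * c - 1 else 2 * c - m)
    (fun c => 2 * m - 2 * c) ?_ ?_
  · rintro a b ⟨h1, h2, h3, h4, h5⟩
    simp only at *
    split_ifs <;> omega
  · intro c c' h1 h2 h3 h4 h
    split_ifs at * <;> omega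

theorem I_A3 : I m 1 (A3 m) := by
  refine Sur_one 1 0 1 0 (by norm_num)
    (fun s => if (m - 1 - s) % 2 = 0 then (m - 1 - s) / 2 else (m + s) / 2)
    (fun s => if (m - 1 - s) % 2 = 0 then 2 * m - 2 * ((m - 1 - s) / 2) else
      2 * m - 2 * ((m + s) / 2)) ?_ ?_
  · intro s s' h1 h2 h3 h4 h
    split_ifs at * <;> omega
  · intro s k h1 h2 h3
    simp only [A3, Set.mem_ofPred_eq]
    split_ifs <;> omega

theorem A1_fin : (A1 m).Finite := fin_box m m (by rintro a b ⟨h1, h2, h3⟩; simp only at *; omega)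
theorem A2_fin : (A2 m).Finite :=
  fin_box m (2 * m) (by rintro a b ⟨h1, h2, h3⟩; simp only at *; omega)
theorem A3_fin : (A3 m).Finite :=
  fin_box m (2 * m) (by rintro a b ⟨h1, h2, h3, h4, h5⟩; simp only at *; omega)
theorem B2_fin : (B2 m).Finite :=
  fin_box m (2 * m) (by rintro a b ⟨h1, h2, h3, h4⟩; simp only at *; omega)
theorem B3_fin : (B3 m).Finite :=
  fin_box m (2 * m) (by rintro a b ⟨h1, h2, h3, h4⟩; simp only at *; omega)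

theorem E_B2 : E m 2 (B2 m) := by
  refine (E_lex A1_fin A2_fin 1 1 0 0 ?_ E_A1 E_A2).mono ?_
  · rintro ⟨a, b⟩ ⟨h1, h2, h3⟩ ⟨c, d⟩ ⟨k1, k2, k3⟩
    simp only at *
    omega
  · rintro ⟨a, b⟩ ⟨h1, h2, h3, h4⟩
    simp only [A1, A2, Set.mem_union, Set.mem_ofPred_eq] at *
    omega

theorem I_B2 : I m 2 (B2 m) := by
  refine (I_lex 1 1 0 0 ?_ I_A1 I_A2).mono ?_
  · rintro ⟨a, b⟩ ⟨h1, h2, h3⟩ ⟨c, d⟩ ⟨k1, k2, k3⟩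
    simp only at *
    omega
  · rintro ⟨a, b⟩ h
    simp only [A1, A2, B2, Set.mem_union, Set.mem_ofPred_eq] at *
    omega

theorem E_B3 : E m 3 (B3 m) := by
  refine (E_lex B2_fin A3_fin 2 1 0 0 ?_ E_B2 E_A3).mono ?_
  · rintro ⟨a, b⟩ ⟨h1, h2, h3, h4⟩ ⟨c, d⟩ ⟨k1, k2, k3, k4, k5⟩
    simp only at *
    omega
  · rintro ⟨a, b⟩ ⟨h1, h2, h3, h4⟩
    simp only [B2, A3, Set.mem_union, Set.mem_ofPred_eq] at *
    omega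

theorem I_B3 : I m 3 (B3 m) := by
  refine (I_lex 2 1 0 0 ?_ I_B2 I_A3).mono ?_
  · rintro ⟨a, b⟩ ⟨h1, h2, h3, h4⟩ ⟨c, d⟩ ⟨k1, k2, k3, k4, k5⟩
    simp only at *
    omega
  · rintro ⟨a, b⟩ h
    simp only [B2, A3, B3, Set.mem_union, Set.mem_ofPred_eq] at *
    omega

/-- rotation by a half turn -/
theorem E_rot {r : ℕ} {S S' : Set (ℤ × ℤ)} (u v : ℤ) (h : E m r S)
    (hS : ∀ a b : ℤ, ((a, b) : ℤ × ℤ) ∈ S' → ((u - a, v - b) : ℤ × ℤ) ∈ S) : E m r S' := by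
  refine h.comap (-1) 0 0 (-1) u v (by norm_num) ?_
  rintro ⟨a, b⟩ hab
  rw [show ((-1 * a + 0 * b + u, 0 * a + -1 * b + v) : ℤ × ℤ) = (u - a, v - b) from
    Prod.ext (by simp only; ring) (by simp only; ring)]
  exact hS a b hab

theorem I_rot {r : ℕ} {S S' : Set (ℤ × ℤ)} (u v : ℤ) (h : I m r S)
    (hS : ∀ a b : ℤ, ((a, b) : ℤ × ℤ) ∈ S → ((u - a, v - b) : ℤ × ℤ) ∈ S') : I m r S' := by
  refine h.comap (-1) 0 0 (-1) u v (by norm_num) ?_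
  rintro ⟨a, b⟩ hab
  refine ⟨_, hS a b hab, Prod.ext ?_ ?_⟩
  · simp only
    ring
  · simp only
    ring

/-- the reflection `x ↦ d - x - y` -/
theorem E_ref {r : ℕ} {S S' : Set (ℤ × ℤ)} (d : ℤ) (h : E m r S)
    (hS : ∀ a b : ℤ, ((a, b) : ℤ × ℤ) ∈ S' → ((d - a - b, b) : ℤ × ℤ) ∈ S) : E m r S' := by
  refine h.comap (-1) (-1) 0 1 d 0 (by norm_num) ?_
  rintro ⟨a, b⟩ hab
  rw [show ((-1 * a + -1 * b + d, 0 * a + 1 * b + 0) : ℤ × ℤ) = (d - a - b, b) from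
    Prod.ext (by simp only; ring) (by simp only; ring)]
  exact hS a b hab

theorem I_ref {r : ℕ} {S S' : Set (ℤ × ℤ)} (d : ℤ) (h : I m r S)
    (hS : ∀ a b : ℤ, ((a, b) : ℤ × ℤ) ∈ S → ((d - a - b, b) : ℤ × ℤ) ∈ S') : I m r S' := by
  refine h.comap (-1) (-1) 0 1 d 0 (by norm_num) ?_
  rintro ⟨a, b⟩ hab
  refine ⟨_, hS a b hab, Prod.ext ?_ ?_⟩
  · simp only
    ring
  · simp only
    ring

/-! ## Four points on the rectangle -/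

theorem E_rect4 {c : ℤ} (hc : c ≤ m) : E m 4 (D φ0 (2 * m + 1) c) := by
  have h2 : E m 2 {p : ℤ × ℤ | 0 ≤ p.1 ∧ p.1 < c ∧ 0 ≤ p.2 ∧ p.2 ≤ 2 * m ∧ (2 * m : ℤ) ≤ 2 * p.1 + p.2} := by
    refine E_rot (c - 1) (2 * m) E_B2 ?_
    rintro a b ⟨h1, h2, h3, h4, h5⟩
    simp only [B2, Set.mem_ofPred_eq] at *
    omega
  refine (E_lex B2_fin (fin_box c (2 * m) ?_) 2 1 0 0 ?_ E_B2 h2).mono ?_
  · rintro a b ⟨h1, h2, h3, h4, h5⟩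
    simp only at *
    omega
  · rintro ⟨a, b⟩ ⟨h1, h2, h3, h4⟩ ⟨c, d⟩ ⟨k1, k2, k3, k4, k5⟩
    simp only at *
    omega
  · rintro ⟨a, b⟩ h
    simp only [D, φ0, φ1, B2, Set.mem_union, Set.mem_ofPred_eq] at *
    omega

theorem I_rect4 {c : ℤ} (hc : (m : ℤ) < c) : I m 4 (D φ0 (2 * m + 1) c) := by
  have h2 : I m 2 {p : ℤ × ℤ | 0 ≤ p.1 ∧ p.1 < c ∧ 0 ≤ p.2 ∧ p.2 ≤ 2 * m ∧ 2 * c - 2 < 2 * p.1 + p.2} := by
    refine I_rot (c - 1) (2 * m) I_B2 ?_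
    rintro a b ⟨h1, h2, h3, h4⟩
    simp only [Set.mem_ofPred_eq] at *
    omega
  refine (I_lex 2 1 0 0 ?_ I_B2 h2).mono ?_
  · rintro ⟨a, b⟩ ⟨h1, h2, h3, h4⟩ ⟨c, d⟩ ⟨k1, k2, k3, k4, k5⟩
    simp only at *
    omega
  · rintro ⟨a, b⟩ h
    simp only [D, φ0, φ1, B2, Set.mem_union, Set.mem_ofPred_eq] at *
    omega

/-! ## Six points on the rectangle -/

theorem E_rect6 {c : ℤ} (hc : 2 * c ≤ 3 * m + 1) : E m 6 (D φ0 (2 * m + 1) c) := by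
  have h2 : E m 3 {p : ℤ × ℤ | 0 ≤ p.1 ∧ p.1 < c ∧ 0 ≤ p.2 ∧ p.2 ≤ 2 * m ∧ (4 * m : ℤ) ≤ 4 * p.1 + p.2} := by
    refine E_rot (c - 1) (2 * m) E_B3 ?_
    rintro a b ⟨h1, h2, h3, h4, h5⟩
    simp only [B3, Set.mem_ofPred_eq] at *
    omega
  refine (E_lex B3_fin (fin_box c (2 * m) ?_) 4 1 0 0 ?_ E_B3 h2).mono ?_
  · rintro a b ⟨h1, h2, h3, h4, h5⟩
    simp only at *
    omega
  · rintro ⟨a, b⟩ ⟨h1, h2, h3, h4⟩ ⟨c, d⟩ ⟨k1, k2, k3, k4, k5⟩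
    simp only at *
    omega
  · rintro ⟨a, b⟩ h
    simp only [D, φ0, φ1, B3, Set.mem_union, Set.mem_ofPred_eq] at *
    omega

theorem I_rect6 {c : ℤ} (hc : 3 * (m : ℤ) + 2 ≤ 2 * c) : I m 6 (D φ0 (2 * m + 1) c) := by
  have h2 : I m 3 {p : ℤ × ℤ | 0 ≤ p.1 ∧ p.1 < c ∧ 0 ≤ p.2 ∧ p.2 ≤ 2 * m ∧
      4 * c - 4 - 2 * m < 4 * p.1 + p.2} := by
    refine I_rot (c - 1) (2 * m) I_B3 ?_
    rintro a b ⟨h1, h2, h3, h4⟩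
    simp only [Set.mem_ofPred_eq] at *
    omega
  refine (I_lex 4 1 0 0 ?_ I_B3 h2).mono ?_
  · rintro ⟨a, b⟩ ⟨h1, h2, h3, h4⟩ ⟨c, d⟩ ⟨k1, k2, k3, k4, k5⟩
    simp only at *
    omega
  · rintro ⟨a, b⟩ h
    simp only [D, φ0, φ1, B3, Set.mem_union, Set.mem_ofPred_eq] at *
    omega

/-! ## Four points on the trapezoid -/

theorem E_trap4 {c : ℤ} (hc : c ≤ m) : E m 4 (D (φ1 m) (2 * m + 1) c) := by
  have h2 : E m 2 {p : ℤ × ℤ | 0 ≤ p.1 ∧ p.1 + p.2 < c + m ∧ 0 ≤ p.2 ∧ p.2 ≤ 2 * m ∧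
      (2 * m : ℤ) ≤ 2 * p.1 + p.2} := by
    refine E_ref (c + m - 1) E_B2 ?_
    rintro a b ⟨h1, h2, h3, h4, h5⟩
    simp only [B2, Set.mem_ofPred_eq] at *
    omega
  refine (E_lex B2_fin (fin_box (2 * m) (2 * m) ?_) 2 1 0 0 ?_ E_B2 h2).mono ?_
  · rintro a b ⟨h1, h2, h3, h4, h5⟩
    simp only at *
    omega
  · rintro ⟨a, b⟩ ⟨h1, h2, h3, h4⟩ ⟨c, d⟩ ⟨k1, k2, k3, k4, k5⟩
    simp only at *
    omega
  · rintro ⟨a, b⟩ h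
    simp only [D, φ0, φ1, B2, Set.mem_union, Set.mem_ofPred_eq] at *
    omega

theorem I_trap4 {c : ℤ} (hc : (m : ℤ) < c) : I m 4 (D (φ1 m) (2 * m + 1) c) := by
  have h2 : I m 2 {p : ℤ × ℤ | 0 ≤ p.1 ∧ p.1 + p.2 < c + m ∧ 0 ≤ p.2 ∧ p.2 ≤ 2 * m ∧
      2 * c - 2 < 2 * p.1 + p.2} := by
    refine I_ref (c + m - 1) I_B2 ?_
    rintro a b ⟨h1, h2, h3, h4⟩
    simp only [Set.mem_ofPred_eq] at *
    omega
  refine (I_lex 2 1 0 0 ?_ I_B2 h2).mono ?_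
  · rintro ⟨a, b⟩ ⟨h1, h2, h3, h4⟩ ⟨c, d⟩ ⟨k1, k2, k3, k4, k5⟩
    simp only at *
    omega
  · rintro ⟨a, b⟩ h
    simp only [D, φ0, φ1, B2, Set.mem_union, Set.mem_ofPred_eq] at *
    omega

end Pool.Agent.H902.CB
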