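import Pool.Agent.H902.CB.Red
import Pool.Graph.R_seed8.TH545.SD.Conv
import Pool.Graph.R_seed8.TH167.SH.Conv

set_option autoImplicit false

/-!
# From multisets of multiplicities to linear systems at general points, and back
-/

namespace Pool.Agent.H902.CB

open Finset Pool.Agent.TH176.Nag Pool.Agent.TH603.Sur Pool.Agent.TH641.UM Pool.Agent.H932R3

/-- multiplicity zero is no condition -/
theorem Emp_inl {ι : Type} {w : ι → ℕ} {S : Set (ℤ × ℤ)}
    (h : Emp (Sum.elim w (fun _ : Fin 1 => 0)) S) : Emp w S := by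
  obtain ⟨K, _, _, x, y, hx, hy, hf⟩ := h
  refine ⟨K, inferInstance, inferInstance, fun i => x (Sum.inl i), fun i => y (Sum.inl i),
    fun i => hx _, fun i => hy _, fun f hfS hfL => hf f hfS ?_⟩
  rintro (i | j)
  · exact hfL i
  · exact LM_of_mono fun a b hab => absurd hab (Nat.not_lt_zero _)

theorem M_cons_zero {s : Multiset ℕ} {S : Finset (ℤ × ℤ)} : EIM (0 ::ₘ s) S ↔ EIM s S := by
  rw [EIM_iff (vals_cons 0 s)]
  have hc : cond (Sum.elim (fun x : s.ToType => x.1) (fun _ : Fin 1 => 0)) =
      cond (fun x : s.ToType => x.1) := by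
    rw [cond_sum, cond_one]
    rfl
  constructor
  · intro h
    refine ⟨fun hle => Emp_inl (h.1 (by rw [hc]; exact hle)), fun hle => ?_⟩
    obtain ⟨T, h1, h2, h3⟩ := h.2 (by rw [hc]; exact hle)
    exact ⟨T, h1, by rw [h2, hc], Emp_inl h3⟩
  · intro h
    have hE : ∀ T : Set (ℤ × ℤ), Emp (fun x : s.ToType => x.1) T →
        Emp (Sum.elim (fun x : s.ToType => x.1) (fun _ : Fin 1 => 0)) T := fun T hT =>
      Emp_emb Sum.inl Sum.inl_injective (fun i => by simp) hT
    refine ⟨fun hle => hE _ (h.1 (by rw [← hc]; exact hle)), fun hle => ?_⟩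
    obtain ⟨T, h1, h2, h3⟩ := h.2 (by rw [← hc]; exact hle)
    exact ⟨T, h1, by rw [h2, hc], hE _ h3⟩

theorem M_add_zeros {s : Multiset ℕ} {S : Finset (ℤ × ℤ)} (j : ℕ) :
    EIM (Multiset.replicate j 0 + s) S ↔ EIM s S := by
  induction j with
  | zero => rw [Multiset.replicate_zero, zero_add]
  | succ j ih => rw [Multiset.replicate_succ, Multiset.cons_add, M_cons_zero, ih]

/-- the values of a padded list -/
theorem vals_list (l : List ℕ) (n : ℕ) (hl : l.length ≤ n) :
    (univ : Finset (Fin n)).val.map (fun i : Fin n => l.getD i 0) =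
      Multiset.replicate (n - l.length) 0 + (l : Multiset ℕ) := by
  have h1 : (univ : Finset (Fin n)).val.map (fun i : Fin n => l.getD i 0) =
      (List.ofFn (fun i : Fin n => l.getD i 0) : Multiset ℕ) := Fin.univ_val_map _
  rw [h1, add_comm, Multiset.coe_eq_coe.2 (List.Perm.of_eq (?_ : _ = l ++
    List.replicate (n - l.length) 0)), ← Multiset.coe_add, Multiset.coe_replicate]
  refine List.ext_getElem (by simp; omega) fun i h2 h3 => ?_
  rw [List.getElem_ofFn]
  rcases Nat.lt_or_ge i l.length with h | h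
  · rw [List.getElem_append_left h, List.getD_eq_getElem _ _ h]
  · rw [List.getElem_append_right h, List.getElem_replicate, List.getD_eq_default _ _ h]

/-- the expected dimension at general points, over the complex numbers -/
theorem gen_iff {n d : ℕ} {w : Fin n → ℕ} :
    (∃ F : MvPolynomial (Fin n × Fin 2) ℂ, F ≠ 0 ∧ ∀ P : Fin n → Fin 2 → ℂ,
      MvPolynomial.eval (fun q : Fin n × Fin 2 => P q.1 q.2) F ≠ 0 → ExpDim ℂ w P d) ↔
    EI w (PT d d d) := by
  constructor
  · rintro ⟨F, hF, hF'⟩
    have hG : F * ∏ q : Fin n × Fin 2, (MvPolynomial.X q : MvPolynomial (Fin n × Fin 2) ℂ) ≠ 0 :=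
      mul_ne_zero hF (Finset.prod_ne_zero_iff.2 fun q _ => MvPolynomial.X_ne_zero q)
    obtain ⟨v, hv⟩ : ∃ v : Fin n × Fin 2 → ℂ, MvPolynomial.eval v
        (F * ∏ q : Fin n × Fin 2, (MvPolynomial.X q : MvPolynomial (Fin n × Fin 2) ℂ)) ≠ 0 := by
      by_contra hcon
      push Not at hcon
      exact hG (MvPolynomial.funext fun v => by rw [hcon v, map_zero])
    rw [map_mul, map_prod] at hv
    have hv1 := left_ne_zero_of_mul hv
    have hv2 := right_ne_zero_of_mul hv
    rw [Finset.prod_ne_zero_iff] at hv2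
    obtain ⟨P, hPdef⟩ : ∃ P : Fin n → Fin 2 → ℂ, ∀ i j, P i j = v (i, j) :=
      ⟨fun i j => v (i, j), fun _ _ => rfl⟩
    have hP0 : ∀ i j, P i j ≠ 0 := by
      intro i j
      rw [hPdef]
      simpa using hv2 (i, j) (mem_univ _)
    have hPv : (fun ij : Fin n × Fin 2 => P ij.1 ij.2) = v := funext fun ij => hPdef _ _
    have h1 := hF' P (by rw [hPv]; exact hv1)
    have h2 := Pool.Agent.TH545.SD.finrank_VS_le hP0 h1
    have h3 := Pool.Agent.TH772.QB.Emp_of_finrank (fun i => hP0 i 0) (fun i => hP0 i 1)
      (TZ_finite d) h2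
    refine ⟨fun hle => ?_, fun hle => ?_⟩
    · rw [card_PT] at hle
      rw [coe_PT]
      obtain ⟨K, _, _, x, y, hx, hy, hf⟩ := h3
      refine ⟨K, inferInstance, inferInstance, fun i => x (Sum.inl i), fun i => y (Sum.inl i),
        fun i => hx _, fun i => hy _, fun f hfS hfL => hf f hfS ?_⟩
      rintro (i | j)
      · exact hfL i
      · have := j.2
        omega
    · rw [card_PT] at hle
      rw [coe_PT]
      exact Sur_of_ones h3 (by omega)
  · intro h
    have key : ∃ F : MvPolynomial (Fin n × Fin 2) ℚ, F ≠ 0 ∧ ∀ P : Fin n → Fin 2 → ℂ,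
        MvPolynomial.aeval (fun ij : Fin n × Fin 2 => P ij.1 ij.2) F ≠ 0 → ExpDim ℂ w P d := by
      rcases le_total (PT d d d).card (cond w) with hle | hle
      · have h1 := h.1 hle
        rw [coe_PT] at h1
        obtain ⟨F, hF, hF'⟩ := full_open h1
        exact ⟨F, hF, fun P hP => hF' P hP d le_rfl⟩
      · have h1 := h.2 hle
        rw [coe_PT] at h1
        obtain ⟨F, hF, hF'⟩ := indep_open h1
        exact ⟨F, hF, fun P hP => hF' P hP d le_rfl⟩
    obtain ⟨F, hF, hF'⟩ := key
    refine ⟨F.map (algebraMap ℚ ℂ), fun h0 => hF ?_, fun P hP => hF' P ?_⟩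
    · exact MvPolynomial.map_injective _ (algebraMap ℚ ℂ).injective (by rw [h0, map_zero])
    · rw [MvPolynomial.eval_map] at hP
      exact hP

/-- the decreasing rearrangement -/
def sq (s : Multiset ℕ) (i : ℕ) : ℕ := (s.sort (· ≥ ·)).getD i 0

theorem getD_antitone {l : List ℕ} (hl : l.Pairwise (· ≥ ·)) : Antitone fun i => l.getD i 0 := by
  intro i j hij
  rcases Nat.lt_or_ge j l.length with h | h
  · rcases eq_or_lt_of_le hij with rfl | h1
    · exact le_rfl
    · simp only
      rw [List.getD_eq_getElem _ _ h, List.getD_eq_getElem _ _ (by omega)]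
      exact List.pairwise_iff_getElem.1 hl i j _ _ h1
  · simp only
    rw [List.getD_eq_default _ _ h]
    exact Nat.zero_le _

theorem sq_antitone (s : Multiset ℕ) : Antitone (sq s) :=
  getD_antitone (Multiset.pairwise_sort s (· ≥ ·))

theorem sq_zero {s : Multiset ℕ} {i : ℕ} (h : s.card ≤ i) : sq s i = 0 := by
  unfold sq
  refine List.getD_eq_default _ _ ?_
  rw [Multiset.length_sort]
  exact h

theorem vals_sq (s : Multiset ℕ) (n : ℕ) (hs : s.card ≤ n) :
    (univ : Finset (Fin n)).val.map (fun i : Fin n => sq s i) =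
      Multiset.replicate (n - s.card) 0 + s := by
  have h := vals_list (s.sort (· ≥ ·)) n (by rw [Multiset.length_sort]; exact hs)
  rw [Multiset.length_sort, Multiset.sort_eq] at h
  exact h

/-- the multiset of the values of an antitone function: sums of the first values -/
theorem LE_ofFn {m : ℕ → ℕ} (hm : Antitone m) : ∀ (j k n : ℕ),
    LE j (∑ i ∈ Finset.range j, m (k + i))
      ((List.ofFn (fun i : Fin n => m (k + i)) : List ℕ) : Multiset ℕ) := by
  intro j
  induction j with
  | zero =>
    intro k n t _ hc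
    have : t = 0 := Multiset.card_eq_zero.1 (Nat.le_zero.1 hc)
    rw [this]
    simp
  | succ j ih =>
    intro k n
    rcases n with _ | n
    · intro t ht _
      rw [List.ofFn_zero] at ht
      have : t = 0 := Multiset.le_zero.1 ht
      rw [this]
      simp
    · have e : (List.ofFn (fun i : Fin (n + 1) => m (k + i)) : List ℕ) =
          m k :: List.ofFn (fun i : Fin n => m (k + 1 + i)) := by
        rw [List.ofFn_succ]
        congr 1
        congr 1
        funext i
        congr 1
        rw [Fin.val_succ]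
        ring
      rw [e, ← Multiset.cons_coe, Finset.sum_range_succ']
      have e2 : ∑ i ∈ Finset.range j, m (k + (i + 1)) = ∑ i ∈ Finset.range j, m (k + 1 + i) :=
        Finset.sum_congr rfl fun i _ => by
          congr 1
          ring
      rw [e2, add_zero]
      have h1 := ih (k + 1) n
      intro t ht hc
      rcases sub_cons ht with h | ⟨t', h, rfl⟩
      · rcases Nat.eq_zero_or_pos t.card with h0 | h0
        · rw [Multiset.card_eq_zero.1 h0]
          simp
        · obtain ⟨x, hx⟩ := Multiset.card_pos_iff_exists_mem.1 h0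
          obtain ⟨t', rfl⟩ := Multiset.exists_cons_of_mem hx
          rw [Multiset.card_cons] at hc
          rw [Multiset.sum_cons]
          have h2 := h1 t' ((Multiset.le_cons_self _ _).trans h) (by omega)
          have h3 : x ≤ m k := by
            have h4 := Multiset.mem_of_le h (Multiset.mem_cons_self _ _)
            rw [Multiset.mem_coe, List.mem_ofFn] at h4
            obtain ⟨i, rfl⟩ := h4
            exact hm (by omega)
          omega
      · rw [Multiset.card_cons] at hc
        rw [Multiset.sum_cons]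
        have h2 := h1 t' h (by omega)
        omega

theorem sum_three_le {d : ℕ} {s : Multiset ℕ} (h : LE 3 d s) : sq s 0 + sq s 1 + sq s 2 ≤ d := by
  unfold sq
  have h1 : ((s.sort (· ≥ ·) : List ℕ) : Multiset ℕ) = s := Multiset.sort_eq s _
  rcases hl : s.sort (· ≥ ·) with _ | ⟨a, _ | ⟨b, _ | ⟨c, l⟩⟩⟩
  · simp
  · rw [hl] at h1
    rw [← h1] at h
    have := h [a] le_rfl (by simp)
    simp at this
    simpa using this
  · rw [hl] at h1
    rw [← h1] at h
    have := h [a, b] le_rfl (by simp)
    simp at this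
    simpa using this
  · rw [hl] at h1
    rw [← h1] at h
    have h2 : (([a, b, c] : List ℕ) : Multiset ℕ) ≤ ((a :: b :: c :: l : List ℕ) : Multiset ℕ) := by
      rw [Multiset.coe_le]
      exact (List.prefix_append [a, b, c] l).sublist.subperm
    have := h [a, b, c] h2 (by simp)
    simp at this
    simp
    omega

end Pool.Agent.H902.CB
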