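import Pool.Agent.H902.CB.BRx

set_option autoImplicit false

/-!
# The expected dimension at general points is invariant under quadratic transformations
-/

namespace Pool.Agent.H902.CB

open Finset Pool.Agent.TH176.Nag Pool.Agent.TH603.Sur Pool.Agent.TH641.UM Pool.Agent.H932R3
open Pool.Agent.TH167.SH

/-- the expected dimension at generic points -/
theorem exp_generic {n d : ℕ} {w : Fin n → ℕ} (h : EI w (PT d d d)) {P : Fin n → Fin 2 → ℂ}
    (hP : AlgebraicIndependent ℚ (fun q : Fin n × Fin 2 => P q.1 q.2)) : ExpDim ℂ w P d := by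
  rcases le_total (PT d d d).card (cond w) with hle | hle
  · have h1 := h.1 hle
    rw [coe_PT] at h1
    obtain ⟨F, hF, hF'⟩ := full_open h1
    exact hF' P (aeval_ne hP hF) d le_rfl
  · have h1 := h.2 hle
    rw [coe_PT] at h1
    obtain ⟨F, hF, hF'⟩ := indep_open h1
    exact hF' P (aeval_ne hP hF) d le_rfl

/-- the converse -/
theorem EI_of_exp {n d : ℕ} {w : Fin n → ℕ} {P : Fin n → Fin 2 → ℂ} (hP0 : ∀ i j, P i j ≠ 0)
    (h : ExpDim ℂ w P d) : EI w (PT d d d) := by
  have h2 := Pool.Agent.TH545.SD.finrank_VS_le hP0 h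
  have h3 := Pool.Agent.TH772.QB.Emp_of_finrank (fun i => hP0 i 0) (fun i => hP0 i 1)
    (TZ_finite d) h2
  refine ⟨fun hle => ?_, fun hle => ?_⟩
  · rw [card_PT] at hle
    rw [coe_PT]
    obtain ⟨K, _, _, x, y, hx, hy, hf⟩ := h3
    refine ⟨K, inferInstance, inferInstance, fun i => x (Sum.inl i), fun i => y (Sum.inl i),
      fun i => hx _, fun i => hy _, fun f hfS hfL => hf f hfS ?_⟩
    rintro (i | j)
    · exact hfL i
    · have := j.2
      omega
  · rw [card_PT] at hle
    rw [coe_PT]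
    exact Sur_of_ones h3 (by omega)

/-- **invariance under quadratic transformations** -/
theorem EI_carries {n : ℕ} {a b : ℕ × (Fin n → ℕ)} (h : Car a b)
    (ha : EI a.2 (PT a.1 a.1 a.1)) : EI b.2 (PT b.1 b.1 b.1) := by
  obtain ⟨P, hP, -⟩ := exists_vg (n := n) (fun _ => 1) fun _ => one_ne_zero
  have hP' : AlgebraicIndependent ℚ (fun q : Fin n × Fin 2 => P q.1 q.2) := hP
  have h0 : ∀ i j, P i j ≠ 0 := fun i j => hP'.ne_zero (i, j)
  refine EI_of_exp h0 ?_
  have h1 := exp_generic ha hP'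
  have h2 := dim_chain hP' h
  have h3 := chi_chain h
  have e1 : Module.finrank ℂ (Pool.Agent.TH167.SHDefs.sys P a.1 a.2) =
      (a.1 + 2).choose 2 - ∑ i, (a.2 i + 1).choose 2 := h1
  show Module.finrank ℂ (Pool.Agent.TH167.SHDefs.sys P b.1 b.2) =
      (b.1 + 2).choose 2 - ∑ i, (b.2 i + 1).choose 2
  rw [h2, e1]
  unfold Pool.Agent.TH167.SH.chi at h3
  have e2 : ((∑ i, (a.2 i + 1).choose 2 : ℕ) : ℤ) = ∑ j, ((a.2 j + 1).choose 2 : ℤ) := by
    push_cast
    rfl
  have e3 : ((∑ i, (b.2 i + 1).choose 2 : ℕ) : ℤ) = ∑ j, ((b.2 j + 1).choose 2 : ℤ) := by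
    push_cast
    rfl
  rw [← e2, ← e3] at h3
  omega

/-! ## The pencils of De Jonquières -/

/-- the multiplicities of a De Jonquières pencil of degree `β + 1` -/
def dj (n β : ℕ) : Fin n → ℕ := fun i =>
  if i.1 = 0 then β else if i.1 ≤ 2 * β + 1 then 1 else 0

theorem dj_step {n β : ℕ} (h : 2 * β + 4 ≤ n) :
    Pool.Agent.TH167.SHDefs.Quadratic (β + 1, dj n β) (β + 2, dj n (β + 1)) := by
  refine ⟨⟨0, by omega⟩, ⟨2 * β + 2, by omega⟩, ⟨2 * β + 3, by omega⟩, ?_, ?_, ?_, ?_, ?_, ?_, ?_, ?_⟩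
  · simp [Fin.ext_iff]
  · simp [Fin.ext_iff]
  · simp [Fin.ext_iff]
  · have e1 : dj n β ⟨0, by omega⟩ = β := by simp [dj]
    have e2 : dj n β ⟨2 * β + 2, by omega⟩ = 0 := by
      simp only [dj]
      rw [if_neg (by omega), if_neg (by omega)]
    have e3 : dj n β ⟨2 * β + 3, by omega⟩ = 0 := by
      simp only [dj]
      rw [if_neg (by omega), if_neg (by omega)]
    dsimp only
    rw [e1, e2, e3]
    push_cast
    ring
  · have e2 : dj n β ⟨2 * β + 2, by omega⟩ = 0 := by
      simp only [dj]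
      rw [if_neg (by omega), if_neg (by omega)]
    have e3 : dj n β ⟨2 * β + 3, by omega⟩ = 0 := by
      simp only [dj]
      rw [if_neg (by omega), if_neg (by omega)]
    have e4 : dj n (β + 1) ⟨0, by omega⟩ = β + 1 := by simp [dj]
    dsimp only
    rw [e2, e3, e4]
    push_cast
    ring
  · have e1 : dj n β ⟨0, by omega⟩ = β := by simp [dj]
    have e3 : dj n β ⟨2 * β + 3, by omega⟩ = 0 := by
      simp only [dj]
      rw [if_neg (by omega), if_neg (by omega)]
    have e5 : dj n (β + 1) ⟨2 * β + 2, by omega⟩ = 1 := by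
      simp only [dj]
      rw [if_neg (by omega), if_pos (by omega)]
    dsimp only
    rw [e1, e3, e5]
    push_cast
    ring
  · have e1 : dj n β ⟨0, by omega⟩ = β := by simp [dj]
    have e2 : dj n β ⟨2 * β + 2, by omega⟩ = 0 := by
      simp only [dj]
      rw [if_neg (by omega), if_neg (by omega)]
    have e6 : dj n (β + 1) ⟨2 * β + 3, by omega⟩ = 1 := by
      simp only [dj]
      rw [if_neg (by omega), if_pos (by omega)]
    dsimp only
    rw [e1, e2, e6]
    push_cast
    ring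
  · intro l l1 l2 l3
    have h1 : l.1 ≠ 0 := fun h => l1 (Fin.ext h)
    have h2 : l.1 ≠ 2 * β + 2 := fun h => l2 (Fin.ext h)
    have h3 : l.1 ≠ 2 * β + 3 := fun h => l3 (Fin.ext h)
    simp only [dj, if_neg h1]
    by_cases h4 : l.1 ≤ 2 * β + 1
    · rw [if_pos h4, if_pos (by omega)]
    · rw [if_neg h4, if_neg (by omega)]

theorem dj_car {n : ℕ} : ∀ β : ℕ, 2 * β + 2 ≤ n → Car (1, dj n 0) (β + 1, dj n β)
  | 0, _ => Relation.ReflTransGen.refl
  | β + 1, h => Relation.ReflTransGen.tail (dj_car β (by omega)) (dj_step (by omega))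

theorem dj_pen {n β : ℕ} (h : 2 * β + 2 ≤ n) : Pen (β + 1) (dj n β) := by
  refine ⟨⟨1, by omega⟩, ?_⟩
  have e : dj n 0 = fun i : Fin n => if i = ⟨1, by omega⟩ then 1 else 0 := by
    funext i
    simp only [dj, Fin.ext_iff]
    split_ifs <;> omega
  rw [← e]
  exact dj_car β h

theorem dj_vals (β : ℕ) : (univ : Finset (Fin (2 * β + 2))).val.map (dj (2 * β + 2) β) =
    1 ::ₘ β ::ₘ Multiset.replicate (2 * β) 1 := by
  have e : dj (2 * β + 2) β = Fin.cons β fun _ : Fin (2 * β + 1) => 1 := by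
    funext i
    refine Fin.cases ?_ (fun j => ?_) i
    · simp [dj]
    · rw [Fin.cons_succ]
      simp only [dj, Fin.val_succ]
      rw [if_neg (by omega), if_pos (by omega)]
  rw [e, vals_fcons, vals_const, Multiset.replicate_succ]
  exact Multiset.cons_swap _ _ _

end Pool.Agent.H902.CB
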