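import Pool.Agent.H902.CB.Crem

set_option autoImplicit false

/-!
# Multiplicities `x` such that `x` or `b - x` divides `b`
-/

namespace Pool.Agent.H902.CB

open Finset

theorem plane_one {a b : ℕ} {s : Multiset ℕ} (h : EIM s (PT a b (a + b))) :
    EIM (a ::ₘ b ::ₘ s) (PT (a + b) (a + b) (a + b)) := by
  have h1 : EIM (b ::ₘ s) (PT (a + b) b (a + b)) :=
    (EIM_iff (vals_cons _ _)).2 (EI_side h)
  have h2 := M_top (b := b) (D := a + b) (by omega) h1
  rwa [Nat.add_sub_cancel] at h2

/-- between two good sets -/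
theorem between {b : ℕ} {s0 s s1 : Multiset ℕ} (h0 : BR b s0) (h1 : BR b s1) (h01 : s0 ≤ s)
    (h11 : s ≤ s1) {a : ℕ} (ha : a < cM s0 / (b + 1) ∨ cM s1 / (b + 1) ≤ a) :
    EIM (a ::ₘ b ::ₘ s) (PT (a + b) (a + b) (a + b)) := by
  refine plane_one ?_
  rcases ha with ha | ha
  · refine M_mono h01 ?_ (h0 a)
    rw [card_rect]
    exact (Nat.le_div_iff_mul_le (by omega)).1 ha
  · refine M_fewer h11 ?_ (h1 a)
    rw [card_rect]
    exact ((Nat.div_lt_iff_lt_mul (by omega)).1 (Nat.lt_succ_of_le ha)).le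

theorem cM_sum (T : Finset ℕ) (c : ℕ → ℕ) :
    cM (∑ t ∈ T, Multiset.replicate (c t) t) = ∑ t ∈ T, c t * (t + 1).choose 2 := by
  classical
  induction T using Finset.induction_on with
  | empty =>
    rw [Finset.sum_empty, Finset.sum_empty]
    exact cM_zero
  | insert t T ht ih =>
    rw [Finset.sum_insert ht, Finset.sum_insert ht, cM_add, ih]
    congr 1
    rw [← zero_add (Multiset.replicate (c t) t), cM_rep, cM_zero, zero_add]

theorem count_sum (T : Finset ℕ) (c : ℕ → ℕ) (x : ℕ) :
    (∑ t ∈ T, Multiset.replicate (c t) t).count x = if x ∈ T then c x else 0 := by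
  classical
  rw [Multiset.count_sum', Finset.sum_congr rfl fun t _ => Multiset.count_replicate x t (c t)]
  by_cases hx : x ∈ T
  · rw [if_pos hx, Finset.sum_eq_single x]
    · rw [if_pos rfl]
    · intro t _ ht
      rw [if_neg ht]
    · intro h
      exact absurd hx h
  · rw [if_neg hx]
    refine Finset.sum_eq_zero fun t ht => ?_
    rw [if_neg]
    rintro rfl
    exact hx ht

theorem BR_rep {b N x : ℕ} (h : BR b (Multiset.replicate N x)) (k : ℕ) :
    BR b (Multiset.replicate (N * k) x) := by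
  induction k with
  | zero =>
    rw [Nat.mul_zero, Multiset.replicate_zero]
    exact BR_zero b
  | succ k ih =>
    rw [Nat.mul_succ, Multiset.replicate_add]
    exact BR_add ih h

theorem BR_sum {b : ℕ} (T : Finset ℕ) (c : ℕ → Multiset ℕ) (h : ∀ t ∈ T, BR b (c t)) :
    BR b (∑ t ∈ T, c t) := by
  classical
  induction T using Finset.induction_on with
  | empty =>
    rw [Finset.sum_empty]
    exact BR_zero b
  | insert t T ht ih =>
    rw [Finset.sum_insert ht]
    exact BR_add (h t (Finset.mem_insert_self t T))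
      (ih fun x hx => h x (Finset.mem_insert_of_mem hx))

/-- all but boundedly many values of `a`, for all multisets of elements of `X` -/
theorem interval {b R : ℕ} {X : Finset ℕ} {N : ℕ → ℕ}
    (hN : ∀ x ∈ X, 1 ≤ N x ∧ BR b (Multiset.replicate (N x) x))
    (hR : ∑ x ∈ X, N x * (x + 1).choose 2 ≤ (b + 1) * R) {s : Multiset ℕ} (hs : ∀ x ∈ s, x ∈ X) :
    ∃ q : ℕ, ∀ a : ℕ, (a < q ∨ q + R ≤ a) →
      EIM (a ::ₘ b ::ₘ s) (PT (a + b) (a + b) (a + b)) := by
  classical
  obtain ⟨k, hk⟩ : ∃ k : ℕ → ℕ, ∀ t, k t = s.count t / N t := ⟨_, fun _ => rfl⟩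
  have hG : ∀ k : ℕ → ℕ, BR b (∑ t ∈ X, Multiset.replicate (N t * k t) t) := fun k =>
    BR_sum X _ fun t ht => BR_rep (hN t ht).2 (k t)
  set s0 := ∑ t ∈ X, Multiset.replicate (N t * k t) t with hs0
  set s1 := ∑ t ∈ X, Multiset.replicate (N t * (k t + 1)) t with hs1
  have h01 : s0 ≤ s := by
    rw [Multiset.le_iff_count]
    intro x
    rw [hs0, count_sum]
    split_ifs with hx
    · rw [hk]
      exact Nat.mul_div_le _ _
    · exact Nat.zero_le _
  have h11 : s ≤ s1 := by
    rw [Multiset.le_iff_count]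
    intro x
    rw [hs1, count_sum]
    split_ifs with hx
    · rw [hk]
      exact (Nat.lt_mul_div_succ _ (hN x hx).1).le
    · by_contra hcon
      push Not at hcon
      exact hx (hs x (Multiset.count_pos.1 hcon))
  have hc : cM s1 ≤ cM s0 + (b + 1) * R := by
    refine le_trans ?_ (Nat.add_le_add_left hR _)
    rw [hs0, hs1, cM_sum, cM_sum, ← Finset.sum_add_distrib]
    refine Finset.sum_le_sum fun t _ => ?_
    rw [Nat.mul_succ, add_mul]
  refine ⟨cM s0 / (b + 1), fun a ha => between (hG k) (hG fun t => k t + 1) h01 h11 ?_⟩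
  rcases ha with ha | ha
  · exact Or.inl ha
  · refine Or.inr (le_trans ?_ ha)
    have h1 := Nat.div_le_div_right (c := b + 1) hc
    rw [Nat.add_mul_div_left _ _ (by omega)] at h1
    exact h1

/-! ## The pencils with multiplicities `1` and `β - 1` -/

/-- multiplicities `β`, `1 + r (β - 2)`, `(β - 1) ^ (2 r)`, `1 ^ (2 β - 2 r)` -/
def dk (β r : ℕ) : Fin (2 * β + 2) → ℕ := fun i =>
  if i.1 = 0 then β else if i.1 = 1 then 1 + r * (β - 2) else if i.1 < 2 * r + 2 then β - 1 else 1

theorem dk_step {β r : ℕ} (hβ : 2 ≤ β) (h : r + 1 ≤ β) :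
    Pool.Agent.TH167.SHDefs.Quadratic (1 + β + r * (β - 2), dk β r)
      (1 + β + (r + 1) * (β - 2), dk β (r + 1)) := by
  obtain ⟨γ, rfl⟩ : ∃ γ, β = γ + 2 := ⟨β - 2, by omega⟩
  have a1 : ∀ r, dk (γ + 2) r ⟨1, by omega⟩ = 1 + r * γ := fun r => by
    simp [dk]
  have a2 : dk (γ + 2) r ⟨2 * r + 2, by omega⟩ = 1 := by
    simp only [dk]
    rw [if_neg (by omega), if_neg (by omega), if_neg (by omega)]
  have a3 : dk (γ + 2) r ⟨2 * r + 3, by omega⟩ = 1 := by
    simp only [dk]
    rw [if_neg (by omega), if_neg (by omega), if_neg (by omega)]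
  have b2 : dk (γ + 2) (r + 1) ⟨2 * r + 2, by omega⟩ = γ + 1 := by
    simp only [dk]
    rw [if_neg (by omega), if_neg (by omega), if_pos (by omega)]
    rfl
  have b3 : dk (γ + 2) (r + 1) ⟨2 * r + 3, by omega⟩ = γ + 1 := by
    simp only [dk]
    rw [if_neg (by omega), if_neg (by omega), if_pos (by omega)]
    rfl
  refine ⟨⟨1, by omega⟩, ⟨2 * r + 2, by omega⟩, ⟨2 * r + 3, by omega⟩, ?_, ?_, ?_, ?_, ?_, ?_, ?_,
    ?_⟩
  · simp only [ne_eq, Fin.ext_iff]
    omega
  · simp only [ne_eq, Fin.ext_iff]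
    omega
  · simp only [ne_eq, Fin.ext_iff]
    omega
  · dsimp only
    rw [a1, a2, a3, Nat.add_sub_cancel]
    push_cast
    ring
  · dsimp only
    rw [a1, a2, a3, Nat.add_sub_cancel]
    push_cast
    ring
  · dsimp only
    rw [a1, b2, a3, Nat.add_sub_cancel]
    push_cast
    ring
  · dsimp only
    rw [a1, b3, a2, Nat.add_sub_cancel]
    push_cast
    ring
  · intro l l1 l2 l3
    have h1 : l.1 ≠ 1 := fun h => l1 (Fin.ext h)
    have h2 : l.1 ≠ 2 * r + 2 := fun h => l2 (Fin.ext h)
    have h3 : l.1 ≠ 2 * r + 3 := fun h => l3 (Fin.ext h)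
    simp only [dk, if_neg h1]
    by_cases h0 : l.1 = 0
    · rw [if_pos h0, if_pos h0]
    · rw [if_neg h0, if_neg h0]
      by_cases h4 : l.1 < 2 * r + 2
      · rw [if_pos h4, if_pos (by omega)]
      · rw [if_neg h4, if_neg (by omega)]

theorem dk_zero (β : ℕ) : dk β 0 = dj (2 * β + 2) β := by
  funext i
  have := i.2
  simp only [dk, dj]
  split_ifs <;> omega

theorem dk_pen {β : ℕ} (hβ : 2 ≤ β) : ∀ r : ℕ, r ≤ β → Pen (1 + β + r * (β - 2)) (dk β r)
  | 0, _ => by
    have h := dj_pen (n := 2 * β + 2) (β := β) le_rfl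
    rw [← dk_zero] at h
    have e : 1 + β + 0 * (β - 2) = β + 1 := by omega
    rw [e]
    exact h
  | r + 1, h => by
    obtain ⟨p, hp⟩ := dk_pen hβ r (by omega)
    exact ⟨p, Relation.ReflTransGen.tail hp (dk_step hβ h)⟩

theorem vals_two (M K x y : ℕ) :
    (univ : Finset (Fin (M + K))).val.map (fun i : Fin (M + K) => if i.1 < M then x else y) =
      Multiset.replicate M x + Multiset.replicate K y := by
  have h := vals_list (List.replicate M x ++ List.replicate K y) (M + K) (by simp)
  rw [List.length_append, List.length_replicate, List.length_replicate, Nat.sub_self,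
    Multiset.replicate_zero, zero_add, ← Multiset.coe_add, Multiset.coe_replicate,
    Multiset.coe_replicate] at h
  rw [← h]
  refine Multiset.map_congr rfl fun i _ => ?_
  have hi := i.2
  by_cases h1 : i.1 < M
  · rw [if_pos h1, List.getD_append _ _ _ _ (by simpa using h1),
      List.getD_eq_getElem _ _ (by simpa using h1), List.getElem_replicate]
  · rw [if_neg h1, List.getD_append_right _ _ _ _ (by simpa using h1),
      List.getD_eq_getElem _ _ (by simp; omega), List.getElem_replicate]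

theorem dk_vals {β r : ℕ} (hr : r ≤ β) : (univ : Finset (Fin (2 * β + 2))).val.map (dk β r) =
    (1 + r * (β - 2)) ::ₘ β ::ₘ
      (Multiset.replicate (2 * r) (β - 1) + Multiset.replicate (2 * (β - r)) 1) := by
  have e : dk β r = Fin.cons β (Fin.cons (1 + r * (β - 2))
      fun i : Fin (2 * β) => if i.1 < 2 * r then β - 1 else 1) := by
    funext i
    refine Fin.cases ?_ (fun j => ?_) i
    · simp [dk]
    · rw [Fin.cons_succ]
      refine Fin.cases ?_ (fun l => ?_) j
      · simp [dk]
      · rw [Fin.cons_succ]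
        simp only [dk, Fin.val_succ]
        rw [if_neg (by omega), if_neg (by omega)]
        by_cases h : l.1 < 2 * r
        · rw [if_pos h, if_pos (by omega)]
        · rw [if_neg h, if_neg (by omega)]
  rw [e, vals_fcons, vals_fcons]
  obtain ⟨u, rfl⟩ : ∃ u, β = r + u := ⟨β - r, by omega⟩
  have h2 := vals_two (2 * r) (2 * u) (r + u - 1) 1
  have h3 : (univ : Finset (Fin (2 * (r + u)))).val.map
      (fun i : Fin (2 * (r + u)) => if i.1 < 2 * r then r + u - 1 else 1) =
      Multiset.replicate (2 * r) (r + u - 1) + Multiset.replicate (2 * u) 1 := by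
    rw [← h2]
    rw [Nat.mul_add]
  rw [h3, Nat.add_sub_cancel_left]
  exact Multiset.cons_swap _ _ _

end Pool.Agent.H902.CB
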