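import Pool.Agent.H902.CB.Mov
import Pool.Agent.H902.CB.Blocks
import Pool.Graph.R_seed8.TH641.UM.Ones

set_option autoImplicit false

/-!
# Emptiness and independence together
-/

namespace Pool.Agent.H902.CB

open Finset Pool.Agent.TH176.Nag Pool.Agent.TH603.Sur Pool.Agent.TH641.UM

/-- emptiness or independence, as predicted by the number of exponents -/
def EI {ι : Type} [Fintype ι] (w : ι → ℕ) (S : Finset (ℤ × ℤ)) : Prop :=
  (S.card ≤ cond w → Emp w (↑S : Set (ℤ × ℤ))) ∧ (cond w ≤ S.card → Sur w (↑S : Set (ℤ × ℤ)))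

theorem EI_equiv {ι κ : Type} [Fintype ι] [Fintype κ] (e : κ ≃ ι) {w : ι → ℕ} {v : κ → ℕ}
    {S : Finset (ℤ × ℤ)} (hv : ∀ i, v i = w (e i)) (h : EI w S) : EI v S :=
  ⟨fun hc => Emp_equiv e hv (h.1 (by rwa [← cond_equiv e hv])),
    fun hc => Sur_equiv e hv (h.2 (by rwa [← cond_equiv e hv]))⟩

theorem card_comap {S S' : Finset (ℤ × ℤ)} (a b c d u v : ℤ) (hdet : a * d - b * c ≠ 0)
    (h1 : ∀ m ∈ S, ((a * m.1 + b * m.2 + u, c * m.1 + d * m.2 + v) : ℤ × ℤ) ∈ S')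
    (h2 : ∀ m' ∈ S', ∃ m ∈ S, ((a * m.1 + b * m.2 + u, c * m.1 + d * m.2 + v) : ℤ × ℤ) = m') :
    S.card = S'.card := by
  refine Finset.card_bij (fun m _ => ((a * m.1 + b * m.2 + u, c * m.1 + d * m.2 + v) : ℤ × ℤ)) h1
    ?_ (fun m' hm' => by
      obtain ⟨m, hm, h⟩ := h2 m' hm'
      exact ⟨m, hm, h⟩)
  rintro ⟨x, y⟩ _ ⟨x', y'⟩ _ h
  simp only [Prod.mk.injEq] at h
  obtain ⟨h3, h4⟩ := h
  have e1 : (a * d - b * c) * (x - x') = 0 := by linear_combination d * h3 - b * h4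
  have e2 : (a * d - b * c) * (y - y') = 0 := by linear_combination a * h4 - c * h3
  have k1 := (mul_eq_zero.1 e1).resolve_left hdet
  have k2 := (mul_eq_zero.1 e2).resolve_left hdet
  ext
  · simp only; omega
  · simp only; omega

theorem EI_comap {ι : Type} [Fintype ι] {w : ι → ℕ} {S S' : Finset (ℤ × ℤ)} (a b c d u v : ℤ)
    (hdet : a * d - b * c ≠ 0)
    (h1 : ∀ m ∈ S, ((a * m.1 + b * m.2 + u, c * m.1 + d * m.2 + v) : ℤ × ℤ) ∈ S')
    (h2 : ∀ m' ∈ S', ∃ m ∈ S, ((a * m.1 + b * m.2 + u, c * m.1 + d * m.2 + v) : ℤ × ℤ) = m')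
    (h : EI w S') : EI w S := by
  have hc := card_comap a b c d u v hdet h1 h2
  refine ⟨fun hle => (h.1 (by rwa [← hc])).comap a b c d u v hdet fun m hm => ?_,
    fun hle => (h.2 (by rwa [← hc])).comap a b c d u v hdet fun m' hm' => ?_⟩
  · exact mem_coe.2 (h1 m (mem_coe.1 hm))
  · obtain ⟨m, hm, h3⟩ := h2 m' (mem_coe.1 hm')
    exact ⟨m, mem_coe.2 hm, h3⟩

/-- the triangle -/
noncomputable def TR (μ : ℕ) : Finset (ℤ × ℤ) :=
  ((Finset.Ico 0 (μ : ℤ)) ×ˢ (Finset.Ico 0 (μ : ℤ))).filter fun p => p.1 + p.2 < μ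

theorem mem_TR {μ : ℕ} {p : ℤ × ℤ} : p ∈ TR μ ↔ 0 ≤ p.1 ∧ 0 ≤ p.2 ∧ p.1 + p.2 < μ := by
  unfold TR
  rw [mem_filter, mem_product, Finset.mem_Ico, Finset.mem_Ico]
  omega

theorem card_TR (μ : ℕ) : (TR μ).card = (μ + 1).choose 2 := by
  rcases μ with _ | k
  · rfl
  · have h : TR (k + 1) = TF k := by
      ext p
      rw [mem_TR, ← Finset.mem_coe (s := TF k), coe_TF]
      simp only [TZ, Set.mem_ofPred_eq]
      push_cast
      omega
    rw [h, card_TF]

theorem cond_one (μ : ℕ) : cond (fun _ : Fin 1 => μ) = (μ + 1).choose 2 := by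
  unfold Pool.Agent.TH603.Sur.cond
  simp

theorem E_TR (μ : ℕ) : Emp (fun _ : Fin 1 => μ) (↑(TR μ) : Set (ℤ × ℤ)) := by
  refine (E_A1 (m := μ)).mono ?_
  rintro ⟨a, b⟩ h
  rw [mem_coe, mem_TR] at h
  simp only at h
  simp only [A1, Set.mem_ofPred_eq]
  omega

theorem EI_TR (μ : ℕ) : EI (fun _ : Fin 1 => μ) (TR μ) :=
  ⟨fun _ => E_TR μ, fun _ => ⟨TR μ, subset_rfl, by rw [card_TR, cond_one], E_TR μ⟩⟩

/-- **moving a point of multiplicity `μ` to the origin** -/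
theorem EI_move {ι : Type} [Fintype ι] {w : ι → ℕ} {μ : ℕ} {S S' : Finset (ℤ × ℤ)}
    (hpos : ∀ m ∈ S, 0 ≤ m.1 ∧ 0 ≤ m.2)
    (hdown : ∀ a b a' b' : ℤ, (a, b) ∈ S → 0 ≤ a' → a' ≤ a → 0 ≤ b' → b' ≤ b → (a', b') ∈ S)
    (htri : TR μ ⊆ S) (hS' : ∀ p, p ∈ S' ↔ p ∈ S ∧ (μ : ℤ) ≤ p.1 + p.2)
    (h : EI (Sum.elim w (fun _ : Fin 1 => μ)) S) : EI w S' := by
  classical
  have hcard : S'.card + (μ + 1).choose 2 = S.card := by
    have h1 : S = S' ∪ TR μ := by
      ext p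
      rw [mem_union, hS', mem_TR]
      constructor
      · intro hp
        have := hpos p hp
        rcases lt_or_ge (p.1 + p.2) μ with h2 | h2
        · exact Or.inr ⟨this.1, this.2, h2⟩
        · exact Or.inl ⟨hp, h2⟩
      · rintro (⟨hp, _⟩ | hp)
        · exact hp
        · exact htri (mem_TR.2 hp)
    rw [h1, card_union_of_disjoint, card_TR]
    rw [Finset.disjoint_left]
    intro p hp hq
    rw [hS'] at hp
    rw [mem_TR] at hq
    omega
  have hcoe : (↑S' : Set (ℤ × ℤ)) = {m | m ∈ (↑S : Set (ℤ × ℤ)) ∧ (μ : ℤ) ≤ m.1 + m.2} := by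
    ext p
    rw [mem_coe, hS']
    rfl
  have hcond : cond (Sum.elim w (fun _ : Fin 1 => μ)) = cond w + (μ + 1).choose 2 := by
    rw [cond_sum, cond_one]
  refine ⟨fun hle => ?_, fun hle => ?_⟩
  · rw [hcoe]
    exact Emp_move S.finite_toSet (fun m hm => hpos m (mem_coe.1 hm))
      (fun a b a' b' h1 h2 h3 h4 h5 => mem_coe.2 (hdown a b a' b' (mem_coe.1 h1) h2 h3 h4 h5))
      (h.1 (by rw [hcond]; omega))
  · have h1 := h.2 (by rw [hcond]; omega)
    have h2 : Emp (Sum.elim (Sum.elim w (fun _ : Fin 1 => μ))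
        (fun _ : Fin (S.card - cond (Sum.elim w (fun _ : Fin 1 => μ))) => 1))
        (↑S : Set (ℤ × ℤ)) := Emp_ones_of_Sur h1 (by omega)
    have h3 : Emp (Sum.elim (Sum.elim w
        (fun _ : Fin (S.card - cond (Sum.elim w (fun _ : Fin 1 => μ))) => 1))
        (fun _ : Fin 1 => μ)) (↑S : Set (ℤ × ℤ)) := by
      refine Emp_equiv ⟨fun x => match x with
          | Sum.inl (Sum.inl i) => Sum.inl (Sum.inl i)
          | Sum.inl (Sum.inr j) => Sum.inr j
          | Sum.inr k => Sum.inl (Sum.inr k), fun x => match x with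
          | Sum.inl (Sum.inl i) => Sum.inl (Sum.inl i)
          | Sum.inr j => Sum.inl (Sum.inr j)
          | Sum.inl (Sum.inr k) => Sum.inr k, ?_, ?_⟩ ?_ h2
      · rintro ((i | j) | k) <;> rfl
      · rintro ((i | j) | k) <;> rfl
      · rintro ((i | j) | k) <;> rfl
    have h4 := Emp_move S.finite_toSet (fun m hm => hpos m (mem_coe.1 hm))
      (fun a b a' b' h1 h2 h3 h4 h5 => mem_coe.2 (hdown a b a' b' (mem_coe.1 h1) h2 h3 h4 h5)) h3
    rw [← hcoe] at h4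
    exact Sur_of_Emp _ (by rw [hcond] at *; omega) h4

/-- **joining a triangle** -/
theorem EI_join {ι : Type} [Fintype ι] {w : ι → ℕ} {μ : ℕ} {A B S : Finset (ℤ × ℤ)}
    (a b c d u v : ℤ) (hdet : a * d - b * c ≠ 0)
    (h1 : ∀ m ∈ A, ((a * m.1 + b * m.2 + u, c * m.1 + d * m.2 + v) : ℤ × ℤ) ∈ TR μ)
    (h2 : ∀ m' ∈ TR μ, ∃ m ∈ A, ((a * m.1 + b * m.2 + u, c * m.1 + d * m.2 + v) : ℤ × ℤ) = m')
    (p q : ℤ) (hcut : ∀ m ∈ B, ∀ m' ∈ A, p * m.1 + q * m.2 < p * m'.1 + q * m'.2)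
    (hS : ∀ m, m ∈ S ↔ m ∈ B ∨ m ∈ A) (h : EI w B) : EI (Sum.elim w (fun _ : Fin 1 => μ)) S := by
  classical
  have hA := EI_comap a b c d u v hdet h1 h2 (EI_TR μ)
  have hcA := card_comap a b c d u v hdet h1 h2
  rw [card_TR] at hcA
  have hSU : S = B ∪ A := by
    ext m
    rw [mem_union, hS]
  have hdisj : Disjoint B A := by
    rw [Finset.disjoint_left]
    intro m hm hm'
    exact lt_irrefl _ (hcut m hm m hm')
  have hcard : S.card = B.card + (μ + 1).choose 2 := by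
    rw [hSU, card_union_of_disjoint hdisj, hcA]
  have hcond : cond (Sum.elim w (fun _ : Fin 1 => μ)) = cond w + (μ + 1).choose 2 := by
    rw [cond_sum, cond_one]
  have hcut' : ∀ m ∈ (↑B : Set (ℤ × ℤ)), ∀ m' ∈ (↑A : Set (ℤ × ℤ)),
      p * m.1 + q * m.2 < p * m'.1 + q * m'.2 ∨ (p * m.1 + q * m.2 = p * m'.1 + q * m'.2 ∧
        (0 : ℤ) * m.1 + 0 * m.2 < 0 * m'.1 + 0 * m'.2) :=
    fun m hm m' hm' => Or.inl (hcut m (mem_coe.1 hm) m' (mem_coe.1 hm'))
  refine ⟨fun hle => ?_, fun hle => ?_⟩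
  · rw [hSU, coe_union]
    exact Emp_lex B.finite_toSet A.finite_toSet p q 0 0 hcut' (h.1 (by omega))
      (hA.1 (by rw [hcA, cond_one]))
  · rw [hSU, coe_union]
    exact Sur_lex p q 0 0 hcut' (h.2 (by omega)) (hA.2 (by rw [hcA, cond_one]))

/-- the pentagon -/
noncomputable def PT (a b D : ℕ) : Finset (ℤ × ℤ) :=
  ((Finset.Icc 0 (a : ℤ)) ×ˢ (Finset.Icc 0 (b : ℤ))).filter fun p => p.1 + p.2 ≤ D

theorem mem_PT {a b D : ℕ} {p : ℤ × ℤ} :
    p ∈ PT a b D ↔ 0 ≤ p.1 ∧ p.1 ≤ a ∧ 0 ≤ p.2 ∧ p.2 ≤ b ∧ p.1 + p.2 ≤ D := by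
  unfold PT
  rw [mem_filter, mem_product, Finset.mem_Icc, Finset.mem_Icc]
  omega

theorem coe_PT (D : ℕ) : (↑(PT D D D) : Set (ℤ × ℤ)) = TZ D := by
  ext p
  rw [mem_coe, mem_PT]
  simp only [TZ, Set.mem_ofPred_eq]
  omega

theorem card_PT (D : ℕ) : (PT D D D).card = (D + 2).choose 2 := by
  have h : PT D D D = TF D := by
    ext p
    rw [← mem_coe, coe_PT, ← mem_coe, coe_TF]
  rw [h, card_TF]

/-- the first corner -/
theorem EI_cut1 {ι : Type} [Fintype ι] {w : ι → ℕ} {b D : ℕ} (hb : b ≤ D)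
    (h : EI (Sum.elim w (fun _ : Fin 1 => D - b)) (PT D D D)) : EI w (PT D b D) := by
  have h1 : EI w ((PT D D D).filter fun p => ((D - b : ℕ) : ℤ) ≤ p.1 + p.2) := by
    refine EI_move ?_ ?_ ?_ (fun p => mem_filter) h
    · intro m hm
      rw [mem_PT] at hm
      omega
    · intro x y x' y' hm h1 h2 h3 h4
      rw [mem_PT] at hm ⊢
      simp only at hm ⊢
      omega
    · intro p hp
      rw [mem_TR] at hp
      rw [mem_PT]
      omega
  refine EI_comap 1 0 (-1) (-1) 0 D (by norm_num) ?_ ?_ h1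
  · intro m hm
    rw [mem_PT] at hm
    rw [mem_filter, mem_PT]
    simp only
    omega
  · rintro ⟨x, y⟩ hm
    rw [mem_filter, mem_PT] at hm
    simp only at hm
    refine ⟨(x, D - x - y), ?_, ?_⟩
    · rw [mem_PT]
      simp only
      omega
    · ext
      · simp only; ring
      · simp only; ring

/-- the second corner -/
theorem EI_cut2 {ι : Type} [Fintype ι] {w : ι → ℕ} {a b D : ℕ} (ha : a ≤ D) (hab : D ≤ a + b + 1)
    (h : EI (Sum.elim w (fun _ : Fin 1 => D - a)) (PT D b D)) : EI w (PT a b D) := by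
  have h1 : EI w ((PT D b D).filter fun p => ((D - a : ℕ) : ℤ) ≤ p.1 + p.2) := by
    refine EI_move ?_ ?_ ?_ (fun p => mem_filter) h
    · intro m hm
      rw [mem_PT] at hm
      omega
    · intro x y x' y' hm h1 h2 h3 h4
      rw [mem_PT] at hm ⊢
      simp only at hm ⊢
      omega
    · intro p hp
      rw [mem_TR] at hp
      rw [mem_PT]
      omega
  refine EI_comap (-1) (-1) 0 1 D 0 (by norm_num) ?_ ?_ h1
  · intro m hm
    rw [mem_PT] at hm
    rw [mem_filter, mem_PT]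
    simp only
    omega
  · rintro ⟨x, y⟩ hm
    rw [mem_filter, mem_PT] at hm
    simp only at hm
    refine ⟨(D - x - y, y), ?_, ?_⟩
    · rw [mem_PT]
      simp only
      omega
    · ext
      · simp only; ring
      · simp only; ring

/-- a triangle on top -/
theorem EI_top {ι : Type} [Fintype ι] {w : ι → ℕ} {b D : ℕ} (hb : b ≤ D)
    (h : EI w (PT D b D)) : EI (Sum.elim w (fun _ : Fin 1 => D - b)) (PT D D D) := by
  refine EI_join (A := (PT D D D).filter fun p => (b : ℤ) < p.2) 1 0 0 1 0 (-(b + 1)) (by norm_num)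
    ?_ ?_ 0 1 ?_ ?_ h
  · intro m hm
    rw [mem_filter, mem_PT] at hm
    rw [mem_TR]
    simp only
    omega
  · rintro ⟨x, y⟩ hm
    rw [mem_TR] at hm
    simp only at hm
    refine ⟨(x, y + b + 1), ?_, ?_⟩
    · rw [mem_filter, mem_PT]
      simp only
      omega
    · ext
      · simp only; ring
      · simp only; ring
  · intro m hm m' hm'
    rw [mem_PT] at hm
    rw [mem_filter, mem_PT] at hm'
    omega
  · intro m
    rw [mem_filter, mem_PT, mem_PT]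
    omega

/-- a triangle in the corner of the rectangle -/
theorem EI_corner {ι : Type} [Fintype ι] {w : ι → ℕ} {a b t : ℕ} (ha : t ≤ a) (hb : t ≤ b)
    (h : EI w (PT a b (a + b - t))) :
    EI (Sum.elim w (fun _ : Fin 1 => t)) (PT a b (a + b)) := by
  refine EI_join (A := (PT a b (a + b)).filter fun p => ((a + b : ℕ) : ℤ) < p.1 + p.2 + t)
    (-1) 0 0 (-1) a b (by norm_num) ?_ ?_ 1 1 ?_ ?_ h
  · intro m hm
    rw [mem_filter, mem_PT] at hm
    rw [mem_TR]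
    simp only
    omega
  · rintro ⟨x, y⟩ hm
    rw [mem_TR] at hm
    simp only at hm
    refine ⟨(a - x, b - y), ?_, ?_⟩
    · rw [mem_filter, mem_PT]
      simp only
      omega
    · ext
      · simp only; ring
      · simp only; ring
  · intro m hm m' hm'
    rw [mem_PT] at hm
    rw [mem_filter, mem_PT] at hm'
    omega
  · intro m
    rw [mem_filter, mem_PT, mem_PT]
    omega

end Pool.Agent.H902.CB
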