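import Pool.Agent.H902.CB.Flip

set_option autoImplicit false

/-!
# `2 b + 2` points of multiplicity `x ≤ b`, by the Euclidean algorithm; arbitrary multiplicities `≤ b`
-/

namespace Pool.Agent.H902.CB

open Finset Pool.Agent.TH176.Nag Pool.Agent.TH603.Sur

theorem BR_zeros (b N : ℕ) : BR b (Multiset.replicate N 0) := by
  induction N with
  | zero => exact BR_zero b
  | succ N ih =>
    rw [Multiset.replicate_succ]
    exact BR_none ih

/-- points whose multiplicity is the fibre degree -/
theorem BR_top (b : ℕ) : BR b (Multiset.replicate 2 b) := by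
  have h := BR_pen (dj_pen (n := 2 * 1 + 2) (β := 1) le_rfl) (dj_vals 1) rfl le_rfl b
  rw [Multiset.map_replicate, mul_one, mul_one] at h
  exact h

/-- the exact tile -/
theorem tile_of_BR {b x : ℕ} (h : BR b (Multiset.replicate (2 * (b + 1)) x)) :
    E x (2 * (b + 1)) (Rc (x * (x + 1)) (b + 1)) := by
  rcases Nat.eq_zero_or_pos x with rfl | hx
  · have e : Rc (0 * (0 + 1)) (b + 1) = ∅ := by
      ext p
      simp only [Rc, Set.mem_ofPred_eq, Set.mem_empty_iff_false, iff_false]
      push_cast
      omega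
    rw [e]
    exact Emp_empty _
  · obtain ⟨W, hW⟩ : ∃ W, x * (x + 1) = W + 1 := ⟨x * (x + 1) - 1, by
      have := Nat.mul_pos hx (Nat.succ_pos x)
      rw [Nat.succ_eq_add_one] at this
      omega⟩
    have h1 := (EIM_iff (vals_const (2 * (b + 1)) x)).1 (h W)
    have hc : cond (fun _ : Fin (2 * (b + 1)) => x) = (W + 1) * (b + 1) := by
      rw [cond_cM (vals_const (2 * (b + 1)) x), ← zero_add (Multiset.replicate _ x), cM_rep, cM_zero,
        zero_add, ← hW]
      have := two_chN x
      calc 2 * (b + 1) * (x + 1).choose 2 = (2 * (x + 1).choose 2) * (b + 1) := by ring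
        _ = x * (x + 1) * (b + 1) := by rw [this]
    have h2 := h1.1 (by rw [card_rect, hc])
    rw [coe_Rc, ← hW] at h2
    exact h2

theorem BR_low {b x : ℕ} (h : BR b (Multiset.replicate (2 * (b + 1)) x)) :
    BR (b + x) (Multiset.replicate (2 * (b + x + 1)) x) := by
  have h1 := tile_of_BR h
  have h2 : E x (2 * x) (Rc (x * (x + 1)) x) := by
    have := E_horn (E_pair x) x
    rwa [Nat.mul_comm (x + 1) x] at this
  have h3 := E_ver h1 h2
  rw [show 2 * (b + 1) + 2 * x = 2 * (b + x + 1) by ring,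
    show b + 1 + x = b + x + 1 by ring] at h3
  refine BR_of_tile (W := x * (x + 1)) ?_ h3
  have := two_chN x
  calc 2 * (b + x + 1) * (x + 1).choose 2 = (2 * (x + 1).choose 2) * (b + x + 1) := by ring
    _ = x * (x + 1) * (b + x + 1) := by rw [this]

/-- **`2 b + 2` points of multiplicity `x ≤ b`** -/
theorem BR_equal : ∀ (b x : ℕ), x ≤ b → BR b (Multiset.replicate (2 * (b + 1)) x) := by
  intro b
  induction b using Nat.strong_induction_on with
  | _ b ih =>
    have low : ∀ x, 2 * x ≤ b → BR b (Multiset.replicate (2 * (b + 1)) x) := by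
      intro x hx
      rcases Nat.eq_zero_or_pos x with rfl | h0
      · exact BR_zeros b _
      · have h1 := BR_low (ih (b - x) (by omega) x (by omega))
        rwa [Nat.sub_add_cancel (by omega)] at h1
    intro x hx
    rcases Nat.lt_or_ge b (2 * x) with h2 | h2
    · rcases Nat.lt_or_ge x b with h3 | h3
      · have h4 := BR_flip (x := b - x) (M := b + 1) (by omega)
          (Nat.le_mul_of_pos_right _ (Nat.mul_pos (by omega) (Nat.succ_pos _)))
          (low (b - x) (by omega))
        rwa [Nat.sub_sub_self hx] at h4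
      · obtain rfl : x = b := by omega
        exact BR_rep (BR_top x) (x + 1)
    · exact low x h2

/-- between two multiples of `2 b + 2` points -/
theorem far {a b : ℕ} {X : Finset ℕ} (hX : ∀ x ∈ X, x ≤ b) {s : Multiset ℕ}
    (hs : ∀ x ∈ s, x ∈ X)
    (h : (a + 1) * (b + 1) + (b + 1) * ∑ x ∈ X, x * (x + 1) ≤ cM s ∨
      cM s + (b + 1) * ∑ x ∈ X, x * (x + 1) ≤ (a + 1) * (b + 1)) :
    EIM (a ::ₘ b ::ₘ s) (PT (a + b) (a + b) (a + b)) := by
  classical
  obtain ⟨k, hk⟩ : ∃ k : ℕ → ℕ, ∀ t, k t = s.count t / (2 * (b + 1)) := ⟨_, fun _ => rfl⟩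
  have hG : ∀ k : ℕ → ℕ, BR b (∑ t ∈ X, Multiset.replicate (2 * (b + 1) * k t) t) := fun k =>
    BR_sum X _ fun t ht => BR_rep (BR_equal b t (hX t ht)) (k t)
  set s0 := ∑ t ∈ X, Multiset.replicate (2 * (b + 1) * k t) t with hs0
  set s1 := ∑ t ∈ X, Multiset.replicate (2 * (b + 1) * (k t + 1)) t with hs1
  have h01 : s0 ≤ s := by
    rw [Multiset.le_iff_count]
    intro x
    rw [hs0, count_sum]
    split_ifs with hx
    · rw [hk]
      exact Nat.mul_div_le _ _
    · exact Nat.zero_le _
  have h11 : s ≤ s1 := by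
    rw [Multiset.le_iff_count]
    intro x
    rw [hs1, count_sum]
    split_ifs with hx
    · rw [hk]
      exact (Nat.lt_mul_div_succ _ (by omega)).le
    · by_contra hcon
      push Not at hcon
      exact hx (hs x (Multiset.count_pos.1 hcon))
  have hc : cM s1 = cM s0 + (b + 1) * ∑ x ∈ X, x * (x + 1) := by
    rw [hs0, hs1, cM_sum, cM_sum, Finset.mul_sum, ← Finset.sum_add_distrib]
    refine Finset.sum_congr rfl fun t _ => ?_
    have h4 := two_chN t
    calc 2 * (b + 1) * (k t + 1) * (t + 1).choose 2 =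
        2 * (b + 1) * k t * (t + 1).choose 2 + (b + 1) * (2 * (t + 1).choose 2) := by ring
      _ = _ := by rw [h4]
  have hm0 := cM_mono h01
  have hm1 := cM_mono h11
  refine plane_one ?_
  rcases h with h | h
  · refine M_mono h01 ?_ (hG k a)
    rw [card_rect]
    omega
  · refine M_fewer h11 ?_ (hG (fun t => k t + 1) a)
    rw [card_rect]
    show cM s1 ≤ _
    omega

theorem sum_range_mul (b : ℕ) : 3 * ∑ x ∈ Finset.range (b + 1), x * (x + 1) =
    b * (b + 1) * (b + 2) := by
  induction b with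
  | zero => rfl
  | succ b ih =>
    rw [Finset.sum_range_succ, Nat.mul_add, ih]
    ring

/-- the same on the surface `F_1`: one arbitrary multiplicity `c`, degree `c + b` -/
theorem far_plane {b c : ℕ} {s : Multiset ℕ} (hs : ∀ x ∈ s, x ≤ b)
    (h : 3 * (c + b + 2).choose 2 + b * (b + 1) ^ 2 * (b + 2) ≤ 3 * ((c + 1).choose 2 + cM s) ∨
      3 * ((c + 1).choose 2 + cM s) + b * (b + 1) ^ 2 * (b + 2) ≤ 3 * (c + b + 2).choose 2) :
    EIM (c ::ₘ s) (PT (c + b) (c + b) (c + b)) := by
  have hT : b * (b + 1) ^ 2 * (b + 2) =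
      3 * ((b + 1) * ∑ x ∈ Finset.range (b + 1), x * (x + 1)) := by
    calc b * (b + 1) ^ 2 * (b + 2) = (b + 1) * (b * (b + 1) * (b + 2)) := by ring
      _ = _ := by rw [← sum_range_mul]; ring
  rw [hT] at h
  obtain ⟨T, hTd⟩ : ∃ T, T = (b + 1) * ∑ x ∈ Finset.range (b + 1), x * (x + 1) := ⟨_, rfl⟩
  rw [← hTd] at h
  have key : ∀ (x : ℕ) (s' : Multiset ℕ), x ≤ b → (∀ y ∈ s', y ≤ b) →
      ((c + b + 2).choose 2 + T ≤ (c + 1).choose 2 + ((x + 1).choose 2 + cM s') ∨
        (c + 1).choose 2 + ((x + 1).choose 2 + cM s') + T ≤ (c + b + 2).choose 2) →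
        EIM (c ::ₘ x ::ₘ s') (PT (c + b) (c + b) (c + b)) := by
    intro x s' hx hs' h'
    have h1 : EIM ((c + (b - x)) ::ₘ b ::ₘ (b - x) ::ₘ s')
        (PT (c + (b - x) + b) (c + (b - x) + b) (c + (b - x) + b)) := by
      refine far (X := Finset.range (b + 1)) (fun y hy => ?_) (fun y hy => ?_) ?_
      · rw [Finset.mem_range] at hy
        omega
      · rw [Finset.mem_range]
        rcases Multiset.mem_cons.1 hy with rfl | hy
        · omega
        · have := hs' y hy
          omega
      · rw [← hTd, cM_cons]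
        obtain ⟨y, rfl⟩ : ∃ y, b = x + y := ⟨b - x, by omega⟩
        rw [Nat.add_sub_cancel_left]
        have t1 := two_chN (c + (x + y) + 1)
        have t2 := two_chN c
        have t3 := two_chN x
        have t4 := two_chN y
        rw [show c + (x + y) + 1 + 1 = c + (x + y) + 2 by ring] at t1
        have e : (c + (x + y) + 2).choose 2 + (y + 1).choose 2 =
            (c + y + 1) * (x + y + 1) + (c + 1).choose 2 + (x + 1).choose 2 := by nlinarith
        rcases h' with h' | h'
        · exact Or.inl (by omega)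
        · exact Or.inr (by omega)
    have h2 := M_quad (d := c + (b - x) + b) (a := c + (b - x)) (x := b) (y := b - x)
      (d' := c + b) (a' := c) (x' := x) (y' := 0) (by omega) (by omega) (by omega) (by omega) h1
    rw [Multiset.cons_swap x 0, Multiset.cons_swap c 0, M_cons_zero] at h2
    exact h2
  rcases Multiset.empty_or_exists_mem s with rfl | ⟨x, hx⟩
  · have h1 := key 0 0 (Nat.zero_le _) (fun y hy => absurd hy (Multiset.notMem_zero y)) (by
      rw [cM_zero] at h ⊢
      have : (0 + 1).choose 2 = 0 := rfl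
      rw [this]
      omega)
    rw [Multiset.cons_swap c 0, M_cons_zero] at h1
    exact h1
  · obtain ⟨s', rfl⟩ := Multiset.exists_cons_of_mem hx
    rw [cM_cons] at h
    exact key x s' (hs x (Multiset.mem_cons_self x s'))
      (fun y hy => hs y (Multiset.mem_cons_of_mem hy)) (by omega)

end Pool.Agent.H902.CB
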