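import Pool.Agent.H902.CB.Mul

set_option autoImplicit false

/-!
# Gluing along a line
-/

namespace Pool.Agent.H902.CB

open Finset Pool.Agent.TH176.Nag Pool.Agent.TH603.Sur Pool.Agent.TH641.UM

/-- a piece of a column -/
noncomputable def Col (x : ℤ) (r : ℕ) : Finset (ℤ × ℤ) := (Finset.range r).image fun y : ℕ => (x, (y : ℤ))

theorem mem_Col {x : ℤ} {r : ℕ} {p : ℤ × ℤ} : p ∈ Col x r ↔ p.1 = x ∧ 0 ≤ p.2 ∧ p.2 < r := by
  unfold Col
  rw [Finset.mem_image]
  constructor
  · rintro ⟨y, hy, rfl⟩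
    rw [Finset.mem_range] at hy
    exact ⟨rfl, Int.natCast_nonneg y, Int.ofNat_lt.2 hy⟩
  · rintro ⟨h1, h2, h3⟩
    refine ⟨p.2.toNat, Finset.mem_range.2 (by omega), ?_⟩
    ext
    · exact h1.symm
    · simp only; omega

theorem card_Col (x : ℤ) (r : ℕ) : (Col x r).card = r := by
  unfold Col
  rw [card_image_of_injective, Finset.card_range]
  intro y y' h
  simpa using h

/-- the left part -/
noncomputable def LT (c d r : ℕ) : Finset (ℤ × ℤ) := PT c d d ∪ Col ((c : ℤ) + 1) r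

theorem mem_LT {c d r : ℕ} {p : ℤ × ℤ} : p ∈ LT c d r ↔
    (0 ≤ p.1 ∧ p.1 ≤ c ∧ 0 ≤ p.2 ∧ p.2 ≤ d ∧ p.1 + p.2 ≤ d) ∨
      (p.1 = c + 1 ∧ 0 ≤ p.2 ∧ p.2 < r) := by
  unfold LT
  rw [mem_union, mem_PT, mem_Col]

theorem card_LT (c d r : ℕ) : (LT c d r).card = (PT c d d).card + r := by
  unfold LT
  rw [card_union_of_disjoint, card_Col]
  rw [Finset.disjoint_left]
  intro p hp hq
  rw [mem_PT] at hp
  rw [mem_Col] at hq
  omega

theorem card_next (c f : ℕ) : (PT (c + 1) (c + f + 2) (c + f + 2)).card =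
    (PT c (c + f + 2) (c + f + 2)).card + (f + 2) := by
  rw [← card_LT]
  congr 1
  ext p
  rw [mem_LT, mem_PT]
  push_cast
  omega

theorem card_split (c f : ℕ) : (PT (c + f + 2) (c + f + 2) (c + f + 2)).card =
    (PT c (c + f + 2) (c + f + 2)).card + (PT (f + 1) (f + 1) (f + 1)).card := by
  classical
  have h1 : ((PT (c + f + 2) (c + f + 2) (c + f + 2)).filter fun p => (c : ℤ) < p.1).card =
      (PT (f + 1) (f + 1) (f + 1)).card := by
    refine card_comap 1 0 0 1 (-(c + 1)) 0 (by norm_num) ?_ ?_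
    · intro m hm
      rw [mem_filter, mem_PT] at hm
      rw [mem_PT]
      push_cast at hm ⊢
      omega
    · rintro ⟨x, y⟩ hm
      rw [mem_PT] at hm
      push_cast at hm
      refine ⟨(x + c + 1, y), ?_, ?_⟩
      · rw [mem_filter, mem_PT]
        push_cast
        omega
      · ext
        · simp only; ring
        · simp only; ring
  rw [← h1, ← card_union_of_disjoint]
  · congr 1
    ext p
    rw [mem_union, mem_filter, mem_PT, mem_PT]
    push_cast
    omega
  · rw [Finset.disjoint_left]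
    intro p hp hq
    rw [mem_PT] at hp
    rw [mem_filter] at hq
    omega

theorem card_succ (f : ℕ) : (PT (f + 1) (f + 1) (f + 1)).card = (PT f f f).card + (f + 2) := by
  rw [card_PT, card_PT]
  have : (f + 1 + 2).choose 2 = (f + 2).choose 1 + (f + 2).choose 2 := rfl
  rw [this, Nat.choose_one_right]
  omega

/-- the set filled by the first group -/
theorem Emp_LT {ι : Type} [Fintype ι] {w : ι → ℕ} {c f r : ℕ}
    (hN : cond w = (PT c (c + f + 2) (c + f + 2)).card + r) (hr : r ≤ f + 2)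
    (h1 : EI w (PT c (c + f + 2) (c + f + 2))) (h2 : EI w (PT (c + 1) (c + f + 2) (c + f + 2))) :
    Emp w (↑(LT c (c + f + 2) r) : Set (ℤ × ℤ)) := by
  obtain ⟨d, hd⟩ : ∃ d, d = c + f + 2 := ⟨_, rfl⟩
  have hc := card_next c f
  have hS := h2.2 (by omega)
  have hE : Emp (Sum.elim w (fun _ : Fin (f + 2 - r) => 1))
      (↑(PT (c + 1) (c + f + 2) (c + f + 2)) : Set (ℤ × ℤ)) :=
    Emp_ones_of_Sur hS (by omega)
  have hE0 := h1.1 (by omega)
  obtain ⟨S, hSd⟩ : ∃ S : Set (ℤ × ℤ), S = {p | 0 ≤ p.1 ∧ p.1 ≤ (c : ℤ) + 1 ∧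
    0 ≤ p.2 ∧ p.2 ≤ (f : ℤ) + 1 + p.1} := ⟨_, rfl⟩
  have hmem : ∀ x y : ℤ, ((x, y) : ℤ × ℤ) ∈ S ↔ 0 ≤ x ∧ x ≤ c + 1 ∧ 0 ≤ y ∧ y ≤ f + 1 + x := by
    intro x y
    rw [hSd]
    rfl
  have hmap : ∀ x y : ℤ, ((-1 * x + 0 * y + (c + 1), 1 * x + -1 * y + (f + 1)) : ℤ × ℤ) =
      (c + 1 - x, f + 1 + x - y) := by
    intro x y
    ext
    · simp only; ring
    · simp only; ring
  have h3 : Emp (Sum.elim w (fun _ : Fin (f + 2 - r) => 1)) S := by
    refine hE.comap (-1) 0 1 (-1) (c + 1) (f + 1) (by norm_num) ?_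
    rintro ⟨x, y⟩ hm
    rw [hmem] at hm
    rw [hmap, mem_coe, mem_PT]
    push_cast
    try simp only
    omega
  have h4 : Emp w {m | m ∈ S ∧ m.1 ≠ 0} := by
    refine hE0.comap (-1) 0 1 (-1) (c + 1) (f + 1) (by norm_num) ?_
    rintro ⟨x, y⟩ ⟨hm, hm0⟩
    rw [hmem] at hm
    try simp only at hm0
    rw [hmap, mem_coe, mem_PT]
    push_cast
    try simp only
    omega
  have hfin : S.Finite := by
    refine Set.Finite.subset (Set.finite_Icc ((0, 0) : ℤ × ℤ) ((c : ℤ) + 1, (c : ℤ) + f + 2)) ?_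
    rintro ⟨x, y⟩ hm
    rw [hmem] at hm
    rw [Set.mem_Icc, Prod.mk_le_mk, Prod.mk_le_mk]
    omega
  have h5 := Emp_top hfin (by
    rintro ⟨x, y⟩ hm
    rw [hmem] at hm
    try simp only
    omega) (by
    intro a b b' hm h0 hle
    rw [hmem] at hm ⊢
    omega) h4 h3
  refine h5.comap (-1) 0 (-1) (-1) (c + 1) (c + f + 2) (by norm_num) ?_
  rintro ⟨x, y⟩ hm
  rw [mem_coe, mem_LT] at hm
  push_cast at hm
  try simp only at hm
  rw [show ((-1 * x + 0 * y + (c + 1), -1 * x + -1 * y + (c + f + 2)) : ℤ × ℤ) =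
      (c + 1 - x, c + f + 2 - x - y) by
    ext
    · simp only; ring
    · simp only; ring]
  refine ⟨?_, ?_⟩
  · rw [hmem]
    omega
  · try simp only
    push_cast [Nat.cast_sub hr]
    omega

/-- the set filled by the second group -/
theorem Emp_RT {κ : Type} [Fintype κ] {v : κ → ℕ} {f t : ℕ}
    (hN : cond v + t = (PT (f + 1) (f + 1) (f + 1)).card) (ht : t ≤ f + 2)
    (h3 : EI v (PT f f f)) (h4 : EI v (PT (f + 1) (f + 1) (f + 1))) :
    Emp v {m | m ∈ (↑(PT (f + 1) (f + 1) (f + 1)) : Set (ℤ × ℤ)) ∧ (m.1 ≠ 0 ∨ (t : ℤ) ≤ m.2)} := by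
  have hc := card_succ f
  have hS := h4.2 (by omega)
  have hE : Emp (Sum.elim v (fun _ : Fin t => 1))
      (↑(PT (f + 1) (f + 1) (f + 1)) : Set (ℤ × ℤ)) := Emp_ones_of_Sur hS (by omega)
  have hE0 := h3.1 (by omega)
  refine Emp_top (Finset.finite_toSet _) ?_ ?_ ?_ hE
  · rintro ⟨x, y⟩ hm
    rw [mem_coe, mem_PT] at hm
    try simp only at hm ⊢
    omega
  · intro a b b' hm h0 hle
    rw [mem_coe, mem_PT] at hm ⊢
    try simp only at hm ⊢
    omega
  · refine hE0.comap 1 0 0 1 (-1) 0 (by norm_num) ?_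
    rintro ⟨x, y⟩ ⟨hm, hm0⟩
    rw [mem_coe, mem_PT] at hm
    push_cast at hm
    try simp only at hm hm0
    rw [show ((1 * x + 0 * y + -1, 0 * x + 1 * y + 0) : ℤ × ℤ) = (x - 1, y) by
      ext
      · simp only; ring
      · simp only; ring]
    rw [mem_coe, mem_PT]
    try simp only
    omega

/-- **gluing along a line** -/
theorem glue_tri {ι κ : Type} [Fintype ι] [Fintype κ] {w : ι → ℕ} {v : κ → ℕ} {c f r : ℕ}
    (hN : cond w = (PT c (c + f + 2) (c + f + 2)).card + r) (hr : r < f + 2)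
    (h1 : EI w (PT c (c + f + 2) (c + f + 2))) (h2 : EI w (PT (c + 1) (c + f + 2) (c + f + 2)))
    (h3 : EI v (PT f f f)) (h4 : EI v (PT (f + 1) (f + 1) (f + 1))) :
    EI (Sum.elim w v) (PT (c + f + 2) (c + f + 2) (c + f + 2)) := by
  have hL := Emp_LT hN hr.le h1 h2
  have hc1 := card_split c f
  have hc2 := card_succ f
  obtain ⟨R, hRd⟩ : ∃ R : Set (ℤ × ℤ), R = {p | 0 ≤ p.2 ∧
    p.1 + p.2 ≤ (c : ℤ) + f + 2 ∧ (c : ℤ) + 1 ≤ p.1 ∧ (p.1 = (c : ℤ) + 1 → (r : ℤ) ≤ p.2)} :=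
    ⟨_, rfl⟩
  have hmem : ∀ x y : ℤ, ((x, y) : ℤ × ℤ) ∈ R ↔ 0 ≤ y ∧ x + y ≤ c + f + 2 ∧ (c : ℤ) + 1 ≤ x ∧
      (x = c + 1 → (r : ℤ) ≤ y) := by
    intro x y
    rw [hRd]
    rfl
  have hcut : ∀ p ∈ (↑(LT c (c + f + 2) r) : Set (ℤ × ℤ)), ∀ q ∈ R,
      (1 : ℤ) * p.1 + 0 * p.2 < 1 * q.1 + 0 * q.2 ∨ ((1 : ℤ) * p.1 + 0 * p.2 = 1 * q.1 + 0 * q.2 ∧
        (0 : ℤ) * p.1 + 1 * p.2 < 0 * q.1 + 1 * q.2) := by
    rintro ⟨x, y⟩ hp ⟨x', y'⟩ hq
    rw [mem_coe, mem_LT] at hp
    rw [hmem] at hq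
    try simp only at hp ⊢
    omega
  have hRfin : R.Finite := by
    refine Set.Finite.subset (Set.finite_Icc ((0, 0) : ℤ × ℤ)
      ((c : ℤ) + f + 2, (c : ℤ) + f + 2)) ?_
    rintro ⟨x, y⟩ hm
    rw [hmem] at hm
    rw [Set.mem_Icc, Prod.mk_le_mk, Prod.mk_le_mk]
    omega
  have hshift : ∀ x y k : ℤ, ((1 * x + 0 * y + k, 0 * x + 1 * y + 0) : ℤ × ℤ) = (x + k, y) := by
    intro x y k
    ext
    · simp only; ring
    · simp only; ring
  refine ⟨fun hle => ?_, fun hle => ?_⟩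
  · rw [cond_sum] at hle
    have hR1 : Emp v R := by
      rcases le_or_gt (PT (f + 1) (f + 1) (f + 1)).card (cond v) with k | k
      · refine (h4.1 k).comap 1 0 0 1 (-(c + 1)) 0 (by norm_num) ?_
        rintro ⟨x, y⟩ hm
        rw [hmem] at hm
        rw [hshift, mem_coe, mem_PT]
        push_cast
        try simp only
        omega
      · obtain ⟨t, ht⟩ : ∃ t, cond v + t = (PT (f + 1) (f + 1) (f + 1)).card :=
          ⟨(PT (f + 1) (f + 1) (f + 1)).card - cond v, by omega⟩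
        refine (Emp_RT ht (by omega) h3 h4).comap 1 0 0 1 (-(c + 1)) 0 (by norm_num) ?_
        rintro ⟨x, y⟩ hm
        rw [hmem] at hm
        rw [hshift]
        refine ⟨?_, ?_⟩
        · rw [mem_coe, mem_PT]
          push_cast
          try simp only
          omega
        · try simp only
          omega
    refine (Emp_lex (Finset.finite_toSet _) hRfin 1 0 0 1 hcut hL hR1).mono ?_
    rintro ⟨x, y⟩ hm
    rw [mem_coe, mem_PT] at hm
    push_cast at hm
    try simp only at hm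
    by_cases h5 : x ≤ c ∨ (x = c + 1 ∧ y < r)
    · left
      rw [mem_coe, mem_LT]
      push_cast
      try simp only
      omega
    · right
      rw [hmem]
      omega
  · rw [cond_sum] at hle
    have hLS : Sur w (↑(LT c (c + f + 2) r) : Set (ℤ × ℤ)) :=
      ⟨_, subset_rfl, by rw [card_LT, hN], hL⟩
    have hR1 : Sur v R := by
      rcases le_or_gt (cond v) (PT f f f).card with k | k
      · refine (h3.2 k).shift (-(c + 2)) 0 ?_
        rintro ⟨x, y⟩ hm
        rw [mem_coe, mem_PT] at hm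
        try simp only at hm
        rw [show ((x - -(c + 2), y - 0) : ℤ × ℤ) = (x + (c + 2), y) by
          ext
          · simp only; ring
          · simp only; ring]
        rw [hmem]
        omega
      · obtain ⟨t, ht⟩ : ∃ t, cond v + t = (PT (f + 1) (f + 1) (f + 1)).card :=
          ⟨(PT (f + 1) (f + 1) (f + 1)).card - cond v, by omega⟩
        have hE := Emp_RT ht (by omega) h3 h4
        have hQS : Sur v {m | m ∈ (↑(PT (f + 1) (f + 1) (f + 1)) : Set (ℤ × ℤ)) ∧
            (m.1 ≠ 0 ∨ (t : ℤ) ≤ m.2)} := by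
          refine ⟨PT (f + 1) (f + 1) (f + 1) \ Col 0 t, ?_, ?_, hE.mono ?_⟩
          · rintro p hp
            rw [mem_coe, mem_sdiff, mem_Col] at hp
            refine ⟨mem_coe.2 hp.1, ?_⟩
            have := mem_PT.1 hp.1
            omega
          · rw [card_sdiff_of_subset, card_Col]
            · omega
            · intro p hp
              rw [mem_Col] at hp
              rw [mem_PT]
              push_cast
              omega
          · rintro p hp
            rw [mem_coe, mem_sdiff, mem_Col] at hp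
            refine ⟨mem_coe.2 hp.1, ?_⟩
            have := mem_PT.1 hp.1
            omega
        refine hQS.shift (-(c + 1)) 0 ?_
        rintro ⟨x, y⟩ ⟨hm, hm0⟩
        rw [mem_coe, mem_PT] at hm
        push_cast at hm
        try simp only at hm hm0
        rw [show ((x - -(c + 1), y - 0) : ℤ × ℤ) = (x + (c + 1), y) by
          ext
          · simp only; ring
          · simp only; ring]
        rw [hmem]
        omega
    refine (Sur_lex 1 0 0 1 hcut hLS hR1).mono ?_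
    rintro ⟨x, y⟩ (hm | hm)
    · rw [mem_coe, mem_LT] at hm
      rw [mem_coe, mem_PT]
      push_cast at hm ⊢
      try simp only at hm ⊢
      omega
    · rw [hmem] at hm
      rw [mem_coe, mem_PT]
      push_cast
      try simp only
      omega

theorem M_tri {s1 s2 : Multiset ℕ} {c f r : ℕ}
    (hN : cM s1 = (PT c (c + f + 2) (c + f + 2)).card + r) (hr : r < f + 2)
    (h1 : EIM s1 (PT c (c + f + 2) (c + f + 2))) (h2 : EIM s1 (PT (c + 1) (c + f + 2) (c + f + 2)))
    (h3 : EIM s2 (PT f f f)) (h4 : EIM s2 (PT (f + 1) (f + 1) (f + 1))) :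
    EIM (s1 + s2) (PT (c + f + 2) (c + f + 2) (c + f + 2)) := by
  have hs : (univ : Finset (s1.ToType ⊕ s2.ToType)).val.map
      (Sum.elim (fun x : s1.ToType => x.1) (fun x : s2.ToType => x.1)) = s1 + s2 := by
    rw [vals_sum, vals_self, vals_self]
  rw [EIM_iff hs]
  exact glue_tri (by rw [cond_cM (vals_self s1), hN]) hr h1 h2 h3 h4

/-- the transposed trapezoid -/
theorem M_swap {s : Multiset ℕ} {b d : ℕ} (h : EIM s (PT d b d)) : EIM s (PT b d d) := by
  refine EI_comap 0 1 1 0 0 0 (by norm_num) ?_ ?_ h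
  · intro m hm
    rw [mem_PT] at hm ⊢
    try simp only
    omega
  · rintro ⟨x, y⟩ hm
    rw [mem_PT] at hm
    try simp only at hm
    refine ⟨(y, x), ?_, ?_⟩
    · rw [mem_PT]
      try simp only
      omega
    · ext
      · simp only; ring
      · simp only; ring

theorem card_swap (b d : ℕ) : (PT b d d).card = (PT d b d).card := by
  refine card_comap 0 1 1 0 0 0 (by norm_num) ?_ ?_
  · intro m hm
    rw [mem_PT] at hm ⊢
    try simp only
    omega
  · rintro ⟨x, y⟩ hm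
    rw [mem_PT] at hm
    try simp only at hm
    refine ⟨(y, x), ?_, ?_⟩
    · rw [mem_PT]
      try simp only
      omega
    · ext
      · simp only; ring
      · simp only; ring

end Pool.Agent.H902.CB
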