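import Pool.Agent.H902.CB.Red
import Pool.Agent.H902.CB.Tri

set_option autoImplicit false

/-!
# The reduction step for the gluing along a line
-/

namespace Pool.Agent.H902.CB

open Finset Pool.Agent.TH176.Nag Pool.Agent.TH603.Sur Pool.Agent.TH641.UM

/-- the number of exponents in the first columns -/
theorem two_card {c d : ℕ} (hc : c ≤ d + 1) :
    (2 : ℤ) * (PT c d d).card = (c + 1) * (2 * (d + 1) - c) := by
  rw [card_swap, card_PTi hc]
  have h := two_chN c
  zify at h
  push_cast at h ⊢
  linarith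

/-- the number of columns for a given number of conditions -/
theorem exists_col {d c0 N : ℕ} (h0 : (PT c0 d d).card ≤ N) : ∀ J : ℕ,
    N < (PT (c0 + J) d d).card → c0 + J ≤ d →
    ∃ j < J, (PT (c0 + j) d d).card ≤ N ∧ N < (PT (c0 + j + 1) d d).card := by
  intro J
  induction J with
  | zero =>
    intro h _
    rw [add_zero] at h
    omega
  | succ J ih =>
    intro h hd
    rcases lt_or_ge N (PT (c0 + J) d d).card with h1 | h1
    · obtain ⟨j, hj, h2⟩ := ih h1 (by omega)
      exact ⟨j, by omega, h2⟩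
    · exact ⟨J, by omega, h1, by rw [add_assoc]; exact h⟩

/-- a class of degree `d` from the classes of degree `d - 1` -/
theorem caseBV {Q : ℕ → Multiset ℕ → Prop} {d : ℕ} {s : Multiset ℕ} (IH : IHQ Q d)
    (hn : Q (d - 1) s) (h3 : LE 3 (d - 1) s) (hd : 1 ≤ d) (hN : 2 * cM s ≤ d * (d + 1)) :
    EIM s (PT d d d) := by
  obtain ⟨f, rfl⟩ : ∃ f, d = f + 1 := ⟨d - 1, by omega⟩
  rw [Nat.add_sub_cancel] at h3 hn
  have h1 := IH f (by omega) s hn h3
  have hv := cond_cM (vals_self s)
  have h2 := card_succ f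
  have h4 := two_chN (f + 1)
  have h5 := card_PT f
  have hle : cM s ≤ (PT f f f).card := by
    rw [h5]
    nlinarith
  refine ⟨fun hc => ?_, fun _ => (h1.2 (by rw [hv]; exact hle)).mono ?_⟩
  · exfalso
    rw [hv] at hc
    omega
  · intro p hp
    rw [mem_coe, mem_PT] at hp ⊢
    omega

/-- **the reduction step for the gluing along a line** -/
theorem stepV {Q : ℕ → Multiset ℕ → Prop} {d p q : ℕ} {H T : Multiset ℕ} (IH : IHQ Q d)
    (hQ1 : ∀ a b t s', 2 * p ≤ a → 4 * a ≤ 9 * p + 4 → 2 * p ≤ b → 4 * b ≤ 9 * p + 4 →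
      t ::ₘ s' ≤ T → s'.card + 2 ≤ (H + T).card → Q (a + b - t) ((a - t) ::ₘ (b - t) ::ₘ s'))
    (hQ2 : ∀ b D s', 2 * p ≤ b → 4 * b ≤ 9 * p + 4 → D < d → b ≤ D → s' ≤ T →
      s'.card + 1 ≤ (H + T).card → Q D ((D - b) ::ₘ s'))
    (hQ3 : ∀ D s', D < d → s' ≤ T → Q D (H + s')) (hT : ∀ x ∈ T, x ≤ p)
    (h3 : LE 3 q (H + T)) (hA1 : 4 * q + 9 * p + 8 ≤ 4 * d) (hA2 : 21 * p + 8 ≤ 4 * d)
    (hB : 2 * cM H + 2 * ((2 * p + 1) * (d + 1 - p)) ≤ d * (d + 1)) :
    EIM (H + T) (PT d d d) := by
  rcases le_or_gt ((2 * p + 1) * (d + 1 - p)) (cM T) with hc | hc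
  · by_cases htot : 2 * cM (H + T) ≤ d * (d + 1)
    · exact caseBV IH (hQ3 _ T (by omega) le_rfl) (h3.mono' (by omega)) (by omega) htot
    have hpos : 1 ≤ (2 * p + 1) * (d + 1 - p) := Nat.mul_pos (by omega) (by omega)
    obtain ⟨T1, T2, rfl, h4, h5⟩ := greedy hpos T hT hc
    have hT1 : ∀ x ∈ T1, x ≤ p := fun x hx => hT x (Multiset.mem_add.2 (Or.inl hx))
    have hch := two_chN p
    have hp1 : 1 ≤ p := by
      by_contra hcon
      obtain rfl : p = 0 := by omega
      rw [zero_mul] at hch
      omega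
    -- the number of columns
    have hK : ∀ c : ℕ, c ≤ d → (2 : ℤ) * (PT c d d).card = (c + 1) * (2 * (d + 1) - c) :=
      fun c hc => two_card (by omega)
    have k0 : (PT (2 * p) d d).card ≤ cM T1 := by
      have h6 := hK (2 * p) (by omega)
      zify at h4 ⊢
      rw [Nat.cast_sub (by omega)] at h4
      push_cast at h4 h6
      nlinarith
    obtain ⟨J, hJ⟩ : ∃ J, J = p / 4 + 1 := ⟨_, rfl⟩
    have hJ1 : p + 1 ≤ 4 * J := by omega
    have hJ2 : 4 * J ≤ p + 4 := by omega
    have k1 : cM T1 < (PT (2 * p + J) d d).card := by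
      have h6 := hK (2 * p + J) (by omega)
      zify at h5 ⊢
      rw [Nat.cast_sub (by omega)] at h5
      zify at hch hJ1 hJ2 hA2
      push_cast at h5 h6 hch
      nlinarith
    obtain ⟨i, hi, h7, h8⟩ := exists_col k0 J k1 (by omega)
    obtain ⟨f, hf⟩ : ∃ f, d = 2 * p + i + f + 2 := ⟨d - (2 * p + i + 2), by omega⟩
    have hcn := card_next (2 * p + i) f
    rw [← hf] at hcn
    obtain ⟨r, hr⟩ : ∃ r, cM T1 = (PT (2 * p + i) d d).card + r :=
      ⟨cM T1 - (PT (2 * p + i) d d).card, by omega⟩
    -- the rest is not empty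
    have hne : 1 ≤ (H + T2).card := by
      by_contra hcon
      have h9 : H + T2 = 0 := Multiset.card_eq_zero.1 (by omega)
      apply htot
      rw [show H + (T1 + T2) = T1 + (H + T2) by
        rw [← add_assoc, ← add_assoc, add_comm H T1], h9, add_zero]
      have h10 : 2 * ((2 * p + 1) * (d + 1 - p)) + p * (p + 1) ≤ d * (d + 1) := by
        zify
        rw [Nat.cast_sub (by omega)]
        zify at hA2
        push_cast
        nlinarith
      omega
    rw [show H + (T1 + T2) = T1 + (H + T2) by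
      rw [← add_assoc, ← add_assoc, add_comm H T1]] at hQ1 hQ2 h3 ⊢
    rw [Multiset.card_add] at hQ1 hQ2
    have hle2 : LE 2 (2 * p) T1 := by
      intro t ht hc
      have : ∀ x ∈ t, x ≤ p := fun x hx => hT1 x (Multiset.mem_of_le ht hx)
      have h8 := Multiset.sum_le_card_nsmul t p this
      rw [smul_eq_mul] at h8
      exact h8.trans (Nat.mul_le_mul_right _ hc)
    have hle3 : LE 3 (3 * p) T1 := by
      intro t ht hc
      have : ∀ x ∈ t, x ≤ p := fun x hx => hT1 x (Multiset.mem_of_le ht hx)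
      have h8 := Multiset.sum_le_card_nsmul t p this
      rw [smul_eq_mul] at h8
      exact h8.trans (Nat.mul_le_mul_right _ hc)
    have hstrip : ∀ b : ℕ, 2 * p ≤ b → b ≤ 2 * p + J → EIM T1 (PT b d d) := by
      intro b hb1 hb2
      refine M_swap ?_
      have h9 := step (d := d) (b := b) (p := p) (q := 3 * p) (H := 0) (T := T1) IH
        (fun a t s' ha1 ha2 hts => hQ1 a b t s' ha1 ha2 hb1 (by omega)
          (hts.trans (Multiset.le_add_right _ _)) (by
            have := Multiset.card_le_card hts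
            rw [Multiset.card_cons] at this
            omega))
        (fun D s' hD1 hD2 hs' => by
          rw [zero_add]
          refine hQ2 b D s' hb1 (by omega) hD1 hD2 (hs'.trans (Multiset.le_add_right _ _)) ?_
          have := Multiset.card_le_card hs'
          omega)
        hT1 hb1 (by rw [zero_add]; exact hle2.mono' hb1)
        (by rw [zero_add]; exact hle3) (by omega) (by omega) (by
          rw [cM_zero]
          have h10 : 2 * (2 * p + 1) + b ≤ 2 * d := by omega
          have h11 := Nat.mul_le_mul_left (b + 1) h10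
          nlinarith)
      rw [zero_add] at h9
      exact h9
    have h2 : LE 3 f (H + T2) := by
      intro t ht hc
      have := h3 t (ht.trans (Multiset.le_add_left _ _)) hc
      omega
    have key := M_tri (s1 := T1) (s2 := H + T2) (c := 2 * p + i) (f := f) (r := r)
      (by rw [← hf]; exact hr) (by omega) (by rw [← hf]; exact hstrip _ (by omega) (by omega))
      (by rw [← hf]; exact hstrip _ (by omega) (by omega))
      (IH f (by omega) _ (hQ3 f T2 (by omega) (Multiset.le_add_left _ _)) h2)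
      (IH (f + 1) (by omega) _ (hQ3 (f + 1) T2 (by omega) (Multiset.le_add_left _ _))
        (h2.mono' (by omega)))
    rw [← hf] at key
    exact key
  · refine caseBV IH (hQ3 _ T (by omega) le_rfl) (h3.mono' (by omega)) (by omega) ?_
    rw [cM_add]
    omega

end Pool.Agent.H902.CB
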