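import Pool.Agent.H902.CB.Brg
import Pool.Agent.H902.CB.StepV

set_option autoImplicit false

/-!
# A bounded number of points suffices
-/

namespace Pool.Agent.H902.CB

open Finset Pool.Agent.TH176.Nag Pool.Agent.TH603.Sur Pool.Agent.TH641.UM Pool.Agent.H932R3

theorem cM_mono {s0 s : Multiset ℕ} (h : s0 ≤ s) : cM s0 ≤ cM s := by
  obtain ⟨u, rfl⟩ := Multiset.le_iff_exists_add.1 h
  rw [cM_add]
  exact Nat.le_add_right _ _

/-- more points -/
theorem M_mono {s0 s : Multiset ℕ} (h : s0 ≤ s) {S : Finset (ℤ × ℤ)} (hc : S.card ≤ cM s0)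
    (hE : EIM s0 S) : EIM s S := by
  obtain ⟨u, rfl⟩ := Multiset.le_iff_exists_add.1 h
  have hs : (univ : Finset (s0.ToType ⊕ u.ToType)).val.map
      (Sum.elim (fun x : s0.ToType => x.1) (fun x : u.ToType => x.1)) = s0 + u := by
    rw [vals_sum, vals_self, vals_self]
  rw [EIM_iff hs]
  have h0 := hE.1 (by rw [cond_cM (vals_self s0)]; exact hc)
  have h1 : Emp (Sum.elim (fun x : s0.ToType => x.1) (fun x : u.ToType => x.1))
      (↑S : Set (ℤ × ℤ)) := Emp_emb Sum.inl Sum.inl_injective (fun i => by simp) h0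
  refine ⟨fun _ => h1, fun hle => ⟨S, subset_rfl, le_antisymm ?_ hle, h1⟩⟩
  rw [cond_sum, cond_cM (vals_self s0)]
  exact hc.trans (Nat.le_add_right _ _)

theorem exists_sub {s : Multiset ℕ} {N : ℕ} (h : N ≤ s.card) : ∃ s0 ≤ s, s0.card = N := by
  obtain ⟨l, rfl⟩ := Quot.exists_rep s
  refine ⟨((l.take N : List ℕ) : Multiset ℕ), ?_, ?_⟩
  · exact Multiset.coe_le.2 (List.take_sublist N l).subperm
  · rw [Multiset.coe_card, List.length_take]
    exact min_eq_left h

theorem cM_ge {μ : ℕ} (s : Multiset ℕ) : (∀ x ∈ s, μ ≤ x) → s.card * (μ * (μ + 1)) ≤ 2 * cM s := by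
  induction s using Multiset.induction with
  | empty =>
    intro _
    rw [cM_zero]
    simp
  | cons x s ih =>
    intro h
    have h1 := ih fun y hy => h y (Multiset.mem_cons_of_mem hy)
    have h2 := h x (Multiset.mem_cons_self x s)
    have h3 := two_chN x
    have h4 : μ * (μ + 1) ≤ x * (x + 1) := Nat.mul_le_mul h2 (by omega)
    rw [cM_cons, Multiset.card_cons, add_mul]
    omega

/-- the classes which occur -/
inductive QR (μ M : ℕ) : ℕ → Multiset ℕ → Prop
  | zero (d : ℕ) (s : Multiset ℕ) (h : ∀ x ∈ s, μ ≤ x ∧ x ≤ M) : QR μ M d s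
  | one (d b : ℕ) (s : Multiset ℕ) (h : ∀ x ∈ s, μ ≤ x ∧ x ≤ M) (hb : b ≤ d) (hb1 : 2 * M ≤ b)
      (hb2 : 4 * b ≤ 9 * M + 4) : QR μ M d ((d - b) ::ₘ s)
  | two (a b t : ℕ) (s : Multiset ℕ) (h : ∀ x ∈ s, μ ≤ x ∧ x ≤ M) (ht : μ ≤ t ∧ t ≤ M)
      (ha1 : 2 * M ≤ a) (ha2 : 4 * a ≤ 9 * M + 4) (hb1 : 2 * M ≤ b) (hb2 : 4 * b ≤ 9 * M + 4) :
      QR μ M (a + b - t) ((a - t) ::ₘ (b - t) ::ₘ s)

/-- the small classes -/
theorem small {μ M N : ℕ} (hN : ∀ d, 4 * d < 21 * M + 8 → (d + 1) * (d + 2) ≤ N * (μ * (μ + 1)))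
    (base : ∀ d, 4 * d < 21 * M + 8 → ∀ s : Multiset ℕ, s.card ≤ N → LE 3 d s →
      EIM s (PT d d d)) {d : ℕ} (hd : 4 * d < 21 * M + 8) {s : Multiset ℕ} (hs : QR μ M d s)
    (h3 : LE 3 d s) : EIM s (PT d d d) := by
  rcases Nat.lt_or_ge N s.card with hc | hc
  swap
  · exact base d hd s hc h3
  obtain ⟨s1, h1, h2, h4⟩ : ∃ s1 ≤ s, N ≤ s1.card ∧ ∀ x ∈ s1, μ ≤ x := by
    rcases hs with ⟨d, s, h⟩ | ⟨d, b, s, h, hb, hb1, hb2⟩ | ⟨a, b, t, s, h, ht, ha1, ha2, hb1, hb2⟩
    · exact ⟨s, le_rfl, hc.le, fun x hx => (h x hx).1⟩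
    · refine ⟨s, Multiset.le_cons_self _ _, ?_, fun x hx => (h x hx).1⟩
      rw [Multiset.card_cons] at hc
      omega
    · refine ⟨_, le_rfl, hc.le, fun x hx => ?_⟩
      rw [Multiset.mem_cons, Multiset.mem_cons] at hx
      rcases hx with rfl | rfl | hx
      · omega
      · omega
      · exact (h x hx).1
  obtain ⟨s0, h5, h6⟩ := exists_sub h2
  have h7 := cM_ge s0 fun x hx => h4 x (Multiset.mem_of_le h5 hx)
  have h8 := hN d hd
  rw [h6] at h7
  have h9 : (PT d d d).card ≤ cM s0 := by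
    rw [card_PT]
    have h10 : 2 * (d + 2).choose 2 = (d + 1) * (d + 2) := two_chN (d + 1)
    omega
  exact M_mono (h5.trans h1) h9 (base d hd s0 h6.le (h3.mono (h5.trans h1)))

/-- all classes from the small ones -/
theorem all' {μ M : ℕ} (hμ : 1 ≤ μ) (hM : μ ≤ M)
    (base : ∀ d, 4 * d < 21 * M + 8 → ∀ s : Multiset ℕ, QR μ M d s → LE 3 d s →
      EIM s (PT d d d)) : ∀ (d : ℕ) (s : Multiset ℕ), QR μ M d s → LE 3 d s →
      EIM s (PT d d d) := by
  intro d
  induction d using Nat.strong_induction_on with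
  | _ d ih =>
    intro s hs h3
    rcases Nat.lt_or_ge (4 * d) (21 * M + 8) with hd | hd
    · exact base d hd s hs h3
    have IH : IHQ (QR μ M) d := ih
    have hsub : ∀ {s s' : Multiset ℕ}, s' ≤ s → (∀ x ∈ s, μ ≤ x ∧ x ≤ M) →
        ∀ x ∈ s', μ ≤ x ∧ x ≤ M := fun hle h x hx => h x (Multiset.mem_of_le hle hx)
    have hLE3 : ∀ {s : Multiset ℕ}, (∀ x ∈ s, μ ≤ x ∧ x ≤ M) → LE 3 (3 * M) s := by
      intro s h t ht hc
      have : ∀ x ∈ t, x ≤ M := fun x hx => (h x (Multiset.mem_of_le ht hx)).2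
      have h8 := Multiset.sum_le_card_nsmul t M this
      rw [smul_eq_mul] at h8
      exact h8.trans (Nat.mul_le_mul_right _ hc)
    rcases hs with ⟨d, s, h⟩ | ⟨d, b, s, h, hb, hb1, hb2⟩ | ⟨a, b, t, s, h, ht, ha1, ha2, hb1, hb2⟩
    · have key := stepV (Q := QR μ M) (d := d) (p := M) (q := 3 * M) (H := 0) (T := s) IH
        (by
          intro a b t s' h1 h2 h4 h5 h6 _
          exact QR.two a b t s' (hsub ((Multiset.le_cons_self _ _).trans h6) h)
            (h t (Multiset.mem_of_le h6 (Multiset.mem_cons_self _ _))) h1 h2 h4 h5)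
        (by
          intro b D s' h1 h2 _ h4 h5 _
          exact QR.one D b s' (hsub h5 h) h4 h1 h2)
        (by
          intro D s' _ h5
          rw [zero_add]
          exact QR.zero D s' (hsub h5 h))
        (fun x hx => (h x hx).2) (by rw [zero_add]; exact hLE3 h) (by omega) (by omega) (by
          rw [cM_zero]
          zify
          rw [Nat.cast_sub (by omega)]
          zify at hd
          push_cast
          nlinarith)
      rw [zero_add] at key
      exact key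
    · have hb4 : LE 2 b s := by
        intro t ht hc
        have := h3 ((d - b) ::ₘ t) (Multiset.cons_le_cons _ ht) (by
          rw [Multiset.card_cons]
          omega)
        rw [Multiset.sum_cons] at this
        omega
      have hA1 : 4 * b + 9 * M + 8 ≤ 4 * d := by
        rcases Nat.lt_or_ge M 2 with h2 | h2
        · obtain rfl : M = 1 := by omega
          omega
        · omega
      have key := step (Q := QR μ M) (d := d) (b := b) (p := M) (q := 3 * M) (H := 0) (T := s) IH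
        (by
          intro a t s' h1 h2 h6
          exact QR.two a b t s' (hsub ((Multiset.le_cons_self _ _).trans h6) h)
            (h t (Multiset.mem_of_le h6 (Multiset.mem_cons_self _ _))) h1 h2 hb1 hb2)
        (by
          intro D s' _ h4 h5
          rw [zero_add]
          exact QR.one D b s' (hsub h5 h) h4 hb1 hb2)
        (fun x hx => (h x hx).2) hb1 (by rw [zero_add]; exact hb4)
        (by rw [zero_add]; exact hLE3 h) hA1 (by omega) (by
          rw [cM_zero]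
          have h10 : 2 * (2 * M + 1) + b ≤ 2 * d := by omega
          have h11 := Nat.mul_le_mul_left (b + 1) h10
          nlinarith)
      rw [zero_add] at key
      exact M_top hb key
    · omega

/-- all classes -/
theorem all {μ M N : ℕ} (hμ : 1 ≤ μ) (hM : μ ≤ M)
    (hN : ∀ d, 4 * d < 21 * M + 8 → (d + 1) * (d + 2) ≤ N * (μ * (μ + 1)))
    (base : ∀ d, 4 * d < 21 * M + 8 → ∀ s : Multiset ℕ, s.card ≤ N → LE 3 d s →
      EIM s (PT d d d)) : ∀ (d : ℕ) (s : Multiset ℕ), QR μ M d s → LE 3 d s →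
      EIM s (PT d d d) :=
  all' hμ hM fun _ hd _ hs h3 => small hN base hd hs h3

/-- the three largest of finitely many numbers -/
theorem LE_of_fin {n d : ℕ} {w : Fin n → ℕ}
    (h : ∀ t : Finset (Fin n), t.card ≤ 3 → ∑ i ∈ t, w i ≤ d) :
    LE 3 d (univ.val.map w) := by
  intro t ht hc
  obtain ⟨u, hu, rfl⟩ : ∃ u : Multiset (Fin n), u ≤ univ.val ∧ u.map w = t := by
    obtain ⟨l, hl⟩ : ∃ l : List (Fin n), (l : Multiset (Fin n)) = univ.val :=
      Quot.exists_rep _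
    obtain ⟨l', rfl⟩ : ∃ l' : List ℕ, (l' : Multiset ℕ) = t := Quot.exists_rep _
    rw [← hl, Multiset.map_coe, Multiset.coe_le] at ht
    obtain ⟨l2, h1, h2⟩ := ht
    obtain ⟨l3, h3, rfl⟩ := List.sublist_map_iff.1 h2
    refine ⟨(l3 : Multiset (Fin n)), ?_, ?_⟩
    · rw [← hl]
      exact Multiset.coe_le.2 h3.subperm
    · rw [Multiset.map_coe]
      exact Multiset.coe_eq_coe.2 h1
  rw [Multiset.card_map] at hc
  exact h ⟨u, Multiset.nodup_of_le hu univ.nodup⟩ hc

theorem fin_of_LE {n d : ℕ} {w : Fin n → ℕ} (h : LE 3 d (univ.val.map w)) :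
    ∀ t : Finset (Fin n), t.card ≤ 3 → ∑ i ∈ t, w i ≤ d := by
  intro t ht
  refine h (t.val.map w) (Multiset.map_le_map (Finset.val_le_iff.2 (Finset.subset_univ t))) ?_
  rw [Multiset.card_map]
  exact ht

/-- non-special at general points -/
def NSw {n : ℕ} (w : Fin n → ℕ) (d : ℕ) : Prop :=
  ∃ F : MvPolynomial (Fin n × Fin 2) ℂ, F ≠ 0 ∧ ∀ P : Fin n → Fin 2 → ℂ,
    MvPolynomial.eval (fun q : Fin n × Fin 2 => P q.1 q.2) F ≠ 0 → ExpDim ℂ w P d

/-- the sum of any three multiplicities is at most the degree -/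
def Stw {n : ℕ} (w : Fin n → ℕ) (d : ℕ) : Prop :=
  ∀ t : Finset (Fin n), t.card ≤ 3 → ∑ i ∈ t, w i ≤ d

theorem few {μ M N : ℕ} (hμ : 1 ≤ μ) (hM : μ ≤ M)
    (hN : ∀ d, 4 * d < 21 * M + 8 → (d + 1) * (d + 2) ≤ N * (μ * (μ + 1)))
    (base : ∀ n ≤ N, ∀ (w : Fin n → ℕ) (d : ℕ), 4 * d < 21 * M + 8 → Stw w d → NSw w d)
    {n : ℕ} (w : Fin n → ℕ) (hw : ∀ i, μ ≤ w i ∧ w i ≤ M) {d : ℕ} (h3 : Stw w d) : NSw w d := by
  have h1 := all hμ hM hN (fun d hd s hs h3 => by
    obtain ⟨l, rfl⟩ : ∃ l : List ℕ, (l : Multiset ℕ) = s := Quot.exists_rep s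
    have hv : (univ : Finset (Fin l.length)).val.map l.get = (l : Multiset ℕ) := by
      rw [Fin.univ_val_map, List.ofFn_get]
    rw [EIM_iff hv]
    have hlen : l.length ≤ N := hs
    refine gen_iff.1 (base l.length hlen l.get d hd (fin_of_LE ?_))
    rw [hv]
    exact h3) d (univ.val.map w) (QR.zero d _ fun x hx => by
      obtain ⟨i, _, rfl⟩ := Multiset.mem_map.1 hx
      exact hw i) (LE_of_fin h3)
  exact gen_iff.2 ((EIM_iff rfl).1 h1)

end Pool.Agent.H902.CB
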