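import Pool.Agent.H902.CB.Tile

set_option autoImplicit false

/-!
# Replacing the multiplicities `x` by `b - x`
-/

namespace Pool.Agent.H902.CB

open Finset Pool.Agent.TH176.Nag Pool.Agent.TH603.Sur

theorem exists_vals (s : Multiset ℕ) : ∃ (n : ℕ) (w : Fin n → ℕ), (univ : Finset (Fin n)).val.map w = s := by
  refine ⟨s.toList.length, fun i => s.toList.getD i 0, ?_⟩
  have h := vals_list s.toList s.toList.length le_rfl
  rw [Nat.sub_self, Multiset.replicate_zero, zero_add, Multiset.coe_toList] at h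
  exact h

/-- one quadratic transformation -/
theorem M_quad {d a x y d' a' x' y' : ℕ} {s : Multiset ℕ} (hd : (d' : ℤ) = 2 * d - a - x - y)
    (ha : (a' : ℤ) = d - x - y) (hx : (x' : ℤ) = d - a - y) (hy : (y' : ℤ) = d - a - x)
    (h : EIM (a ::ₘ x ::ₘ y ::ₘ s) (PT d d d)) :
    EIM (a' ::ₘ x' ::ₘ y' ::ₘ s) (PT d' d' d') := by
  obtain ⟨n, u, hu⟩ := exists_vals s
  have v1 : (univ : Finset (Fin (n + 3))).val.map
      (Fin.cons a (Fin.cons x (Fin.cons y u)) : Fin (n + 3) → ℕ) = a ::ₘ x ::ₘ y ::ₘ s := by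
    rw [vals_fcons, vals_fcons, vals_fcons, hu]
  have v2 : (univ : Finset (Fin (n + 3))).val.map
      (Fin.cons a' (Fin.cons x' (Fin.cons y' u)) : Fin (n + 3) → ℕ) =
        a' ::ₘ x' ::ₘ y' ::ₘ s := by
    rw [vals_fcons, vals_fcons, vals_fcons, hu]
  rw [EIM_iff v1] at h
  rw [EIM_iff v2]
  refine EI_carries (a := (d, (Fin.cons a (Fin.cons x (Fin.cons y u)) : Fin (n + 3) → ℕ)))
    (b := (d', (Fin.cons a' (Fin.cons x' (Fin.cons y' u)) : Fin (n + 3) → ℕ)))
    (Relation.ReflTransGen.single ⟨0, Fin.succ 0, Fin.succ (Fin.succ 0), ?_, ?_, ?_, ?_, ?_, ?_,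
      ?_, ?_⟩) h
  · exact (Fin.succ_ne_zero _).symm
  · exact (Fin.succ_ne_zero _).symm
  · intro h0
    exact Fin.succ_ne_zero _ (Fin.succ_injective _ h0).symm
  · exact hd
  · exact ha
  · exact hx
  · exact hy
  · intro l l1 l2 l3
    rcases Fin.eq_zero_or_eq_succ l with rfl | ⟨l, rfl⟩
    · exact absurd rfl l1
    rcases Fin.eq_zero_or_eq_succ l with rfl | ⟨l, rfl⟩
    · exact absurd rfl l2
    rcases Fin.eq_zero_or_eq_succ l with rfl | ⟨l, rfl⟩
    · exact absurd rfl l3
    dsimp only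
    rw [Fin.cons_succ, Fin.cons_succ, Fin.cons_succ, Fin.cons_succ, Fin.cons_succ, Fin.cons_succ]

/-- two elementary transformations -/
theorem M_flip {a b x : ℕ} {s : Multiset ℕ} (hx : 2 * x ≤ b)
    (h : EIM (a ::ₘ b ::ₘ x ::ₘ x ::ₘ s) (PT (a + b) (a + b) (a + b))) :
    EIM ((a + (b - 2 * x)) ::ₘ b ::ₘ (b - x) ::ₘ (b - x) ::ₘ s)
      (PT (a + (b - 2 * x) + b) (a + (b - 2 * x) + b) (a + (b - 2 * x) + b)) := by
  have e1 : a ::ₘ b ::ₘ x ::ₘ x ::ₘ s = a ::ₘ x ::ₘ x ::ₘ b ::ₘ s := by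
    congr 1
    rw [Multiset.cons_swap b x, Multiset.cons_swap b x]
  have e2 : (a + (b - 2 * x)) ::ₘ b ::ₘ (b - x) ::ₘ (b - x) ::ₘ s =
      (a + (b - 2 * x)) ::ₘ (b - x) ::ₘ (b - x) ::ₘ b ::ₘ s := by
    congr 1
    rw [Multiset.cons_swap b (b - x), Multiset.cons_swap b (b - x)]
  rw [e1] at h
  rw [e2]
  refine M_quad (d := a + b) ?_ ?_ ?_ ?_ h
  · omega
  · omega
  · omega
  · omega

theorem rect_of_plane {a b : ℕ} {s : Multiset ℕ}
    (h : EIM (a ::ₘ b ::ₘ s) (PT (a + b) (a + b) (a + b))) : EIM s (PT a b (a + b)) := by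
  refine M_cut2 (a := a) (by omega) (by omega) (M_cut1 (b := b) (by omega) ?_)
  rw [Nat.add_sub_cancel, Nat.add_sub_cancel_left]
  exact h

/-- smaller rectangles, if there are no sections -/
theorem rect_smaller {a a' b : ℕ} {s : Multiset ℕ} (ha : a' ≤ a) (hc : (a + 1) * (b + 1) ≤ cM s)
    (h : EIM s (PT a b (a + b))) : EIM s (PT a' b (a' + b)) := by
  have hv := vals_self s
  rw [EIM_iff hv] at h ⊢
  have hcond := cond_cM hv
  have h1 := h.1 (by rw [card_rect, hcond]; exact hc)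
  have h2 : Emp (fun x : s.ToType => x.1) (↑(PT a' b (a' + b)) : Set (ℤ × ℤ)) := by
    rw [coe_Rc] at h1 ⊢
    refine h1.mono ?_
    rintro ⟨u, v⟩ ⟨k1, k2, k3, k4⟩
    simp only at k1 k2 k3 k4
    push_cast at k2
    exact ⟨k1, by simp only; push_cast; omega, k3, k4⟩
  have h3 : (PT a' b (a' + b)).card ≤ cond (fun x : s.ToType => x.1) := by
    rw [card_rect, hcond]
    exact (Nat.mul_le_mul_right _ (by omega)).trans hc
  exact ⟨fun _ => h2, fun hle => ⟨_, subset_rfl, le_antisymm h3 hle, h2⟩⟩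

theorem BR_flip {b x M : ℕ} (hx : 2 * x ≤ b) (hM : b + 1 ≤ M * (x * (x + 1)))
    (h : BR b (Multiset.replicate (2 * M) x)) : BR b (Multiset.replicate (2 * M) (b - x)) := by
  -- after `k` steps
  have key : ∀ k, k ≤ M → ∀ a, EIM ((a + k * (b - 2 * x)) ::ₘ b ::ₘ
      (Multiset.replicate (2 * k) (b - x) + Multiset.replicate (2 * (M - k)) x))
      (PT (a + k * (b - 2 * x) + b) (a + k * (b - 2 * x) + b) (a + k * (b - 2 * x) + b)) := by
    intro k
    induction k with
    | zero =>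
      intro _ a
      rw [Nat.zero_mul, Nat.add_zero, Nat.mul_zero, Multiset.replicate_zero, zero_add, Nat.sub_zero]
      exact plane_of_BR h a
    | succ k ih =>
      intro hk a
      have h1 := ih (by omega) a
      have e1 : Multiset.replicate (2 * k) (b - x) + Multiset.replicate (2 * (M - k)) x =
          x ::ₘ x ::ₘ (Multiset.replicate (2 * k) (b - x) +
            Multiset.replicate (2 * (M - (k + 1))) x) := by
        rw [show 2 * (M - k) = 2 * (M - (k + 1)) + 1 + 1 by omega, Multiset.replicate_succ,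
          Multiset.replicate_succ, Multiset.add_cons, Multiset.add_cons]
      rw [e1] at h1
      have h2 := M_flip hx h1
      have e2 : Multiset.replicate (2 * (k + 1)) (b - x) +
          Multiset.replicate (2 * (M - (k + 1))) x =
          (b - x) ::ₘ (b - x) ::ₘ (Multiset.replicate (2 * k) (b - x) +
            Multiset.replicate (2 * (M - (k + 1))) x) := by
        rw [show 2 * (k + 1) = 2 * k + 1 + 1 by omega, Multiset.replicate_succ,
          Multiset.replicate_succ, Multiset.cons_add, Multiset.cons_add]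
      rw [e2, Nat.succ_mul, ← Nat.add_assoc]
      exact h2
  have h1 : ∀ a, EIM (Multiset.replicate (2 * M) (b - x))
      (PT (a + M * (b - 2 * x)) b (a + M * (b - 2 * x) + b)) := by
    intro a
    have h2 := key M le_rfl a
    rw [Nat.sub_self, Nat.mul_zero, Multiset.replicate_zero, add_zero] at h2
    exact rect_of_plane h2
  intro a
  rcases Nat.lt_or_ge a (M * (b - 2 * x)) with h2 | h2
  · refine rect_smaller (a := 0 + M * (b - 2 * x)) (by omega) ?_ (h1 0)
    rw [← zero_add (Multiset.replicate (2 * M) (b - x)), cM_rep, cM_zero, zero_add]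
    have t1 := two_chN (b - x)
    obtain ⟨y, rfl⟩ : ∃ y, b = 2 * x + y := ⟨b - 2 * x, by omega⟩
    rw [show 2 * x + y - x = x + y by omega] at t1 ⊢
    rw [show 2 * x + y - 2 * x = y by omega]
    have e : 2 * M * (x + y + 1).choose 2 = M * ((x + y) * (x + y + 1)) := by
      rw [← t1]
      ring
    rw [e]
    nlinarith
  · obtain ⟨c, rfl⟩ : ∃ c, a = c + M * (b - 2 * x) := ⟨a - M * (b - 2 * x), by omega⟩
    exact h1 c

end Pool.Agent.H902.CB
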