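import Pool.Agent.H902.CB.Wr
import Pool.Agent.H902.CB.Blocks

set_option autoImplicit false

/-!
# Gluing along a fibre
-/

namespace Pool.Agent.H902.CB

open Finset Pool.Agent.TH176.Nag Pool.Agent.TH603.Sur Pool.Agent.TH641.UM

/-- the strip as a finite set -/
def DF (φ : ℤ → ℤ) (h : ℕ) (c : ℤ) : Finset (ℤ × ℤ) :=
  ((Finset.range h).sigma fun y => Finset.range (c - φ y).toNat).image
    fun p : (_ : ℕ) × ℕ => ((p.2 : ℤ), (p.1 : ℤ))

theorem coe_DF (φ : ℤ → ℤ) (h : ℕ) (c : ℤ) : (↑(DF φ h c) : Set (ℤ × ℤ)) = D φ h c := by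
  ext ⟨a, b⟩
  rw [mem_coe]
  simp only [DF, Finset.mem_image, Finset.mem_sigma, Finset.mem_range, D, Set.mem_ofPred_eq]
  constructor
  · rintro ⟨⟨y, x⟩, ⟨h1, h2⟩, h3⟩
    simp only [Prod.mk.injEq] at h3
    obtain ⟨rfl, rfl⟩ := h3
    simp only at h1 h2
    omega
  · rintro ⟨h1, h2, h3, h4⟩
    refine ⟨⟨b.toNat, a.toNat⟩, ⟨?_, ?_⟩, ?_⟩
    · simp only; omega
    · simp only
      rw [Int.toNat_of_nonneg h3]
      omega
    · simp only [Prod.mk.injEq]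
      omega

theorem card_DF (φ : ℤ → ℤ) (h : ℕ) (c : ℤ) :
    (DF φ h c).card = ∑ y ∈ Finset.range h, (c - φ y).toNat := by
  unfold DF
  rw [card_image_of_injective, card_sigma]
  · simp only [Finset.card_range]
  · rintro ⟨a, b⟩ ⟨a', b'⟩ h
    simp only [Prod.mk.injEq, Nat.cast_inj] at h
    obtain ⟨rfl, rfl⟩ := h
    rfl

theorem card_DF' {φ : ℤ → ℤ} {h : ℕ} {c : ℤ} (hs : ∑ y ∈ Finset.range h, φ y = 0)
    (hc : ∀ y : ℤ, 0 ≤ y → y < h → φ y ≤ c) : ((DF φ h c).card : ℤ) = h * c := by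
  rw [card_DF]
  push_cast
  have h1 : ∀ y ∈ Finset.range h, ((c - φ y).toNat : ℤ) = c - φ y := by
    intro y hy
    rw [Finset.mem_range] at hy
    have := hc y (by positivity) (by exact_mod_cast hy)
    omega
  rw [Finset.sum_congr rfl h1, Finset.sum_sub_distrib, hs]
  simp

theorem D_fin (φ : ℤ → ℤ) (h : ℕ) (c : ℤ) : (D φ h c).Finite := by
  rw [← coe_DF]
  exact Finset.finite_toSet _

/-- the exponents of the strip behave as expected -/
def Bal {ι : Type} [Fintype ι] (w : ι → ℕ) (φ : ℤ → ℤ) (h : ℕ) : Prop :=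
  ∀ c : ℤ, (c * h ≤ cond w → Emp w (D φ h c)) ∧ (cond w ≤ c * h → Sur w (D φ h c))

/-- the right wall: nondecreasing, centred, and inside the strips in question -/
structure Wall (φ : ℤ → ℤ) (h : ℕ) (N : ℕ) : Prop where
  pos : 0 < h
  mono : ∀ y y' : ℤ, 0 ≤ y → y ≤ y' → y' < h → φ y ≤ φ y'
  sum : ∑ y ∈ Finset.range h, φ y = 0
  le : ∀ y : ℤ, 0 ≤ y → y < h → φ y * h ≤ N

/-- the last exponents of the first column -/
theorem Emp_Q {ι : Type} [Fintype ι] {w : ι → ℕ} {φ : ℤ → ℤ} {h : ℕ} (hB : Bal w φ h)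
    (hW : Wall φ h (cond w)) :
    Emp w {p | 0 ≤ p.1 ∧ p.1 + φ p.2 < (cond w / h : ℕ) + 1 ∧ 0 ≤ p.2 ∧ p.2 < h ∧
      (p.1 ≠ 0 ∨ (h : ℤ) - (cond w % h : ℕ) ≤ p.2)} := by
  have hdm := Nat.div_add_mod (cond w) h
  have hlt := Nat.mod_lt (cond w) hW.pos
  obtain ⟨b, hb⟩ : ∃ b, b = cond w / h := ⟨_, rfl⟩
  obtain ⟨s, hs⟩ : ∃ s, s = cond w % h := ⟨_, rfl⟩
  rw [← hb, ← hs] at hdm ⊢
  rw [← hs] at hlt
  have hpos : (0 : ℤ) < h := by exact_mod_cast hW.pos
  have hdm' : ((h : ℤ) * b + s) = cond w := by exact_mod_cast hdm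
  have hφ : ∀ y : ℤ, 0 ≤ y → y < h → φ y ≤ b := by
    intro y h0 h1
    by_contra hcon
    have h2 := hW.le y h0 h1
    have h3 : ((b : ℤ) + 1) * h ≤ φ y * h := mul_le_mul_of_nonneg_right (by omega) hpos.le
    nlinarith
  have hS := (hB ((b : ℤ) + 1)).2 (by rw [← hdm']; nlinarith)
  have hE := (hB (b : ℤ)).1 (by rw [← hdm']; nlinarith)
  have hcard : ((DF φ h ((b : ℤ) + 1)).card : ℤ) = h * ((b : ℤ) + 1) :=
    card_DF' hW.sum fun y h0 h1 => (hφ y h0 h1).trans (by omega)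
  have h1 : Emp (Sum.elim w (fun _ : Fin (h - s) => 1)) (D φ h ((b : ℤ) + 1)) := by
    rw [← coe_DF] at hS ⊢
    refine Emp_ones_of_Sur hS ?_
    zify [hlt.le]
    rw [hcard, ← hdm']
    linarith
  refine (Emp_top (D_fin φ h _) (fun p hp => ⟨hp.1, hp.2.2.1⟩) ?_ ?_ h1).mono ?_
  · rintro a y y' ⟨h1, h2, h3, h4⟩ h0 hle
    simp only at h1 h2 h3 h4
    refine ⟨h1, ?_, h0, lt_of_le_of_lt hle h4⟩
    simp only
    have := hW.mono y' y h0 hle h4
    omega
  · refine hE.comap 1 0 0 1 (-1) 0 (by norm_num) ?_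
    rintro ⟨a, y⟩ ⟨⟨h1, h2, h3, h4⟩, h5⟩
    simp only at h1 h2 h3 h4 h5
    rw [show ((1 * a + 0 * y + -1, 0 * a + 1 * y + 0) : ℤ × ℤ) = (a - 1, y) by
      ext
      · simp only; ring
      · simp only; ring]
    refine ⟨?_, ?_, h3, h4⟩ <;> simp only <;> omega
  · rintro ⟨a, y⟩ ⟨h1, h2, h3, h4, h5⟩
    simp only at h1 h2 h3 h4 h5
    refine ⟨⟨h1, h2, h3, h4⟩, ?_⟩
    simp only
    omega

/-- rows filled from the left, column by column -/
theorem Emp_left {ι : Type} [Fintype ι] {w : ι → ℕ} {h : ℕ} (hh : 0 < h) (hB : Bal w φ0 h) :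
    Emp w {p | 0 ≤ p.1 ∧ 0 ≤ p.2 ∧ p.2 < h ∧ h * p.1 + p.2 < cond w} := by
  have hW : Wall φ0 h (cond w) := ⟨hh, fun _ _ _ _ _ => le_rfl, by simp, fun y _ _ => by simp⟩
  have h1 := Emp_Q hB hW
  have hdm := Nat.div_add_mod (cond w) h
  have hlt := Nat.mod_lt (cond w) hW.pos
  obtain ⟨b, hb⟩ : ∃ b, b = cond w / h := ⟨_, rfl⟩
  obtain ⟨s, hs⟩ : ∃ s, s = cond w % h := ⟨_, rfl⟩
  rw [← hb, ← hs] at hdm
  rw [← hb, ← hs] at h1
  rw [← hs] at hlt
  have hdm' : ((h : ℤ) * b + s) = cond w := by exact_mod_cast hdm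
  have hpos : (0 : ℤ) < h := by exact_mod_cast hW.pos
  refine h1.comap (-1) 0 0 (-1) b (h - 1) (by norm_num) ?_
  rintro ⟨a, y⟩ ⟨h2, h3, h4, h5⟩
  simp only at h2 h3 h4 h5
  rw [show ((-1 * a + 0 * y + b, 0 * a + -1 * y + (h - 1)) : ℤ × ℤ) = (b - a, h - 1 - y) by
    ext
    · simp only; ring
    · simp only; ring]
  rw [← hdm'] at h5
  have h6 : a ≤ b := by
    by_contra hcon
    have : (h : ℤ) * (b + 1) ≤ h * a := mul_le_mul_of_nonneg_left (by omega) hpos.le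
    nlinarith
  have h7 : a = b → y < s := by
    rintro rfl
    linarith
  simp only [Set.mem_ofPred_eq]
  refine ⟨by omega, ?_, by omega, by omega, ?_⟩
  · show (b : ℤ) - a + 0 < b + 1
    omega
  rcases eq_or_ne a b with h8 | h8
  · right
    have := h7 h8
    omega
  · left
    omega

/-- the columns filled from the left as a finite set -/
def LF (h N : ℕ) : Finset (ℤ × ℤ) :=
  (Finset.range N).image fun n => (((n / h : ℕ) : ℤ), ((n % h : ℕ) : ℤ))

theorem coe_LF {h : ℕ} (hh : 0 < h) (N : ℕ) : (↑(LF h N) : Set (ℤ × ℤ)) =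
    {p : ℤ × ℤ | 0 ≤ p.1 ∧ 0 ≤ p.2 ∧ p.2 < (h : ℤ) ∧ (h : ℤ) * p.1 + p.2 < (N : ℤ)} := by
  ext ⟨a, y⟩
  rw [mem_coe]
  simp only [LF, Finset.mem_image, Finset.mem_range, Set.mem_ofPred_eq]
  constructor
  · rintro ⟨n, h1, h2⟩
    simp only [Prod.mk.injEq] at h2
    obtain ⟨rfl, rfl⟩ := h2
    have h3 := Nat.div_add_mod n h
    have h4 := Nat.mod_lt n hh
    refine ⟨by positivity, by positivity, by exact_mod_cast h4, ?_⟩
    have : ((h : ℤ) * (n / h : ℕ) + (n % h : ℕ)) = n := by exact_mod_cast h3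
    rw [this]
    exact_mod_cast h1
  · rintro ⟨h1, h2, h3, h4⟩
    lift a to ℕ using h1
    lift y to ℕ using h2
    refine ⟨h * a + y, by exact_mod_cast h4, ?_⟩
    have h5 : y < h := by exact_mod_cast h3
    rw [Nat.mul_add_div hh, Nat.div_eq_of_lt h5, Nat.mul_add_mod, Nat.mod_eq_of_lt h5]
    simp

theorem card_LF {h : ℕ} (N : ℕ) : (LF h N).card = N := by
  unfold LF
  rw [card_image_of_injective, Finset.card_range]
  intro n n' hn
  simp only [Prod.mk.injEq, Nat.cast_inj] at hn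
  rw [← Nat.div_add_mod n h, ← Nat.div_add_mod n' h, hn.1, hn.2]

/-- the last exponents of the first column as a finite set -/
def QF (φ : ℤ → ℤ) (h : ℕ) (b s : ℕ) : Finset (ℤ × ℤ) :=
  (DF φ h ((b : ℤ) + 1)).filter fun p => ¬ (p.1 = 0 ∧ p.2 < (h : ℤ) - s)

theorem card_QF {φ : ℤ → ℤ} {h b s : ℕ} (hsum : ∑ y ∈ Finset.range h, φ y = 0)
    (hc : ∀ y : ℤ, 0 ≤ y → y < h → φ y ≤ b) (hs : s ≤ h) : (QF φ h b s).card = h * b + s := by
  have hcard : ((DF φ h ((b : ℤ) + 1)).card : ℤ) = h * ((b : ℤ) + 1) :=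
    card_DF' hsum fun y h0 h1 => (hc y h0 h1).trans (by omega)
  have h1 : (DF φ h ((b : ℤ) + 1)).filter (fun p => p.1 = 0 ∧ p.2 < (h : ℤ) - s) =
      (Finset.range (h - s)).image fun y : ℕ => (((0 : ℤ), (y : ℤ)) : ℤ × ℤ) := by
    ext ⟨a, y⟩
    rw [Finset.mem_filter, ← mem_coe, coe_DF]
    simp only [D, Set.mem_ofPred_eq, Finset.mem_image, Finset.mem_range, Prod.mk.injEq]
    constructor
    · rintro ⟨⟨h1, h2, h3, h4⟩, h5, h6⟩
      exact ⟨y.toNat, by omega, h5.symm, by omega⟩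
    · rintro ⟨n, h1, rfl, rfl⟩
      have h2 := hc n (by positivity) (by omega)
      refine ⟨⟨le_rfl, by omega, by positivity, by omega⟩, rfl, by omega⟩
  have h2 := Finset.card_filter_add_card_filter_not (s := DF φ h ((b : ℤ) + 1))
    (fun p : ℤ × ℤ => p.1 = 0 ∧ p.2 < (h : ℤ) - s)
  rw [h1, card_image_of_injective _ (fun y y' hy => by simpa using hy), Finset.card_range] at h2
  unfold QF
  zify [hs] at h2 ⊢
  rw [hcard] at h2
  linarith

/-- **gluing along a fibre** -/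
theorem glue {ι κ : Type} [Fintype ι] [Fintype κ] {w : ι → ℕ} {v : κ → ℕ} {φ : ℤ → ℤ} {h : ℕ}
    (hw : Bal w φ0 h) (hv : Bal v φ h) (hW : Wall φ h (cond v)) : Bal (Sum.elim w v) φ h := by
  have hQ := Emp_Q hv hW
  have hL := Emp_left hW.pos hw
  have hdm1 := Nat.div_add_mod (cond w) h
  have hlt1 := Nat.mod_lt (cond w) hW.pos
  have hdm2 := Nat.div_add_mod (cond v) h
  have hlt2 := Nat.mod_lt (cond v) hW.pos
  obtain ⟨b1, hb1⟩ : ∃ b, b = cond w / h := ⟨_, rfl⟩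
  obtain ⟨s1, hs1⟩ : ∃ s, s = cond w % h := ⟨_, rfl⟩
  obtain ⟨b2, hb2⟩ : ∃ b, b = cond v / h := ⟨_, rfl⟩
  obtain ⟨s2, hs2⟩ : ∃ s, s = cond v % h := ⟨_, rfl⟩
  obtain ⟨N1, hN1⟩ : ∃ N, N = cond w := ⟨_, rfl⟩
  obtain ⟨N2, hN2⟩ : ∃ N, N = cond v := ⟨_, rfl⟩
  rw [← hb1, ← hs1, ← hN1] at hdm1
  rw [← hb2, ← hs2, ← hN2] at hdm2
  rw [← hs1] at hlt1
  rw [← hs2] at hlt2
  rw [← hb2, ← hs2] at hQ
  rw [← hN1] at hL
  have hpos : (0 : ℤ) < h := by exact_mod_cast hW.pos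
  have hd1 : ((h : ℤ) * b1 + s1) = N1 := by exact_mod_cast hdm1
  have hd2 : ((h : ℤ) * b2 + s2) = N2 := by exact_mod_cast hdm2
  have hl1 : (s1 : ℤ) < h := by exact_mod_cast hlt1
  have hl2 : (s2 : ℤ) < h := by exact_mod_cast hlt2
  have hφ : ∀ y : ℤ, 0 ≤ y → y < h → φ y ≤ b2 := by
    intro y h0 h1
    by_contra hcon
    have h2 := hW.le y h0 h1
    rw [← hN2] at h2
    have h3 : ((b2 : ℤ) + 1) * h ≤ φ y * h := mul_le_mul_of_nonneg_right (by omega) hpos.le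
    nlinarith
  -- the cut
  have hcut : ∀ c : ℤ, ∀ p ∈ ({p | 0 ≤ p.1 ∧ 0 ≤ p.2 ∧ p.2 < h ∧ h * p.1 + p.2 < N1} : Set (ℤ × ℤ)),
      ∀ q ∈ ({p | p ∈ D φ h c ∧ (N1 : ℤ) ≤ h * p.1 + p.2} : Set (ℤ × ℤ)),
      (h : ℤ) * p.1 + 1 * p.2 < h * q.1 + 1 * q.2 ∨ ((h : ℤ) * p.1 + 1 * p.2 = h * q.1 + 1 * q.2 ∧
        (0 : ℤ) * p.1 + 0 * p.2 < 0 * q.1 + 0 * q.2) := by
    rintro c p ⟨_, _, _, h1⟩ q ⟨_, h2⟩
    left
    linarith
  -- the points of the right part
  have hR : ∀ a y : ℤ, 0 ≤ y → y < h → (N1 : ℤ) ≤ h * a + y → b1 ≤ a ∧ (a = b1 → (s1 : ℤ) ≤ y) := by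
    intro a y h0 h1 h2
    have h3 : (b1 : ℤ) ≤ a := by
      by_contra hcon
      have : (h : ℤ) * a ≤ h * (b1 - 1) := mul_le_mul_of_nonneg_left (by omega) hpos.le
      nlinarith
    refine ⟨h3, ?_⟩
    rintro rfl
    linarith
  have hR' : ∀ a y : ℤ, 0 ≤ y → (b1 : ℤ) ≤ a → (a = b1 → (s1 : ℤ) ≤ y) → (N1 : ℤ) ≤ h * a + y := by
    intro a y h0 h1 h2
    rcases eq_or_lt_of_le h1 with h3 | h3
    · have := h2 h3.symm
      rw [← h3]
      linarith
    · have : (h : ℤ) * (b1 + 1) ≤ h * a := mul_le_mul_of_nonneg_left (by omega) hpos.le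
      nlinarith
  intro c
  rw [cond_sum, ← hN1, ← hN2]
  push_cast
  constructor
  · -- emptiness
    intro hc
    have hc2 : c - b1 ≤ b2 + 1 := by
      by_contra hcon
      have : ((b1 : ℤ) + b2 + 2) * h ≤ c * h := mul_le_mul_of_nonneg_right (by omega) hpos.le
      nlinarith
    have h1 : Emp v {p | p ∈ D φ h c ∧ (N1 : ℤ) ≤ h * p.1 + p.2} := by
      rcases lt_or_eq_of_le hc2 with h3 | h3
      · refine ((hv (c - b1)).1 ?_).comap 1 0 0 1 (-b1) 0 (by norm_num) ?_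
        · have : (c - b1) * (h : ℤ) ≤ b2 * h := mul_le_mul_of_nonneg_right (by omega) hpos.le
          rw [← hN2]
          nlinarith
        · rintro ⟨a, y⟩ ⟨⟨k1, k2, k3, k4⟩, k5⟩
          simp only at k1 k2 k3 k4 k5
          rw [show ((1 * a + 0 * y + -b1, 0 * a + 1 * y + 0) : ℤ × ℤ) = (a - b1, y) by
            ext
            · simp only; ring
            · simp only; ring]
          have := (hR a y k3 k4 k5).1
          refine ⟨?_, ?_, k3, k4⟩ <;> simp only <;> omega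
      · have hss : (h : ℤ) ≤ s1 + s2 := by
          have : c * h = (b1 + b2 + 1) * h := by rw [show c = b1 + b2 + 1 by omega]
          nlinarith
        refine hQ.comap 1 0 0 1 (-b1) 0 (by norm_num) ?_
        rintro ⟨a, y⟩ ⟨⟨k1, k2, k3, k4⟩, k5⟩
        simp only at k1 k2 k3 k4 k5
        rw [show ((1 * a + 0 * y + -b1, 0 * a + 1 * y + 0) : ℤ × ℤ) = (a - b1, y) by
          ext
          · simp only; ring
          · simp only; ring]
        obtain ⟨j1, j2⟩ := hR a y k3 k4 k5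
        refine ⟨?_, ?_, k3, k4, ?_⟩ <;> simp only <;> omega
    refine (Emp_lex (by rw [← coe_LF hW.pos]; exact Finset.finite_toSet _)
      ((D_fin φ h c).subset fun p hp => hp.1) h 1 0 0 (hcut c) hL h1).mono ?_
    rintro ⟨a, y⟩ ⟨k1, k2, k3, k4⟩
    rcases lt_or_ge ((h : ℤ) * a + y) N1 with h5 | h5
    · exact Or.inl ⟨k1, k3, k4, h5⟩
    · exact Or.inr ⟨⟨k1, k2, k3, k4⟩, h5⟩
  · -- independence
    intro hc
    have hLS : Sur w {p | 0 ≤ p.1 ∧ 0 ≤ p.2 ∧ p.2 < h ∧ h * p.1 + p.2 < N1} := by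
      rw [← coe_LF hW.pos] at hL ⊢
      exact ⟨_, subset_rfl, by rw [card_LF, hN1], hL⟩
    have h1 : Sur v {p | p ∈ D φ h c ∧ (N1 : ℤ) ≤ h * p.1 + p.2} := by
      rcases le_or_gt (N2 : ℤ) ((c - b1 - 1) * h) with h2 | h2
      · refine ((hv (c - b1 - 1)).2 (by rw [← hN2]; exact h2)).shift (-(b1 + 1)) 0 ?_
        rintro ⟨a, y⟩ ⟨k1, k2, k3, k4⟩
        simp only at k1 k2 k3 k4
        rw [show ((a - -(b1 + 1), y - 0) : ℤ × ℤ) = (a + b1 + 1, y) by
          ext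
          · simp only; ring
          · simp only; ring]
        refine ⟨⟨?_, ?_, k3, k4⟩, hR' _ _ k3 ?_ ?_⟩ <;> simp only <;> omega
      · have hc2 : c - b1 - 1 ≤ b2 := by
          by_contra hcon
          have : ((b2 : ℤ) + 1) * h ≤ (c - b1 - 1) * h :=
            mul_le_mul_of_nonneg_right (by omega) hpos.le
          nlinarith
        rcases lt_or_eq_of_le hc2 with h3 | h3
        · have h4 : c = b1 + b2 := by
            by_contra hne
            have : c * h ≤ (b1 + b2 - 1) * h := mul_le_mul_of_nonneg_right (by omega) hpos.le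
            nlinarith
          have h5 : (s1 : ℤ) + s2 = 0 := by
            have h6 : c * h = b1 * h + b2 * h := by rw [h4]; ring
            have : (s1 : ℤ) + s2 ≤ 0 := by nlinarith
            omega
          refine ((hv b2).2 ?_).shift (-b1) 0 ?_
          · rw [← hN2, ← hd2]
            nlinarith
          · rintro ⟨a, y⟩ ⟨k1, k2, k3, k4⟩
            simp only at k1 k2 k3 k4
            rw [show ((a - -b1, y - 0) : ℤ × ℤ) = (a + b1, y) by
              ext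
              · simp only; ring
              · simp only; ring]
            refine ⟨⟨?_, ?_, k3, k4⟩, hR' _ _ k3 ?_ ?_⟩ <;> simp only <;> omega
        · have hss : (s1 : ℤ) + s2 ≤ h := by
            have : c * h = (b1 + b2 + 1) * h := by rw [show c = b1 + b2 + 1 by omega]
            nlinarith
          have hQS : Sur v {p | 0 ≤ p.1 ∧ p.1 + φ p.2 < (b2 : ℤ) + 1 ∧ 0 ≤ p.2 ∧ p.2 < h ∧
              (p.1 ≠ 0 ∨ (h : ℤ) - s2 ≤ p.2)} := by
            refine ⟨QF φ h b2 s2, ?_, ?_, hQ.mono ?_⟩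
            · rintro p hp
              rw [mem_coe, QF, Finset.mem_filter, ← mem_coe, coe_DF] at hp
              obtain ⟨⟨k1, k2, k3, k4⟩, k5⟩ := hp
              refine ⟨k1, k2, k3, k4, ?_⟩
              omega
            · rw [card_QF hW.sum hφ hlt2.le, hdm2, hN2]
            · rintro p hp
              rw [mem_coe, QF, Finset.mem_filter, ← mem_coe, coe_DF] at hp
              obtain ⟨⟨k1, k2, k3, k4⟩, k5⟩ := hp
              refine ⟨k1, k2, k3, k4, ?_⟩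
              omega
          refine hQS.shift (-b1) 0 ?_
          rintro ⟨a, y⟩ ⟨k1, k2, k3, k4, k5⟩
          simp only at k1 k2 k3 k4 k5
          rw [show ((a - -b1, y - 0) : ℤ × ℤ) = (a + b1, y) by
            ext
            · simp only; ring
            · simp only; ring]
          refine ⟨⟨?_, ?_, k3, k4⟩, hR' _ _ k3 ?_ ?_⟩ <;> simp only <;> omega
    refine (Sur_lex h 1 0 0 (hcut c) hLS h1).mono ?_
    rintro ⟨a, y⟩ (⟨k1, k3, k4, k5⟩ | ⟨k1, _⟩)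
    · simp only at k1 k3 k4 k5
      refine ⟨k1, ?_, k3, k4⟩
      simp only
      by_contra hcon
      have h6 := hφ y k3 k4
      have h7 : c * h ≤ (a + φ y) * h := mul_le_mul_of_nonneg_right (by omega) hpos.le
      have h8 : φ y * h ≤ b2 * h := mul_le_mul_of_nonneg_right h6 hpos.le
      nlinarith
    · exact k1

end Pool.Agent.H902.CB
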