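import Pool.Agent.H902.CB.Blocks

set_option autoImplicit false
set_option linter.unusedSimpArgs false

/-!
# Nine points on the trapezoid
-/

namespace Pool.Agent.H902.CB

open Finset Pool.Agent.TH176.Nag Pool.Agent.TH603.Sur

/-! ## The fan with the boundary `2 x + y = 3 m` -/

def FA (m : ℕ) : Set (ℤ × ℤ) :=
  {p | 0 ≤ p.1 ∧ 0 ≤ p.2 ∧ p.2 < m ∧ (m : ℤ) < 2 * p.1 - p.2 ∧ 2 * p.1 + p.2 ≤ 3 * m}
def FB (m : ℕ) : Set (ℤ × ℤ) :=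
  {p | 0 ≤ p.1 ∧ 0 ≤ p.2 ∧ 2 * p.1 - p.2 ≤ m ∧ 2 * p.2 - p.1 < m}
def FC (m : ℕ) : Set (ℤ × ℤ) :=
  {p | 0 ≤ p.1 ∧ (m : ℤ) ≤ 2 * p.2 - p.1 ∧ 2 * p.2 + p.1 < 3 * m}
def FD (m : ℕ) : Set (ℤ × ℤ) :=
  {p | 0 ≤ p.1 ∧ p.2 ≤ 2 * m ∧ (3 * m : ℤ) ≤ 2 * p.2 + p.1 ∧ 2 * p.1 + p.2 < 3 * m}
def F (m : ℕ) : Set (ℤ × ℤ) :=
  {p | 0 ≤ p.1 ∧ 0 ≤ p.2 ∧ p.2 ≤ 2 * m ∧
    (2 * p.1 + p.2 < 3 * m ∨ (2 * p.1 + p.2 = 3 * m ∧ p.2 < m))}

variable {m : ℕ}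

theorem E_FA : E m 1 (FA m) := by
  refine Emp_one 0 1 0 1 (by norm_num) (fun c => c) (fun c => -((3 * m - c) / 2)) ?_ ?_
  · rintro a b ⟨h1, h2, h3, h4, h5⟩
    simp only at *
    omega
  · intro c c' _ _ _ _ h
    exact h

theorem I_FA : I m 1 (FA m) := by
  refine Sur_one 0 1 0 1 (by norm_num) (fun s => s) (fun s => -((3 * m - s) / 2)) ?_ ?_
  · intro s s' _ _ _ _ h
    exact h
  · intro s k h1 h2 h3
    simp only [FA, Set.mem_ofPred_eq]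
    omega

theorem E_FB : E m 1 (FB m) := by
  refine Emp_one 1 (-1) 1 0 (by norm_num) (fun c => if 1 ≤ c then 2 * c - 1 else -2 * c)
    (fun c => if 0 ≤ c then 0 else -c) ?_ ?_
  · rintro a b ⟨h1, h2, h3, h4⟩
    simp only at *
    split_ifs <;> omega
  · intro c c' h1 h2 h3 h4 h
    split_ifs at * <;> omega

theorem I_FB : I m 1 (FB m) := by
  refine Sur_one 1 (-1) 1 0 (by norm_num) (fun s => if s % 2 = 1 then (s + 1) / 2 else -(s / 2))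
    (fun s => if s % 2 = 1 then 0 else s / 2) ?_ ?_
  · intro s s' h1 h2 h3 h4 h
    split_ifs at * <;> omega
  · intro s k h1 h2 h3
    simp only [FB, Set.mem_ofPred_eq]
    split_ifs <;> omega

theorem E_FC : E m 1 (FC m) := by
  refine Emp_one 1 0 1 0 (by norm_num) (fun c => c) (fun c => (m + c + 1) / 2) ?_ ?_
  · rintro a b ⟨h1, h2, h3⟩
    simp only at *
    omega
  · intro c c' _ _ _ _ h
    exact h

theorem I_FC : I m 1 (FC m) := by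
  refine Sur_one 1 0 1 0 (by norm_num) (fun s => s) (fun s => (m + s + 1) / 2) ?_ ?_
  · intro s s' _ _ _ _ h
    exact h
  · intro s k h1 h2 h3
    simp only [FC, Set.mem_ofPred_eq]
    omega

theorem E_FD : E m 1 (FD m) := by
  refine Emp_one 1 1 1 0 (by norm_num)
    (fun c => if c < 2 * m then 2 * (2 * m - c) - 1 else 2 * (c - 2 * m))
    (fun c => if c < 2 * m then 3 * m - c else 2 * c - 3 * m + 1) ?_ ?_
  · rintro a b ⟨h1, h2, h3, h4⟩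
    simp only at *
    split_ifs <;> omega
  · intro c c' h1 h2 h3 h4 h
    split_ifs at * <;> omega

theorem I_FD : I m 1 (FD m) := by
  refine Sur_one 1 1 1 0 (by norm_num)
    (fun s => if s % 2 = 1 then 2 * m - (s + 1) / 2 else 2 * m + s / 2)
    (fun s => if s % 2 = 1 then m + (s + 1) / 2 else m + s + 1) ?_ ?_
  · intro s s' h1 h2 h3 h4 h
    split_ifs at * <;> omega
  · intro s k h1 h2 h3
    simp only [FD, Set.mem_ofPred_eq]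
    split_ifs <;> omega

theorem FA_fin : (FA m).Finite :=
  fin_box (2 * m) (2 * m) (by rintro a b ⟨h1, h2, h3, h4, h5⟩; simp only at *; omega)
theorem FB_fin : (FB m).Finite :=
  fin_box (2 * m) (2 * m) (by rintro a b ⟨h1, h2, h3, h4⟩; simp only at *; omega)
theorem FC_fin : (FC m).Finite :=
  fin_box (2 * m) (2 * m) (by rintro a b ⟨h1, h2, h3⟩; simp only at *; omega)
theorem FD_fin : (FD m).Finite :=
  fin_box (2 * m) (2 * m) (by rintro a b ⟨h1, h2, h3, h4⟩; simp only at *; omega)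
theorem F_fin : (F m).Finite :=
  fin_box (2 * m) (2 * m) (by rintro a b ⟨h1, h2, h3, h4⟩; simp only at *; omega)

theorem E_F : E m 4 (F m) := by
  have h1 : E m 2 (FC m ∪ FD m) := by
    refine E_lex FC_fin FD_fin 1 2 0 0 ?_ E_FC E_FD
    rintro ⟨a, b⟩ ⟨h1, h2, h3⟩ ⟨c, d⟩ ⟨k1, k2, k3, k4⟩
    simp only at *
    omega
  have h2 : E m 3 (FB m ∪ (FC m ∪ FD m)) := by
    refine E_lex FB_fin (FC_fin.union FD_fin) (-1) 2 0 0 ?_ E_FB h1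
    rintro ⟨a, b⟩ ⟨h1, h2, h3, h4⟩ ⟨c, d⟩ h
    simp only [FC, FD, Set.mem_union, Set.mem_ofPred_eq] at *
    omega
  refine (E_lex (FB_fin.union (FC_fin.union FD_fin)) FA_fin 2 (-1) 0 0 ?_ h2 E_FA).mono ?_
  · rintro ⟨a, b⟩ h ⟨c, d⟩ ⟨k1, k2, k3, k4, k5⟩
    simp only [FB, FC, FD, Set.mem_union, Set.mem_ofPred_eq] at *
    omega
  · rintro ⟨a, b⟩ h
    simp only [F, FA, FB, FC, FD, Set.mem_union, Set.mem_ofPred_eq] at *
    omega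

theorem I_F : I m 4 (F m) := by
  have h1 : I m 2 (FC m ∪ FD m) := by
    refine I_lex 1 2 0 0 ?_ I_FC I_FD
    rintro ⟨a, b⟩ ⟨h1, h2, h3⟩ ⟨c, d⟩ ⟨k1, k2, k3, k4⟩
    simp only at *
    omega
  have h2 : I m 3 (FB m ∪ (FC m ∪ FD m)) := by
    refine I_lex (-1) 2 0 0 ?_ I_FB h1
    rintro ⟨a, b⟩ ⟨h1, h2, h3, h4⟩ ⟨c, d⟩ h
    simp only [FC, FD, Set.mem_union, Set.mem_ofPred_eq] at *
    omega
  refine (I_lex 2 (-1) 0 0 ?_ h2 I_FA).mono ?_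
  · rintro ⟨a, b⟩ h ⟨c, d⟩ ⟨k1, k2, k3, k4, k5⟩
    simp only [FB, FC, FD, Set.mem_union, Set.mem_ofPred_eq] at *
    omega
  · rintro ⟨a, b⟩ h
    simp only [F, FA, FB, FC, FD, Set.mem_union, Set.mem_ofPred_eq] at *
    omega

/-! ## The fan with the boundary `4 x + y = 5 m` -/

def GA (m : ℕ) : Set (ℤ × ℤ) :=
  {p | 0 ≤ p.1 ∧ 0 ≤ p.2 ∧ p.2 < m ∧ (m : ℤ) < 4 * p.1 - 3 * p.2 ∧ 4 * p.1 + p.2 ≤ 5 * m}
def GB (m : ℕ) : Set (ℤ × ℤ) :=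
  {p | 0 ≤ p.1 ∧ 0 ≤ p.2 ∧ 4 * p.1 - 3 * p.2 ≤ m ∧ 4 * p.2 - p.1 < 3 * m}
def GC (m : ℕ) : Set (ℤ × ℤ) :=
  {p | 0 ≤ p.1 ∧ (3 * m : ℤ) ≤ 4 * p.2 - p.1 ∧ 4 * p.2 + 3 * p.1 < 7 * m}
def GD (m : ℕ) : Set (ℤ × ℤ) :=
  {p | 0 ≤ p.1 ∧ p.2 ≤ 2 * m ∧ (7 * m : ℤ) ≤ 4 * p.2 + 3 * p.1 ∧ 4 * p.1 + p.2 < 5 * m}
def G (m : ℕ) : Set (ℤ × ℤ) :=
  {p | 0 ≤ p.1 ∧ 0 ≤ p.2 ∧ p.2 ≤ 2 * m ∧
    (4 * p.1 + p.2 < 5 * m ∨ (4 * p.1 + p.2 = 5 * m ∧ p.2 < m))}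

theorem E_GA : E m 1 (GA m) := by
  refine Emp_one 0 1 0 1 (by norm_num) (fun c => c) (fun c => -((5 * m - c) / 4)) ?_ ?_
  · rintro a b ⟨h1, h2, h3, h4, h5⟩
    simp only at *
    omega
  · intro c c' _ _ _ _ h
    exact h

theorem I_GA : I m 1 (GA m) := by
  refine Sur_one 0 1 0 1 (by norm_num) (fun s => s) (fun s => -((5 * m - s) / 4)) ?_ ?_
  · intro s s' _ _ _ _ h
    exact h
  · intro s k h1 h2 h3
    simp only [GA, Set.mem_ofPred_eq]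
    omega

theorem E_GB : E m 1 (GB m) := by
  refine Emp_one 1 (-1) 1 0 (by norm_num) (fun c => if 1 ≤ c then 4 * c - 1 else (-4 * c) / 3)
    (fun c => if 0 ≤ c then 0 else -c) ?_ ?_
  · rintro a b ⟨h1, h2, h3, h4⟩
    simp only at *
    split_ifs <;> omega
  · intro c c' h1 h2 h3 h4 h
    split_ifs at * <;> omega

theorem I_GB : I m 1 (GB m) := by
  refine Sur_one 1 (-1) 1 0 (by norm_num)
    (fun s => if s % 4 = 3 then (s + 1) / 4 else -(3 * (s / 4) + s % 4))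
    (fun s => if s % 4 = 3 then 0 else 3 * (s / 4) + s % 4) ?_ ?_
  · intro s s' h1 h2 h3 h4 h
    split_ifs at * <;> omega
  · intro s k h1 h2 h3
    simp only [GB, Set.mem_ofPred_eq]
    split_ifs <;> omega

theorem E_GC : E m 1 (GC m) := by
  refine Emp_one 1 0 1 0 (by norm_num) (fun c => c) (fun c => (3 * m + c + 3) / 4) ?_ ?_
  · rintro a b ⟨h1, h2, h3⟩
    simp only at *
    omega
  · intro c c' _ _ _ _ h
    exact h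

theorem I_GC : I m 1 (GC m) := by
  refine Sur_one 1 0 1 0 (by norm_num) (fun s => s) (fun s => (3 * m + s + 3) / 4) ?_ ?_
  · intro s s' _ _ _ _ h
    exact h
  · intro s k h1 h2 h3
    simp only [GC, Set.mem_ofPred_eq]
    omega

theorem E_GD : E m 1 (GD m) := by
  refine Emp_one 1 1 1 0 (by norm_num)
    (fun c => if c < 2 * m then 4 * (2 * m - c) - 1 else (4 * (c - 2 * m)) / 3)
    (fun c => if c < 2 * m then 7 * m - 3 * c else (4 * c - 5 * m) / 3 + 1) ?_ ?_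
  · rintro a b ⟨h1, h2, h3, h4⟩
    simp only at *
    split_ifs <;> omega
  · intro c c' h1 h2 h3 h4 h
    split_ifs at * <;> omega

theorem I_GD : I m 1 (GD m) := by
  refine Sur_one 1 1 1 0 (by norm_num)
    (fun s => if s % 4 = 3 then 2 * m - (s + 1) / 4 else 2 * m + (3 * (s / 4) + s % 4))
    (fun s => if s % 4 = 3 then m + 3 * ((s + 1) / 4) else
      (3 * m + 4 * (3 * (s / 4) + s % 4)) / 3 + 1) ?_ ?_
  · intro s s' h1 h2 h3 h4 h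
    split_ifs at * <;> omega
  · intro s k h1 h2 h3
    simp only [GD, Set.mem_ofPred_eq]
    split_ifs <;> omega

theorem GA_fin : (GA m).Finite :=
  fin_box (2 * m) (2 * m) (by rintro a b ⟨h1, h2, h3, h4, h5⟩; simp only at *; omega)
theorem GB_fin : (GB m).Finite :=
  fin_box (2 * m) (2 * m) (by rintro a b ⟨h1, h2, h3, h4⟩; simp only at *; omega)
theorem GC_fin : (GC m).Finite :=
  fin_box (2 * m) (2 * m) (by rintro a b ⟨h1, h2, h3⟩; simp only at *; omega)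
theorem GD_fin : (GD m).Finite :=
  fin_box (2 * m) (2 * m) (by rintro a b ⟨h1, h2, h3, h4⟩; simp only at *; omega)
theorem G_fin : (G m).Finite :=
  fin_box (2 * m) (2 * m) (by rintro a b ⟨h1, h2, h3, h4⟩; simp only at *; omega)

theorem E_G : E m 4 (G m) := by
  have h1 : E m 2 (GC m ∪ GD m) := by
    refine E_lex GC_fin GD_fin 3 4 0 0 ?_ E_GC E_GD
    rintro ⟨a, b⟩ ⟨h1, h2, h3⟩ ⟨c, d⟩ ⟨k1, k2, k3, k4⟩
    simp only at *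
    omega
  have h2 : E m 3 (GB m ∪ (GC m ∪ GD m)) := by
    refine E_lex GB_fin (GC_fin.union GD_fin) (-1) 4 0 0 ?_ E_GB h1
    rintro ⟨a, b⟩ ⟨h1, h2, h3, h4⟩ ⟨c, d⟩ h
    simp only [GC, GD, Set.mem_union, Set.mem_ofPred_eq] at *
    omega
  refine (E_lex (GB_fin.union (GC_fin.union GD_fin)) GA_fin 4 (-3) 0 0 ?_ h2 E_GA).mono ?_
  · rintro ⟨a, b⟩ h ⟨c, d⟩ ⟨k1, k2, k3, k4, k5⟩
    simp only [GB, GC, GD, Set.mem_union, Set.mem_ofPred_eq] at *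
    omega
  · rintro ⟨a, b⟩ h
    simp only [G, GA, GB, GC, GD, Set.mem_union, Set.mem_ofPred_eq] at *
    omega

theorem I_G : I m 4 (G m) := by
  have h1 : I m 2 (GC m ∪ GD m) := by
    refine I_lex 3 4 0 0 ?_ I_GC I_GD
    rintro ⟨a, b⟩ ⟨h1, h2, h3⟩ ⟨c, d⟩ ⟨k1, k2, k3, k4⟩
    simp only at *
    omega
  have h2 : I m 3 (GB m ∪ (GC m ∪ GD m)) := by
    refine I_lex (-1) 4 0 0 ?_ I_GB h1
    rintro ⟨a, b⟩ ⟨h1, h2, h3, h4⟩ ⟨c, d⟩ h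
    simp only [GC, GD, Set.mem_union, Set.mem_ofPred_eq] at *
    omega
  refine (I_lex 4 (-3) 0 0 ?_ h2 I_GA).mono ?_
  · rintro ⟨a, b⟩ h ⟨c, d⟩ ⟨k1, k2, k3, k4, k5⟩
    simp only [GB, GC, GD, Set.mem_union, Set.mem_ofPred_eq] at *
    omega
  · rintro ⟨a, b⟩ h
    simp only [G, GA, GB, GC, GD, Set.mem_union, Set.mem_ofPred_eq] at *
    omega

/-! ## The block between the fans -/

def Pq (m : ℕ) (w : ℤ) : Set (ℤ × ℤ) :=
  {p | 0 ≤ p.1 ∧ 0 ≤ p.2 ∧ p.2 ≤ 2 * m ∧ p.1 + p.2 ≤ 3 * m + w ∧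
    (3 * m < 2 * p.1 + p.2 ∨ (2 * p.1 + p.2 = 3 * m ∧ (m : ℤ) ≤ p.2)) ∧
    (4 * p.1 + 3 * p.2 < 7 * m + 4 * w ∨ (4 * p.1 + 3 * p.2 = 7 * m + 4 * w ∧ (m : ℤ) ≤ p.2))}

theorem E_Pq {w : ℤ} (hm : 0 < m) (hw0 : 0 ≤ w) (hw : 4 * w ≤ m) : E m 1 (Pq m w) := by
  refine Emp_one 1 1 1 0 (by norm_num)
    (fun c => if c ≤ 2 * m then -2 * (c - 2 * m) else 2 * (c - 2 * m) - 1)
    (fun c => if c < 2 * m then 0 else if c = 2 * m then (if 0 < w then m - 4 * w + 1 else m) else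
      if w ≤ c - 2 * m then m + 4 * (c - 2 * m - w) else m + 4 * (c - 2 * m - w) + 1) ?_ ?_
  · rintro a b ⟨h1, h2, h3, h4, h5, h6⟩
    simp only at *
    split_ifs <;> omega
  · intro c c' h1 h2 h3 h4 h
    split_ifs at * <;> omega

theorem I_Pq {w : ℤ} (hw : (m : ℤ) < 4 * w) : I m 1 (Pq m w) := by
  refine Sur_one 1 1 1 0 (by norm_num)
    (fun s => if s % 2 = 0 then 2 * m - s / 2 else 2 * m + (s + 1) / 2)
    (fun s => if s % 2 = 0 then 0 else 2 * (s + 1)) ?_ ?_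
  · intro s s' h1 h2 h3 h4 h
    split_ifs at * <;> omega
  · intro s k h1 h2 h3
    simp only [Pq, Set.mem_ofPred_eq]
    split_ifs <;> omega

theorem Pq_fin (w : ℤ) : (Pq m w).Finite :=
  fin_box (max (3 * m + w) 0) (2 * m) (by rintro a b ⟨h1, h2, h3, h4, h5, h6⟩; simp only at *; omega)

/-- the right block -/
def Rq (m : ℕ) (w : ℤ) : Set (ℤ × ℤ) :=
  {p | 0 ≤ p.1 ∧ 0 ≤ p.2 ∧ p.2 ≤ 2 * m ∧ p.1 + p.2 ≤ 3 * m + w ∧
    (3 * m < 2 * p.1 + p.2 ∨ (2 * p.1 + p.2 = 3 * m ∧ (m : ℤ) ≤ p.2)) ∧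
    (7 * m + 4 * w < 4 * p.1 + 3 * p.2 ∨ (4 * p.1 + 3 * p.2 = 7 * m + 4 * w ∧ p.2 < (m : ℤ)))}

theorem Rq_fin (w : ℤ) : (Rq m w).Finite :=
  fin_box (max (3 * m + w) 0) (2 * m) (by rintro a b ⟨h1, h2, h3, h4, h5, h6⟩; simp only at *; omega)

theorem E_Rq (w : ℤ) : E m 4 (Rq m w) := by
  refine E_ref (3 * m + w) E_G ?_
  rintro a b ⟨h1, h2, h3, h4, h5, h6⟩
  simp only [G, Set.mem_ofPred_eq] at *
  omega

theorem I_Rq {w : ℤ} (hw : (m : ℤ) < 4 * w) : I m 4 (Rq m w) := by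
  refine I_ref (3 * m + w) I_G ?_
  rintro a b ⟨h1, h2, h3, h4⟩
  simp only [Rq, Set.mem_ofPred_eq] at *
  omega

theorem E_trap9 {c : ℤ} (hm : 0 < m) (hc : 4 * c ≤ 9 * m + 4) :
    E m 9 (D (φ1 m) (2 * m + 1) c) := by
  have key : ∀ w : ℤ, 0 ≤ w → 4 * w ≤ m → E m 9 (D (φ1 m) (2 * m + 1) (2 * m + 1 + w)) := by
    intro w hw0 hw
    have h1 : E m 5 (Pq m w ∪ Rq m w) := by
      refine E_lex (Pq_fin w) (Rq_fin w) 4 3 0 (-1) ?_ (E_Pq hm hw0 hw) (E_Rq w)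
      rintro ⟨a, b⟩ ⟨h1, h2, h3, h4, h5, h6⟩ ⟨c, d⟩ ⟨k1, k2, k3, k4, k5, k6⟩
      simp only at *
      omega
    refine (E_lex F_fin ((Pq_fin w).union (Rq_fin w)) 2 1 0 1 ?_ E_F h1).mono ?_
    · rintro ⟨a, b⟩ ⟨h1, h2, h3, h4⟩ ⟨c, d⟩ h
      simp only [Pq, Rq, Set.mem_union, Set.mem_ofPred_eq] at *
      omega
    · rintro ⟨a, b⟩ h
      simp only [D, φ1, F, Pq, Rq, Set.mem_union, Set.mem_ofPred_eq] at *
      omega
  by_cases h : 2 * m + 1 ≤ c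
  · have := key (c - (2 * m + 1)) (by omega) (by omega)
    rwa [show (2 * m + 1 + (c - (2 * m + 1)) : ℤ) = c by ring] at this
  · refine (key 0 le_rfl (by omega)).mono ?_
    rintro ⟨a, b⟩ h
    simp only [D, φ1, Set.mem_ofPred_eq] at *
    omega

theorem I_trap9 {c : ℤ} (hc : 9 * (m : ℤ) + 5 ≤ 4 * c) : I m 9 (D (φ1 m) (2 * m + 1) c) := by
  have h1 : I m 5 (Pq m (c - (2 * m + 1)) ∪ Rq m (c - (2 * m + 1))) := by
    refine I_lex 4 3 0 (-1) ?_ (I_Pq (by omega)) (I_Rq (by omega))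
    rintro ⟨a, b⟩ ⟨h1, h2, h3, h4, h5, h6⟩ ⟨c, d⟩ ⟨k1, k2, k3, k4, k5, k6⟩
    simp only at *
    omega
  refine (I_lex 2 1 0 1 ?_ I_F h1).mono ?_
  · rintro ⟨a, b⟩ ⟨h1, h2, h3, h4⟩ ⟨c, d⟩ h
    simp only [Pq, Rq, Set.mem_union, Set.mem_ofPred_eq] at *
    omega
  · rintro ⟨a, b⟩ h
    simp only [D, φ1, F, Pq, Rq, Set.mem_union, Set.mem_ofPred_eq] at *
    omega

end Pool.Agent.H902.CB
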