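import Pool.Agent.H902.CB.Blocks

set_option autoImplicit false

/-!
# Seven points on the rectangle
-/

namespace Pool.Agent.H902.CB

open Finset Pool.Agent.TH176.Nag Pool.Agent.TH603.Sur

/-- the lower middle block -/
def M6 (m : ℕ) (A C : ℤ) : Set (ℤ × ℤ) :=
  {p | 0 ≤ p.1 ∧ 0 ≤ p.2 ∧ p.2 ≤ 2 * m ∧ (4 * m : ℤ) ≤ 4 * p.1 + p.2 ∧ 2 * p.1 + p.2 ≤ 2 * A ∧
    2 * (p.1 - m) + 3 * p.2 < C}

/-- the upper middle block -/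
def M7 (m : ℕ) (A C : ℤ) : Set (ℤ × ℤ) :=
  {p | 0 ≤ p.1 ∧ 0 ≤ p.2 ∧ p.2 ≤ 2 * m ∧ (4 * m : ℤ) ≤ 4 * p.1 + p.2 ∧ 2 * p.1 + p.2 ≤ 2 * A ∧
    C ≤ 2 * (p.1 - m) + 3 * p.2}

variable {m : ℕ}

theorem E_M6 (A : ℤ) : E m 1 (M6 m A (6 * m - 2 * A)) := by
  refine Emp_one 1 1 1 0 (by norm_num)
    (fun c => if 4 * (c - m) < 3 * m then m - 1 - (4 * (c - m)) / 3 else 4 * (c - m) - 3 * m)
    (fun c => if 4 * (c - m) < 3 * m then 0 else 2 * (c - A)) ?_ ?_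
  · rintro a b ⟨h1, h2, h3, h4, h5, h6⟩
    simp only at *
    split_ifs <;> omega
  · intro c c' h1 h2 h3 h4 h
    split_ifs at * <;> omega

theorem E_M7 {A : ℤ} (hA : 4 * (A - m) < 3 * m) : E m 1 (M7 m A (6 * m - 2 * A)) := by
  refine Emp_one 1 0 1 0 (by norm_num)
    (fun c => if 0 ≤ 4 * (c - m) + m then (4 * (c - m) + m) / 3 else -m - 1 - 4 * (c - m))
    (fun c => if 0 ≤ 4 * (c - m) + m then (6 * m - 2 * A - 2 * (c - m) + 2) / 3 else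
      -4 * (c - m)) ?_ ?_
  · rintro a b ⟨h1, h2, h3, h4, h5, h6⟩
    simp only at *
    split_ifs <;> omega
  · intro c c' h1 h2 h3 h4 h
    split_ifs at * <;> omega

theorem I_M6 {A : ℤ} (hA : 3 * (m : ℤ) ≤ 4 * (A - m)) : I m 1 (M6 m A ((5 * m) / 2)) := by
  refine Sur_one 1 1 1 0 (by norm_num)
    (fun s => if (m - s) % 4 = 0 then m + (m - (m - s) / 4) else
      m + (3 * ((m - s) / 4) + (m - s) % 4 - 1))
    (fun s => if (m - s) % 4 = 0 then (5 * m) / 2 - 2 * (m - (m - s) / 4) - (m - s) else 0) ?_ ?_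
  · intro s s' h1 h2 h3 h4 h
    split_ifs at * <;> omega
  · intro s k h1 h2 h3
    simp only [M6, Set.mem_ofPred_eq]
    split_ifs <;> omega

theorem I_M7 {A : ℤ} (hA : 3 * (m : ℤ) ≤ 4 * (A - m)) : I m 1 (M7 m A ((5 * m) / 2)) := by
  refine Sur_one 1 0 1 0 (by norm_num)
    (fun s => if (m - s - 2 * m - 1) % 4 = 0 then m + (m - s - 2 * m - 1) / 4 else
      m + (3 * s - m + 3) / 4)
    (fun s => if (m - s - 2 * m - 1) % 4 = 0 then -4 * ((m - s - 2 * m - 1) / 4) else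
      ((5 * m) / 2 - 2 * ((3 * s - m + 3) / 4) + 2) / 3) ?_ ?_
  · intro s s' h1 h2 h3 h4 h
    split_ifs at * <;> omega
  · intro s k h1 h2 h3
    simp only [M7, Set.mem_ofPred_eq]
    split_ifs <;> omega

theorem M6_fin (A C : ℤ) : (M6 m A C).Finite :=
  fin_box (max A 0) (2 * m) (by rintro a b ⟨h1, h2, h3, h4, h5, h6⟩; simp only at *; omega)

theorem M7_fin (A C : ℤ) : (M7 m A C).Finite :=
  fin_box (max A 0) (2 * m) (by rintro a b ⟨h1, h2, h3, h4, h5, h6⟩; simp only at *; omega)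

theorem E_rect7 {c : ℤ} (hc : 4 * c ≤ 7 * m + 3) : E m 7 (D φ0 (2 * m + 1) c) := by
  have h2 : E m 2 {p : ℤ × ℤ | 0 ≤ p.1 ∧ p.1 < c ∧ 0 ≤ p.2 ∧ p.2 ≤ 2 * m ∧
      2 * (c - 1) < 2 * p.1 + p.2 ∧ (4 * m : ℤ) ≤ 4 * p.1 + p.2} := by
    refine E_rot (c - 1) (2 * m) E_B2 ?_
    rintro a b ⟨h1, h2, h3, h4, h5, h6⟩
    simp only [B2, Set.mem_ofPred_eq] at *
    omega
  have h3 : E m 2 (M6 m (c - 1) (6 * m - 2 * (c - 1)) ∪ M7 m (c - 1) (6 * m - 2 * (c - 1))) := by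
    refine E_lex (M6_fin _ _) (M7_fin _ _) 2 3 0 0 ?_ (E_M6 _) (E_M7 (by omega))
    rintro ⟨a, b⟩ ⟨h1, h2, h3, h4, h5, h6⟩ ⟨c, d⟩ ⟨k1, k2, k3, k4, k5, k6⟩
    simp only at *
    omega
  have h4 : E m 4 ((M6 m (c - 1) (6 * m - 2 * (c - 1)) ∪ M7 m (c - 1) (6 * m - 2 * (c - 1))) ∪
      {p : ℤ × ℤ | 0 ≤ p.1 ∧ p.1 < c ∧ 0 ≤ p.2 ∧ p.2 ≤ 2 * m ∧ 2 * (c - 1) < 2 * p.1 + p.2 ∧
        (4 * m : ℤ) ≤ 4 * p.1 + p.2}) := by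
    refine E_lex ((M6_fin _ _).union (M7_fin _ _)) (fin_box (max c 0) (2 * m) ?_) 2 1 0 0 ?_ h3 h2
    · rintro a b ⟨h1, h2, h3, h4, h5, h6⟩
      simp only at *
      omega
    · rintro ⟨a, b⟩ h ⟨c', d⟩ ⟨k1, k2, k3, k4, k5, k6⟩
      simp only [M6, M7, Set.mem_union, Set.mem_ofPred_eq] at *
      omega
  refine (E_lex B3_fin (((M6_fin _ _).union (M7_fin _ _)).union (fin_box (max c 0) (2 * m) ?_))
    4 1 0 0 ?_ E_B3 h4).mono ?_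
  · rintro a b ⟨h1, h2, h3, h4, h5, h6⟩
    simp only at *
    omega
  · rintro ⟨a, b⟩ ⟨h1, h2, h3, h4⟩ ⟨c', d⟩ h
    simp only [M6, M7, Set.mem_union, Set.mem_ofPred_eq] at *
    omega
  · rintro ⟨a, b⟩ h
    simp only [D, φ0, B3, M6, M7, Set.mem_union, Set.mem_ofPred_eq] at *
    omega

theorem I_rect7 {c : ℤ} (hc : 7 * (m : ℤ) + 4 ≤ 4 * c) : I m 7 (D φ0 (2 * m + 1) c) := by
  have h2 : I m 2 {p : ℤ × ℤ | 0 ≤ p.1 ∧ p.1 < c ∧ 0 ≤ p.2 ∧ p.2 ≤ 2 * m ∧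
      2 * (c - 1) < 2 * p.1 + p.2} := by
    refine I_rot (c - 1) (2 * m) I_B2 ?_
    rintro a b ⟨h1, h2, h3, h4⟩
    simp only [Set.mem_ofPred_eq] at *
    omega
  have h3 : I m 2 (M6 m (c - 1) ((5 * m) / 2) ∪ M7 m (c - 1) ((5 * m) / 2)) := by
    refine I_lex 2 3 0 0 ?_ (I_M6 (by omega)) (I_M7 (by omega))
    rintro ⟨a, b⟩ ⟨h1, h2, h3, h4, h5, h6⟩ ⟨c, d⟩ ⟨k1, k2, k3, k4, k5, k6⟩
    simp only at *
    omega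
  have h4 : I m 4 ((M6 m (c - 1) ((5 * m) / 2) ∪ M7 m (c - 1) ((5 * m) / 2)) ∪
      {p : ℤ × ℤ | 0 ≤ p.1 ∧ p.1 < c ∧ 0 ≤ p.2 ∧ p.2 ≤ 2 * m ∧ 2 * (c - 1) < 2 * p.1 + p.2}) := by
    refine I_lex 2 1 0 0 ?_ h3 h2
    rintro ⟨a, b⟩ h ⟨c, d⟩ ⟨k1, k2, k3, k4, k5⟩
    simp only [M6, M7, Set.mem_union, Set.mem_ofPred_eq] at *
    omega
  refine (I_lex 4 1 0 0 ?_ I_B3 h4).mono ?_
  · rintro ⟨a, b⟩ ⟨h1, h2, h3, h4⟩ ⟨c, d⟩ h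
    simp only [M6, M7, Set.mem_union, Set.mem_ofPred_eq] at *
    omega
  · rintro ⟨a, b⟩ h
    simp only [D, φ0, B3, M6, M7, Set.mem_union, Set.mem_ofPred_eq] at *
    omega

end Pool.Agent.H902.CB
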