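import Pool.Agent.H902.CB.Glue
import Pool.Agent.H902.CB.Seven
import Pool.Agent.H902.CB.Nine

set_option autoImplicit false

/-!
# All numbers of points
-/

namespace Pool.Agent.H902.CB

open Finset Pool.Agent.TH176.Nag Pool.Agent.TH603.Sur Pool.Agent.TH641.UM

theorem Bal_of {ι : Type} [Fintype ι] {w : ι → ℕ} {φ : ℤ → ℤ} {h : ℕ} (hW : Wall φ h (cond w))
    (hE : ∀ c : ℤ, c * h ≤ cond w → Emp w (D φ h c))
    (hI : ∀ c : ℤ, cond w < c * h → Sur w (D φ h c)) : Bal w φ h := by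
  intro c
  refine ⟨hE c, fun hc => ?_⟩
  rcases lt_or_eq_of_le hc with h1 | h1
  · exact hI c h1
  · have hpos : (0 : ℤ) < h := by exact_mod_cast hW.pos
    refine ⟨DF φ h c, by rw [coe_DF], ?_, by rw [coe_DF]; exact hE c h1.ge⟩
    have h2 : ((DF φ h c).card : ℤ) = h * c := by
      refine card_DF' hW.sum fun y h3 h4 => ?_
      have h5 := hW.le y h3 h4
      rw [h1] at h5
      exact le_of_mul_le_mul_right h5 hpos
    have h3 : ((DF φ h c).card : ℤ) = cond w := by rw [h2, h1]; ring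
    exact_mod_cast h3

theorem cond_const (r m : ℕ) : cond (fun _ : Fin r => m) = r * (m + 1).choose 2 := by
  unfold Pool.Agent.TH603.Sur.cond
  simp

theorem two_choose (m : ℕ) : (2 : ℤ) * ((m + 1).choose 2 : ℕ) = m * (m + 1) := by
  have h := Nat.add_one_mul_choose_eq m 1
  rw [Nat.choose_one_right] at h
  have h2 : ((m + 1 : ℕ) : ℤ) * m = ((m + 1).choose 2 : ℕ) * 2 := by exact_mod_cast h
  push_cast at h2
  linarith

/-- the number of conditions -/
theorem two_cond (r m : ℕ) : (2 : ℤ) * cond (fun _ : Fin r => m) = r * (m * (m + 1)) := by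
  rw [cond_const]
  push_cast
  have := two_choose m
  linear_combination (r : ℤ) * this

theorem wall0 (m N : ℕ) : Wall φ0 (2 * m + 1) N :=
  ⟨by omega, fun _ _ _ _ _ => le_rfl, by simp, fun y _ _ => by simp⟩

theorem sum_phi1 (m : ℕ) : ∑ y ∈ Finset.range (2 * m + 1), φ1 m (y : ℕ) = 0 := by
  have h1 : ∀ n : ℕ, (2 : ℤ) * ∑ y ∈ Finset.range n, φ1 m (y : ℕ) = n * (n - 1) - 2 * n * m := by
    intro n
    induction n with
    | zero => simp
    | succ n ih =>
      rw [Finset.sum_range_succ, mul_add, ih]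
      push_cast
      ring
  have h2 := h1 (2 * m + 1)
  push_cast at h2
  have h3 : (2 * (m : ℤ) + 1) * (2 * m + 1 - 1) - 2 * (2 * m + 1) * m = 0 := by ring
  rw [h3] at h2
  linarith

theorem wall1 {r m : ℕ} (hr : 4 ≤ r) : Wall (φ1 m) (2 * m + 1) (cond (fun _ : Fin r => m)) := by
  refine ⟨by omega, fun y y' _ h _ => by show y - (m : ℤ) ≤ y' - m; omega, sum_phi1 m, ?_⟩
  intro y h0 h1
  have h2 := two_cond r m
  have h3 : (4 : ℤ) * (m * (m + 1)) ≤ r * (m * (m + 1)) :=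
    mul_le_mul_of_nonneg_right (by exact_mod_cast hr) (by positivity)
  have h4 : (y - (m : ℤ)) * ((2 * m + 1 : ℕ) : ℤ) ≤ m * ((2 * m + 1 : ℕ) : ℤ) :=
    mul_le_mul_of_nonneg_right (by push_cast at h1; omega) (by positivity)
  have h5 : (m : ℤ) * ((2 * m + 1 : ℕ) : ℤ) = 2 * (m * m) + m := by push_cast; ring
  rw [h5] at h4
  show (y - (m : ℤ)) * ((2 * m + 1 : ℕ) : ℤ) ≤ _
  have hm : (0 : ℤ) ≤ m := by positivity
  nlinarith

theorem D_empty {φ : ℤ → ℤ} {h : ℕ} {c : ℤ} (hc : ∀ y : ℤ, 0 ≤ y → y < h → c ≤ φ y) :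
    D φ h c = ∅ := by
  ext ⟨a, y⟩
  simp only [D, Set.mem_ofPred_eq, Set.mem_empty_iff_false, iff_false]
  rintro ⟨h1, h2, h3, h4⟩
  have := hc y h3 h4
  omega

theorem Sur_zero {ι : Type} [Fintype ι] {w : ι → ℕ} {S : Set (ℤ × ℤ)} (h : cond w = 0) :
    Sur w S := ⟨∅, by simp, by rw [h]; rfl, by
      rw [Finset.coe_empty]
      exact Emp_empty w⟩

/-- no conditions -/
theorem Bal_zero {r : ℕ} (φ : ℤ → ℤ) (h0 : 0 ≤ φ 0) : Bal (fun _ : Fin r => 0) φ 1 := by
  have hN : cond (fun _ : Fin r => 0) = 0 := by rw [cond_const]; simp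
  intro c
  refine ⟨fun hc => ?_, fun _ => Sur_zero hN⟩
  rw [hN] at hc
  rw [D_empty]
  · exact Emp_empty _
  · intro y h1 h2
    obtain rfl : y = 0 := by omega
    push_cast at hc
    omega

section blocks
variable (m : ℕ)

theorem Bal_rect4 : Bal (fun _ : Fin 4 => m) φ0 (2 * m + 1) := by
  have hN := two_cond 4 m
  have hm : (0 : ℤ) ≤ m := by positivity
  refine Bal_of (wall0 m _) (fun c hc => E_rect4 ?_) (fun c hc => I_rect4 ?_)
  · push_cast at hc hN
    by_contra hcon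
    have h1 : ((m : ℤ) + 1) * (2 * m + 1) ≤ c * (2 * m + 1) :=
      mul_le_mul_of_nonneg_right (by omega) (by omega)
    linarith
  · push_cast at hc hN
    by_contra hcon
    have h1 : c * (2 * m + 1) ≤ (m : ℤ) * (2 * m + 1) :=
      mul_le_mul_of_nonneg_right (by omega) (by omega)
    linarith

theorem Bal_trap4 : Bal (fun _ : Fin 4 => m) (φ1 m) (2 * m + 1) := by
  have hN := two_cond 4 m
  have hm : (0 : ℤ) ≤ m := by positivity
  refine Bal_of (wall1 le_rfl) (fun c hc => E_trap4 ?_) (fun c hc => I_trap4 ?_)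
  · push_cast at hc hN
    by_contra hcon
    have h1 : ((m : ℤ) + 1) * (2 * m + 1) ≤ c * (2 * m + 1) :=
      mul_le_mul_of_nonneg_right (by omega) (by omega)
    linarith
  · push_cast at hc hN
    by_contra hcon
    have h1 : c * (2 * m + 1) ≤ (m : ℤ) * (2 * m + 1) :=
      mul_le_mul_of_nonneg_right (by omega) (by omega)
    linarith

theorem Bal_rect6 : Bal (fun _ : Fin 6 => m) φ0 (2 * m + 1) := by
  have hN := two_cond 6 m
  have hm : (0 : ℤ) ≤ m := by positivity
  refine Bal_of (wall0 m _) (fun c hc => E_rect6 ?_) (fun c hc => I_rect6 ?_)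
  · push_cast at hc hN
    by_contra hcon
    have h1 : (3 * (m : ℤ) + 2) * (2 * m + 1) ≤ 2 * c * (2 * m + 1) :=
      mul_le_mul_of_nonneg_right (by omega) (by omega)
    linarith
  · push_cast at hc hN
    by_contra hcon
    have h1 : 2 * c * (2 * m + 1) ≤ (3 * (m : ℤ) + 1) * (2 * m + 1) :=
      mul_le_mul_of_nonneg_right (by omega) (by omega)
    linarith

theorem Bal_rect7 : Bal (fun _ : Fin 7 => m) φ0 (2 * m + 1) := by
  have hN := two_cond 7 m
  have hm : (0 : ℤ) ≤ m := by positivity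
  refine Bal_of (wall0 m _) (fun c hc => E_rect7 ?_) (fun c hc => I_rect7 ?_)
  · push_cast at hc hN
    by_contra hcon
    have h1 : (7 * (m : ℤ) + 4) * (2 * m + 1) ≤ 4 * c * (2 * m + 1) :=
      mul_le_mul_of_nonneg_right (by omega) (by omega)
    linarith
  · push_cast at hc hN
    by_contra hcon
    have h1 : 4 * c * (2 * m + 1) ≤ (7 * (m : ℤ) + 3) * (2 * m + 1) :=
      mul_le_mul_of_nonneg_right (by omega) (by omega)
    linarith

theorem Bal_trap9 : Bal (fun _ : Fin 9 => m) (φ1 m) (2 * m + 1) := by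
  rcases Nat.eq_zero_or_pos m with rfl | hm
  · exact Bal_zero _ (by simp)
  have hN := two_cond 9 m
  have hm' : (0 : ℤ) < m := by exact_mod_cast hm
  refine Bal_of (wall1 (by norm_num)) (fun c hc => E_trap9 hm ?_) (fun c hc => I_trap9 ?_)
  · push_cast at hc hN
    by_contra hcon
    have h1 : (9 * (m : ℤ) + 5) * (2 * m + 1) ≤ 4 * c * (2 * m + 1) :=
      mul_le_mul_of_nonneg_right (by omega) (by omega)
    linarith
  · push_cast at hc hN
    by_contra hcon
    have h1 : 4 * c * (2 * m + 1) ≤ (9 * (m : ℤ) + 4) * (2 * m + 1) :=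
      mul_le_mul_of_nonneg_right (by omega) (by omega)
    linarith

end blocks

theorem Bal_equiv {ι κ : Type} [Fintype ι] [Fintype κ] (e : κ ≃ ι) {w : ι → ℕ} {v : κ → ℕ}
    {φ : ℤ → ℤ} {h : ℕ} (hv : ∀ i, v i = w (e i)) (hB : Bal w φ h) : Bal v φ h := fun c =>
  ⟨fun hc => Emp_equiv e hv ((hB c).1 (by rwa [← cond_equiv e hv])),
    fun hc => Sur_equiv e hv ((hB c).2 (by rwa [← cond_equiv e hv]))⟩

theorem Bal_add {m r s : ℕ} {φ : ℤ → ℤ} {h : ℕ} (hr : Bal (fun _ : Fin r => m) φ0 h)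
    (hs : Bal (fun _ : Fin s => m) φ h) (hW : Wall φ h (cond (fun _ : Fin s => m))) :
    Bal (fun _ : Fin (r + s) => m) φ h :=
  Bal_equiv finSumFinEquiv.symm (fun i => by
    rcases finSumFinEquiv.symm i with j | j <;> rfl) (glue hr hs hW)

theorem Bal_rect {m r s : ℕ} (hr : Bal (fun _ : Fin r => m) φ0 (2 * m + 1))
    (hs : Bal (fun _ : Fin s => m) φ0 (2 * m + 1)) :
    Bal (fun _ : Fin (r + s) => m) φ0 (2 * m + 1) := Bal_add hr hs (wall0 m _)

/-- the rectangle with at least ten points -/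
theorem rect_ten (m r : ℕ) (hr : 10 ≤ r) : Bal (fun _ : Fin r => m) φ0 (2 * m + 1) := by
  induction r using Nat.strong_induction_on with
  | _ r ih =>
    rcases lt_or_ge r 14 with h | h
    · interval_cases r
      · exact Bal_rect (r := 4) (s := 6) (Bal_rect4 m) (Bal_rect6 m)
      · exact Bal_rect (r := 4) (s := 7) (Bal_rect4 m) (Bal_rect7 m)
      · exact Bal_rect (r := 6) (s := 6) (Bal_rect6 m) (Bal_rect6 m)
      · exact Bal_rect (r := 6) (s := 7) (Bal_rect6 m) (Bal_rect7 m)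
    · obtain ⟨k, rfl⟩ : ∃ k, r = 4 + k := ⟨r - 4, by omega⟩
      exact Bal_rect (r := 4) (s := k) (Bal_rect4 m) (ih k (by omega) (by omega))

/-- **the strip with a slanted wall: at least eight points of multiplicity `m`** -/
theorem trap_eight (m r : ℕ) (hr : 8 ≤ r) : Bal (fun _ : Fin r => m) (φ1 m) (2 * m + 1) := by
  rcases lt_or_ge r 14 with h | h
  · interval_cases r
    · exact Bal_add (r := 4) (s := 4) (Bal_rect4 m) (Bal_trap4 m) (wall1 le_rfl)
    · exact Bal_trap9 m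
    · exact Bal_add (r := 6) (s := 4) (Bal_rect6 m) (Bal_trap4 m) (wall1 le_rfl)
    · exact Bal_add (r := 7) (s := 4) (Bal_rect7 m) (Bal_trap4 m) (wall1 le_rfl)
    · exact Bal_add (r := 8) (s := 4) (Bal_rect (r := 4) (s := 4) (Bal_rect4 m) (Bal_rect4 m))
        (Bal_trap4 m) (wall1 le_rfl)
    · exact Bal_add (r := 4) (s := 9) (Bal_rect4 m) (Bal_trap9 m) (wall1 (by norm_num))
  · obtain ⟨k, rfl⟩ : ∃ k, r = k + 4 := ⟨r - 4, by omega⟩
    exact Bal_add (r := k) (s := 4) (rect_ten m k (by omega)) (Bal_trap4 m) (wall1 le_rfl)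

end Pool.Agent.H902.CB
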