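import Pool.Agent.H902.CB.Glue

set_option autoImplicit false

/-!
# Local form of the gluing along a fibre, and walls which need not be centred
-/

namespace Pool.Agent.H902.CB

open Finset Pool.Agent.TH176.Nag Pool.Agent.TH603.Sur Pool.Agent.TH641.UM

theorem card_DFs {φ : ℤ → ℤ} {h : ℕ} {c σ : ℤ} (hs : ∑ y ∈ Finset.range h, φ y = σ)
    (hc : ∀ y : ℤ, 0 ≤ y → y < h → φ y ≤ c) : ((DF φ h c).card : ℤ) = h * c - σ := by
  rw [card_DF]
  push_cast
  have h1 : ∀ y ∈ Finset.range h, ((c - φ y).toNat : ℤ) = c - φ y := by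
    intro y hy
    rw [Finset.mem_range] at hy
    have := hc y (by positivity) (by exact_mod_cast hy)
    omega
  rw [Finset.sum_congr rfl h1, Finset.sum_sub_distrib, hs]
  simp

/-- the last exponents of the first column -/
theorem Emp_Qt {ι : Type} [Fintype ι] {v : ι → ℕ} {φ : ℤ → ℤ} {h : ℕ} {σ e : ℤ} {t : ℕ}
    (mono : ∀ y y' : ℤ, 0 ≤ y → y ≤ y' → y' < h → φ y ≤ φ y')
    (hsum : ∑ y ∈ Finset.range h, φ y = σ) (hφ : ∀ y : ℤ, 0 ≤ y → y < h → φ y ≤ e)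
    (ht : (cond v : ℤ) + σ + t = e * h) (hE : Emp v (D φ h (e - 1))) (hS : Sur v (D φ h e)) :
    Emp v {p | p ∈ D φ h e ∧ (p.1 ≠ 0 ∨ (t : ℤ) ≤ p.2)} := by
  have hcard : ((DF φ h e).card : ℤ) = h * e - σ := card_DFs hsum hφ
  have h1 : Emp (Sum.elim v (fun _ : Fin t => 1)) (D φ h e) := by
    rw [← coe_DF] at hS ⊢
    refine Emp_ones_of_Sur hS ?_
    zify
    rw [hcard]
    linarith
  refine (Emp_top (D_fin φ h _) (fun p hp => ⟨hp.1, hp.2.2.1⟩) ?_ ?_ h1)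
  · rintro a y y' ⟨h1, h2, h3, h4⟩ h0 hle
    simp only at h1 h2 h3 h4
    refine ⟨h1, ?_, h0, lt_of_le_of_lt hle h4⟩
    simp only
    have := mono y' y h0 hle h4
    omega
  · refine hE.comap 1 0 0 1 (-1) 0 (by norm_num) ?_
    rintro ⟨a, y⟩ ⟨⟨h1, h2, h3, h4⟩, h5⟩
    simp only at h1 h2 h3 h4 h5
    rw [show ((1 * a + 0 * y + -1, 0 * a + 1 * y + 0) : ℤ × ℤ) = (a - 1, y) by
      ext
      · simp only; ring
      · simp only; ring]
    refine ⟨?_, ?_, h3, h4⟩ <;> simp only <;> omega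

theorem card_Qt {φ : ℤ → ℤ} {h t : ℕ} {e : ℤ} (hc : ∀ y : ℤ, 0 ≤ y → y < h → φ y < e)
    (ht : t ≤ h) : (((DF φ h e).filter fun p => ¬ (p.1 = 0 ∧ p.2 < (t : ℤ))).card : ℤ) =
      (DF φ h e).card - t := by
  have h1 : (DF φ h e).filter (fun p => p.1 = 0 ∧ p.2 < (t : ℤ)) =
      (Finset.range t).image fun y : ℕ => (((0 : ℤ), (y : ℤ)) : ℤ × ℤ) := by
    ext ⟨a, y⟩
    rw [Finset.mem_filter, ← mem_coe, coe_DF]
    simp only [D, Set.mem_ofPred_eq, Finset.mem_image, Finset.mem_range, Prod.mk.injEq]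
    constructor
    · rintro ⟨⟨h1, h2, h3, h4⟩, h5, h6⟩
      exact ⟨y.toNat, by omega, h5.symm, by omega⟩
    · rintro ⟨n, h1, rfl, rfl⟩
      have h2 := hc n (by positivity) (by omega)
      refine ⟨⟨le_rfl, by omega, by positivity, by omega⟩, rfl, by omega⟩
  have h2 := Finset.card_filter_add_card_filter_not (s := DF φ h e)
    (fun p : ℤ × ℤ => p.1 = 0 ∧ p.2 < (t : ℤ))
  rw [h1, card_image_of_injective _ (fun y y' hy => by simpa using hy), Finset.card_range] at h2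
  omega

/-- the columns filled from the left -/
theorem Emp_leftt {ι : Type} [Fintype ι] {w : ι → ℕ} {h b s : ℕ} (hN : cond w = h * b + s)
    (hs : s ≤ h) (hE : Emp w (D φ0 h b)) (hS : Sur w (D φ0 h ((b : ℤ) + 1))) :
    Emp w {p | 0 ≤ p.1 ∧ 0 ≤ p.2 ∧ p.2 < h ∧ h * p.1 + p.2 < cond w} := by
  have h1 := Emp_Qt (t := h - s) (φ := φ0) (h := h) (σ := 0) (e := (b : ℤ) + 1) (v := w)
    (fun _ _ _ _ _ => le_rfl) (by simp) (fun y _ _ => by show (0 : ℤ) ≤ (b : ℤ) + 1; positivity)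
    (by push_cast [Nat.cast_sub hs]; rw [hN]; push_cast; ring)
    (by rw [add_sub_cancel_right]; exact hE) hS
  have hdm' : ((h : ℤ) * b + s) = cond w := by exact_mod_cast hN.symm
  refine h1.comap (-1) 0 0 (-1) b (h - 1) (by norm_num) ?_
  rintro ⟨a, y⟩ ⟨h2, h3, h4, h5⟩
  simp only at h2 h3 h4 h5
  rw [show ((-1 * a + 0 * y + b, 0 * a + -1 * y + (h - 1)) : ℤ × ℤ) = (b - a, h - 1 - y) by
    ext
    · simp only; ring
    · simp only; ring]
  rw [← hdm'] at h5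
  have hpos : (0 : ℤ) < h := by omega
  have hs' : (s : ℤ) ≤ h := by exact_mod_cast hs
  have h6 : a ≤ b := by
    by_contra hcon
    have : (h : ℤ) * (b + 1) ≤ h * a := mul_le_mul_of_nonneg_left (by omega) hpos.le
    nlinarith
  have h7 : a = b → y < s := by
    rintro rfl
    linarith
  refine ⟨⟨?_, ?_, ?_, ?_⟩, ?_⟩
  · simp only; omega
  · show (b : ℤ) - a + 0 < b + 1
    omega
  · simp only; omega
  · simp only; omega
  · simp only
    push_cast [Nat.cast_sub hs]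
    rcases eq_or_ne a b with h8 | h8
    · right
      have := h7 h8
      omega
    · left
      omega

/-- **local gluing along a fibre** -/
theorem glue_loc {ι κ : Type} [Fintype ι] [Fintype κ] {w : ι → ℕ} {v : κ → ℕ} {φ : ℤ → ℤ} {h : ℕ}
    {σ : ℤ} {b s : ℕ} (hN : cond w = h * b + s) (hs : s < h)
    (hwE : Emp w (D φ0 h b)) (hwS : Sur w (D φ0 h ((b : ℤ) + 1)))
    (mono : ∀ y y' : ℤ, 0 ≤ y → y ≤ y' → y' < h → φ y ≤ φ y')
    (hsum : ∑ y ∈ Finset.range h, φ y = σ) {e : ℤ}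
    (hφ : ∀ y : ℤ, 0 ≤ y → y < h → φ y < e)
    (h1 : (e - 1) * h ≤ cond v + σ → Emp v (D φ h (e - 1)))
    (h2 : e * h ≤ cond v + σ → Emp v (D φ h e))
    (h3 : (cond v : ℤ) + σ ≤ (e - 1) * h → Sur v (D φ h (e - 1)))
    (h4 : (cond v : ℤ) + σ ≤ e * h → Sur v (D φ h e)) :
    ((e + b) * h ≤ cond w + cond v + σ → Emp (Sum.elim w v) (D φ h (e + b))) ∧
    ((cond w : ℤ) + cond v + σ ≤ (e + b) * h → Sur (Sum.elim w v) (D φ h (e + b))) := by
  have hL := Emp_leftt hN hs.le hwE hwS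
  have hpos : (0 : ℤ) < h := by omega
  have hs' : (s : ℤ) < h := by exact_mod_cast hs
  obtain ⟨N1, hN1⟩ : ∃ N, N = cond w := ⟨_, rfl⟩
  obtain ⟨N2, hN2⟩ : ∃ N, N = cond v := ⟨_, rfl⟩
  rw [← hN1] at hN hL
  rw [← hN1, ← hN2]
  rw [← hN2] at h1 h2 h3 h4
  have hd1 : ((h : ℤ) * b + s) = N1 := by exact_mod_cast hN.symm
  have hcut : ∀ p ∈ ({p | 0 ≤ p.1 ∧ 0 ≤ p.2 ∧ p.2 < h ∧ h * p.1 + p.2 < N1} : Set (ℤ × ℤ)),
      ∀ q ∈ ({p | p ∈ D φ h (e + b) ∧ (N1 : ℤ) ≤ h * p.1 + p.2} : Set (ℤ × ℤ)),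
      (h : ℤ) * p.1 + 1 * p.2 < h * q.1 + 1 * q.2 ∨ ((h : ℤ) * p.1 + 1 * p.2 = h * q.1 + 1 * q.2 ∧
        (0 : ℤ) * p.1 + 0 * p.2 < 0 * q.1 + 0 * q.2) := by
    rintro p ⟨_, _, _, h1⟩ q ⟨_, h2⟩
    left
    linarith
  have hR : ∀ a y : ℤ, 0 ≤ y → y < h → (N1 : ℤ) ≤ h * a + y → b ≤ a ∧ (a = b → (s : ℤ) ≤ y) := by
    intro a y h0 h1 h2
    have h3 : (b : ℤ) ≤ a := by
      by_contra hcon
      have : (h : ℤ) * a ≤ h * (b - 1) := mul_le_mul_of_nonneg_left (by omega) hpos.le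
      nlinarith
    refine ⟨h3, ?_⟩
    rintro rfl
    linarith
  have hR' : ∀ a y : ℤ, 0 ≤ y → (b : ℤ) ≤ a → (a = b → (s : ℤ) ≤ y) → (N1 : ℤ) ≤ h * a + y := by
    intro a y h0 h1 h2
    rcases eq_or_lt_of_le h1 with h3 | h3
    · have := h2 h3.symm
      rw [← h3]
      linarith
    · have : (h : ℤ) * (b + 1) ≤ h * a := mul_le_mul_of_nonneg_left (by omega) hpos.le
      nlinarith
  have hsh : ∀ a y : ℤ, ((1 * a + 0 * y + -b, 0 * a + 1 * y + 0) : ℤ × ℤ) = (a - b, y) := by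
    intro a y
    ext
    · simp only; ring
    · simp only; ring
  have hsh' : ∀ a y : ℤ, ((a - -b, y - 0) : ℤ × ℤ) = (a + b, y) := by
    intro a y
    ext
    · simp only; ring
    · simp only; ring
  -- the partially filled column
  have hQ : (e - 1) * h < N2 + σ → N2 + σ ≤ e * h → ∃ t : ℕ, N2 + σ + t = e * h ∧ t < h ∧
      Emp v {p | p ∈ D φ h e ∧ (p.1 ≠ 0 ∨ (t : ℤ) ≤ p.2)} := by
    intro k1 k2
    obtain ⟨t, ht⟩ : ∃ t : ℕ, (t : ℤ) = e * h - (N2 + σ) :=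
      ⟨(e * h - (N2 + σ)).toNat, Int.toNat_of_nonneg (by linarith)⟩
    refine ⟨t, by linarith, ?_, ?_⟩
    · have : (t : ℤ) < h := by nlinarith
      exact_mod_cast this
    · exact Emp_Qt mono hsum (fun y h0 h1 => (hφ y h0 h1).le) (by rw [← hN2]; linarith)
        (h1 k1.le) (h4 k2)
  constructor
  · intro hc
    have hR1 : Emp v {p | p ∈ D φ h (e + b) ∧ (N1 : ℤ) ≤ h * p.1 + p.2} := by
      rcases le_or_gt (e * h) (N2 + σ) with k | k
      · refine (h2 k).comap 1 0 0 1 (-b) 0 (by norm_num) ?_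
        rintro ⟨a, y⟩ ⟨⟨k1, k2, k3, k4⟩, k5⟩
        simp only at k1 k2 k3 k4 k5
        rw [hsh]
        have := (hR a y k3 k4 k5).1
        refine ⟨?_, ?_, k3, k4⟩ <;> simp only <;> omega
      · obtain ⟨t, ht1, ht2, ht3⟩ := hQ (by nlinarith) k.le
        have hts : (t : ℤ) ≤ s := by nlinarith
        refine ht3.comap 1 0 0 1 (-b) 0 (by norm_num) ?_
        rintro ⟨a, y⟩ ⟨⟨k1, k2, k3, k4⟩, k5⟩
        simp only at k1 k2 k3 k4 k5
        rw [hsh]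
        obtain ⟨j1, j2⟩ := hR a y k3 k4 k5
        refine ⟨⟨?_, ?_, k3, k4⟩, ?_⟩ <;> simp only <;> omega
    refine (Emp_lex (by
        rw [← coe_LF (by omega)]; exact Finset.finite_toSet _)
      ((D_fin φ h (e + b)).subset fun p hp => hp.1) h 1 0 0 hcut hL hR1).mono ?_
    rintro ⟨a, y⟩ ⟨k1, k2, k3, k4⟩
    rcases lt_or_ge ((h : ℤ) * a + y) N1 with h5 | h5
    · exact Or.inl ⟨k1, k3, k4, h5⟩
    · exact Or.inr ⟨⟨k1, k2, k3, k4⟩, h5⟩
  · intro hc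
    have hLS : Sur w {p | 0 ≤ p.1 ∧ 0 ≤ p.2 ∧ p.2 < h ∧ h * p.1 + p.2 < N1} := by
      rw [← coe_LF (by omega)] at hL ⊢
      exact ⟨_, subset_rfl, by rw [card_LF, hN1], hL⟩
    have hR1 : Sur v {p | p ∈ D φ h (e + b) ∧ (N1 : ℤ) ≤ h * p.1 + p.2} := by
      rcases le_or_gt (N2 + σ) ((e - 1) * h) with k | k
      · refine (h3 k).shift (-(b + 1)) 0 ?_
        rintro ⟨a, y⟩ ⟨k1, k2, k3, k4⟩
        simp only at k1 k2 k3 k4
        rw [show ((a - -(b + 1), y - 0) : ℤ × ℤ) = (a + b + 1, y) by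
          ext
          · simp only; ring
          · simp only; ring]
        refine ⟨⟨?_, ?_, k3, k4⟩, hR' _ _ k3 ?_ ?_⟩ <;> simp only <;> omega
      · have k' : N2 + σ ≤ e * h := by nlinarith
        obtain ⟨t, ht1, ht2, ht3⟩ := hQ k k'
        have hts : (s : ℤ) ≤ t := by nlinarith
        have hQS : Sur v {p | p ∈ D φ h e ∧ (p.1 ≠ 0 ∨ (t : ℤ) ≤ p.2)} := by
          refine ⟨(DF φ h e).filter fun p => ¬ (p.1 = 0 ∧ p.2 < (t : ℤ)), ?_, ?_, ht3.mono ?_⟩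
          · rintro p hp
            rw [mem_coe, Finset.mem_filter, ← mem_coe, coe_DF] at hp
            exact ⟨hp.1, by omega⟩
          · have e1 := card_Qt hφ ht2.le
            rw [card_DFs hsum fun y h0 h1 => (hφ y h0 h1).le] at e1
            have e2 : ((((DF φ h e).filter fun p => ¬ (p.1 = 0 ∧ p.2 < (t : ℤ))).card : ℕ) : ℤ) =
                (cond v : ℕ) := by
              rw [e1, ← hN2]
              linarith
            exact_mod_cast e2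
          · rintro p hp
            rw [mem_coe, Finset.mem_filter, ← mem_coe, coe_DF] at hp
            exact ⟨hp.1, by omega⟩
        refine hQS.shift (-b) 0 ?_
        rintro ⟨a, y⟩ ⟨⟨k1, k2, k3, k4⟩, k5⟩
        simp only at k1 k2 k3 k4 k5
        rw [hsh']
        refine ⟨⟨?_, ?_, k3, k4⟩, hR' _ _ k3 ?_ ?_⟩ <;> simp only <;> omega
    refine (Sur_lex h 1 0 0 hcut hLS hR1).mono ?_
    rintro ⟨a, y⟩ (⟨k1, k3, k4, k5⟩ | ⟨k1, _⟩)
    · simp only at k1 k3 k4 k5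
      refine ⟨k1, ?_, k3, k4⟩
      simp only
      have h6 := hφ y k3 k4
      have h7 : a ≤ b := by
        by_contra hcon
        have : (h : ℤ) * (b + 1) ≤ h * a := mul_le_mul_of_nonneg_left (by omega) hpos.le
        nlinarith
      omega
    · exact k1

end Pool.Agent.H902.CB
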