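import Pool.Agent.H902.CB.Orbit
import Pool.Agent.H902.CB.Brg

set_option autoImplicit false

/-!
# Unions of sets of points, for a fixed degree on the fibres
-/

namespace Pool.Agent.H902.CB

open Finset Pool.Agent.TH176.Nag Pool.Agent.TH603.Sur Pool.Agent.TH641.UM

/-- the expected behaviour on all rectangles with `b + 1` rows -/
def BR (b : ℕ) (s : Multiset ℕ) : Prop := ∀ a : ℕ, EIM s (PT a b (a + b))

theorem mem_rect {a b : ℕ} {p : ℤ × ℤ} :
    p ∈ PT a b (a + b) ↔ 0 ≤ p.1 ∧ p.1 ≤ a ∧ 0 ≤ p.2 ∧ p.2 ≤ b := by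
  rw [mem_PT]
  push_cast
  omega

theorem coe_rect (a b : ℕ) :
    (↑(PT a b (a + b)) : Set (ℤ × ℤ)) = D φ0 (b + 1) ((a : ℤ) + 1) := by
  ext p
  rw [mem_coe, mem_rect]
  simp only [D, φ0, Set.mem_ofPred_eq]
  push_cast
  omega

theorem card_rect (a b : ℕ) : (PT a b (a + b)).card = (a + 1) * (b + 1) := by
  have h : PT a b (a + b) = (Finset.Icc 0 (a : ℤ)) ×ˢ (Finset.Icc 0 (b : ℤ)) := by
    ext p
    rw [mem_rect, mem_product, Finset.mem_Icc, Finset.mem_Icc]
    omega
  rw [h, card_product, Int.card_Icc, Int.card_Icc]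
  congr 1

theorem BR_iff {ι : Type} [Fintype ι] {w : ι → ℕ} {s : Multiset ℕ} {b : ℕ}
    (h : (univ : Finset ι).val.map w = s) : BR b s ↔ Bal w φ0 (b + 1) := by
  constructor
  · intro hs c
    rcases lt_or_ge 0 c with h0 | h0
    · obtain ⟨a, rfl⟩ : ∃ a : ℕ, c = (a : ℤ) + 1 := ⟨(c - 1).toNat, by omega⟩
      obtain ⟨h1, h2⟩ := (EIM_iff h).1 (hs a)
      rw [card_rect, coe_rect] at h1 h2
      refine ⟨fun h3 => h1 ?_, fun h3 => h2 ?_⟩
      · exact_mod_cast h3
      · exact_mod_cast h3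
    · refine ⟨fun _ => ?_, fun h3 => ?_⟩
      · rw [D_empty fun y _ _ => h0]
        exact Emp_empty _
      · refine Sur_zero ?_
        have h4 : c * ((b + 1 : ℕ) : ℤ) ≤ 0 :=
          mul_nonpos_of_nonpos_of_nonneg h0 (by positivity)
        have h5 : (cond w : ℤ) ≤ 0 := h3.trans h4
        omega
  · intro hB a
    refine (EIM_iff h).2 ⟨fun h3 => ?_, fun h3 => ?_⟩
    · rw [card_rect] at h3
      rw [coe_rect]
      exact (hB _).1 (by exact_mod_cast h3)
    · rw [card_rect] at h3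
      rw [coe_rect]
      exact (hB _).2 (by exact_mod_cast h3)

theorem BR_zero (b : ℕ) : BR b 0 := fun _ => M_zero _

/-- **additivity** -/
theorem BR_add {b : ℕ} {s s' : Multiset ℕ} (h : BR b s) (h' : BR b s') : BR b (s + s') := by
  have h1 := glue ((BR_iff (vals_self s)).1 h) ((BR_iff (vals_self s')).1 h')
    ⟨by omega, fun _ _ _ _ _ => le_rfl, by simp, fun y _ _ => by simp⟩
  refine (BR_iff ?_).2 h1
  rw [vals_sum, vals_self, vals_self]

theorem BR_of_Bal {b r m : ℕ} (h : Bal (fun _ : Fin r => m) φ0 (b + 1)) :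
    BR b (Multiset.replicate r m) := by
  refine (BR_iff ?_).2 h
  rw [Multiset.map_const', Finset.card_val, card_univ, Fintype.card_fin]

/-- a triangle at the side -/
theorem EI_side {ι : Type} [Fintype ι] {w : ι → ℕ} {a b : ℕ}
    (h : EI w (PT a b (a + b))) :
    EI (Sum.elim w (fun _ : Fin 1 => b)) (PT (a + b) b (a + b)) := by
  refine EI_join (A := (PT (a + b) b (a + b)).filter fun p => (a : ℤ) < p.1) 1 0 0 1 (-(a + 1)) 0
    (by norm_num) ?_ ?_ 1 0 ?_ ?_ h
  · intro m hm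
    rw [mem_filter, mem_PT] at hm
    rw [mem_TR]
    push_cast at hm
    simp only
    omega
  · rintro ⟨x, y⟩ hm
    rw [mem_TR] at hm
    simp only at hm
    refine ⟨(x + a + 1, y), ?_, ?_⟩
    · rw [mem_filter, mem_PT]
      push_cast
      omega
    · ext
      · simp only; ring
      · simp only; ring
  · intro m hm m' hm'
    rw [mem_rect] at hm
    rw [mem_filter] at hm'
    omega
  · intro m
    rw [mem_filter, mem_rect, mem_PT]
    push_cast
    omega

/-- from the quadric to the plane -/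
theorem plane_of_BR {b : ℕ} {s : Multiset ℕ} (h : BR b s) (a : ℕ) :
    EIM (a ::ₘ b ::ₘ s) (PT (a + b) (a + b) (a + b)) := by
  have h1 : EIM (b ::ₘ s) (PT (a + b) b (a + b)) :=
    (EIM_iff (vals_cons _ _)).2 (EI_side (h a))
  have h2 := M_top (b := b) (D := a + b) (by omega) h1
  rwa [Nat.add_sub_cancel] at h2

/-- from the plane to the quadric -/
theorem BR_of_plane {b : ℕ} {s : Multiset ℕ}
    (h : ∀ a, EIM (a ::ₘ b ::ₘ s) (PT (a + b) (a + b) (a + b))) : BR b s := by
  intro a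
  refine M_cut2 (a := a) (by omega) (by omega) (M_cut1 (b := b) (by omega) ?_)
  rw [Nat.add_sub_cancel, Nat.add_sub_cancel_left]
  exact h a

end Pool.Agent.H902.CB
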