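import Pool.Agent.H902.CB.Wr

set_option autoImplicit false

/-!
# Moving a general point to a coordinate point
-/

namespace Pool.Agent.H902.CB

open Polynomial Pool.Agent.TH176.Nag Pool.Agent.TH603.Sur

section tr2
open Pool.Agent.H932R2 Pool.Agent.TH545.SD
variable {K : Type} [Field K]

/-- the translation of both variables -/
noncomputable def trH (x z : K) : K[X][X] →+* K[X][X] :=
  (trG z).comp (mapRingHom (compRingHom (X + C (-x))))

theorem trH_apply (x z : K) (G : K[X][X]) :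
    trH x z G = trG z (G.map (compRingHom (X + C (-x)))) := rfl

theorem trH_cIdeal {a b x z : K} {w : ℕ} {G : K[X][X]}
    (h : G ∈ cIdeal (fun _ : Fin 1 => a - x) (C (b - z)) w) :
    trH x z G ∈ cIdeal (fun _ : Fin 1 => a) (C b) w := by
  unfold cIdeal at h ⊢
  have h3 := Ideal.mem_map_of_mem (trH x z) h
  rw [Ideal.map_pow] at h3
  refine Ideal.pow_right_mono ?_ w h3
  rw [Ideal.map_le_iff_le_comap, Ideal.span_le]
  rintro g (rfl | rfl)
  · refine Ideal.mem_comap.2 (Ideal.subset_span (Or.inl ?_))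
    rw [trH_apply, trG_apply]
    simp only [Polynomial.map_sub, Polynomial.map_X, Polynomial.map_C, coe_compRingHom_apply,
      sub_comp, X_comp, C_comp, C_sub, C_neg]
    ring
  · refine Ideal.mem_comap.2 (Ideal.subset_span (Or.inr ?_))
    rw [trH_apply, trG_apply, rootPoly_const, pow_one, rootPoly_const, pow_one, Polynomial.map_C,
      C_comp, coe_compRingHom_apply, sub_comp, X_comp, C_comp, Set.mem_singleton_iff]
    congr 1
    rw [C_sub, C_neg]
    ring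

theorem trH_inj (x z : K) {G : K[X][X]} (h : trH x z G = 0) : G = 0 := by
  rw [trH_apply] at h
  have h1 := trG_inj z h
  have h2 : (G.map (compRingHom (X + C (-x)))).map (compRingHom (X + C x)) = G := by
    rw [Polynomial.map_map]
    have h3 : (compRingHom (X + C x)).comp (compRingHom (X + C (-x))) = RingHom.id K[X] := by
      ext
      · simp
      · simp
    rw [h3, Polynomial.map_id]
  rw [← h2, h1, Polynomial.map_zero]

/-- the translation of both variables, on Laurent polynomials -/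
noncomputable def tr2 (x z : K) (f : (ℤ × ℤ) →₀ K) : (ℤ × ℤ) →₀ K :=
  (tl K (trH x z (Psi K f))).coeff

theorem Psi_tr2 (x z : K) (f : (ℤ × ℤ) →₀ K) : Psi K (tr2 x z f) = trH x z (Psi K f) := Psi_tl

theorem trH_mon (x z : K) (c : K) (a b : ℕ) :
    trH x z (c • Pool.Agent.H932R2.mon K (a, b)) =
      C (C c * (X + C (-x)) ^ a) * (X + C (C (-z))) ^ b := by
  rw [trH_apply, trG_apply, Pool.Agent.H932R2.mon, Algebra.smul_def,
    Polynomial.algebraMap_apply, Polynomial.algebraMap_eq]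
  simp only [Polynomial.map_mul, Polynomial.map_pow, Polynomial.map_X, Polynomial.map_C, map_pow,
    coe_compRingHom_apply, mul_comp, C_comp, X_pow_comp, X_comp]
  rw [← C_pow, C_comp, C_mul, mul_assoc]

theorem tr2_coeff (x z : K) {f : (ℤ × ℤ) →₀ K} (hpos : ∀ u ∈ f.support, 0 ≤ u.1 ∧ 0 ≤ u.2)
    {m : ℤ × ℤ} (hm : tr2 x z f m ≠ 0) :
    (0 ≤ m.1 ∧ 0 ≤ m.2) ∧ ∃ u ∈ f.support, m.1 ≤ u.1 ∧ m.2 ≤ u.2 := by
  unfold tr2 at hm
  rw [tl_coeff] at hm
  have h0 : 0 ≤ m.1 ∧ 0 ≤ m.2 := by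
    by_contra h
    rw [if_neg h] at hm
    exact hm rfl
  refine ⟨h0, ?_⟩
  rw [if_pos h0, Psi_apply, map_sum, finsetSum_coeff, finsetSum_coeff] at hm
  obtain ⟨u, hu, hne⟩ := Finset.exists_ne_zero_of_sum_ne_zero hm
  refine ⟨u, hu, ?_⟩
  rw [trH_mon, coeff_C_mul, coeff_X_add_C_pow] at hne
  have h2 : ((C (-z) : K[X]) ^ (u.2.toNat - m.2.toNat) * ((u.2.toNat.choose m.2.toNat : ℕ) : K[X])) =
      C ((-z) ^ (u.2.toNat - m.2.toNat) * (u.2.toNat.choose m.2.toNat : K)) := by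
    rw [C_mul, C_pow, Polynomial.C_eq_natCast]
  rw [h2, mul_assoc, coeff_C_mul, coeff_mul_C, coeff_X_add_C_pow] at hne
  obtain ⟨p1, p2⟩ := hpos u hu
  have h3 : m.1.toNat ≤ u.1.toNat := by
    by_contra h
    rw [Nat.choose_eq_zero_of_lt (not_le.1 h)] at hne
    simp at hne
  have h4 : m.2.toNat ≤ u.2.toNat := by
    by_contra h
    rw [Nat.choose_eq_zero_of_lt (not_le.1 h)] at hne
    simp at hne
  omega

theorem tr2_LM [CharZero K] {a b x z : K} (hx : a ≠ 0) (hy : b ≠ 0) (hxz : a - x ≠ 0)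
    (hyz : b - z ≠ 0) {w : ℕ} {f : (ℤ × ℤ) →₀ K} (hpos : ∀ u ∈ f.support, 0 ≤ u.1 ∧ 0 ≤ u.2)
    (hf : LM f (a - x) (b - z) w) : LM (tr2 x z f) a b w :=
  LM_of_cIdeal hx hy (trH_cIdeal (Psi_mem_cIdeal hxz hyz hpos hf))

/-- the new point -/
theorem tr2_LM_new [CharZero K] {x z : K} (hx : x ≠ 0) (hz : z ≠ 0) {w : ℕ} {f : (ℤ × ℤ) →₀ K}
    (hpos : ∀ u ∈ f.support, 0 ≤ u.1 ∧ 0 ≤ u.2) (hf : ∀ u ∈ f.support, (w : ℤ) ≤ u.1 + u.2) :
    LM (tr2 x z f) x z w := by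
  refine LM_of_cIdeal hx hz ?_
  rw [Psi_apply, map_sum]
  refine Ideal.sum_mem _ fun u hu => ?_
  rw [trH_mon, C_mul, mul_assoc]
  refine Ideal.mul_mem_left _ _ ?_
  unfold cIdeal
  rw [rootPoly_const, pow_one]
  obtain ⟨p1, p2⟩ := hpos u hu
  have h1 := hf u hu
  refine Ideal.pow_le_pow_right (show w ≤ u.1.toNat + u.2.toNat by omega) ?_
  have k1 : (C ((X + C (-x)) ^ u.1.toNat) : K[X][X]) ∈
      (Ideal.span ({X - C (C z), C (X - C x)} : Set K[X][X]) : Ideal K[X][X]) ^ u.1.toNat := by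
    have hm : (C (X + C (-x)) : K[X][X]) ∈
        (Ideal.span ({X - C (C z), C (X - C x)} : Set K[X][X]) : Ideal K[X][X]) :=
      Ideal.subset_span (Or.inr (by rw [Set.mem_singleton_iff, C_neg, ← sub_eq_add_neg]))
    rw [C_pow]
    exact Ideal.pow_mem_pow hm _
  have k2 : ((X + C (C (-z))) ^ u.2.toNat : K[X][X]) ∈
      (Ideal.span ({X - C (C z), C (X - C x)} : Set K[X][X]) : Ideal K[X][X]) ^ u.2.toNat := by
    have hm : (X + C (C (-z)) : K[X][X]) ∈
        (Ideal.span ({X - C (C z), C (X - C x)} : Set K[X][X]) : Ideal K[X][X]) :=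
      Ideal.subset_span (Or.inl (by rw [C_neg, C_neg, ← sub_eq_add_neg]))
    exact Ideal.pow_mem_pow hm _
  exact (pow_add (Ideal.span ({X - C (C z), C (X - C x)} : Set K[X][X]) : Ideal K[X][X])
    u.1.toNat u.2.toNat).ge (Ideal.mul_mem_mul k1 k2)

end tr2

open Pool.Agent.TH545.SD in
/-- **moving a point of multiplicity `μ` to the origin** -/
theorem Emp_move {ι : Type} [Finite ι] {w : ι → ℕ} {μ : ℕ} {S : Set (ℤ × ℤ)} (hfin : S.Finite)
    (hpos : ∀ m ∈ S, 0 ≤ m.1 ∧ 0 ≤ m.2)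
    (hdown : ∀ a b a' b' : ℤ, (a, b) ∈ S → 0 ≤ a' → a' ≤ a → 0 ≤ b' → b' ≤ b → (a', b') ∈ S)
    (h : Emp (Sum.elim w (fun _ : Fin 1 => μ)) S) : Emp w {m | m ∈ S ∧ (μ : ℤ) ≤ m.1 + m.2} := by
  classical
  have : Fintype ι := Fintype.ofFinite ι
  obtain ⟨F, hF, hF'⟩ := Emp_open hfin hpos h
  let G : MvPolynomial ((ι ⊕ Fin 1) × Fin 2) ℚ := ∏ q : ι × Fin 2,
    (MvPolynomial.X (Sum.inl q.1, q.2) - MvPolynomial.X (Sum.inr 0, q.2))
  have hG : F * G ≠ 0 := by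
    refine mul_ne_zero hF (Finset.prod_ne_zero_iff.2 fun q _ => sub_ne_zero.2 fun h => ?_)
    have := MvPolynomial.X_injective h
    simp at this
  obtain ⟨P, hP⟩ : ∃ P : (ι ⊕ Fin 1) × Fin 2 → ℚ, MvPolynomial.aeval P (F * G) ≠ 0 := by
    by_contra hcon
    push Not at hcon
    apply hG
    apply MvPolynomial.funext
    intro x
    rw [map_zero]
    have := hcon x
    rwa [MvPolynomial.aeval_eq_eval] at this
  rw [map_mul, map_prod] at hP
  obtain ⟨hn, hz⟩ := hF' P (left_ne_zero_of_mul hP)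
  have hP2 := Finset.prod_ne_zero_iff.1 (right_ne_zero_of_mul hP)
  have hne : ∀ (i : ι) (j : Fin 2), P (Sum.inl i, j) - P (Sum.inr 0, j) ≠ 0 := by
    intro i j
    have := hP2 (i, j) (Finset.mem_univ _)
    simpa using this
  refine ⟨ℚ, inferInstance, inferInstance, fun i => P (Sum.inl i, 0) - P (Sum.inr 0, 0),
    fun i => P (Sum.inl i, 1) - P (Sum.inr 0, 1), fun i => hne i 0, fun i => hne i 1,
    fun f hf hL => ?_⟩
  have hfpos : ∀ u ∈ f.support, 0 ≤ u.1 ∧ 0 ≤ u.2 := fun u hu => hpos u (hf hu).1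
  have hgS : (↑(tr2 (P (Sum.inr 0, 0)) (P (Sum.inr 0, 1)) f).support : Set (ℤ × ℤ)) ⊆ S := by
    rintro ⟨a, b⟩ hm
    obtain ⟨⟨p1, p2⟩, u, hu, h2, h3⟩ := tr2_coeff _ _ hfpos (Finsupp.mem_support_iff.1 hm)
    exact hdown u.1 u.2 a b (hf hu).1 p1 h2 p2 h3
  have hg : tr2 (P (Sum.inr 0, 0)) (P (Sum.inr 0, 1)) f = 0 := by
    refine hz _ hgS ?_
    rintro (i | j)
    · exact tr2_LM (hn _) (hn _) (hne i 0) (hne i 1) hfpos (hL i)
    · obtain rfl : j = 0 := Subsingleton.elim _ _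
      exact tr2_LM_new (hn _) (hn _) hfpos fun u hu => (hf hu).2
  have h6 := Psi_tr2 (P (Sum.inr 0, 0)) (P (Sum.inr 0, 1)) f
  rw [hg, map_zero] at h6
  exact Psi_injOn hfpos (trH_inj _ _ h6.symm)

end Pool.Agent.H902.CB
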