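import Pool.Agent.H902.CB.EI
import Pool.Agent.H902.CB.Loc

set_option autoImplicit false

/-!
# Multisets of multiplicities
-/

namespace Pool.Agent.H902.CB

open Finset Pool.Agent.TH176.Nag Pool.Agent.TH603.Sur Pool.Agent.TH641.UM

theorem value_equiv {ι κ : Type} [Fintype ι] [Fintype κ] {w : ι → ℕ} {v : κ → ℕ}
    (h : (univ : Finset ι).val.map w = (univ : Finset κ).val.map v) :
    ∃ e : κ ≃ ι, ∀ j, v j = w (e j) := by
  classical
  have h1 : ∀ n : ℕ, Fintype.card {j : κ // v j = n} = Fintype.card {i : ι // w i = n} := by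
    intro n
    have h2 := congrArg (Multiset.count n) h
    rw [Multiset.count_map, Multiset.count_map] at h2
    rw [Fintype.card_subtype, Fintype.card_subtype, Finset.card_def, Finset.card_def,
      Finset.filter_val, Finset.filter_val]
    have e1 : ∀ (α : Type) (s : Multiset α) (f : α → ℕ),
        Multiset.filter (fun a => n = f a) s = Multiset.filter (fun a => f a = n) s := by
      intro α s f
      exact Multiset.filter_congr fun a _ => ⟨fun h => h.symm, fun h => h.symm⟩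
    rw [e1, e1] at h2
    exact h2.symm
  have e := ((Equiv.sigmaFiberEquiv v).symm.trans
    (Equiv.sigmaCongrRight fun n => Fintype.equivOfCardEq (h1 n))).trans (Equiv.sigmaFiberEquiv w)
  refine ⟨((Equiv.sigmaFiberEquiv v).symm.trans
    (Equiv.sigmaCongrRight fun n => Fintype.equivOfCardEq (h1 n))).trans (Equiv.sigmaFiberEquiv w),
    fun j => ?_⟩
  simp only [Equiv.trans_apply]
  exact ((Fintype.equivOfCardEq (h1 (v j))) ⟨j, rfl⟩).2.symm

/-- emptiness or independence for a multiset of multiplicities -/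
def EIM (s : Multiset ℕ) (S : Finset (ℤ × ℤ)) : Prop := EI (fun x : s.ToType => x.1) S

theorem EIM_iff {ι : Type} [Fintype ι] {w : ι → ℕ} {s : Multiset ℕ} {S : Finset (ℤ × ℤ)}
    (h : (univ : Finset ι).val.map w = s) : EIM s S ↔ EI w S := by
  have h1 : (univ : Finset s.ToType).val.map (fun x : s.ToType => x.1) = s := Multiset.map_univ_coe s
  constructor
  · intro h2
    obtain ⟨e, he⟩ := value_equiv (h1.trans h.symm)
    exact EI_equiv e he h2
  · intro h2
    obtain ⟨e, he⟩ := value_equiv (h.trans h1.symm)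
    exact EI_equiv e he h2

/-- the number of conditions -/
def cM (s : Multiset ℕ) : ℕ := (s.map fun m => (m + 1).choose 2).sum

theorem cM_cons (a : ℕ) (s : Multiset ℕ) : cM (a ::ₘ s) = (a + 1).choose 2 + cM s := by
  unfold cM
  rw [Multiset.map_cons, Multiset.sum_cons]

theorem cM_add (s t : Multiset ℕ) : cM (s + t) = cM s + cM t := by
  unfold cM
  rw [Multiset.map_add, Multiset.sum_add]

theorem cM_zero : cM 0 = 0 := rfl

theorem cond_cM {ι : Type} [Fintype ι] {w : ι → ℕ} {s : Multiset ℕ}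
    (h : (univ : Finset ι).val.map w = s) : cond w = cM s := by
  unfold cM Pool.Agent.TH603.Sur.cond
  rw [← h, Multiset.map_map]
  rfl

theorem vals_sum {ι κ : Type} [Fintype ι] [Fintype κ] (w : ι → ℕ) (v : κ → ℕ) :
    (univ : Finset (ι ⊕ κ)).val.map (Sum.elim w v) =
      (univ : Finset ι).val.map w + (univ : Finset κ).val.map v := by
  rw [← Finset.univ_disjSum_univ, Finset.val_disjSum, Multiset.disjSum, Multiset.map_add,
    Multiset.map_map, Multiset.map_map]
  rfl

theorem vals_one (μ : ℕ) : (univ : Finset (Fin 1)).val.map (fun _ => μ) = {μ} := rfl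

/-- a representing family -/
theorem vals_self (s : Multiset ℕ) :
    (univ : Finset s.ToType).val.map (fun x : s.ToType => x.1) = s := Multiset.map_univ_coe s

theorem vals_cons (μ : ℕ) (s : Multiset ℕ) :
    (univ : Finset (s.ToType ⊕ Fin 1)).val.map (Sum.elim (fun x : s.ToType => x.1)
      (fun _ : Fin 1 => μ)) = μ ::ₘ s := by
  rw [vals_sum, vals_self, vals_one, add_comm, Multiset.singleton_add]

theorem M_cut1 {s : Multiset ℕ} {b D : ℕ} (hb : b ≤ D)
    (h : EIM ((D - b) ::ₘ s) (PT D D D)) : EIM s (PT D b D) :=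
  EI_cut1 hb ((EIM_iff (vals_cons _ _)).1 h)

theorem M_cut2 {s : Multiset ℕ} {a b D : ℕ} (ha : a ≤ D) (hab : D ≤ a + b + 1)
    (h : EIM ((D - a) ::ₘ s) (PT D b D)) : EIM s (PT a b D) :=
  EI_cut2 ha hab ((EIM_iff (vals_cons _ _)).1 h)

theorem M_top {s : Multiset ℕ} {b D : ℕ} (hb : b ≤ D) (h : EIM s (PT D b D)) :
    EIM ((D - b) ::ₘ s) (PT D D D) :=
  (EIM_iff (vals_cons _ _)).2 (EI_top hb h)

theorem M_corner {s : Multiset ℕ} {a b t : ℕ} (ha : t ≤ a) (hb : t ≤ b)
    (h : EIM s (PT a b (a + b - t))) : EIM (t ::ₘ s) (PT a b (a + b)) :=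
  (EIM_iff (vals_cons _ _)).2 (EI_corner ha hb h)

/-- the rectangle from the plane -/
theorem M_rect {s : Multiset ℕ} {a b t : ℕ} (ha : t ≤ a) (hb : t ≤ b)
    (h : EIM ((a - t) ::ₘ (b - t) ::ₘ s) (PT (a + b - t) (a + b - t) (a + b - t))) :
    EIM (t ::ₘ s) (PT a b (a + b)) := by
  refine M_corner ha hb (M_cut2 (by omega) (by omega) (M_cut1 (b := b) (by omega) ?_))
  rw [show a + b - t - b = a - t by omega, show a + b - t - a = b - t by omega]
  exact h

/-- the slanted wall -/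
def φi (y : ℤ) : ℤ := y

theorem coe_PTi (b d : ℕ) : (↑(PT d b d) : Set (ℤ × ℤ)) = D φi (b + 1) ((d : ℤ) + 1) := by
  ext p
  rw [mem_coe, mem_PT]
  show _ ↔ 0 ≤ p.1 ∧ p.1 + p.2 < (d : ℤ) + 1 ∧ 0 ≤ p.2 ∧ p.2 < ((b + 1 : ℕ) : ℤ)
  push_cast
  omega

theorem coe_PT0 (a b : ℕ) : (↑(PT a b (a + b)) : Set (ℤ × ℤ)) = D φ0 (b + 1) ((a : ℤ) + 1) := by
  ext p
  rw [mem_coe, mem_PT]
  show _ ↔ 0 ≤ p.1 ∧ p.1 + 0 < (a : ℤ) + 1 ∧ 0 ≤ p.2 ∧ p.2 < ((b + 1 : ℕ) : ℤ)
  push_cast
  omega

theorem sum_φi (b : ℕ) :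
    (∑ y ∈ Finset.range (b + 1), φi (y : ℕ)) = ((b + 1).choose 2 : ℕ) := by
  unfold φi
  rw [← Nat.cast_sum, Finset.sum_range_id, Nat.choose_two_right]

theorem card_PTi {b d : ℕ} (hb : b ≤ d + 1) :
    ((PT d b d).card : ℤ) = ((b + 1 : ℕ) : ℤ) * ((d : ℤ) + 1) - ((b + 1).choose 2 : ℕ) := by
  have h1 : PT d b d = DF φi (b + 1) ((d : ℤ) + 1) := by
    ext p
    rw [← mem_coe, coe_PTi, ← mem_coe, coe_DF]
  rw [h1, card_DFs (sum_φi b) (fun y h0 h2 => by
    show y ≤ (d : ℤ) + 1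
    push_cast at h2
    omega)]

theorem card_PT0 (a b : ℕ) : (PT a b (a + b)).card = (b + 1) * (a + 1) := by
  have h1 : PT a b (a + b) = DF φ0 (b + 1) ((a : ℤ) + 1) := by
    ext p
    rw [← mem_coe, coe_PT0, ← mem_coe, coe_DF]
  have h2 := card_DFs (φ := φ0) (h := b + 1) (c := (a : ℤ) + 1) (σ := 0) (by simp)
    (fun y _ _ => by show (0 : ℤ) ≤ (a : ℤ) + 1; positivity)
  rw [← h1] at h2
  have h3 : ((PT a b (a + b)).card : ℤ) = (((b + 1) * (a + 1) : ℕ) : ℤ) := by
    rw [h2]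
    push_cast
    ring
  exact_mod_cast h3

/-- **gluing a rectangle to a trapezoid** -/
theorem M_glue {s1 s2 : Multiset ℕ} {b b1 r d : ℕ} (hN : cM s1 = (b + 1) * b1 + r)
    (hr : r < b + 1) (hb1 : 1 ≤ b1) (h1 : EIM s1 (PT (b1 - 1) b (b1 - 1 + b)))
    (h2 : EIM s1 (PT b1 b (b1 + b))) (hd : b + b1 + 1 ≤ d)
    (h3 : EIM s2 (PT (d - b1 - 1) b (d - b1 - 1))) (h4 : EIM s2 (PT (d - b1) b (d - b1))) :
    EIM (s1 + s2) (PT d b d) := by
  obtain ⟨b2, rfl⟩ : ∃ b2, b1 = b2 + 1 := ⟨b1 - 1, by omega⟩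
  obtain ⟨f, rfl⟩ : ∃ f, d = f + (b2 + 1) + 1 := ⟨d - (b2 + 1) - 1, by omega⟩
  rw [show f + (b2 + 1) + 1 - (b2 + 1) - 1 = f by omega] at h3
  rw [show f + (b2 + 1) + 1 - (b2 + 1) = f + 1 by omega] at h4
  rw [show b2 + 1 - 1 = b2 by omega] at h1
  have hw := cond_cM (vals_self s1)
  have hv := cond_cM (vals_self s2)
  have hs : (univ : Finset (s1.ToType ⊕ s2.ToType)).val.map
      (Sum.elim (fun x : s1.ToType => x.1) (fun x : s2.ToType => x.1)) = s1 + s2 := by
    rw [vals_sum, vals_self, vals_self]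
  rw [EIM_iff hs]
  have hwE : Emp (fun x : s1.ToType => x.1) (D φ0 (b + 1) ((b2 + 1 : ℕ) : ℤ)) := by
    have := h1.1 (by rw [card_PT0, hw, hN]; omega)
    rw [coe_PT0] at this
    push_cast
    exact this
  have hwS : Sur (fun x : s1.ToType => x.1) (D φ0 (b + 1) (((b2 + 1 : ℕ) : ℤ) + 1)) := by
    have := h2.2 (by rw [card_PT0, hw, hN]; nlinarith)
    rw [coe_PT0] at this
    exact this
  have hfb : b ≤ f := by omega
  have key := glue_loc (w := fun x : s1.ToType => x.1) (v := fun x : s2.ToType => x.1) (φ := φi)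
    (h := b + 1) (σ := ((b + 1).choose 2 : ℕ)) (b := b2 + 1) (s := r) (e := (f : ℤ) + 2)
    (by rw [hw, hN]) hr hwE hwS (fun _ _ _ h _ => h) (sum_φi b)
    (fun y _ h => by
      show y < (f : ℤ) + 2
      push_cast at h
      omega)
    (fun hle => by
      have h5 := card_PTi (b := b) (d := f) (by omega)
      have h6 := h3.1 (by
        zify
        rw [h5]
        push_cast at hle ⊢
        linarith)
      rw [coe_PTi] at h6
      rw [show (f : ℤ) + 2 - 1 = f + 1 by ring]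
      exact h6)
    (fun hle => by
      have h5 := card_PTi (b := b) (d := f + 1) (by omega)
      have h6 := h4.1 (by
        zify
        rw [h5]
        push_cast at hle ⊢
        linarith)
      rw [coe_PTi] at h6
      push_cast at h6
      rw [show (f : ℤ) + 2 = f + 1 + 1 by ring]
      exact h6)
    (fun hle => by
      have h5 := card_PTi (b := b) (d := f) (by omega)
      have h6 := h3.2 (by
        zify
        rw [h5]
        push_cast at hle ⊢
        linarith)
      rw [coe_PTi] at h6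
      rw [show (f : ℤ) + 2 - 1 = f + 1 by ring]
      exact h6)
    (fun hle => by
      have h5 := card_PTi (b := b) (d := f + 1) (by omega)
      have h6 := h4.2 (by
        zify
        rw [h5]
        push_cast at hle ⊢
        linarith)
      rw [coe_PTi] at h6
      push_cast at h6
      rw [show (f : ℤ) + 2 = f + 1 + 1 by ring]
      exact h6)
  have h7 := card_PTi (b := b) (d := f + (b2 + 1) + 1) (by omega)
  have e1 : (f : ℤ) + 2 + ((b2 + 1 : ℕ) : ℤ) = ((f + (b2 + 1) + 1 : ℕ) : ℤ) + 1 := by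
    push_cast
    ring
  rw [e1, ← coe_PTi] at key
  refine ⟨fun hle => key.1 ?_, fun hle => key.2 ?_⟩
  · rw [cond_sum] at hle
    zify at hle
    rw [h7] at hle
    push_cast at hle ⊢
    linarith
  · rw [cond_sum] at hle
    zify at hle
    rw [h7] at hle
    push_cast at hle ⊢
    linarith

/-- no conditions -/
theorem M_zero (S : Finset (ℤ × ℤ)) : EIM 0 S := by
  have h := cond_cM (vals_self (0 : Multiset ℕ))
  refine ⟨fun hle => ?_, fun _ => ?_⟩
  · rw [h, cM_zero] at hle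
    have : S = ∅ := Finset.card_eq_zero.1 (Nat.le_zero.1 hle)
    rw [this, coe_empty]
    exact Emp_empty _
  · exact ⟨∅, by simp, by rw [h, cM_zero]; rfl, by rw [coe_empty]; exact Emp_empty _⟩

end Pool.Agent.H902.CB
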