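import Pool.Agent.H902.CB.Euc

set_option autoImplicit false

/-!
# Negative curves of a given degree on the fibres: a bounded number of points suffices
-/

namespace Pool.Agent.H902.CB

open Finset

/-- the sum of the squares -/
def sqM (s : Multiset ℕ) : ℕ := (s.map fun x => x * x).sum

/-- `∑ x (b - x)` -/
def deM (b : ℕ) (s : Multiset ℕ) : ℕ := (s.map fun x => x * (b - x)).sum

theorem sqM_cons (x : ℕ) (s : Multiset ℕ) : sqM (x ::ₘ s) = x * x + sqM s := by
  unfold sqM
  rw [Multiset.map_cons, Multiset.sum_cons]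

theorem deM_cons (b x : ℕ) (s : Multiset ℕ) : deM b (x ::ₘ s) = x * (b - x) + deM b s := by
  unfold deM
  rw [Multiset.map_cons, Multiset.sum_cons]

theorem two_cM (s : Multiset ℕ) : 2 * cM s = sqM s + s.sum := by
  induction s using Multiset.induction with
  | empty => rfl
  | cons x s ih =>
    rw [cM_cons, sqM_cons, Multiset.sum_cons, Nat.mul_add, ih, two_chN]
    ring

theorem de_eq {b : ℕ} (s : Multiset ℕ) : (∀ x ∈ s, x ≤ b) → deM b s + sqM s = b * s.sum := by
  induction s using Multiset.induction with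
  | empty => intro _; rfl
  | cons x s ih =>
    intro h
    have h1 := ih fun y hy => h y (Multiset.mem_cons_of_mem hy)
    have h2 := h x (Multiset.mem_cons_self x s)
    rw [deM_cons, sqM_cons, Multiset.sum_cons]
    obtain ⟨y, rfl⟩ : ∃ y, b = x + y := ⟨b - x, by omega⟩
    rw [Nat.add_sub_cancel_left]
    nlinarith

/-- the threshold -/
def T3 (b : ℕ) : ℕ := b * (b + 1) ^ 2 * (b + 2)

/-- no curve, from `χ` -/
theorem no_of_chi {b c : ℕ} {s : Multiset ℕ} (hs : ∀ x ∈ s, x ≤ b)
    (h : 3 * (c + b + 2).choose 2 + T3 b ≤ 3 * ((c + 1).choose 2 + cM s)) :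
    EIM (c ::ₘ s) (PT (c + b) (c + b) (c + b)) := far_plane hs (Or.inl h)

theorem chi_rect (b c : ℕ) : 2 * (c + b + 2).choose 2 = 2 * (c + 1).choose 2 +
    2 * (b + 1) * (c + 1) + b * (b + 1) := by
  have t1 := two_chN (c + b + 1)
  have t2 := two_chN c
  rw [show c + b + 1 + 1 = c + b + 2 by ring] at t1
  nlinarith

/-- no curve, from `∑ x (b - x)` -/
theorem no_of_de {b c : ℕ} {s : Multiset ℕ} (hs : ∀ x ∈ s, x ≤ b)
    (hneg : 2 * b * c + b * b < sqM s) (h : 2 * b * (T3 b + 3 * (b + 1)) ≤ 3 * deM b s) :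
    EIM (c ::ₘ s) (PT (c + b) (c + b) (c + b)) := by
  rcases Nat.eq_zero_or_pos b with rfl | hb
  · exfalso
    have h1 : sqM s = 0 := by
      have h2 := de_eq s hs
      rw [Nat.zero_mul] at h2
      omega
    omega
  refine no_of_chi hs ?_
  have h1 := de_eq s hs
  have h2 := two_cM s
  have h3 := chi_rect b c
  have h4 : b * (2 * (3 * (c + b + 2).choose 2 + T3 b)) ≤
      b * (2 * (3 * ((c + 1).choose 2 + cM s))) := by
    have e1 : b * (2 * (3 * ((c + 1).choose 2 + cM s))) =
        3 * b * (2 * (c + 1).choose 2) + 3 * (b * sqM s + b * s.sum) := by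
      rw [← Nat.mul_add b, ← h2]
      ring
    have e2 : b * (2 * (3 * (c + b + 2).choose 2 + T3 b)) =
        3 * b * (2 * (c + b + 2).choose 2) + 2 * b * T3 b := by ring
    rw [e1, e2, h3, ← h1]
    have h5 : (b + 1) * (2 * b * c + b * b) ≤ (b + 1) * sqM s :=
      Nat.mul_le_mul_left _ hneg.le
    nlinarith
  have h5 := Nat.le_of_mul_le_mul_left h4 hb
  omega

/-- a class of fibre degree `b` with `D ^ 2 < 0` and `K D ≥ 0` which has curves at general points -/
structure Bad (b c : ℕ) (s : Multiset ℕ) : Prop where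
  le : ∀ x ∈ s, x ≤ b
  neg : 2 * b * c + b * b < sqM s
  can : 2 * c + 3 * b ≤ s.sum
  eff : ¬ EIM (c ::ₘ s) (PT (c + b) (c + b) (c + b))

theorem Bad.chi_lt {b c : ℕ} {s : Multiset ℕ} (h : Bad b c s) :
    3 * ((c + 1).choose 2 + cM s) < 3 * (c + b + 2).choose 2 + T3 b := by
  by_contra hcon
  push Not at hcon
  exact h.eff (no_of_chi h.le hcon)

theorem Bad.de_lt {b c : ℕ} {s : Multiset ℕ} (h : Bad b c s) :
    3 * deM b s < 2 * b * (T3 b + 3 * (b + 1)) := by
  by_contra hcon
  push Not at hcon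
  exact h.eff (no_of_de h.le h.neg hcon)

/-- the bound for the number of the points -/
def Nb (b : ℕ) : ℕ := b * (T3 b + 3 * (b + 1))

theorem card_le_cM {s : Multiset ℕ} (h : ∀ x ∈ s, 1 ≤ x) : s.card ≤ cM s := by
  have h1 := cM_ge (μ := 1) s h
  omega

theorem card_le_de {b : ℕ} (s : Multiset ℕ) : (∀ x ∈ s, 1 ≤ x ∧ x < b) → s.card ≤ deM b s := by
  induction s using Multiset.induction with
  | empty => intro _; exact Nat.zero_le _
  | cons x s ih =>
    intro h
    have h1 := ih fun y hy => h y (Multiset.mem_cons_of_mem hy)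
    obtain ⟨h2, h3⟩ := h x (Multiset.mem_cons_self x s)
    rw [deM_cons, Multiset.card_cons]
    have h4 : 1 ≤ x * (b - x) := Nat.mul_pos h2 (by omega)
    omega

theorem sq_le {b : ℕ} (s : Multiset ℕ) : (∀ x ∈ s, x ≤ b) → sqM s ≤ s.card * (b * b) := by
  induction s using Multiset.induction with
  | empty => intro _; exact Nat.zero_le _
  | cons x s ih =>
    intro h
    have h1 := ih fun y hy => h y (Multiset.mem_cons_of_mem hy)
    have h2 := h x (Multiset.mem_cons_self x s)
    rw [sqM_cons, Multiset.card_cons, Nat.succ_mul]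
    have h4 : x * x ≤ b * b := Nat.mul_le_mul h2 h2
    omega

/-- the terminal classes -/
theorem Bad.bound {b c : ℕ} {s : Multiset ℕ} (h : Bad b c s) (h0 : (0 : ℕ) ∉ s)
    (h2 : c < b ∨ s.count b ≤ 1) : s.card ≤ Nb b := by
  have hT : 2 * (b * (b + 1)) ≤ T3 b := by
    unfold T3
    have : 2 * (b * (b + 1)) ≤ (b + 1) * (b + 2) * (b * (b + 1)) := by
      refine Nat.mul_le_mul_right _ ?_
      nlinarith
    calc 2 * (b * (b + 1)) ≤ (b + 1) * (b + 2) * (b * (b + 1)) := this
      _ = _ := by ring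
  have hpos : ∀ x ∈ s, 1 ≤ x := fun x hx => Nat.one_le_iff_ne_zero.2 fun h' => h0 (h' ▸ hx)
  rcases Nat.eq_zero_or_pos b with rfl | hb
  · rcases Multiset.empty_or_exists_mem s with rfl | ⟨x, hx⟩
    · exact Nat.zero_le _
    · have := h.le x hx
      have := hpos x hx
      omega
  rcases h2 with h2 | h2
  · have h3 := card_le_cM hpos
    have h4 := h.chi_lt
    have h5 := chi_rect b c
    have h6 : (b + 1) * (c + 1) ≤ (b + 1) * b := Nat.mul_le_mul_left _ h2
    unfold Nb
    nlinarith
  · have h3 := h.de_lt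
    obtain ⟨t, ht⟩ : ∃ t, t = s.filter (· ≠ b) := ⟨_, rfl⟩
    have h4 : s = Multiset.replicate (s.count b) b + t := by
      rw [ht, ← Multiset.filter_eq', Multiset.filter_add_not]
    have h5 : t.card ≤ deM b t := by
      refine card_le_de t fun x hx => ?_
      rw [ht, Multiset.mem_filter] at hx
      have := h.le x hx.1
      exact ⟨hpos x hx.1, by omega⟩
    have h6 : deM b t ≤ deM b s := by
      unfold deM
      rw [h4, Multiset.map_add, Multiset.sum_add]
      exact Nat.le_add_left _ _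
    have h7 : s.card = s.count b + t.card := by
      conv_lhs => rw [h4]
      rw [Multiset.card_add, Multiset.card_replicate]
    unfold Nb
    nlinarith

theorem Bad.pair {b c : ℕ} {s : Multiset ℕ} (h : Bad b (c + b) (b ::ₘ b ::ₘ s)) : Bad b c s := by
  obtain ⟨h1, h2, h3, h4⟩ := h
  refine ⟨fun x hx => h1 x (Multiset.mem_cons_of_mem (Multiset.mem_cons_of_mem hx)), ?_, ?_,
    fun h5 => h4 ?_⟩
  · rw [sqM_cons, sqM_cons] at h2
    nlinarith
  · rw [Multiset.sum_cons, Multiset.sum_cons] at h3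
    omega
  · have h6 : EIM (c ::ₘ 0 ::ₘ 0 ::ₘ s) (PT (c + b) (c + b) (c + b)) := by
      rw [Multiset.cons_swap c 0, M_cons_zero, Multiset.cons_swap c 0, M_cons_zero]
      exact h5
    exact M_quad (by push_cast; ring) (by push_cast; ring) (by push_cast; ring)
      (by push_cast; ring) h6

theorem Bad.zero {b c : ℕ} {s : Multiset ℕ} (h : Bad b c (0 ::ₘ s)) : Bad b c s := by
  obtain ⟨h1, h2, h3, h4⟩ := h
  refine ⟨fun x hx => h1 x (Multiset.mem_cons_of_mem hx), ?_, ?_, fun h5 => h4 ?_⟩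
  · rw [sqM_cons] at h2
    omega
  · rw [Multiset.sum_cons] at h3
    omega
  · rw [Multiset.cons_swap c 0, M_cons_zero]
    exact h5

/-- **a bounded number of points and a bounded degree suffice** -/
theorem Bad.small {b : ℕ} : ∀ (k : ℕ) (c : ℕ) (s : Multiset ℕ), s.card = k → Bad b c s →
    ∃ (c' : ℕ) (s' : Multiset ℕ), Bad b c' s' ∧ s'.card ≤ Nb b ∧ 2 * c' ≤ b * Nb b ∧
      sqM s' + 2 * b * c = sqM s + 2 * b * c' ∧ s'.sum + 2 * c = s.sum + 2 * c' := by
  intro k
  induction k using Nat.strong_induction_on with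
  | _ k ih =>
    intro c s hk h
    by_cases h0 : (0 : ℕ) ∈ s
    · obtain ⟨t, rfl⟩ := Multiset.exists_cons_of_mem h0
      rw [Multiset.card_cons] at hk
      obtain ⟨c', s', a1, a2, a3, a4, a5⟩ := ih t.card (by omega) c t rfl h.zero
      exact ⟨c', s', a1, a2, a3, by rw [sqM_cons]; omega, by rw [Multiset.sum_cons]; omega⟩
    by_cases h2 : c < b ∨ s.count b ≤ 1
    · have h3 := h.bound h0 h2
      refine ⟨c, s, h, h3, ?_, rfl, rfl⟩
      have h4 := sq_le s h.le
      have h5 := h.neg
      have h6 : s.card * (b * b) ≤ Nb b * (b * b) := Nat.mul_le_mul_right _ h3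
      rcases Nat.eq_zero_or_pos b with rfl | hb
      · omega
      · have h7 : b * (2 * c) ≤ b * (b * Nb b) := by nlinarith
        exact Nat.le_of_mul_le_mul_left h7 hb
    · push Not at h2
      obtain ⟨h3, h4⟩ := h2
      have h5 : Multiset.replicate 2 b ≤ s := Multiset.le_count_iff_replicate_le.1 h4
      obtain ⟨t, ht⟩ := Multiset.le_iff_exists_add.1 h5
      have h6 : s = b ::ₘ b ::ₘ t := by
        rw [ht, show (2 : ℕ) = 0 + 1 + 1 from rfl, Multiset.replicate_succ,
          Multiset.replicate_succ, Multiset.replicate_zero, Multiset.cons_add, Multiset.cons_add,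
          zero_add]
      subst h6
      obtain ⟨e, rfl⟩ : ∃ e, c = e + b := ⟨c - b, by omega⟩
      rw [Multiset.card_cons, Multiset.card_cons] at hk
      obtain ⟨c', s', a1, a2, a3, a4, a5⟩ := ih t.card (by omega) e t rfl h.pair
      refine ⟨c', s', a1, a2, a3, ?_, ?_⟩
      · rw [sqM_cons, sqM_cons]
        nlinarith
      · rw [Multiset.sum_cons, Multiset.sum_cons]
        omega

end Pool.Agent.H902.CB
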