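import Pool.Agent.H902.CB.Neg
import Pool.Graph.R_pool_sql_team_seeded_64922ed1.X213.NegStd

set_option autoImplicit false

/-!
# Negative curves of a given degree on the fibres: irreducible curves at very general points
-/

namespace Pool.Agent.H902.CB

open Finset Pool.Agent.TH167 Pool.Agent.TH167.SHDefs

/-- the numerical properties of a negative curve -/
theorem bad_of_curve {r : ℕ} {P : Fin (r + 4) → Fin 2 → ℂ}
    (hP : AlgebraicIndependent ℚ (fun ij : Fin (r + 4) × Fin 2 => P ij.1 ij.2))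
    {d : ℕ} {w : Fin (r + 4) → ℕ} {C : MvPolynomial (Fin 3) ℂ} (hC : Curve P C d w)
    (hneg : inter d w d w < 0) (hne : ¬ MinusOne P C d w) (q : Fin (r + 4)) :
    w q ≤ d ∧ (∀ i, i ≠ q → w q + w i ≤ d) ∧
      Bad (d - w q) (w q) ((Finset.univ.erase q).val.map w) := by
  classical
  obtain ⟨P1, d1, w1, C1, h⟩ := Pool.Agent.X213.NegStd.neg_std hP hC hneg hne
  have hcan : 0 < interK d w := by
    rw [← h.can]
    exact h.canPos
  have hspec := h.spec0
  obtain ⟨g1, g2, g3⟩ := SH.curve_iff.1 hC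
  have hq : w q ≤ d := by
    have := le_deg hP hC q
    exact_mod_cast this
  have hsum : ∀ f : ℕ → ℕ, ∑ i, f (w i) = f (w q) + (((Finset.univ.erase q).val.map w).map f).sum := by
    intro f
    rw [← Finset.add_sum_erase _ _ (Finset.mem_univ q), Multiset.map_map]
    rfl
  have hK : 3 * d < w q + ((Finset.univ.erase q).val.map w).sum := by
    have h1 := hsum id
    rw [Multiset.map_id] at h1
    simp only [id] at h1
    unfold interK at hcan
    have h2 : ((∑ i, w i : ℕ) : ℤ) = ∑ i, (w i : ℤ) := by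
      push_cast
      rfl
    rw [← h2] at hcan
    omega
  have hS : d * d < w q * w q + sqM ((Finset.univ.erase q).val.map w) := by
    have h1 := hsum fun x => x * x
    unfold inter at hneg
    have h2 : ((∑ i, w i * w i : ℕ) : ℤ) = ∑ i, (w i : ℤ) * w i := by
      push_cast
      rfl
    rw [← h2] at hneg
    unfold sqM
    zify at h1 ⊢
    linarith
  have hpair : ∀ i, i ≠ q → w q + w i ≤ d := by
    intro i hi
    rcases SH.pair_irr (inj_of_ai hP) g1 g2 g3 (Ne.symm hi) with h1 | ⟨h1, h2, h3⟩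
    · exact h1
    · exfalso
      have h4 := Pool.Agent.R355.NegOrb.xu hP g1 g2 g3 h2
      have h5 : ∑ j, w j ≤ ∑ j, w j ^ 2 := Finset.sum_le_sum fun j _ => by
        rw [pow_two]
        exact Nat.le_mul_self _
      have h6 := hsum id
      rw [Multiset.map_id] at h6
      simp only [id] at h6
      rw [h1] at h4 hq hK
      omega
  refine ⟨hq, hpair, ?_, ?_, ?_, fun h1 => hspec ?_⟩
  · intro x hx
    rw [Multiset.mem_map] at hx
    obtain ⟨i, hi, rfl⟩ := hx
    have := hpair i (Finset.ne_of_mem_erase (Finset.mem_def.2 hi))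
    omega
  · obtain ⟨b, rfl⟩ : ∃ b, d = w q + b := ⟨d - w q, by omega⟩
    rw [Nat.add_sub_cancel_left]
    nlinarith
  · omega
  · refine exp_generic ?_ hP
    have hv : (Finset.univ : Finset (Fin (r + 4))).val.map w =
        w q ::ₘ (Finset.univ.erase q).val.map w := by
      rw [← Multiset.map_cons, Finset.erase_val,
        Multiset.cons_erase (Finset.mem_univ_val q)]
    rw [← EIM_iff hv]
    rw [show w q + (d - w q) = d by omega] at h1
    exact h1

/-- the intersection numbers -/
theorem class_of_curve {n : ℕ} {d : ℕ} {w : Fin n → ℕ} (q : Fin n) (hq : w q ≤ d) :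
    inter d w d w = 2 * ((d - w q : ℕ) : ℤ) * (w q : ℤ) + ((d - w q : ℕ) : ℤ) * ((d - w q : ℕ) : ℤ) -
        (sqM ((Finset.univ.erase q).val.map w) : ℤ) ∧
      interK d w = (((Finset.univ.erase q).val.map w).sum : ℤ) - 2 * (w q : ℤ) -
        3 * ((d - w q : ℕ) : ℤ) := by
  classical
  have hsum : ∀ f : ℕ → ℕ, ∑ i, f (w i) = f (w q) + (((Finset.univ.erase q).val.map w).map f).sum := by
    intro f
    rw [← Finset.add_sum_erase _ _ (Finset.mem_univ q), Multiset.map_map]
    rfl
  obtain ⟨b, rfl⟩ : ∃ b, d = w q + b := ⟨d - w q, by omega⟩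
  rw [Nat.add_sub_cancel_left]
  constructor
  · have h1 := hsum fun x => x * x
    unfold inter
    have h2 : ((∑ i, w i * w i : ℕ) : ℤ) = ∑ i, (w i : ℤ) * w i := by
      push_cast
      rfl
    rw [← h2, h1]
    unfold sqM
    push_cast
    ring
  · have h1 := hsum id
    rw [Multiset.map_id] at h1
    simp only [id] at h1
    unfold interK
    have h2 : ((∑ i, w i : ℕ) : ℤ) = ∑ i, (w i : ℤ) := by
      push_cast
      rfl
    rw [← h2, h1]
    push_cast
    ring

/-- the inequalities for a negative curve -/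
theorem neg_ineq {r : ℕ} {P : Fin (r + 4) → Fin 2 → ℂ}
    (hP : AlgebraicIndependent ℚ (fun ij : Fin (r + 4) × Fin 2 => P ij.1 ij.2))
    {d : ℕ} {w : Fin (r + 4) → ℕ} {C : MvPolynomial (Fin 3) ℂ} (hC : Curve P C d w)
    (hneg : inter d w d w < 0) (hne : ¬ MinusOne P C d w) (q : Fin (r + 4)) :
    w q ≤ d ∧ (∀ i, i ≠ q → w q + w i ≤ d) ∧
      3 * (interK d w - inter d w d w - 2) < 2 * (T3 (d - w q) : ℤ) ∧
      3 * ∑ i ∈ Finset.univ.erase q, w i * (d - w q - w i) <
        2 * (d - w q) * (T3 (d - w q) + 3 * (d - w q + 1)) := by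
  classical
  obtain ⟨h1, h2, h3⟩ := bad_of_curve hP hC hneg hne q
  refine ⟨h1, h2, ?_, ?_⟩
  swap
  · have h4 := h3.de_lt
    unfold deM at h4
    rw [Multiset.map_map] at h4
    exact h4
  have h4 := h3.chi_lt
  rw [show w q + (d - w q) + 2 = d + 2 by omega] at h4
  have hs : (∑ i, (w i + 1).choose 2) =
      (w q + 1).choose 2 + cM ((Finset.univ.erase q).val.map w) := by
    rw [← Finset.add_sum_erase _ _ (Finset.mem_univ q)]
    unfold cM
    rw [Multiset.map_map]
    rfl
  rw [← hs] at h4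
  have h5 : 2 * ∑ i, (w i + 1).choose 2 = ∑ i, w i * w i + ∑ i, w i := by
    rw [Finset.mul_sum, ← Finset.sum_add_distrib]
    refine Finset.sum_congr rfl fun i _ => ?_
    rw [two_chN]
    ring
  have t1 := two_chN (d + 1)
  rw [show d + 1 + 1 = d + 2 by ring] at t1
  unfold interK inter
  have e1 : ((∑ i, w i * w i : ℕ) : ℤ) = ∑ i, (w i : ℤ) * w i := by
    push_cast
    rfl
  have e2 : ((∑ i, w i : ℕ) : ℤ) = ∑ i, (w i : ℤ) := by
    push_cast
    rfl
  rw [← e1, ← e2]
  generalize (∑ i, w i * w i) = A at *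
  generalize (∑ i, w i) = B at *
  generalize (∑ i, (w i + 1).choose 2) = E at *
  generalize T3 (d - w q) = T at *
  zify at h4 h5 t1
  nlinarith

end Pool.Agent.H902.CB
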