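import Pool.Graph.R_seed8.TH603.Sur.Rows
import Pool.Graph.R_seed8.TH698.NagT3
import Pool.Graph.R_seed8.TH641.UM.Ones

set_option autoImplicit false

/-!
# One point of multiplicity `m`: the criterion on parallel lines, and cuts
-/

namespace Pool.Agent.H902.CB

open Finset Pool.Agent.TH176.Nag Pool.Agent.TH603.Sur

/-- at most `m, m - 1, ..., 1` exponents on parallel lines -/
theorem Emp_one {m : ℕ} {S : Set (ℤ × ℤ)} (x y u v : ℤ) (hdet : x * u + y * v = 1)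
    (ρ lo : ℤ → ℤ)
    (h : ∀ a b : ℤ, ((a, b) : ℤ × ℤ) ∈ S → 0 ≤ ρ (x * a + y * b) ∧
      lo (x * a + y * b) ≤ -v * a + u * b ∧
      -v * a + u * b < lo (x * a + y * b) + (m - ρ (x * a + y * b)))
    (hinj : ∀ c c' : ℤ, 0 ≤ ρ c → ρ c < m → 0 ≤ ρ c' → ρ c' < m → ρ c = ρ c' → c = c') :
    Emp (fun _ : Fin 1 => m) S := by
  classical
  refine Emp_flat (S' := {p : ℤ × ℤ | 0 ≤ p.2 ∧ 0 ≤ ρ p.1 ∧ p.2 < m - ρ p.1}) x y u v hdet ?_ ?_
  · rintro ⟨a, b⟩ T k hp hp' hk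
    obtain ⟨h1, h2, h3⟩ := h a b hp
    obtain ⟨h4, h5, h6⟩ := h _ _ hp'
    have e1 : x * (a - y * T) + y * (b + x * T) = x * a + y * b := by ring
    have e2 : -v * (a - y * T) + u * (b + x * T) = -v * a + u * b + T := by
      linear_combination T * hdet
    simp only at e1 e2 h4 h5 h6
    rw [e1] at h4 h5 h6
    rw [e2] at h5 h6
    refine ⟨by simp, h1, ?_⟩
    simp only
    omega
  · have h1 : Emp (fun _ : Fin 1 => m) {p : ℤ × ℤ | 0 ≤ p.1 ∧ 0 ≤ ρ p.2 ∧ p.1 < m - ρ p.2} := by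
      refine Emp_flat0 (S' := Rws (fun _ : Fin 1 => m) 0) ?_ (Emp_rows _ _)
      intro a B hB k hk
      have ha : 0 ≤ a := by
        obtain ⟨b, hb⟩ := card_pos.1 (lt_of_le_of_lt (Nat.zero_le k) hk)
        exact (hB b hb).1
      have hcard : B.card ≤ (m - a.toNat) := by
        have h2 : (B.image fun b => (ρ b).toNat) ⊆ Finset.range (m - a.toNat) := by
          intro t ht
          rw [Finset.mem_image] at ht
          obtain ⟨b, hb, rfl⟩ := ht
          obtain ⟨_, h3, h4⟩ := hB b hb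
          rw [Finset.mem_range]
          simp only at h3 h4
          omega
        have h3 := card_le_card h2
        rw [Finset.card_range, card_image_of_injOn] at h3
        · exact h3
        · intro b hb b' hb' hbb
          obtain ⟨_, h3, h4⟩ := hB b hb
          obtain ⟨_, h5, h6⟩ := hB b' hb'
          simp only at h3 h4 h5 h6 hbb
          exact hinj b b' h3 (by omega) h5 (by omega) (by omega)
      refine ⟨by simp, ha, ?_⟩
      simp only [Fin.sum_univ_one, Int.toNat_natCast]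
      omega
    refine h1.comap 0 1 1 0 0 0 (by norm_num) ?_
    rintro ⟨a, b⟩ ⟨h2, h3, h4⟩
    simp only [zero_mul, one_mul, zero_add, add_zero]
    exact ⟨h2, h3, h4⟩

/-- exactly `m, m - 1, ..., 1` exponents on parallel lines can be found in `D` -/
theorem Sur_one {m : ℕ} {D : Set (ℤ × ℤ)} (x y u v : ℤ) (hdet : x * u + y * v = 1)
    (c lo : ℤ → ℤ)
    (hinj : ∀ s s' : ℤ, 0 ≤ s → s < m → 0 ≤ s' → s' < m → c s = c s' → s = s')
    (h : ∀ s k : ℤ, 0 ≤ s → 0 ≤ k → s + k < m →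
      ((u * c s - y * (lo s + k), v * c s + x * (lo s + k)) : ℤ × ℤ) ∈ D) :
    Sur (fun _ : Fin 1 => m) D := by
  classical
  obtain ⟨φ, hφ⟩ : ∃ φ : ℕ × ℕ → ℤ × ℤ, ∀ p, φ p = (u * c p.1 - y * (lo p.1 + p.2),
    v * c p.1 + x * (lo p.1 + p.2)) := ⟨_, fun _ => rfl⟩
  obtain ⟨Tr, hTr⟩ : ∃ Tr : Finset (ℕ × ℕ), Tr = ((Finset.range m).sigma
      fun s => Finset.range (m - s)).image (fun p : (_ : ℕ) × ℕ => (p.1, p.2)) := ⟨_, rfl⟩
  have hmem : ∀ p : ℕ × ℕ, p ∈ Tr ↔ p.1 + p.2 < m := by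
    rintro ⟨s, k⟩
    rw [hTr]
    simp only [Finset.mem_image, Finset.mem_sigma, Finset.mem_range]
    constructor
    · rintro ⟨⟨s', k'⟩, ⟨h1, h2⟩, h3⟩
      obtain ⟨rfl, rfl⟩ := Prod.mk.inj h3
      show s' + k' < m
      replace h1 : s' < m := h1
      replace h2 : k' < m - s' := h2
      omega
    · intro h1
      replace h1 : s + k < m := h1
      exact ⟨⟨s, k⟩, ⟨show s < m by omega, show k < m - s by omega⟩, rfl⟩
  have hcard : Tr.card = (m + 1).choose 2 := by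
    rw [hTr, card_image_of_injective, Finset.card_sigma]
    · simp only [Finset.card_range]
      exact sum_range_sub m m le_rfl
    · rintro ⟨a, b⟩ ⟨a', b'⟩ h
      simp only [Prod.mk.injEq] at h
      obtain ⟨rfl, rfl⟩ := h
      rfl
  have hc1 : ∀ s t : ℤ, x * (u * c s - y * t) + y * (v * c s + x * t) = c s := by
    intro s t
    linear_combination (c s) * hdet
  have hc2 : ∀ s t : ℤ, -v * (u * c s - y * t) + u * (v * c s + x * t) = t := by
    intro s t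
    linear_combination t * hdet
  refine ⟨Tr.image φ, ?_, ?_, ?_⟩
  · intro p hp
    rw [Finset.mem_coe, Finset.mem_image] at hp
    obtain ⟨q, hq, rfl⟩ := hp
    rw [hmem] at hq
    rw [hφ]
    exact h q.1 q.2 (by positivity) (by positivity) (by exact_mod_cast hq)
  · rw [card_image_of_injOn, hcard]
    · simp [Pool.Agent.TH603.Sur.cond]
    · intro p hp q hq hpq
      rw [Finset.mem_coe, hmem] at hp hq
      rw [hφ, hφ, Prod.mk.injEq] at hpq
      obtain ⟨h1, h2⟩ := hpq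
      have k1 := hc1 p.1 (lo p.1 + p.2)
      have k2 := hc1 q.1 (lo q.1 + q.2)
      have k3 := hc2 p.1 (lo p.1 + p.2)
      have k4 := hc2 q.1 (lo q.1 + q.2)
      rw [h1, h2] at k1 k3
      have k5 : (p.1 : ℤ) = q.1 :=
        hinj _ _ (by positivity) (by omega) (by positivity) (by omega) (k1.symm.trans k2)
      have k6 : lo p.1 + (p.2 : ℤ) = lo q.1 + q.2 := k3.symm.trans k4
      rw [k5] at k6
      exact Prod.ext (by exact_mod_cast k5) (by omega)
  · -- emptiness through `Emp_one`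
    obtain ⟨σ, hσ⟩ : ∃ σ : ℤ → ℤ, ∀ s : ℤ, 0 ≤ s → s < m → σ (c s) = s := by
      refine ⟨fun t => if ht : ∃ s : ℤ, 0 ≤ s ∧ s < m ∧ c s = t then ht.choose else -1, ?_⟩
      intro s h0 h1
      have ht : ∃ s' : ℤ, 0 ≤ s' ∧ s' < m ∧ c s' = c s := ⟨s, h0, h1, rfl⟩
      simp only [dif_pos ht]
      obtain ⟨h2, h3, h4⟩ := ht.choose_spec
      exact hinj _ _ h2 h3 h0 h1 h4
    obtain ⟨ρ, hρ⟩ : ∃ ρ : ℤ → ℤ, ∀ t, ρ t = if (∃ s : ℤ, 0 ≤ s ∧ s < m ∧ c s = t) then σ t else -1 :=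
      ⟨_, fun _ => rfl⟩
    have hρ1 : ∀ s : ℤ, 0 ≤ s → s < m → ρ (c s) = s := by
      intro s h0 h1
      rw [hρ, if_pos ⟨s, h0, h1, rfl⟩]
      exact hσ s h0 h1
    refine Emp_one x y u v hdet ρ (fun t => lo (ρ t)) ?_ ?_
    · intro a b hab
      rw [Finset.mem_coe, Finset.mem_image] at hab
      obtain ⟨q, hq, hqe⟩ := hab
      rw [hmem] at hq
      rw [hφ, Prod.mk.injEq] at hqe
      obtain ⟨rfl, rfl⟩ := hqe
      have h1 := hρ1 q.1 (by positivity) (by omega)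
      rw [hc1, hc2, h1]
      refine ⟨by positivity, by linarith [show (0 : ℤ) ≤ (q.2 : ℤ) by positivity], ?_⟩
      omega
    · intro t t' h0 h1 h2 h3 h4
      have hex : ∀ t : ℤ, 0 ≤ ρ t → ∃ s : ℤ, 0 ≤ s ∧ s < m ∧ c s = t := by
        intro t ht
        by_contra hcon
        rw [hρ, if_neg hcon] at ht
        omega
      obtain ⟨s, k1, k2, rfl⟩ := hex t h0
      obtain ⟨s', k3, k4, rfl⟩ := hex t' h2
      rw [hρ1 s k1 k2, hρ1 s' k3 k4] at h4
      rw [h4]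

/-- a cut in lexicographic order -/
theorem Emp_lex {ι κ : Type} [Finite ι] [Finite κ] {w : ι → ℕ} {v : κ → ℕ} {S T : Set (ℤ × ℤ)}
    (hS : S.Finite) (hT : T.Finite) (a b c d : ℤ)
    (hcut : ∀ p ∈ S, ∀ q ∈ T, a * p.1 + b * p.2 < a * q.1 + b * q.2 ∨
      (a * p.1 + b * p.2 = a * q.1 + b * q.2 ∧ c * p.1 + d * p.2 < c * q.1 + d * q.2))
    (hw : Emp w S) (hv : Emp v T) : Emp (Sum.elim w v) (S ∪ T) := by
  classical
  -- a bound
  obtain ⟨M, hM⟩ : ∃ M : ℤ, ∀ m ∈ S ∪ T, |m.1| ≤ M ∧ |m.2| ≤ M := by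
    obtain ⟨N1, hN1⟩ := ((hS.union hT).image fun m : ℤ × ℤ => |m.1|).bddAbove
    obtain ⟨N2, hN2⟩ := ((hS.union hT).image fun m : ℤ × ℤ => |m.2|).bddAbove
    refine ⟨max N1 N2, fun m hm => ⟨?_, ?_⟩⟩
    · exact (hN1 ⟨m, hm, rfl⟩).trans (le_max_left _ _)
    · exact (hN2 ⟨m, hm, rfl⟩).trans (le_max_right _ _)
  obtain ⟨W, hW⟩ : ∃ W : ℤ, ∀ p ∈ S ∪ T, ∀ q ∈ S ∪ T,
      (c * p.1 + d * p.2) - (c * q.1 + d * q.2) < W := by
    refine ⟨2 * ((|c| + |d|) * M) + 1, fun p hp q hq => ?_⟩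
    have key : ∀ p ∈ S ∪ T, |c * p.1 + d * p.2| ≤ (|c| + |d|) * M := by
      intro p hp
      obtain ⟨h1, h2⟩ := hM p hp
      calc |c * p.1 + d * p.2| ≤ |c * p.1| + |d * p.2| := abs_add_le _ _
        _ = |c| * |p.1| + |d| * |p.2| := by rw [abs_mul, abs_mul]
        _ ≤ |c| * M + |d| * M := add_le_add (mul_le_mul_of_nonneg_left h1 (abs_nonneg _))
            (mul_le_mul_of_nonneg_left h2 (abs_nonneg _))
        _ = (|c| + |d|) * M := by ring
    have k1 := abs_le.1 (key p hp)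
    have k2 := abs_le.1 (key q hq)
    linarith [k1.1, k1.2, k2.1, k2.2]
  have hsep : ∀ p ∈ S, ∀ q ∈ T, (W * a + c) * p.1 + (W * b + d) * p.2 <
      (W * a + c) * q.1 + (W * b + d) * q.2 := by
    intro p hp q hq
    have h1 := hW p (Or.inl hp) q (Or.inr hq)
    have hW0 : 0 < W := by
      have := hW p (Or.inl hp) p (Or.inl hp)
      linarith
    rcases hcut p hp q hq with h | ⟨h, h'⟩
    · have h2 : W * (a * p.1 + b * p.2) + W ≤ W * (a * q.1 + b * q.2) := by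
        have := mul_le_mul_of_nonneg_left (Int.add_one_le_iff.2 h) hW0.le
        linarith
      linarith
    · have h2 : W * (a * p.1 + b * p.2) = W * (a * q.1 + b * q.2) := by rw [h]
      linarith
  -- translate to the first quadrant
  obtain ⟨N, hN⟩ : ∃ N : ℤ, ∀ m ∈ S ∪ T, 0 ≤ m.1 + N ∧ 0 ≤ m.2 + N := by
    refine ⟨M, fun m hm => ?_⟩
    obtain ⟨h1, h2⟩ := hM m hm
    have := abs_le.1 h1
    have := abs_le.1 h2
    constructor <;> linarith
  obtain ⟨S', hS'⟩ : ∃ S' : Set (ℤ × ℤ), S' = {m | ((m.1 - N, m.2 - N) : ℤ × ℤ) ∈ S} := ⟨_, rfl⟩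
  obtain ⟨T', hT'⟩ : ∃ T' : Set (ℤ × ℤ), T' = {m | ((m.1 - N, m.2 - N) : ℤ × ℤ) ∈ T} := ⟨_, rfl⟩
  have hinj : Function.Injective fun m : ℤ × ℤ => ((m.1 - N, m.2 - N) : ℤ × ℤ) := by
    rintro ⟨p, q⟩ ⟨p', q'⟩ h
    simp only [Prod.mk.injEq] at h
    ext <;> simp <;> omega
  have hw' : Emp w S' := by
    refine hw.comap 1 0 0 1 (-N) (-N) (by norm_num) fun m hm => ?_
    rw [hS'] at hm
    have e : ((1 * m.1 + 0 * m.2 + -N, 0 * m.1 + 1 * m.2 + -N) : ℤ × ℤ) = (m.1 - N, m.2 - N) := by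
      ext <;> simp <;> ring
    rw [e]; exact hm
  have hv' : Emp v T' := by
    refine hv.comap 1 0 0 1 (-N) (-N) (by norm_num) fun m hm => ?_
    rw [hT'] at hm
    have e : ((1 * m.1 + 0 * m.2 + -N, 0 * m.1 + 1 * m.2 + -N) : ℤ × ℤ) = (m.1 - N, m.2 - N) := by
      ext <;> simp <;> ring
    rw [e]; exact hm
  have h3 := Pool.Agent.TH698.NagT3.Emp_cut (w := w) (v := v) (S := S') (T := T')
    (by rw [hS']; exact hS.preimage hinj.injOn) (by rw [hT']; exact hT.preimage hinj.injOn)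
    (by
      intro m hm
      rw [hS'] at hm
      have := hN _ (Or.inl hm)
      simp only at this
      constructor <;> omega)
    (by
      intro m hm
      rw [hT'] at hm
      have := hN _ (Or.inr hm)
      simp only at this
      constructor <;> omega) (W * a + c) (W * b + d)
    (by
      intro m hm m' hm'
      rw [hS'] at hm
      rw [hT'] at hm'
      have := hsep _ hm _ hm'
      simp only at this
      linarith) hw' hv'
  refine h3.comap 1 0 0 1 N N (by norm_num) fun m hm => ?_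
  have e : ((1 * m.1 + 0 * m.2 + N, 0 * m.1 + 1 * m.2 + N) : ℤ × ℤ) = (m.1 + N, m.2 + N) := by
    ext <;> simp
  rw [e]
  rcases hm with hm | hm
  · left
    rw [hS']
    show ((m.1 + N - N, m.2 + N - N) : ℤ × ℤ) ∈ S
    rw [add_sub_cancel_right, add_sub_cancel_right]
    exact hm
  · right
    rw [hT']
    show ((m.1 + N - N, m.2 + N - N) : ℤ × ℤ) ∈ T
    rw [add_sub_cancel_right, add_sub_cancel_right]
    exact hm

theorem cond_sum {ι κ : Type} [Fintype ι] [Fintype κ] (w : ι → ℕ) (v : κ → ℕ) :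
    cond (Sum.elim w v) = cond w + cond v := by
  unfold Pool.Agent.TH603.Sur.cond
  rw [Fintype.sum_sum_type]
  simp

/-- a cut in lexicographic order -/
theorem Sur_lex {ι κ : Type} [Fintype ι] [Fintype κ] {w : ι → ℕ} {v : κ → ℕ} {S T : Set (ℤ × ℤ)}
    (a b c d : ℤ)
    (hcut : ∀ p ∈ S, ∀ q ∈ T, a * p.1 + b * p.2 < a * q.1 + b * q.2 ∨
      (a * p.1 + b * p.2 = a * q.1 + b * q.2 ∧ c * p.1 + d * p.2 < c * q.1 + d * q.2))
    (hw : Sur w S) (hv : Sur v T) : Sur (Sum.elim w v) (S ∪ T) := by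
  classical
  obtain ⟨T1, h1, h2, h3⟩ := hw
  obtain ⟨T2, k1, k2, k3⟩ := hv
  refine ⟨T1 ∪ T2, ?_, ?_, ?_⟩
  · rw [Finset.coe_union]
    exact Set.union_subset_union h1 k1
  · rw [card_union_of_disjoint, h2, k2, cond_sum]
    rw [Finset.disjoint_left]
    intro p hp hq
    rcases hcut p (h1 hp) p (k1 hq) with h | ⟨_, h⟩ <;> exact lt_irrefl _ h
  · rw [Finset.coe_union]
    exact Emp_lex T1.finite_toSet T2.finite_toSet a b c d
      (fun p hp q hq => hcut p (h1 hp) q (k1 hq)) h3 k3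

theorem Emp_equiv {ι κ : Type} (e : κ ≃ ι) {w : ι → ℕ} {v : κ → ℕ} {S : Set (ℤ × ℤ)}
    (hv : ∀ i, v i = w (e i)) (h : Emp w S) : Emp v S :=
  Emp_emb e.symm e.symm.injective (fun i => by rw [hv]; simp) h

theorem cond_equiv {ι κ : Type} [Fintype ι] [Fintype κ] (e : κ ≃ ι) {w : ι → ℕ} {v : κ → ℕ}
    (hv : ∀ i, v i = w (e i)) : cond v = cond w := by
  unfold Pool.Agent.TH603.Sur.cond
  rw [← e.sum_comp]
  exact Finset.sum_congr rfl fun i _ => by rw [hv]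

theorem Sur_equiv {ι κ : Type} [Fintype ι] [Fintype κ] (e : κ ≃ ι) {w : ι → ℕ} {v : κ → ℕ}
    {S : Set (ℤ × ℤ)} (hv : ∀ i, v i = w (e i)) (h : Sur w S) : Sur v S := by
  obtain ⟨T, h1, h2, h3⟩ := h
  exact ⟨T, h1, by rw [h2, cond_equiv e hv], Emp_equiv e hv h3⟩

/-- `r` points of multiplicity `m` -/
abbrev E (m r : ℕ) (S : Set (ℤ × ℤ)) : Prop := Emp (fun _ : Fin r => m) S

/-- `r` points of multiplicity `m` -/
abbrev I (m r : ℕ) (S : Set (ℤ × ℤ)) : Prop := Sur (fun _ : Fin r => m) S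

theorem E_lex {m r s : ℕ} {S T : Set (ℤ × ℤ)} (hS : S.Finite) (hT : T.Finite) (a b c d : ℤ)
    (hcut : ∀ p ∈ S, ∀ q ∈ T, a * p.1 + b * p.2 < a * q.1 + b * q.2 ∨
      (a * p.1 + b * p.2 = a * q.1 + b * q.2 ∧ c * p.1 + d * p.2 < c * q.1 + d * q.2))
    (hw : E m r S) (hv : E m s T) : E m (r + s) (S ∪ T) :=
  Emp_equiv finSumFinEquiv.symm (fun i => by
    rcases finSumFinEquiv.symm i with j | j <;> rfl) (Emp_lex hS hT a b c d hcut hw hv)

theorem I_lex {m r s : ℕ} {S T : Set (ℤ × ℤ)} (a b c d : ℤ)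
    (hcut : ∀ p ∈ S, ∀ q ∈ T, a * p.1 + b * p.2 < a * q.1 + b * q.2 ∨
      (a * p.1 + b * p.2 = a * q.1 + b * q.2 ∧ c * p.1 + d * p.2 < c * q.1 + d * q.2))
    (hw : I m r S) (hv : I m s T) : I m (r + s) (S ∪ T) :=
  Sur_equiv finSumFinEquiv.symm (fun i => by
    rcases finSumFinEquiv.symm i with j | j <;> rfl) (Sur_lex a b c d hcut hw hv)

end Pool.Agent.H902.CB
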