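import Pool.Agent.H902.CB.Plane

set_option autoImplicit false

/-!
# The orbits under quadratic transformations
-/

namespace Pool.Agent.H902.CB

open Pool.Agent.TH167.SH Pool.Agent.W609.CR Pool.Agent.H932R3

theorem aeval_ne {K : Type} [Field K] [CharZero K] {n : ℕ} {P : Fin n → Fin 2 → K}
    (hP : AlgebraicIndependent ℚ (fun q : Fin n × Fin 2 => P q.1 q.2))
    {F : MvPolynomial (Fin n × Fin 2) ℚ} (hF : F ≠ 0) :
    MvPolynomial.aeval (fun q : Fin n × Fin 2 => P q.1 q.2) F ≠ 0 := by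
  intro h
  exact hF ((algebraicIndependent_iff.1 hP) F h)

theorem quad_of {s : ℕ} {a b : ℕ × (Fin s → ℕ)} (h : Pool.Agent.TH167.SHDefs.Quadratic a b) : Quad a b := by
  obtain ⟨i, j, k, hij, hik, hjk, h1, h2, h3, h4, h5⟩ := h
  have hinj : Function.Injective ![i, j, k] := by
    intro x y hxy
    fin_cases x <;> fin_cases y <;> simp at hxy ⊢
    · exact hij hxy
    · exact hik hxy
    · exact hij hxy.symm
    · exact hjk hxy
    · exact hik hxy.symm
    · exact hjk hxy.symm
  refine ⟨![i, j, k], hinj, ⟨?_, ?_, ?_⟩, ?_⟩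
  · show a.2 i + a.2 j ≤ a.1
    omega
  · show a.2 i + a.2 k ≤ a.1
    omega
  · show a.2 j + a.2 k ≤ a.1
    omega
  · refine Prod.ext ?_ (funext fun l => ?_)
    · show b.1 = 2 * a.1 - (a.2 i + a.2 j + a.2 k)
      omega
    · show b.2 l = if l = i then a.1 - (a.2 j + a.2 k) else if l = j then a.1 - (a.2 i + a.2 k) else
        if l = k then a.1 - (a.2 i + a.2 j) else a.2 l
      split_ifs with c1 c2 c3
      · subst c1; omega
      · subst c2; omega
      · subst c3; omega
      · exact h5 l c1 c2 c3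

theorem dim_quad {K : Type} [Field K] [CharZero K] {s : ℕ} {P : Fin s → Fin 2 → K}
    (hP : AlgebraicIndependent ℚ (fun ij : Fin s × Fin 2 => P ij.1 ij.2))
    {a b : ℕ × (Fin s → ℕ)} (h : Quad a b) :
    Module.finrank K (VS (fun j => aff (P j)) b.2 b.1) =
      Module.finrank K (VS (fun j => aff (P j)) a.2 a.1) := by
  obtain ⟨i, hi, p, rfl⟩ := h
  obtain ⟨P', hP', hC⟩ := exists_crel hP hi
  have h1 := hC.dim p
  obtain ⟨g, F, hF, hg⟩ := dim_gen (wcr a.1 i a.2) (cd i a.1 a.2)
  have e1 := hg K P (aeval_ne hP hF)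
  have e2 := hg K P' (aeval_ne hP' hF)
  exact e1.trans (e2.symm.trans h1)

theorem dim_chain {K : Type} [Field K] [CharZero K] {s : ℕ} {P : Fin s → Fin 2 → K}
    (hP : AlgebraicIndependent ℚ (fun ij : Fin s × Fin 2 => P ij.1 ij.2))
    {a b : ℕ × (Fin s → ℕ)} (h : Relation.ReflTransGen Pool.Agent.TH167.SHDefs.Quadratic a b) :
    Module.finrank K (Pool.Agent.TH167.SHDefs.sys P b.1 b.2) = Module.finrank K (Pool.Agent.TH167.SHDefs.sys P a.1 a.2) := by
  induction h with
  | refl => rfl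
  | tail _ h ih =>
    rw [← ih, sys_eq, sys_eq]
    exact dim_quad hP (quad_of h)

theorem chi_chain {s : ℕ} {a b : ℕ × (Fin s → ℕ)}
    (h : Relation.ReflTransGen Pool.Agent.TH167.SHDefs.Quadratic a b) : chi b.1 b.2 = chi a.1 a.2 :=
  (quad_inv (Relation.ReflTransGen.mono (fun _ _ h => quad_of h) _ _ h)).1

/-- the expected dimension does not depend on the order of the points -/
theorem expDim_perm {L : Type} [Field L] {n : ℕ} {w : Fin n → ℕ} {P : Fin n → Fin 2 → L} {d : ℕ}
    (σ : Equiv.Perm (Fin n)) (h : ExpDim L (fun i => w (σ i)) (fun i => P (σ i)) d) :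
    ExpDim L w P d := by
  unfold ExpDim at h ⊢
  rw [← Equiv.sum_comp σ (fun i => (w i + 1).choose 2), ← h,
    ← Equiv.iInf_comp (g := fun i : Fin n =>
          (Ideal.span
            ({MvPolynomial.X 0 - MvPolynomial.C (P i 0) * MvPolynomial.X 2,
              MvPolynomial.X 1 - MvPolynomial.C (P i 1) * MvPolynomial.X 2} :
              Set (MvPolynomial (Fin 3) L))) ^ (w i)) σ]

/-- the class with multiplicity `d - 2 m` at the point `p` and `m` at the others -/
def vp {n : ℕ} (p : Fin n) (m d : ℕ) : Fin n → ℕ := fun i => if i = p then d - 2 * m else m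

theorem expDim_vp {K : Type} [Field K] [CharZero K] {n : ℕ} (hn : 9 ≤ n) {P : Fin n → Fin 2 → K}
    (hP : AlgebraicIndependent ℚ (fun q : Fin n × Fin 2 => P q.1 q.2)) (p : Fin n) {m d : ℕ}
    (hd : 2 * m ≤ d) : ExpDim K (vp p m d) P d := by
  obtain ⟨r, rfl⟩ : ∃ r, n = r + 1 := ⟨n - 1, by omega⟩
  obtain ⟨F, hF, h⟩ := expDim_wp (r := r) (m := m) (d := d) (by omega) hd
  refine expDim_perm (Equiv.swap 0 p) ?_
  have e : (fun i => vp p m d (Equiv.swap 0 p i)) = wp r m d := by
    funext i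
    unfold vp wp
    refine Fin.cases ?_ (fun j => ?_) i
    · rw [Equiv.swap_apply_left, if_pos rfl, Fin.cons_zero]
    · rw [Fin.cons_succ, if_neg]
      intro h0
      have h1 := (Equiv.swap (0 : Fin (r + 1)) p).injective
        (h0.trans (Equiv.swap_apply_left 0 p).symm)
      exact Fin.succ_ne_zero j h1
  rw [e]
  refine h _ ?_
  have hP' : AlgebraicIndependent ℚ
      (fun q : Fin (r + 1) × Fin 2 => P (Equiv.swap 0 p q.1) q.2) :=
    hP.comp (fun q : Fin (r + 1) × Fin 2 => (Equiv.swap 0 p q.1, q.2))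
      ((Equiv.swap 0 p).injective.prodMap Function.injective_id)
  exact aeval_ne (P := fun i => P (Equiv.swap 0 p i)) hP' hF

/-- the virtual dimension plus one, in terms of `d` and `m` -/
theorem chi_vp {n : ℕ} (p : Fin n) {m d : ℕ} (hd : 2 * m ≤ d) :
    chi d (vp p m d) = (2 * m + 1) * ((d : ℤ) + 1 - m) - ((n : ℤ) - 1) * ((m + 1).choose 2 : ℕ) := by
  unfold chi vp
  have h1 : ∑ j : Fin n, (((if j = p then d - 2 * m else m) + 1).choose 2 : ℤ) =
      ((d - 2 * m + 1).choose 2 : ℕ) + ((n : ℤ) - 1) * ((m + 1).choose 2 : ℕ) := by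
    have h2 : ∀ j : Fin n, (((if j = p then d - 2 * m else m) + 1).choose 2 : ℤ) =
        ((m + 1).choose 2 : ℕ) + if j = p then
          (((d - 2 * m + 1).choose 2 : ℕ) : ℤ) - ((m + 1).choose 2 : ℕ) else 0 := by
      intro j
      split_ifs <;> simp
    rw [Finset.sum_congr rfl fun j _ => h2 j, Finset.sum_add_distrib, Finset.sum_ite_eq' Finset.univ p]
    simp
    ring
  rw [h1]
  obtain ⟨k, rfl⟩ : ∃ k, d = 2 * m + k := ⟨d - 2 * m, by omega⟩
  have e1 : 2 * m + k - 2 * m = k := by omega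
  rw [e1]
  have h3 := two_choose (2 * m + k + 1)
  have h4 := two_choose k
  have h5 := two_choose m
  push_cast at h3 h4 h5 ⊢
  rw [show 2 * m + k + 1 + 1 = 2 * m + k + 2 by ring] at h3
  linarith

end Pool.Agent.H902.CB
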