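import Pool.Agent.H902.CB.Mix
import Pool.Agent.H902.SM.Up
import Pool.Agent.H902.Planes

set_option autoImplicit false

/-!
# Multiples of a pencil of rational curves
-/

namespace Pool.Agent.H902.CB

open Pool.Agent.TH167.SH Pool.Agent.W609.CR Pool.Agent.H932R3
open Pool.Agent.TH167.SHDefs (Quadratic Curve)
open Pool.Agent.H248R5 (forms ev surj_of_ind)
open Pool.Agent.H248R6 (finrank_of_surj surj_mono)
open Pool.Agent.X157.W (Gen)
open Pool.Agent.H350R3
open Pool.Agent.R355.ConeAct (curvCone curveClasses dot nef_of_gen nef_carries)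

/-- finitely many quadratic transformations -/
abbrev Car {n : ℕ} (a b : ℕ × (Fin n → ℕ)) : Prop := Relation.ReflTransGen Quadratic a b

/-- the class of a pencil of rational curves -/
def Pen {n : ℕ} (e : ℕ) (u : Fin n → ℕ) : Prop :=
  ∃ p : Fin n, Car (1, fun i => if i = p then 1 else 0) (e, u)

theorem quad_scale {n : ℕ} (t : ℕ) {a b : ℕ × (Fin n → ℕ)} (h : Quadratic a b) :
    Quadratic (t * a.1, fun i => t * a.2 i) (t * b.1, fun i => t * b.2 i) := by
  obtain ⟨i, j, k, hij, hik, hjk, h1, h2, h3, h4, h5⟩ := h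
  refine ⟨i, j, k, hij, hik, hjk, ?_, ?_, ?_, ?_, ?_⟩
  · push_cast
    rw [h1]
    ring
  · push_cast
    rw [h2]
    ring
  · push_cast
    rw [h3]
    ring
  · push_cast
    rw [h4]
    ring
  · intro l l1 l2 l3
    simp only
    rw [h5 l l1 l2 l3]

theorem car_scale {n : ℕ} (t : ℕ) {a b : ℕ × (Fin n → ℕ)} (h : Car a b) :
    Car (t * a.1, fun i => t * a.2 i) (t * b.1, fun i => t * b.2 i) := by
  induction h with
  | refl => exact Relation.ReflTransGen.refl
  | tail _ h ih => exact Relation.ReflTransGen.tail ih (quad_scale t h)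

theorem car_real {n : ℕ} {a b : ℕ × (Fin n → ℕ)} (h : Car a b) :
    Pool.Agent.R355.ConeAct.Carries ((a.1 : ℝ), fun i => (a.2 i : ℝ))
      ((b.1 : ℝ), fun i => (b.2 i : ℝ)) := by
  induction h with
  | refl => exact Relation.ReflTransGen.refl
  | @tail b c _ h ih =>
    refine Relation.ReflTransGen.tail ih ?_
    obtain ⟨i, j, k, hij, hik, hjk, h1, h2, h3, h4, h5⟩ := h
    have r1 : (c.1 : ℝ) = 2 * b.1 - b.2 i - b.2 j - b.2 k := by exact_mod_cast h1
    have r2 : (c.2 i : ℝ) = b.1 - b.2 j - b.2 k := by exact_mod_cast h2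
    have r3 : (c.2 j : ℝ) = b.1 - b.2 i - b.2 k := by exact_mod_cast h3
    have r4 : (c.2 k : ℝ) = b.1 - b.2 i - b.2 j := by exact_mod_cast h4
    have hinj : Function.Injective ![i, j, k] := by
      intro x y hxy
      fin_cases x <;> fin_cases y <;> simp at hxy ⊢
      · exact hij hxy
      · exact hik hxy
      · exact hij hxy.symm
      · exact hjk hxy
      · exact hik hxy.symm
      · exact hjk hxy.symm
    refine ⟨![i, j, k], hinj, Prod.ext ?_ (funext fun l => ?_)⟩
    · show (c.1 : ℝ) = b.1 + (b.1 - b.2 i - b.2 j - b.2 k)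
      rw [r1]
      ring
    · show (c.2 l : ℝ) = b.2 l + if l = i ∨ l = j ∨ l = k then
        ((b.1 : ℝ) - b.2 i - b.2 j - b.2 k) else 0
      by_cases c1 : l = i
      · subst c1
        rw [if_pos (Or.inl rfl), r2]
        ring
      by_cases c2 : l = j
      · subst c2
        rw [if_pos (Or.inr (Or.inl rfl)), r3]
        ring
      by_cases c3 : l = k
      · subst c3
        rw [if_pos (Or.inr (Or.inr rfl)), r4]
        ring
      rw [if_neg (by tauto), h5 l c1 c2 c3, add_zero]

theorem le_deg {n : ℕ} {P : Fin n → Fin 2 → ℂ} (hP : Gen P) {G : MvPolynomial (Fin 3) ℂ} {d : ℕ}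
    {w : Fin n → ℕ} (hG : Curve P G d w) (p : Fin n) : (w p : ℝ) ≤ d := by
  have hd : (1 : ℝ) ≤ d := by exact_mod_cast curve_pos hG
  obtain ⟨g1, g2, g3⟩ := Pool.Agent.TH167.SH.curve_iff.1 hG
  rcases Nat.eq_zero_or_pos (w p) with h0 | h0
  · rw [h0]
    push_cast
    linarith
  · have h6 := Pool.Agent.R355.NegOrb.xu hP g1 g2 g3 h0
    have h7 : w p ^ 2 ≤ ∑ j, w j ^ 2 :=
      Finset.single_le_sum (f := fun j => w j ^ 2) (fun _ _ => Nat.zero_le _)
        (Finset.mem_univ p)
    by_contra hcon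
    push Not at hcon
    obtain ⟨t, ht⟩ : ∃ t, w p = d + 1 + t := by
      have : d < w p := by exact_mod_cast hcon
      exact ⟨w p - (d + 1), by omega⟩
    have hd0 := curve_pos hG
    have h9 : w p ^ 2 ≤ d ^ 2 + w p := h7.trans h6
    rw [ht] at h9
    nlinarith

/-- the class of a pencil is nef -/
theorem nf_pen {n e : ℕ} {u : Fin n → ℕ} (h : Pen e u) : NB.Nf ℂ (fun i => (u i : ℝ)) e := by
  classical
  obtain ⟨p, hp⟩ := h
  obtain ⟨P, hP, -⟩ := exists_vg (n := n) (fun _ => 1) fun _ => one_ne_zero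
  have hbase : ∀ x ∈ curvCone P, 0 ≤ dot (((1 : ℕ) : ℝ), fun i => (((if i = p then 1 else 0 : ℕ)) : ℝ)) x := by
    refine nef_of_gen ?_
    rintro v (⟨G, d, w, hG, rfl⟩ | ⟨j, rfl⟩)
    · have h1 := le_deg hP hG p
      unfold dot
      simp only
      have h2 : ∑ l, (((if l = p then 1 else 0 : ℕ)) : ℝ) * (w l : ℝ) = w p := by
        rw [Finset.sum_eq_single p]
        · simp
        · intro b _ hb
          simp [hb]
        · intro hcon
          exact absurd (Finset.mem_univ p) hcon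
      rw [h2]
      push_cast
      linarith
    · unfold dot
      simp only [mul_zero, zero_sub]
      rw [← Finset.sum_neg_distrib]
      refine Finset.sum_nonneg fun l _ => ?_
      by_cases hl : l = j
      · subst hl
        rw [Pi.single_eq_same]
        split_ifs <;> simp
      · rw [Pi.single_eq_of_ne hl]
        simp
  have hnef := (nef_carries hP (car_real hp) hbase).1
  refine nf_of_curves (P := P) (fun i => Nat.cast_nonneg _) fun G d w hG => ?_
  have h4 := hnef _ (subset_closure (Submodule.subset_span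
    (Or.inl ⟨G, d, w, hG, rfl⟩ : ((d : ℝ), fun i => (w i : ℝ)) ∈ curveClasses P)))
  unfold dot at h4
  simp only at h4
  linarith

/-- emptiness from a negative intersection number with the pencil -/
theorem empty_of_pen {n e : ℕ} {u : Fin n → ℕ} (h : Pen e u) {w : Fin n → ℕ} {d : ℕ}
    (hd : (e : ℝ) * d < ∑ i, (u i : ℝ) * w i)
    (hχ : (d + 2).choose 2 ≤ ∑ i, (w i + 1).choose 2) :
    ∃ F : MvPolynomial (Fin n × Fin 2) ℂ, F ≠ 0 ∧ ∀ P : Fin n → Fin 2 → ℂ,
      MvPolynomial.eval (fun q : Fin n × Fin 2 => P q.1 q.2) F ≠ 0 → ExpDim ℂ w P d := by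
  obtain ⟨x, hx⟩ := nf_pen h w d hd
  obtain ⟨F, hF, hF'⟩ := points_open _ _ (GR.noForm_of_emp hx)
  refine ⟨F, hF, fun P hP => ?_⟩
  have h1 := hF' P hP
  have h2 : forms w P d = ⊥ := by
    rw [Submodule.eq_bot_iff]
    intro G hG
    obtain ⟨g1, g2⟩ := hG
    refine h1 G g1 ?_
    unfold ptJ vIdeal
    rw [Ideal.mem_iInf]
    intro i
    rw [SetLike.mem_coe, Submodule.restrictScalars_mem, Ideal.mem_iInf] at g2
    exact Pool.Agent.H932R2.deh_mem_of_mem (g2 i)
  show Module.finrank ℂ ↥(forms w P d) = _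
  rw [h2, finrank_bot]
  omega

end Pool.Agent.H902.CB
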