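import Pool.Agent.H902.CB.Pen

set_option autoImplicit false

/-!
# Multiples of a pencil of rational curves: the expected behaviour of all the classes
# `t (e; u) + k (H - E_i)`
-/

namespace Pool.Agent.H902.CB

open Finset Pool.Agent.TH167.SH Pool.Agent.W609.CR Pool.Agent.H932R3
open Pool.Agent.TH167.SHDefs (Quadratic Curve)
open Pool.Agent.H248R5 (forms ev surj_of_ind)
open Pool.Agent.H248R6 (finrank_of_surj surj_mono)

theorem inj_of_ai {K : Type} [Field K] [CharZero K] {n : ℕ} {P : Fin n → Fin 2 → K}
    (hP : AlgebraicIndependent ℚ (fun q : Fin n × Fin 2 => P q.1 q.2)) :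
    Function.Injective P := by
  intro i j hij
  have h := hP.injective (a₁ := (i, 0)) (a₂ := (j, 0)) (congrFun hij 0)
  exact (Prod.ext_iff.1 h).1

/-- the conditions of `t (e; u)` are independent at generic points -/
theorem surj_pen {K : Type} [Field K] [CharZero K] {n e : ℕ} {u : Fin n → ℕ} (h : Pen e u) (t : ℕ)
    {P : Fin n → Fin 2 → K} (hP : AlgebraicIndependent ℚ (fun q : Fin n × Fin 2 => P q.1 q.2)) :
    Function.Surjective (ev (fun i => t * u i) P (t * e)) := by
  obtain ⟨p, hp⟩ := h
  have hc := car_scale t hp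
  have h1 := dim_chain hP hc
  have h2 := chi_chain hc
  have h3 : Function.Surjective
      (ev (fun i => t * if i = p then 1 else 0) P (t * 1)) := by
    refine Pool.Agent.Q78.SG.surj_sum (inj_of_ai hP) _ ?_
    rw [← Finset.mul_sum, Finset.sum_ite_eq' Finset.univ p]
    simp
  have h4 := finrank_of_surj h3
  refine surj_of_ind ?_
  have h5 : Module.finrank K ↥(forms (fun i => t * u i) P (t * e)) =
      Module.finrank K ↥(forms (fun i => t * if i = p then 1 else 0) P (t * 1)) := h1
  rw [h5]
  unfold chi at h2
  simp only at h2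
  have e1 : ((∑ i, (t * u i + 1).choose 2 : ℕ) : ℤ) = ∑ j, ((t * u j + 1).choose 2 : ℤ) := by
    push_cast
    rfl
  have e2 : ((∑ i, (t * (if i = p then 1 else 0) + 1).choose 2 : ℕ) : ℤ) =
      ∑ j, ((t * (if j = p then 1 else 0) + 1).choose 2 : ℤ) := by
    push_cast
    rfl
  rw [← e1, ← e2] at h2
  omega

/-- the conditions of `t (e; u) + k (H - E_q)` are independent at generic points -/
theorem surj_pen_up {K : Type} [Field K] [CharZero K] {n e : ℕ} {u : Fin n → ℕ} (h : Pen e u)
    (t : ℕ) {P : Fin n → Fin 2 → K}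
    (hP : AlgebraicIndependent ℚ (fun q : Fin n × Fin 2 => P q.1 q.2)) {q : Fin n}
    (hq : u q ≤ e) (k : ℕ) :
    Function.Surjective (ev (Function.update (fun i => t * u i) q (t * u q + k)) P (t * e + k)) := by
  induction k with
  | zero =>
    have := surj_pen h t hP
    rw [add_zero, add_zero, Function.update_eq_self_iff.2 rfl]
    exact this
  | succ k ih =>
    have h1 := Pool.Agent.H902.SM.surj_up (inj_of_ai hP) (p := q) (by
      rw [Function.update_self]
      have := Nat.mul_le_mul_left t hq
      omega) ih
    rw [Function.update_self, Function.update_idem] at h1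
    exact h1

/-- the self-intersection of a pencil is zero -/
theorem sq_pen {n e : ℕ} {u : Fin n → ℕ} (h : Pen e u) :
    ∑ i, (u i : ℤ) * u i = (e : ℤ) * e := by
  obtain ⟨p, hp⟩ := h
  have h1 := (quad_inv (Relation.ReflTransGen.mono (fun _ _ h => quad_of h) _ _ hp)).2.2
  unfold ip at h1
  simp only at h1
  have h2 : ∑ j, (((if j = p then 1 else 0 : ℕ)) : ℤ) * (((if j = p then 1 else 0 : ℕ)) : ℤ) = 1 := by
    rw [Finset.sum_eq_single p]
    · simp
    · intro b _ hb
      simp [hb]
    · intro hcon
      exact absurd (Finset.mem_univ p) hcon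
  rw [h2] at h1
  push_cast at h1
  linarith

/-- the Euler characteristic of the multiples of a pencil -/
theorem chi_pen {n e : ℕ} {u : Fin n → ℕ} (h : Pen e u) (t : ℕ) :
    ((t * e + 2).choose 2 : ℤ) = ∑ i, ((t * u i + 1).choose 2 : ℤ) + t + 1 := by
  obtain ⟨p, hp⟩ := h
  have h2 := chi_chain (car_scale t hp)
  unfold chi at h2
  simp only at h2
  have h3 : ∑ j, ((t * (if j = p then 1 else 0) + 1).choose 2 : ℤ) = ((t + 1).choose 2 : ℤ) := by
    rw [Finset.sum_eq_single p]
    · simp
    · intro b _ hb
      simp [hb]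
    · intro hcon
      exact absurd (Finset.mem_univ p) hcon
  rw [h3, mul_one] at h2
  have h4 := two_choose t
  have h5 := two_choose (t + 1)
  push_cast at h4 h5
  rw [show t + 1 + 1 = t + 2 by ring] at h5
  linarith

theorem exp_pen {n e : ℕ} {u : Fin n → ℕ} (h : Pen e u) {i j : Fin n}
    (he : e = u i + u j) (hj : 1 ≤ u j) (t a : ℕ) :
    ∃ F : MvPolynomial (Fin n × Fin 2) ℂ, F ≠ 0 ∧ ∀ P : Fin n → Fin 2 → ℂ,
      MvPolynomial.eval (fun q : Fin n × Fin 2 => P q.1 q.2) F ≠ 0 →
        ExpDim ℂ (Function.update (fun l => t * u l) i a) P (a + t * u j) := by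
  classical
  have hs : ∀ (f : ℕ → ℤ), ∑ l, f (Function.update (fun l => t * u l) i a l) =
      ∑ l, f (t * u l) - f (t * u i) + f a := by
    intro f
    rw [← Finset.add_sum_erase _ _ (Finset.mem_univ i), Function.update_self,
      ← Finset.add_sum_erase Finset.univ (fun l => f (t * u l)) (Finset.mem_univ i)]
    have e1 : ∑ l ∈ Finset.univ.erase i, f (Function.update (fun l => t * u l) i a l) =
        ∑ l ∈ Finset.univ.erase i, f (t * u l) :=
      Finset.sum_congr rfl fun l hl => by rw [Function.update_of_ne (Finset.ne_of_mem_erase hl)]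
    rw [e1]
    ring
  rcases lt_or_ge a (t * u i) with hlt | hge
  · obtain ⟨s, hs0, hs1⟩ : ∃ s, 1 ≤ s ∧ t * u i = a + s := ⟨t * u i - a, by omega, by omega⟩
    refine empty_of_pen h ?_ ?_
    · have h1 : ∑ l, (u l : ℤ) * (Function.update (fun l => t * u l) i a l : ℕ) =
          t * (e * e) - u i * s := by
        rw [← Finset.add_sum_erase _ _ (Finset.mem_univ i), Function.update_self]
        have e1 : ∑ l ∈ Finset.univ.erase i,
            (u l : ℤ) * (Function.update (fun l => t * u l) i a l : ℕ) =
            ∑ l ∈ Finset.univ.erase i, (t : ℤ) * ((u l : ℤ) * u l) :=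
          Finset.sum_congr rfl fun l hl => by
            rw [Function.update_of_ne (Finset.ne_of_mem_erase hl)]
            push_cast
            ring
        rw [e1, ← sq_pen h, Finset.mul_sum,
          ← Finset.add_sum_erase Finset.univ (fun l => (t : ℤ) * ((u l : ℤ) * u l))
            (Finset.mem_univ i)]
        have h2 : (t : ℤ) * u i = a + s := by exact_mod_cast hs1
        linear_combination -(u i : ℤ) * h2
      have h3 : (e : ℤ) * (a + t * u j : ℕ) <
          ∑ l, (u l : ℤ) * (Function.update (fun l => t * u l) i a l : ℕ) := by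
        rw [h1, he]
        push_cast
        have h2 : (t : ℤ) * u i = a + s := by exact_mod_cast hs1
        have h4 : (1 : ℤ) ≤ u j * s := by
          have : 1 ≤ u j * s := Nat.mul_le_mul hj hs0
          exact_mod_cast this
        nlinarith [h2, h4]
      exact_mod_cast h3
    · have h1 := hs fun x => ((x + 1).choose 2 : ℤ)
      have h2 := chi_pen h t
      have h3 : ((a + t * u j + 2).choose 2 : ℤ) ≤
          ∑ l, ((Function.update (fun l => t * u l) i a l + 1).choose 2 : ℤ) := by
        rw [h1]
        have e1 := two_choose (a + t * u j + 1)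
        have e2 := two_choose (t * e + 1)
        have e3 := two_choose (t * u i)
        have e4 := two_choose a
        rw [show a + t * u j + 1 + 1 = a + t * u j + 2 by ring] at e1
        rw [show t * e + 1 + 1 = t * e + 2 by ring] at e2
        push_cast at e1 e2 e3 e4
        have h5 : (t : ℤ) * u i = a + s := by exact_mod_cast hs1
        have h6 : (t : ℤ) * e = a + s + t * u j := by
          rw [he]
          push_cast
          linear_combination h5
        rw [h6] at e2
        rw [h5] at e3
        have h7 : (t : ℤ) ≤ t * u j := by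
          have : t * 1 ≤ t * u j := Nat.mul_le_mul_left t hj
          rw [mul_one] at this
          exact_mod_cast this
        have h8 : (1 : ℤ) ≤ s := by exact_mod_cast hs0
        nlinarith [mul_nonneg (sub_nonneg.2 h8) (by positivity : (0 : ℤ) ≤ t * u j)]
      exact_mod_cast h3
  · obtain ⟨k, rfl⟩ : ∃ k, a = t * u i + k := ⟨a - t * u i, by omega⟩
    have hd : t * u i + k + t * u j = t * e + k := by
      rw [he]
      ring
    obtain ⟨F, hF, hF'⟩ := Pool.Agent.Q78.SG.surj_open (n := n)
      (w := Function.update (fun l => t * u l) i (t * u i + k)) (d := t * e + k)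
      fun L _ _ P hP => surj_pen_up h t hP (by omega) k
    refine ⟨F.map (algebraMap ℚ ℂ), fun h0 => hF ?_, fun P hP => ?_⟩
    · exact MvPolynomial.map_injective _ (algebraMap ℚ ℂ).injective (by rw [h0, map_zero])
    · rw [MvPolynomial.eval_map] at hP
      have h1 := finrank_of_surj (hF' ℂ P hP)
      rw [hd]
      show Module.finrank ℂ ↥(forms _ P _) = _
      omega

/-- **a pencil of rational curves gives the expected behaviour on all rectangles** -/
theorem BR_pen {n e : ℕ} {u : Fin n → ℕ} (h : Pen e u) {α β : ℕ} {μ : Multiset ℕ}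
    (hu : (univ : Finset (Fin n)).val.map u = α ::ₘ β ::ₘ μ) (he : e = α + β) (hβ : 1 ≤ β)
    (t : ℕ) : BR (t * β) (μ.map (t * ·)) := by
  classical
  obtain ⟨i, hi, rfl⟩ : ∃ i ∈ (univ : Finset (Fin n)).val, u i = α := by
    rw [← Multiset.mem_map, hu]
    exact Multiset.mem_cons_self _ _
  obtain ⟨r, hr⟩ := Multiset.exists_cons_of_mem hi
  have hnd : (i ::ₘ r).Nodup := by
    rw [← hr]
    exact univ.nodup
  rw [hr, Multiset.map_cons, Multiset.cons_inj_right] at hu
  obtain ⟨j, hj, rfl⟩ : ∃ j ∈ r, u j = β := by
    rw [← Multiset.mem_map, hu]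
    exact Multiset.mem_cons_self _ _
  refine BR_of_plane fun a => ?_
  have hval : (univ : Finset (Fin n)).val.map (Function.update (fun l => t * u l) i a) =
      a ::ₘ (t * u j) ::ₘ μ.map (t * ·) := by
    rw [hr, Multiset.map_cons, Function.update_self]
    have e1 : r.map (Function.update (fun l => t * u l) i a) = r.map fun l => t * u l :=
      Multiset.map_congr rfl fun l hl => by
        rw [Function.update_of_ne]
        rintro rfl
        exact (Multiset.nodup_cons.1 hnd).1 hl
    have e2 : (r.map fun l => t * u l) = (r.map u).map (t * ·) := by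
      rw [Multiset.map_map]
      rfl
    rw [e1, e2, hu, Multiset.map_cons]
  exact (EIM_iff hval).2 (gen_iff.1 (exp_pen h he hβ t a))

end Pool.Agent.H902.CB
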