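import Pool.Agent.H902.CB.Brg
import Pool.Agent.H902.CB.StepV

set_option autoImplicit false

/-!
# The multiplicities of a minimal counterexample
-/

namespace Pool.Agent.H902.CB

open Finset Pool.Agent.TH176.Nag Pool.Agent.TH603.Sur Pool.Agent.TH641.UM Pool.Agent.H932R3

/-- the remaining classes: gluing along the lines through the point of the largest multiplicity -/
def RedF (m : ℕ → ℕ) (d : ℕ) : Prop :=
  ∀ k, 1 ≤ k → 9 * m (k + 1) + 8 ≤ 4 * m 0 → 4 * (m 1 + m 2 + m 3) + 9 * m (k + 1) + 8 ≤ 4 * d →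
    ((d : ℤ) - m 0 + 1) * (d + m 0 - 4 * m (k + 1) - 2) <
      ∑ i ∈ Finset.range k, (m (i + 1) : ℤ) * (m (i + 1) + 1)

/-- the remaining classes: gluing along general lines -/
def RedV (m : ℕ → ℕ) (d : ℕ) : Prop :=
  ∀ k, 2 ≤ k → 4 * (m 0 + m 1 + m 2) + 9 * m k + 8 ≤ 4 * d →
    (d : ℤ) * (d + 1) - 2 * (2 * m k + 1) * (d + 1 - m k) <
      ∑ i ∈ Finset.range k, (m i : ℤ) * (m i + 1)

theorem cM_take (l : List ℕ) : ∀ k : ℕ, 2 * cM ((l.take k : List ℕ) : Multiset ℕ) =
    ∑ i ∈ Finset.range k, l.getD i 0 * (l.getD i 0 + 1) := by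
  induction l with
  | nil =>
    intro k
    rw [List.take_nil, Multiset.coe_nil, cM_zero]
    simp
  | cons x l ih =>
    intro k
    rcases k with _ | k
    · rw [List.take_zero, Multiset.coe_nil, cM_zero]
      simp
    · rw [List.take_succ_cons, ← Multiset.cons_coe, cM_cons, Finset.sum_range_succ', mul_add, ih k,
        two_chN]
      simp only [List.getD_cons_zero, List.getD_cons_succ]
      ring

theorem countP_drop {M : ℕ} {L : List ℕ} (hL : L.Pairwise (· ≥ ·)) : ∀ k : ℕ,
    ((L.drop k : List ℕ) : Multiset ℕ).countP (M < ·) = 0 ∨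
      ((L.drop k : List ℕ) : Multiset ℕ).countP (M < ·) + k ≤ (L : Multiset ℕ).countP (M < ·) := by
  induction L with
  | nil =>
    intro k
    left
    rw [List.drop_nil]
    rfl
  | cons x L ih =>
    intro k
    rw [List.pairwise_cons] at hL
    rcases k with _ | k
    · right
      rw [List.drop_zero, add_zero]
    · rw [List.drop_succ_cons]
      rcases Nat.eq_zero_or_pos (((L.drop k : List ℕ) : Multiset ℕ).countP (M < ·)) with h0 | h0
      · exact Or.inl h0
      right
      rcases ih hL.2 k with h | h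
      · omega
      obtain ⟨y, hy, hMy⟩ := Multiset.countP_pos.1 h0
      have hxy : y ≤ x := hL.1 y (List.mem_of_mem_drop (Multiset.mem_coe.1 hy))
      have e : (x ::ₘ (L : Multiset ℕ)).countP (M < ·) = (L : Multiset ℕ).countP (M < ·) + 1 :=
        Multiset.countP_cons_of_pos _ (lt_of_lt_of_le hMy hxy)
      rw [← Multiset.cons_coe, e]
      omega

theorem tail_le {L : List ℕ} (hL : L.Pairwise (· ≥ ·)) (k : ℕ) :
    ∀ x ∈ ((L.drop k : List ℕ) : Multiset ℕ), x ≤ L.getD k 0 := by
  intro x hx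
  rw [Multiset.mem_coe, List.mem_iff_getElem] at hx
  obtain ⟨i, hi, rfl⟩ := hx
  rw [List.length_drop] at hi
  rw [List.getElem_drop]
  have h := getD_antitone hL (show k ≤ k + i by omega)
  simp only at h
  rw [List.getD_eq_getElem _ _ (show k + i < L.length by omega)] at h
  exact h

/-- at most `n` multiplicities, for `j ≥ 2` at most `j` of them larger than `f j` -/
def PM (n : ℕ) (f : ℕ → ℕ) (s : Multiset ℕ) : Prop :=
  s.card ≤ n ∧ ∀ j, 2 ≤ j → s.countP (f j < ·) ≤ j

theorem countP_cons_le (M x : ℕ) (s : Multiset ℕ) :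
    (x ::ₘ s).countP (M < ·) ≤ s.countP (M < ·) + 1 := by
  rw [Multiset.countP_cons]
  split_ifs <;> omega

theorem main_M (n : ℕ) (f : ℕ → ℕ) (D : ℕ)
    (hyp : ∀ d ≤ D, ∀ s : Multiset ℕ, PM n f s → LE 3 d s →
      RedF (sq s) d → RedV (sq s) d → EIM s (PT d d d)) :
    ∀ d ≤ D, ∀ s : Multiset ℕ, PM n f s → LE 3 d s → EIM s (PT d d d) := by
  intro d
  induction d using Nat.strong_induction_on with
  | _ d ih =>
    intro hD s hn h3
    have IH : IHQ (fun _ s => PM n f s) d :=
      fun d' hd' s' hs' h3' => ih d' hd' (by omega) s' hs' h3'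
    have hsum := sum_three_le h3
    have hanti := sq_antitone s
    have hpw : (s.sort (· ≥ ·)).Pairwise (· ≥ ·) := Multiset.pairwise_sort s (· ≥ ·)
    have hsort : ((s.sort (· ≥ ·) : List ℕ) : Multiset ℕ) = s := Multiset.sort_eq s _
    by_cases hR : RedF (sq s) d
    · by_cases hV : RedV (sq s) d
      · exact hyp d hD s hn h3 hR hV
      unfold RedV at hV
      push Not at hV
      obtain ⟨k, hk, hA1, hB⟩ := hV
      obtain ⟨H, hH⟩ : ∃ H : Multiset ℕ, H = (((s.sort (· ≥ ·)).take k : List ℕ) : Multiset ℕ) :=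
        ⟨_, rfl⟩
      obtain ⟨T, hT⟩ : ∃ T : Multiset ℕ, T = (((s.sort (· ≥ ·)).drop k : List ℕ) : Multiset ℕ) :=
        ⟨_, rfl⟩
      have hHT : H + T = s := by
        rw [hH, hT, Multiset.coe_add, List.take_append_drop, hsort]
      have hTp : ∀ x ∈ T, x ≤ sq s k := by
        rw [hT]
        exact tail_le hpw k
      have hq : LE 3 (sq s 0 + sq s 1 + sq s 2) s := by
        have h6 := LE_ofFn hanti 3 0 (s.sort (· ≥ ·)).length
        have h7 : List.ofFn (fun i : Fin (s.sort (· ≥ ·)).length => sq s (0 + i)) =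
            s.sort (· ≥ ·) := by
          refine List.ext_getElem (by simp) fun i h8 h9 => ?_
          rw [List.getElem_ofFn]
          show sq s (0 + i) = _
          rw [zero_add]
          unfold sq
          rw [List.getD_eq_getElem _ _ h9]
        rw [h7, hsort] at h6
        have h8 : ∑ i ∈ Finset.range 3, sq s (0 + i) = sq s 0 + sq s 1 + sq s 2 := by
          simp [Finset.sum_range_succ]
        rw [h8] at h6
        exact h6
      have hcH : ((2 * cM H : ℕ) : ℤ) =
          ∑ i ∈ Finset.range k, (sq s i : ℤ) * (sq s i + 1) := by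
        rw [hH, cM_take]
        push_cast
        exact Finset.sum_congr rfl fun i _ => rfl
      rw [← hcH] at hB
      have hp2 : sq s k ≤ sq s 2 := hanti hk
      have a1 : sq s 2 ≤ sq s 1 := hanti (by norm_num)
      have a2 : sq s 1 ≤ sq s 0 := hanti (by norm_num)
      have hcount : ∀ j, 2 ≤ j → T.countP (f j < ·) + 2 ≤ j := by
        intro j hj
        have h9 := countP_drop (M := f j) hpw k
        rw [← hT, hsort] at h9
        have := hn.2 j hj
        omega
      have hTs : T ≤ s := by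
        rw [← hHT]
        exact Multiset.le_add_left _ _
      have key := stepV (Q := fun _ s => PM n f s) (d := d) (p := sq s k)
        (q := sq s 0 + sq s 1 + sq s 2) (H := H) (T := T) IH
        (by
          intro a b t s' _ _ _ _ hts hc
          rw [hHT] at hc
          refine ⟨?_, fun j hj => ?_⟩
          · rw [Multiset.card_cons, Multiset.card_cons]
            have := hn.1
            omega
          · have k1 := countP_cons_le (f j) (a - t) ((b - t) ::ₘ s')
            have k2 := countP_cons_le (f j) (b - t) s'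
            have k3 := Multiset.countP_le_of_le (f j < ·)
              ((Multiset.le_cons_self s' t).trans hts)
            have k4 := hcount j hj
            omega)
        (by
          intro b D' s' _ _ _ _ hs' hc
          rw [hHT] at hc
          refine ⟨?_, fun j hj => ?_⟩
          · rw [Multiset.card_cons]
            have := hn.1
            omega
          · have k2 := countP_cons_le (f j) (D' - b) s'
            have k3 := Multiset.countP_le_of_le (f j < ·) hs'
            have k4 := hcount j hj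
            omega)
        (by
          intro D' s' _ hs'
          have hle : H + s' ≤ s := by
            rw [← hHT]
            exact Multiset.add_le_add_left hs'
          exact ⟨(Multiset.card_le_card hle).trans hn.1, fun j hj =>
            (Multiset.countP_le_of_le _ hle).trans (hn.2 j hj)⟩)
        hTp (by rw [hHT]; exact hq) hA1 (by omega) (by
          zify
          rw [Nat.cast_sub (by omega)]
          push_cast at hB ⊢
          linarith)
      rw [hHT] at key
      exact key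
    unfold RedF at hR
    push Not at hR
    obtain ⟨k, hk, hA1, hA2, hB⟩ := hR
    rcases hl : s.sort (· ≥ ·) with _ | ⟨a, l⟩
    · exfalso
      have : sq s 0 = 0 := by
        unfold sq
        rw [hl]
        rfl
      omega
    have e0 : sq s 0 = a := by
      unfold sq
      rw [hl]
      rfl
    have es : ∀ i, sq s (i + 1) = l.getD i 0 := by
      intro i
      unfold sq
      rw [hl]
      rfl
    rw [hl] at hpw hsort
    obtain ⟨H, hH⟩ : ∃ H : Multiset ℕ, H = ((l.take k : List ℕ) : Multiset ℕ) := ⟨_, rfl⟩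
    obtain ⟨T, hT⟩ : ∃ T : Multiset ℕ, T = ((l.drop k : List ℕ) : Multiset ℕ) := ⟨_, rfl⟩
    have hHT : H + T = (l : Multiset ℕ) := by
      rw [hH, hT, Multiset.coe_add, List.take_append_drop]
    have hcount1 : ∀ j, 2 ≤ j → (H + T).countP (f j < ·) + 1 ≤ j := by
      intro j hj
      have h9 := countP_drop (M := f j) hpw 1
      rw [List.drop_succ_cons, List.drop_zero, hsort, ← hHT] at h9
      have := hn.2 j hj
      omega
    have hcount2 : ∀ j, 2 ≤ j → T.countP (f j < ·) + 2 ≤ j := by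
      intro j hj
      have h9 := countP_drop (M := f j) hpw (k + 1)
      rw [List.drop_succ_cons, hsort, ← hT] at h9
      have := hn.2 j hj
      omega
    rw [← Multiset.cons_coe, ← hHT] at hsort
    obtain ⟨p, hp⟩ : ∃ p, p = sq s (k + 1) := ⟨_, rfl⟩
    rw [← hp] at hA1 hA2 hB
    have hp1 : p ≤ sq s 1 := by
      rw [hp]
      exact hanti (by omega)
    have hp2 : p ≤ sq s 2 := by
      rw [hp]
      exact hanti (by omega)
    rw [e0] at hsum hA1 hB
    obtain ⟨b, rfl⟩ : ∃ b, d = a + b := ⟨d - a, by omega⟩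
    have hTp : ∀ x ∈ T, x ≤ p := by
      rw [hT, hp, es]
      exact tail_le (List.pairwise_cons.1 hpw).2 k
    have hb : LE 2 b (H + T) := by
      intro t ht hc
      have := h3 (a ::ₘ t) (by
        rw [← hsort]
        exact Multiset.cons_le_cons a ht) (by rw [Multiset.card_cons]; omega)
      rw [Multiset.sum_cons] at this
      omega
    have hq : LE 3 (sq s 1 + sq s 2 + sq s 3) (H + T) := by
      have h6 := LE_ofFn hanti 3 1 l.length
      have h7 : List.ofFn (fun i : Fin l.length => sq s (1 + i)) = l := by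
        refine List.ext_getElem (by simp) fun i h8 h9 => ?_
        rw [List.getElem_ofFn]
        show sq s (1 + i) = _
        rw [add_comm, es, List.getD_eq_getElem _ _ h9]
      rw [h7, ← hHT] at h6
      have h8 : ∑ i ∈ Finset.range 3, sq s (1 + i) = sq s 1 + sq s 2 + sq s 3 := by
        simp [Finset.sum_range_succ]
      rw [h8] at h6
      exact h6
    have hcH : ((2 * cM H : ℕ) : ℤ) =
        ∑ i ∈ Finset.range k, (sq s (i + 1) : ℤ) * (sq s (i + 1) + 1) := by
      rw [hH, cM_take]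
      push_cast
      exact Finset.sum_congr rfl fun i _ => by rw [es]
    rw [← hcH] at hB
    have hcard : (H + T).card + 1 ≤ n := by
      have := hn.1
      rw [← hsort, Multiset.card_cons] at this
      exact this
    have hTHT : T ≤ H + T := Multiset.le_add_left _ _
    have key : EIM (H + T) (PT (a + b) b (a + b)) := by
      refine step (Q := fun _ s => PM n f s) (p := p) (q := sq s 1 + sq s 2 + sq s 3) IH ?_ ?_
        hTp (by omega) hb hq (by omega) hA2 ?_
      · intro a' t s' _ _ hts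
        refine ⟨?_, fun j hj => ?_⟩
        · rw [Multiset.card_cons, Multiset.card_cons]
          have k1 := Multiset.card_le_card (hts.trans hTHT)
          rw [Multiset.card_cons] at k1
          omega
        · have k1 := countP_cons_le (f j) (a' - t) ((b - t) ::ₘ s')
          have k2 := countP_cons_le (f j) (b - t) s'
          have k3 := Multiset.countP_le_of_le (f j < ·)
            ((Multiset.le_cons_self s' t).trans hts)
          have k4 := hcount2 j hj
          omega
      · intro D' s' _ _ hs'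
        have hle : H + s' ≤ H + T := Multiset.add_le_add_left hs'
        refine ⟨?_, fun j hj => ?_⟩
        · rw [Multiset.card_cons]
          have k1 := Multiset.card_le_card hle
          omega
        · have k2 := countP_cons_le (f j) (D' - b) (H + s')
          have k3 := Multiset.countP_le_of_le (f j < ·) hle
          have k4 := hcount1 j hj
          omega
      · zify at hB ⊢
        nlinarith
    have h9 := M_top (by omega) key
    rw [Nat.add_sub_cancel, hsort] at h9
    exact h9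

/-- non-special at general points -/
def NS (n : ℕ) (m : ℕ → ℕ) (d : ℕ) : Prop :=
  ∃ F : MvPolynomial (Fin n × Fin 2) ℂ, F ≠ 0 ∧ ∀ P : Fin n → Fin 2 → ℂ,
    MvPolynomial.eval (fun q : Fin n × Fin 2 => P q.1 q.2) F ≠ 0 →
      ExpDim ℂ (fun i : Fin n => m i) P d

theorem sq_le_of_PM {n : ℕ} {f : ℕ → ℕ} {s : Multiset ℕ} (h : PM n f s) {j : ℕ} (hj : 2 ≤ j) :
    sq s j ≤ f j := by
  by_contra hcon
  have hpw : (s.sort (· ≥ ·)).Pairwise (· ≥ ·) := Multiset.pairwise_sort s (· ≥ ·)
  have hsort : ((s.sort (· ≥ ·) : List ℕ) : Multiset ℕ) = s := Multiset.sort_eq s _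
  have h1 := countP_drop (M := f j) hpw j
  rw [hsort] at h1
  have h2 := h.2 j hj
  have h3 : j < (s.sort (· ≥ ·)).length := by
    by_contra hlen
    apply hcon
    unfold sq
    rw [List.getD_eq_default _ _ (by omega)]
    exact Nat.zero_le _
  have h4 : 0 < (((s.sort (· ≥ ·)).drop j : List ℕ) : Multiset ℕ).countP (f j < ·) := by
    rw [Multiset.countP_pos]
    refine ⟨sq s j, ?_, by omega⟩
    rw [Multiset.mem_coe, List.drop_eq_getElem_cons h3]
    unfold sq
    rw [List.getD_eq_getElem _ _ h3]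
    exact List.mem_cons_self
  omega

theorem PM_vals {n : ℕ} {f m : ℕ → ℕ} (hm : Antitone m) (hM : ∀ j, 2 ≤ j → m j ≤ f j) :
    PM n f (univ.val.map (fun i : Fin n => m i)) := by
  refine ⟨by simp, fun j hj => ?_⟩
  rw [Multiset.countP_map, ← Finset.filter_val, Finset.card_val]
  have h1 : ((univ : Finset (Fin n)).filter fun i : Fin n => f j < m i).card ≤
      (Finset.range j).card := by
    refine Finset.card_le_card_of_injOn (fun i : Fin n => (i : ℕ)) ?_ ?_
    · intro i hi
      rw [Finset.mem_coe, Finset.mem_filter] at hi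
      rw [Finset.mem_coe, Finset.mem_range]
      show (i : ℕ) < j
      by_contra hcon
      have := hm (show j ≤ (i : ℕ) by omega)
      have := hi.2
      have := hM j hj
      omega
    · intro a _ b _ hab
      exact Fin.ext hab
  rwa [Finset.card_range] at h1

theorem main_fun (n : ℕ) (f : ℕ → ℕ) (D : ℕ)
    (hyp : ∀ (m : ℕ → ℕ) (d : ℕ), d ≤ D → Antitone m → (∀ i, n ≤ i → m i = 0) →
      (∀ j, 2 ≤ j → m j ≤ f j) → m 0 + m 1 + m 2 ≤ d → RedF m d → RedV m d → NS n m d)
    (m : ℕ → ℕ) (d : ℕ) (hd : d ≤ D)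
    (hm : Antitone m) (hM : ∀ j, 2 ≤ j → m j ≤ f j) (h3 : m 0 + m 1 + m 2 ≤ d) : NS n m d := by
  have h1 := main_M n f D (fun d hd s hs h3 hR hV => by
    have h2 := hyp (sq s) d hd (sq_antitone s) (fun i hi => sq_zero (hs.1.trans hi))
      (fun j hj => sq_le_of_PM hs hj) (sum_three_le h3) hR hV
    have h4 := gen_iff.1 h2
    rw [← EIM_iff (vals_sq s n hs.1), M_add_zeros] at h4
    exact h4) d hd (univ.val.map (fun i : Fin n => m i)) (PM_vals hm hM) (by
      have h5 := LE_ofFn hm 3 0 n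
      have h6 : ∑ i ∈ Finset.range 3, m (0 + i) = m 0 + m 1 + m 2 := by
        simp [Finset.sum_range_succ]
      rw [h6] at h5
      have h7 : ((List.ofFn (fun i : Fin n => m (0 + i)) : List ℕ) : Multiset ℕ) =
          univ.val.map (fun i : Fin n => m i) := by
        rw [← Fin.univ_val_map]
        simp
      rw [h7] at h5
      exact h5.mono' h3)
  exact gen_iff.2 ((EIM_iff rfl).1 h1)

/-- **from a counterexample to a remaining counterexample** -/
theorem minimal {n : ℕ} {m : ℕ → ℕ} {d : ℕ} (hm : Antitone m) (h3 : m 0 + m 1 + m 2 ≤ d)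
    (h : ¬ NS n m d) : ∃ (m' : ℕ → ℕ) (d' : ℕ), d' ≤ d ∧ Antitone m' ∧ (∀ i, n ≤ i → m' i = 0) ∧
      (∀ j, 2 ≤ j → m' j ≤ m j) ∧ m' 0 + m' 1 + m' 2 ≤ d' ∧ RedF m' d' ∧ RedV m' d' ∧
      ¬ NS n m' d' := by
  by_contra hcon
  push Not at hcon
  exact h (main_fun n m d (fun m' d' h1 h2 h3 h4 h5 h6 h7 => hcon m' d' h1 h2 h3 h4 h5 h6 h7) m d
    le_rfl hm (fun j _ => le_rfl) h3)

/-- comparison with the degree -/
theorem Red_deg {m : ℕ → ℕ} {d : ℕ} (hm : Antitone m) (h : RedV m d) : 4 * d < 21 * m 0 + 8 := by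
  by_contra hcon
  push Not at hcon
  have a1 : m 2 ≤ m 1 := hm (by norm_num)
  have a2 : m 1 ≤ m 0 := hm (by norm_num)
  have h1 := h 2 (by norm_num) (by omega)
  simp only [Finset.sum_range_succ, Finset.sum_range_zero, zero_add] at h1
  have b1 : m 1 * (m 1 + 1) ≤ m 0 * (m 0 + 1) := Nat.mul_le_mul a2 (by omega)
  obtain ⟨x, hx⟩ : ∃ x : ℤ, x = m 0 := ⟨_, rfl⟩
  obtain ⟨y, hy⟩ : ∃ y : ℤ, y = m 2 := ⟨_, rfl⟩
  obtain ⟨e, he⟩ : ∃ e : ℤ, e = d := ⟨_, rfl⟩
  have c1 : y ≤ x := by rw [hx, hy]; exact_mod_cast a1.trans a2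
  have c2 : 21 * x + 8 ≤ 4 * e := by rw [hx, he]; exact_mod_cast hcon
  have c3 : 0 ≤ y := by rw [hy]; positivity
  zify at b1
  rw [← hx] at h1 b1
  rw [← hy, ← he] at h1
  have h2 : e * (e + 1) - 2 * (2 * y + 1) * (e + 1 - y) < 2 * (x * (x + 1)) := by linarith
  have h3 : 2 * (2 * y + 1) * (e + 1 - y) ≤ 2 * (2 * x + 1) * (e + 1 - x) := by
    nlinarith [mul_nonneg (sub_nonneg.2 c1) (show 0 ≤ 2 * e + 1 - 2 * x - 2 * y by linarith)]
  nlinarith

/-- comparison with the fourth and the sixth multiplicity -/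
theorem Red_six {m : ℕ → ℕ} {d : ℕ} (hm : Antitone m) (h3 : m 0 + m 1 + m 2 ≤ d) (h : RedF m d) :
    4 * m 0 < 4 * m 3 + 9 * m 5 + 8 := by
  by_contra hcon
  push Not at hcon
  have h1 := h 4 (by norm_num) (by show 9 * m 5 + 8 ≤ _; omega)
    (by show _ + 9 * m 5 + 8 ≤ _; omega)
  have a1 : m 2 ≤ m 1 := hm (by norm_num)
  have a2 : m 3 ≤ m 2 := hm (by norm_num)
  have a3 : m 4 ≤ m 2 := hm (by norm_num)
  have a4 : m 5 ≤ m 3 := hm (by norm_num)
  obtain ⟨e, rfl⟩ : ∃ e, d = m 0 + e := ⟨d - m 0, by omega⟩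
  simp only [Finset.sum_range_succ, Finset.sum_range_zero, zero_add] at h1
  have h2 : 1 + 1 = 2 := rfl
  have h4 : 2 + 1 = 3 := rfl
  have h5 : 3 + 1 = 4 := rfl
  have h6 : 4 + 1 = 5 := rfl
  rw [h2, h4, h5, h6] at h1
  push_cast at h1
  have b1 : m 3 * (m 3 + 1) ≤ m 2 * (m 2 + 1) := Nat.mul_le_mul a2 (by omega)
  have b2 : m 4 * (m 4 + 1) ≤ m 2 * (m 2 + 1) := Nat.mul_le_mul a3 (by omega)
  have b3 : m 1 * (m 1 + 1) + 3 * (m 2 * (m 2 + 1)) ≤ (m 1 + m 2) * (m 1 + m 2 + 2) := by nlinarith
  have b4 : (m 1 + m 2) * (m 1 + m 2 + 2) ≤ e * (e + 2) := Nat.mul_le_mul (by omega) (by omega)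
  have b5 : (e : ℤ) + 2 ≤ (m 0 + e : ℤ) + m 0 - 4 * m 5 - 2 := by
    have : 2 * m 5 * 2 + 4 ≤ 2 * m 0 := by omega
    zify at this
    linarith
  have b6 : ((m 0 : ℤ) + e - m 0 + 1) = e + 1 := by ring
  rw [b6] at h1
  zify at b1 b2 b3 b4
  nlinarith

/-- comparison with the degree and the tenth multiplicity -/
theorem Red_ten {m : ℕ → ℕ} {d : ℕ} (hm : Antitone m) (h3 : m 0 + m 1 + m 2 ≤ d) (h : RedF m d) :
    6 * m 0 < 2 * d + 9 * m 9 + 8 := by
  by_contra hcon
  push Not at hcon
  have a1 : m 2 ≤ m 1 := hm (by norm_num)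
  have a2 : m 3 ≤ m 2 := hm (by norm_num)
  obtain ⟨e, rfl⟩ : ∃ e, d = m 0 + e := ⟨d - m 0, by omega⟩
  have h1 := h 8 (by norm_num) (by show 9 * m 9 + 8 ≤ _; omega)
    (by show _ + 9 * m 9 + 8 ≤ _; omega)
  have hs : ∑ i ∈ Finset.range 8, (m (i + 1) : ℤ) * (m (i + 1) + 1) ≤
      (m 1 : ℤ) * (m 1 + 1) + 7 * ((m 2 : ℤ) * (m 2 + 1)) := by
    rw [Finset.sum_range_succ']
    have h4 : ∀ i ∈ Finset.range 7, (m (i + 1 + 1) : ℤ) * (m (i + 1 + 1) + 1) ≤
        (m 2 : ℤ) * (m 2 + 1) := by
      intro i _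
      have h5 : m (i + 1 + 1) ≤ m 2 := hm (by omega)
      exact_mod_cast Nat.mul_le_mul h5 (Nat.succ_le_succ h5)
    have h5 := Finset.sum_le_card_nsmul _ _ _ h4
    rw [Finset.card_range, nsmul_eq_mul] at h5
    push_cast at h5
    have h6 : (m (0 + 1) : ℤ) * (m (0 + 1) + 1) = (m 1 : ℤ) * (m 1 + 1) := rfl
    rw [h6]
    linarith
  have h1' := h1.trans_le hs
  have b3 : m 1 * (m 1 + 1) + 7 * (m 2 * (m 2 + 1)) ≤ 2 * ((m 1 + m 2) * (m 1 + m 2 + 2)) := by
    nlinarith
  have b4 : (m 1 + m 2) * (m 1 + m 2 + 2) ≤ e * (e + 2) := Nat.mul_le_mul (by omega) (by omega)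
  have b5 : 2 * (e : ℤ) + 2 ≤ (m 0 + e : ℤ) + m 0 - 4 * m 9 - 2 := by
    have : 2 * e + 2 + 4 * m 9 + 2 ≤ 2 * m 0 + e := by omega
    zify at this
    linarith
  have b6 : ((m 0 : ℤ) + e - m 0 + 1) = e + 1 := by ring
  push_cast at h1'
  rw [b6] at h1'
  have b7 : (m (8 + 1) : ℤ) = m 9 := rfl
  rw [b7] at h1'
  zify at b3 b4
  nlinarith

end Pool.Agent.H902.CB
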