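import Pool.Agent.H902.CB.Mul

set_option autoImplicit false

/-!
# The reduction step
-/

namespace Pool.Agent.H902.CB

open Finset Pool.Agent.TH176.Nag Pool.Agent.TH603.Sur Pool.Agent.TH641.UM

/-- at most `j` of the multiplicities add up to at most `b` -/
def LE (j b : ℕ) (s : Multiset ℕ) : Prop := ∀ t ≤ s, t.card ≤ j → t.sum ≤ b

theorem LE.mono {j b : ℕ} {s s' : Multiset ℕ} (h : LE j b s) (hs : s' ≤ s) : LE j b s' :=
  fun t ht hc => h t (ht.trans hs) hc

theorem LE.mono' {j b b' : ℕ} {s : Multiset ℕ} (h : LE j b s) (hb : b ≤ b') : LE j b' s :=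
  fun t ht hc => (h t ht hc).trans hb

theorem sub_cons {x : ℕ} {s t : Multiset ℕ} (h : t ≤ x ::ₘ s) :
    t ≤ s ∨ ∃ t', t' ≤ s ∧ t = x ::ₘ t' := by
  by_cases hx : x ∈ t
  · exact Or.inr ⟨t.erase x, Multiset.erase_le_iff_le_cons.2 h, (Multiset.cons_erase hx).symm⟩
  · exact Or.inl ((Multiset.le_cons_of_notMem hx).1 h)

theorem LE_cons {j b x : ℕ} {s : Multiset ℕ} (h1 : ∀ t ≤ s, t.card ≤ j → x + t.sum ≤ b)
    (h2 : LE (j + 1) b s) : LE (j + 1) b (x ::ₘ s) := by
  intro t ht hc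
  rcases sub_cons ht with h | ⟨t', h, rfl⟩
  · exact h2 t h hc
  · rw [Multiset.sum_cons]
    rw [Multiset.card_cons] at hc
    exact h1 t' h (by omega)

theorem LE.one {j b x : ℕ} {s : Multiset ℕ} (h : LE (j + 1) b s) (hx : x ∈ s) : x ≤ b := by
  have := h {x} (Multiset.singleton_le.2 hx) (by simp)
  simpa using this

theorem LE.two {b x y : ℕ} {s : Multiset ℕ} (h : LE 2 b (x ::ₘ s)) (hy : y ∈ s) : x + y ≤ b := by
  have := h (x ::ₘ {y}) (by
    rw [Multiset.cons_le_cons_iff]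
    exact Multiset.singleton_le.2 hy) (by simp)
  simpa using this

/-- sums of three from sums of two -/
theorem LE.three {b : ℕ} {s : Multiset ℕ} (h : LE 2 b s) :
    ∀ t ≤ s, t.card ≤ 3 → 2 * t.sum ≤ 3 * b := by
  intro t ht hc
  rcases Nat.lt_or_ge t.card 3 with h3 | h3
  · have := h t ht (by omega)
    omega
  · obtain ⟨x, y, z, rfl⟩ := Multiset.card_eq_three.1 (le_antisymm hc h3)
    have e0 : ({x, y, z} : Multiset ℕ) = x ::ₘ y ::ₘ z ::ₘ 0 := rfl
    rw [e0] at ht ⊢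
    have h1 : LE 2 b (x ::ₘ y ::ₘ z ::ₘ 0) := h.mono ht
    have h2 : LE 2 b (y ::ₘ z ::ₘ 0) := h1.mono (Multiset.le_cons_self _ _)
    have k1 := h1.two (y := y) (by simp)
    have k2 := h1.two (y := z) (by simp)
    have k3 := h2.two (y := z) (by simp)
    simp only [Multiset.sum_cons, Multiset.sum_zero]
    omega

/-- a largest element -/
theorem exists_max {s : Multiset ℕ} (hs : s ≠ 0) : ∃ t s', s = t ::ₘ s' ∧ ∀ x ∈ s', x ≤ t := by
  classical
  obtain ⟨y, hy⟩ := Multiset.exists_mem_of_ne_zero hs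
  have hne : s.toFinset.Nonempty := ⟨y, Multiset.mem_toFinset.2 hy⟩
  have h1 := Finset.max'_mem s.toFinset hne
  obtain ⟨s', hs'⟩ := Multiset.exists_cons_of_mem (Multiset.mem_toFinset.1 h1)
  refine ⟨_, s', hs', fun x hx => Finset.le_max' _ _ (Multiset.mem_toFinset.2 ?_)⟩
  rw [hs']
  exact Multiset.mem_cons_of_mem hx

/-- the induction hypothesis -/
def IHQ (Q : ℕ → Multiset ℕ → Prop) (d : ℕ) : Prop :=
  ∀ d' < d, ∀ s : Multiset ℕ, Q d' s → LE 3 d' s → EIM s (PT d' d' d')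

/-- the rectangle from the induction hypothesis -/
theorem rect_IH {Q : ℕ → Multiset ℕ → Prop} {d a b : ℕ} {s : Multiset ℕ} (IH : IHQ Q d)
    (hQ : ∀ t s', s = t ::ₘ s' → Q (a + b - t) ((a - t) ::ₘ (b - t) ::ₘ s'))
    (ha : LE 2 a s) (hb : LE 2 b s) (hd : a + b < d) :
    EIM s (PT a b (a + b)) := by
  rcases eq_or_ne s 0 with rfl | hs
  · exact M_zero _
  obtain ⟨t, s', rfl, hmax⟩ := exists_max hs
  have hta : t ≤ a := ha.one (Multiset.mem_cons_self t s')
  have htb : t ≤ b := hb.one (Multiset.mem_cons_self t s')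
  have ha' : LE 2 a s' := ha.mono (Multiset.le_cons_self _ _)
  have hb' : LE 2 b s' := hb.mono (Multiset.le_cons_self _ _)
  have hone : ∀ u ≤ s', u.card ≤ 1 → u.sum ≤ t := by
    intro u hu hc
    rcases Nat.lt_or_ge u.card 1 with h | h
    · have : u = 0 := Multiset.card_eq_zero.1 (by omega)
      rw [this]
      simp
    · obtain ⟨x, rfl⟩ := Multiset.card_eq_one.1 (le_antisymm hc h)
      rw [Multiset.sum_singleton]
      exact hmax x (Multiset.singleton_le.1 hu)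
  refine M_rect hta htb (IH _ (by omega) _ (hQ t s' rfl) ?_)
  refine LE_cons ?_ (LE_cons ?_ ?_)
  · intro u hu hc
    rcases sub_cons hu with h | ⟨u', h, rfl⟩
    · have := hb' u h hc
      omega
    · rw [Multiset.card_cons] at hc
      rw [Multiset.sum_cons]
      have := hone u' h (by omega)
      omega
  · intro u hu hc
    have := ha' u hu hc
    omega
  · intro u hu hc
    rcases Nat.lt_or_ge u.card 3 with h3 | h3
    · have := ha' u hu (by omega)
      omega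
    · obtain ⟨x, y, z, rfl⟩ := Multiset.card_eq_three.1 (le_antisymm hc h3)
      have e0 : ({x, y, z} : Multiset ℕ) = x ::ₘ y ::ₘ z ::ₘ 0 := rfl
      rw [e0] at hu ⊢
      have h1 : LE 2 a (y ::ₘ z ::ₘ 0) := ha'.mono ((Multiset.le_cons_self _ _).trans hu)
      have k1 := hb.two (y := x) (Multiset.mem_of_le hu (Multiset.mem_cons_self _ _))
      have k2 := h1.two (y := z) (by simp)
      simp only [Multiset.sum_cons, Multiset.sum_zero]
      omega

/-- the trapezoid from the induction hypothesis -/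
theorem trap_IH {Q : ℕ → Multiset ℕ → Prop} {d D b : ℕ} {s : Multiset ℕ} (IH : IHQ Q d)
    (hQ : Q D ((D - b) ::ₘ s)) (hb : LE 2 b s) (h3 : LE 3 D s) (hbD : b ≤ D) (hd : D < d) :
    EIM s (PT D b D) := by
  refine M_cut1 hbD (IH D hd _ hQ ?_)
  refine LE_cons ?_ h3
  intro u hu hc
  have := hb u hu hc
  omega

theorem caseA {Q : ℕ → Multiset ℕ → Prop} {d b b1 r : ℕ} {s1 s2 : Multiset ℕ} (IH : IHQ Q d)
    (hQ1 : ∀ a, b1 - 1 ≤ a → a ≤ b1 → ∀ t s', s1 = t ::ₘ s' →
      Q (a + b - t) ((a - t) ::ₘ (b - t) ::ₘ s'))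
    (hQ2 : ∀ D, d - b1 - 1 ≤ D → D ≤ d - b1 → Q D ((D - b) ::ₘ s2))
    (hN : cM s1 = (b + 1) * b1 + r) (hr : r < b + 1)
    (hb1 : 1 ≤ b1) (hd : b + b1 + 1 ≤ d) (hb : LE 2 b (s1 + s2)) (h1 : LE 2 (b1 - 1) s1)
    (h3 : LE 3 (d - b1 - 1) s2) : EIM (s1 + s2) (PT d b d) := by
  have hs1 : LE 2 b s1 := hb.mono (Multiset.le_add_right _ _)
  have hs2 : LE 2 b s2 := hb.mono (Multiset.le_add_left _ _)
  refine M_glue hN hr hb1 ?_ ?_ hd ?_ ?_
  · exact rect_IH IH (hQ1 _ le_rfl (by omega)) h1 hs1 (by omega)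
  · exact rect_IH IH (hQ1 _ (by omega) le_rfl) (h1.mono' (by omega)) hs1 (by omega)
  · exact trap_IH IH (hQ2 _ le_rfl (by omega)) hs2 h3 (by omega) (by omega)
  · exact trap_IH IH (hQ2 _ (by omega) le_rfl) hs2 (h3.mono' (by omega)) (by omega) (by omega)

theorem caseB {Q : ℕ → Multiset ℕ → Prop} {d b : ℕ} {s : Multiset ℕ} (IH : IHQ Q d)
    (hQ : Q (d - 1) ((d - 1 - b) ::ₘ s)) (hb : LE 2 b s) (h3 : LE 3 (d - 1) s) (hbd : b + 1 ≤ d)
    (hN : 2 * cM s + (b + 1) * b ≤ 2 * ((b + 1) * d)) : EIM s (PT d b d) := by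
  obtain ⟨f, rfl⟩ : ∃ f, d = f + 1 := ⟨d - 1, by omega⟩
  rw [Nat.add_sub_cancel] at h3 hQ
  have h1 := trap_IH IH hQ hb h3 (by omega) (by omega)
  have hv := cond_cM (vals_self s)
  have h2 := card_PTi (b := b) (d := f) (by omega)
  have h4 := two_ch b
  have h5 := card_PTi (b := b) (d := f + 1) (by omega)
  have hle : cM s ≤ (PT f b f).card := by
    zify
    rw [h2]
    zify at hN
    push_cast at h4 ⊢
    linarith
  refine ⟨fun hc => ?_, fun _ => (h1.2 (by rw [hv]; exact hle)).mono ?_⟩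
  · exfalso
    rw [hv] at hc
    have h6 : (PT (f + 1) b (f + 1)).card ≤ (PT f b f).card := hc.trans hle
    zify at h6
    rw [h2, h5] at h6
    push_cast at h6
    nlinarith
  · intro p hp
    rw [mem_coe, mem_PT] at hp ⊢
    omega
where
  two_ch (m : ℕ) : (2 : ℤ) * ((m + 1).choose 2 : ℕ) = m * (m + 1) := by
    have h := Nat.add_one_mul_choose_eq m 1
    rw [Nat.choose_one_right] at h
    have h2 : ((m + 1 : ℕ) : ℤ) * m = ((m + 1).choose 2 : ℕ) * 2 := by exact_mod_cast h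
    push_cast at h2
    linarith

theorem two_chN (m : ℕ) : 2 * (m + 1).choose 2 = m * (m + 1) := by
  have h := Nat.add_one_mul_choose_eq m 1
  rw [Nat.choose_one_right] at h
  linarith

/-- the greedy choice -/
theorem greedy {p M : ℕ} (hM : 1 ≤ M) (T : Multiset ℕ) : (∀ x ∈ T, x ≤ p) → M ≤ cM T →
    ∃ T1 T2, T = T1 + T2 ∧ M ≤ cM T1 ∧ cM T1 + 1 ≤ M + (p + 1).choose 2 := by
  induction T using Multiset.induction with
  | empty =>
    intro _ h
    rw [cM_zero] at h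
    omega
  | cons x T ih =>
    intro hx hc
    by_cases h : M ≤ cM T
    · obtain ⟨T1, T2, h1, h2, h3⟩ := ih (fun y hy => hx y (Multiset.mem_cons_of_mem hy)) h
      exact ⟨T1, x ::ₘ T2, by rw [h1, Multiset.add_cons], h2, h3⟩
    · refine ⟨x ::ₘ T, 0, by simp, hc, ?_⟩
      rw [cM_cons]
      have h1 := hx x (Multiset.mem_cons_self x T)
      have h2 : (x + 1).choose 2 ≤ (p + 1).choose 2 := Nat.choose_le_choose 2 (by omega)
      omega

theorem cM_le {c : ℕ} (s : Multiset ℕ) : (∀ x ∈ s, 4 * (x * (x + 1)) ≤ c) →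
    8 * cM s ≤ s.card * c := by
  induction s using Multiset.induction with
  | empty =>
    intro _
    rw [cM_zero]
    simp
  | cons x s ih =>
    intro h
    have h1 := ih fun y hy => h y (Multiset.mem_cons_of_mem hy)
    have h2 := h x (Multiset.mem_cons_self x s)
    have h3 := two_chN x
    rw [cM_cons, Multiset.card_cons, add_mul]
    omega

/-- the conditions of the large multiplicities -/
theorem cM_head {k b : ℕ} {s : Multiset ℕ} (hk : 8 ≤ k) (hc : s.card ≤ k) (hb : LE 2 b s) :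
    8 * cM s ≤ k * (b * (b + 2)) := by
  by_cases hx : ∃ x ∈ s, b < 2 * x
  · obtain ⟨x, hx1, hx2⟩ := hx
    obtain ⟨s', rfl⟩ := Multiset.exists_cons_of_mem hx1
    have hxb : x ≤ b := hb.one (Multiset.mem_cons_self x s')
    obtain ⟨z, rfl⟩ : ∃ z, b = x + z := ⟨b - x, by omega⟩
    have h1 : 8 * cM s' ≤ s'.card * (4 * (z * (z + 1))) := by
      refine cM_le s' fun y hy => ?_
      have := hb.two hy
      have hyz : y ≤ z := by omega
      have : y * (y + 1) ≤ z * (z + 1) := Nat.mul_le_mul hyz (by omega)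
      omega
    rw [Multiset.card_cons] at hc
    have h2 : s'.card * (4 * (z * (z + 1))) ≤ (k - 1) * (4 * (z * (z + 1))) :=
      Nat.mul_le_mul_right _ (by omega)
    rw [cM_cons]
    have h3 := two_chN x
    obtain ⟨j, rfl⟩ : ∃ j, k = j + 8 := ⟨k - 8, by omega⟩
    rw [show j + 8 - 1 = j + 7 by omega] at h2
    have h4 : 4 * (z * (z + 1)) ≤ (x + z) * (x + z + 2) := by nlinarith
    have h5 : j * (4 * (z * (z + 1))) ≤ j * ((x + z) * (x + z + 2)) := Nat.mul_le_mul_left _ h4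
    have h6 : 4 * (x * (x + 1)) + 7 * (4 * (z * (z + 1))) ≤ 8 * ((x + z) * (x + z + 2)) := by
      nlinarith
    nlinarith
  · push Not at hx
    have h1 : 8 * cM s ≤ s.card * (b * (b + 2)) := by
      refine cM_le s fun y hy => ?_
      have := hx y hy
      nlinarith
    exact h1.trans (Nat.mul_le_mul_right _ hc)

/-- **the reduction step** -/
theorem step {Q : ℕ → Multiset ℕ → Prop} {d b p q : ℕ} {H T : Multiset ℕ} (IH : IHQ Q d)
    (hQ1 : ∀ a t s', 2 * p ≤ a → 4 * a ≤ 9 * p + 4 → t ::ₘ s' ≤ T →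
      Q (a + b - t) ((a - t) ::ₘ (b - t) ::ₘ s'))
    (hQ2 : ∀ D s', D < d → b ≤ D → s' ≤ T → Q D ((D - b) ::ₘ (H + s')))
    (hT : ∀ x ∈ T, x ≤ p) (hp : 2 * p ≤ b) (hb : LE 2 b (H + T))
    (h3 : LE 3 q (H + T)) (hA1 : 4 * b + 9 * p + 8 ≤ 4 * d) (hA2 : 4 * q + 9 * p + 8 ≤ 4 * d)
    (hB : 2 * cM H + 2 * ((b + 1) * (2 * p + 1)) + (b + 1) * b ≤ 2 * ((b + 1) * d)) :
    EIM (H + T) (PT d b d) := by
  rcases le_or_gt ((b + 1) * (2 * p + 1)) (cM T) with hc | hc
  · obtain ⟨T1, T2, rfl, h4, h5⟩ := greedy (by nlinarith) T hT hc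
    have hdm := Nat.div_add_mod (cM T1) (b + 1)
    have hlt := Nat.mod_lt (cM T1) (Nat.succ_pos b)
    obtain ⟨b1, hb1⟩ : ∃ b1, b1 = cM T1 / (b + 1) := ⟨_, rfl⟩
    obtain ⟨r, hr⟩ : ∃ r, r = cM T1 % (b + 1) := ⟨_, rfl⟩
    rw [← hb1, ← hr] at hdm
    rw [Nat.succ_eq_add_one, ← hr] at hlt
    have h6 : 2 * p + 1 ≤ b1 := by
      rw [hb1, Nat.le_div_iff_mul_le (Nat.succ_pos b)]
      rw [Nat.mul_comm]
      exact h4
    obtain ⟨i, rfl⟩ : ∃ i, b1 = 2 * p + 1 + i := ⟨b1 - (2 * p + 1), by omega⟩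
    have h7 : 4 * i ≤ p := by
      by_contra hcon
      have h8 := two_chN p
      have h9 : 2 * ((b + 1) * i) < p * (p + 1) := by nlinarith
      have h10 : (2 * p + 1) * i ≤ (b + 1) * i := Nat.mul_le_mul_right _ (by omega)
      have h11 : (2 * p + 1) * (p + 1) ≤ (2 * p + 1) * (4 * i) := Nat.mul_le_mul_left _ (by omega)
      nlinarith
    rw [show H + (T1 + T2) = T1 + (H + T2) by
      rw [← add_assoc, ← add_assoc, add_comm H T1]] at hb h3 ⊢
    refine caseA IH ?_ ?_ hdm.symm hlt (by omega) (by omega) hb ?_ ?_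
    · intro a ha1 ha2 t s' hts
      refine hQ1 a t s' (by omega) (by omega) ?_
      rw [← hts]
      exact Multiset.le_add_right _ _
    · intro D hD1 hD2
      exact hQ2 D T2 (by omega) (by omega) (Multiset.le_add_left _ _)
    · intro t ht hc
      have : ∀ x ∈ t, x ≤ p := fun x hx =>
        hT x (Multiset.mem_add.2 (Or.inl (Multiset.mem_of_le ht hx)))
      have h8 := Multiset.sum_le_card_nsmul t p this
      rw [smul_eq_mul] at h8
      have h9 : t.card * p ≤ 2 * p := Nat.mul_le_mul_right _ hc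
      omega
    · intro t ht hc
      have h8 := h3 t (ht.trans (Multiset.le_add_left _ _)) hc
      omega
  · refine caseB IH (hQ2 _ T (by omega) (by omega) le_rfl) hb ?_ (by omega) ?_
    · intro t ht hc
      have h8 := h3 t ht hc
      omega
    · rw [cM_add]
      omega

end Pool.Agent.H902.CB
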