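import Pool.Agent.H902.CB.Div

set_option autoImplicit false

/-!
# Rectangles with `p x + q (x + 1)` rows, tiled by triangles of size `x`
-/

namespace Pool.Agent.H902.CB

open Finset Pool.Agent.TH176.Nag Pool.Agent.TH603.Sur

/-- the rectangle with `W` columns and `h` rows -/
def Rc (W h : ℕ) : Set (ℤ × ℤ) := {p | 0 ≤ p.1 ∧ p.1 < W ∧ 0 ≤ p.2 ∧ p.2 < h}

theorem Rc_fin (W h : ℕ) : (Rc W h).Finite :=
  fin_box W h (by rintro a b ⟨h1, h2, h3, h4⟩; simp only at *; omega)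

theorem E_pair (x : ℕ) : E x 2 (Rc (x + 1) x) := by
  have h2 : E x 1 {p : ℤ × ℤ | p ∈ Rc (x + 1) x ∧ (x : ℤ) ≤ p.1 + p.2} := by
    refine E_rot (x : ℤ) (x - 1) E_A1 ?_
    rintro a b ⟨⟨h1, h2, h3, h4⟩, h5⟩
    simp only at *
    push_cast at h2
    exact ⟨by simp only; omega, by simp only; omega, by simp only; omega⟩
  refine (E_lex A1_fin ((Rc_fin (x + 1) x).subset fun p hp => hp.1) 1 1 0 0 ?_ E_A1 h2).mono ?_
  · rintro ⟨a, b⟩ ⟨h1, h2, h3⟩ ⟨c, d⟩ ⟨_, k5⟩
    simp only at *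
    omega
  · rintro ⟨a, b⟩ h
    simp only [A1, Set.mem_union, Set.mem_ofPred_eq]
    obtain ⟨h1, h2, h3, h4⟩ := h
    simp only at h1 h2 h3 h4
    rcases lt_or_ge (a + b) (x : ℤ) with h5 | h5
    · exact Or.inl ⟨h1, h3, h5⟩
    · exact Or.inr ⟨⟨h1, h2, h3, h4⟩, h5⟩

theorem E_hor {m r s W W' h : ℕ} (h1 : E m r (Rc W h)) (h2 : E m s (Rc W' h)) :
    E m (r + s) (Rc (W + W') h) := by
  have h3 : E m s {p : ℤ × ℤ | (W : ℤ) ≤ p.1 ∧ p.1 < W + W' ∧ 0 ≤ p.2 ∧ p.2 < h} := by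
    refine h2.comap 1 0 0 1 (-W) 0 (by norm_num) ?_
    rintro ⟨a, b⟩ ⟨k1, k2, k3, k4⟩
    simp only at *
    exact ⟨by simp only; omega, by simp only; omega, by simp only; omega, by simp only; omega⟩
  refine (E_lex (Rc_fin W h) ((Rc_fin (W + W') h).subset ?_) 1 0 0 0 ?_ h1 h3).mono ?_
  · rintro ⟨a, b⟩ ⟨k1, k2, k3, k4⟩
    simp only at *
    exact ⟨by simp only; omega, by simp only; push_cast; omega, by simp only; omega,
      by simp only; omega⟩
  · rintro ⟨a, b⟩ ⟨k1, k2, k3, k4⟩ ⟨c, d⟩ ⟨l1, l2, l3, l4⟩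
    simp only at *
    omega
  · rintro ⟨a, b⟩ ⟨k1, k2, k3, k4⟩
    simp only at k1 k2 k3 k4
    push_cast at k2
    rcases lt_or_ge a (W : ℤ) with h5 | h5
    · exact Or.inl ⟨k1, h5, k3, k4⟩
    · exact Or.inr ⟨h5, k2, k3, k4⟩

theorem E_tr {m r W h : ℕ} (h1 : E m r (Rc W h)) : E m r (Rc h W) := by
  refine h1.comap 0 1 1 0 0 0 (by norm_num) ?_
  rintro ⟨a, b⟩ ⟨k1, k2, k3, k4⟩
  simp only at *
  exact ⟨by simp only; omega, by simp only; omega, by simp only; omega, by simp only; omega⟩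

theorem E_ver {m r s W h h' : ℕ} (h1 : E m r (Rc W h)) (h2 : E m s (Rc W h')) :
    E m (r + s) (Rc W (h + h')) := E_tr (E_hor (E_tr h1) (E_tr h2))

theorem E_nil (m W : ℕ) : E m 0 (Rc W 0) := by
  have h : Rc W 0 = ∅ := by
    ext p
    simp only [Rc, Set.mem_ofPred_eq, Set.mem_empty_iff_false, iff_false]
    push_cast
    omega
  rw [h]
  exact Emp_empty _

theorem E_horn {m r W h : ℕ} (h1 : E m r (Rc W h)) (k : ℕ) : E m (r * k) (Rc (W * k) h) := by
  induction k with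
  | zero => exact E_tr (E_nil m h)
  | succ k ih =>
    rw [Nat.mul_succ, Nat.mul_succ]
    exact E_hor ih h1

theorem E_vern {m r W h : ℕ} (h1 : E m r (Rc W h)) (k : ℕ) : E m (r * k) (Rc W (h * k)) :=
  E_tr (E_horn (E_tr h1) k)

/-- the tiled rectangles -/
theorem E_tiled (x p q : ℕ) :
    E x (2 * (p * x + q * (x + 1))) (Rc (x * (x + 1)) (p * x + q * (x + 1))) := by
  have h1 : E x (2 * x) (Rc (x * (x + 1)) x) := by
    have := E_horn (E_pair x) x
    rwa [Nat.mul_comm (x + 1) x] at this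
  have h2 : E x (2 * (x + 1)) (Rc (x * (x + 1)) (x + 1)) := E_horn (E_tr (E_pair x)) (x + 1)
  have h3 := E_ver (E_vern h1 p) (E_vern h2 q)
  have e1 : 2 * x * p + 2 * (x + 1) * q = 2 * (p * x + q * (x + 1)) := by ring
  have e2 : x * p + (x + 1) * q = p * x + q * (x + 1) := by ring
  rw [e1, e2] at h3
  exact h3

theorem coe_Rc (a b : ℕ) : (↑(PT a b (a + b)) : Set (ℤ × ℤ)) = Rc (a + 1) (b + 1) := by
  ext p
  rw [mem_coe, mem_rect]
  simp only [Rc, Set.mem_ofPred_eq]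
  push_cast
  omega

/-- a tiled rectangle decides all the widths -/
theorem BR_of_tile {b N x W : ℕ} (hc : N * (x + 1).choose 2 = W * (b + 1))
    (h : E x N (Rc W (b + 1))) : BR b (Multiset.replicate N x) := by
  have hcN : cM (Multiset.replicate N x) = W * (b + 1) := by
    rw [← zero_add (Multiset.replicate N x), cM_rep, cM_zero, zero_add, hc]
  intro a
  have hv := vals_const N x
  have hcond : cond (fun _ : Fin N => x) = W * (b + 1) := by rw [cond_cM hv, hcN]
  refine (EIM_iff hv).2 ⟨fun hle => ?_, fun hle => ?_⟩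
  · rw [card_rect, hcond] at hle
    have hle' : a + 1 ≤ W := Nat.le_of_mul_le_mul_right hle (by omega)
    rw [coe_Rc]
    refine h.mono ?_
    rintro ⟨u, v⟩ ⟨k1, k2, k3, k4⟩
    simp only at k1 k2 k3 k4
    push_cast at k2
    exact ⟨k1, by simp only; omega, k3, k4⟩
  · rw [card_rect, hcond] at hle
    have hle' : W ≤ a + 1 := Nat.le_of_mul_le_mul_right hle (by omega)
    rw [coe_Rc]
    have h1 : Sur (fun _ : Fin N => x) (Rc W (b + 1)) := by
      refine ⟨(Rc_fin W (b + 1)).toFinset, ?_, ?_, ?_⟩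
      · rw [Set.Finite.coe_toFinset]
      · rw [hcond]
        rcases Nat.eq_zero_or_pos W with h0 | h0
        · subst h0
          rw [Nat.zero_mul, Finset.card_eq_zero]
          ext p
          rw [Set.Finite.mem_toFinset]
          simp only [Rc, Set.mem_ofPred_eq, Finset.notMem_empty, iff_false]
          push_cast
          omega
        · obtain ⟨W', rfl⟩ : ∃ W', W = W' + 1 := ⟨W - 1, by omega⟩
          rw [← card_rect W' b]
          congr 1
          rw [← Finset.coe_inj, Set.Finite.coe_toFinset, coe_Rc]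
      · rw [Set.Finite.coe_toFinset]
        exact h
    refine h1.mono ?_
    rintro ⟨u, v⟩ ⟨k1, k2, k3, k4⟩
    simp only at k1 k2 k3 k4
    exact ⟨k1, by simp only; push_cast; omega, k3, k4⟩

/-- `2 (b + 1)` points of multiplicity `x`, if `b + 1 = p x + q (x + 1)` -/
theorem BR_tiled {b x p q : ℕ} (h : b + 1 = p * x + q * (x + 1)) :
    BR b (Multiset.replicate (2 * (b + 1)) x) := by
  have h1 := E_tiled x p q
  rw [← h] at h1
  refine BR_of_tile (W := x * (x + 1)) ?_ h1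
  have := two_chN x
  calc 2 * (b + 1) * (x + 1).choose 2 = (2 * (x + 1).choose 2) * (b + 1) := by ring
    _ = x * (x + 1) * (b + 1) := by rw [this]

end Pool.Agent.H902.CB
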