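import Pool.Agent.H902.CB.One
import Pool.Graph.R_seed8.TH545.SD.Conv

set_option autoImplicit false

/-!
# A column of a system of small dimension: the top exponents are free
-/

namespace Pool.Agent.H902.CB

open Polynomial Pool.Agent.TH176.Nag Pool.Agent.TH603.Sur

section wr
variable {K : Type} [Field K] [CharZero K]

/-- the Wronskian with a fixed polynomial -/
noncomputable def Tg (g : K[X]) : K[X] →ₗ[K] K[X] where
  toFun f := derivative g * f - g * derivative f
  map_add' f h := by simp only [derivative_add]; ring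
  map_smul' c f := by
    simp only [derivative_C_mul, RingHom.id_apply, smul_eq_C_mul]
    ring

/-- a space of polynomials of dimension at most `t` contains, for almost all `z`, no nonzero
polynomial with a root of multiplicity `t` at `z` -/
theorem wr (t : ℕ) : ∀ (B : Submodule K K[X]) [FiniteDimensional K B], Module.finrank K B ≤ t →
    ∃ Z : Finset K, ∀ z ∉ Z, ∀ f ∈ B, (X - C z) ^ t ∣ f → f = 0 := by
  classical
  induction t with
  | zero =>
    intro B _ hB
    have h1 : B = ⊥ := Submodule.finrank_eq_zero.1 (Nat.le_zero.1 hB)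
    refine ⟨∅, fun z _ f hf _ => ?_⟩
    rw [h1] at hf
    exact (Submodule.mem_bot K).1 hf
  | succ t ih =>
    intro B _ hB
    by_cases hb : B = ⊥
    · refine ⟨∅, fun z _ f hf _ => ?_⟩
      rw [hb] at hf
      exact (Submodule.mem_bot K).1 hf
    obtain ⟨g, hgB, hg0⟩ := Submodule.exists_mem_ne_zero_of_ne_bot hb
    have hker : 1 ≤ Module.finrank K (LinearMap.ker ((Tg g).domRestrict B)) := by
      rw [Nat.one_le_iff_ne_zero]
      intro h0
      have h1 := Submodule.finrank_eq_zero.1 h0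
      have h2 : (⟨g, hgB⟩ : B) ∈ LinearMap.ker ((Tg g).domRestrict B) := by
        rw [LinearMap.mem_ker, LinearMap.domRestrict_apply]
        show derivative g * g - g * derivative g = 0
        ring
      rw [h1, Submodule.mem_bot] at h2
      exact hg0 (congrArg Subtype.val h2)
    have hrank := LinearMap.finrank_range_add_finrank_ker ((Tg g).domRestrict B)
    have hmap : LinearMap.range ((Tg g).domRestrict B) = B.map (Tg g) := by
      rw [LinearMap.range_domRestrict]
    rw [hmap] at hrank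
    obtain ⟨Z, hZ⟩ := ih (B.map (Tg g)) (by omega)
    refine ⟨Z ∪ g.roots.toFinset, fun z hz f hf hdvd => ?_⟩
    rw [Finset.notMem_union] at hz
    have hgz : ¬ g.IsRoot z := by
      intro h
      exact hz.2 (by rw [Multiset.mem_toFinset, mem_roots hg0]; exact h)
    have h1 : (X - C z) ^ t ∣ Tg g f := by
      show (X - C z) ^ t ∣ derivative g * f - g * derivative f
      refine dvd_sub (Dvd.dvd.mul_left ((pow_dvd_pow _ (Nat.le_succ t)).trans hdvd) _)
        (Dvd.dvd.mul_left ?_ _)
      obtain ⟨q, rfl⟩ := hdvd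
      rw [derivative_mul, derivative_X_sub_C_pow]
      refine dvd_add ?_ ?_
      · rw [Nat.add_sub_cancel]
        exact Dvd.dvd.mul_right (Dvd.dvd.mul_left dvd_rfl _) _
      · exact Dvd.dvd.mul_right (pow_dvd_pow _ (Nat.le_succ t)) _
    have h2 : derivative g * f - g * derivative f = 0 :=
      hZ z hz.1 _ (Submodule.mem_map_of_mem hf) h1
    by_contra hf0
    have hroot : f.IsRoot z := by
      rw [← dvd_iff_isRoot]
      exact (dvd_pow_self _ (Nat.succ_ne_zero t)).trans hdvd
    have hd0 : derivative f ≠ 0 := by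
      intro h0
      have h3 := derivative_eq_zero.1 h0
      rw [eq_C_of_natDegree_eq_zero h3] at hroot hf0
      rw [IsRoot, eval_C] at hroot
      exact hf0 (by rw [hroot, C_0])
    have h4 := derivative_rootMultiplicity_of_root hroot
    have h5 : 0 < f.rootMultiplicity z := (rootMultiplicity_pos hf0).2 hroot
    have h6 : (X - C z) ^ (f.rootMultiplicity z) ∣ g * derivative f := by
      rw [← sub_eq_zero.1 h2]
      exact Dvd.dvd.mul_left (pow_rootMultiplicity_dvd f z) _
    have hcop : IsCoprime ((X - C z) ^ (f.rootMultiplicity z)) g := by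
      refine IsCoprime.pow_left ?_
      rw [(irreducible_X_sub_C z).coprime_iff_not_dvd]
      rwa [dvd_iff_isRoot]
    have h7 := hcop.dvd_of_dvd_mul_left h6
    have h8 := (le_rootMultiplicity_iff hd0).2 h7
    omega

end wr

section tr
open Pool.Agent.H932R2 Pool.Agent.TH545.SD
variable {K : Type} [Field K]

theorem tl_coeff (G : K[X][X]) : ∀ m : ℤ × ℤ, (tl K G).coeff m =
    if 0 ≤ m.1 ∧ 0 ≤ m.2 then (G.coeff m.2.toNat).coeff m.1.toNat else 0 := by
  induction G using Polynomial.induction_on' with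
  | add p q hp hq =>
    intro m
    rw [map_add, AddMonoidAlgebra.coeff_add, Finsupp.add_apply, hp m, hq m, coeff_add, coeff_add]
    split_ifs <;> simp
  | monomial b P =>
    induction P using Polynomial.induction_on' with
    | add p q hp hq =>
      intro m
      rw [map_add, map_add, AddMonoidAlgebra.coeff_add, Finsupp.add_apply, hp m, hq m, coeff_add,
        coeff_add]
      split_ifs <;> simp
    | monomial a c =>
      rintro ⟨i, l⟩
      have h1 : (monomial b (monomial a c) : K[X][X]) = c • Pool.Agent.H932R2.mon K (a, b) := by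
        rw [Pool.Agent.H932R2.mon, Algebra.smul_def, Polynomial.algebraMap_apply,
          Polynomial.algebraMap_eq, ← C_mul_X_pow_eq_monomial, ← C_mul_X_pow_eq_monomial, map_mul,
          mul_assoc]
      rw [h1, tl_mon, AddMonoidAlgebra.coeff_single, Finsupp.single_apply, coeff_smul, coeff_smul,
        Pool.Agent.TH545.SD.coeff_mon, smul_eq_mul]
      simp only [Prod.mk.injEq]
      split_ifs <;> first | omega | simp

/-- the translation of the second variable -/
noncomputable def trG (z : K) : K[X][X] →+* K[X][X] := compRingHom (X + C (C (-z)))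

theorem trG_apply (z : K) (G : K[X][X]) : trG z G = G.comp (X + C (C (-z))) := rfl

theorem trG_cIdeal {x y z : K} {w : ℕ} {G : K[X][X]}
    (h : G ∈ cIdeal (fun _ : Fin 1 => x) (C (y - z)) w) :
    trG z G ∈ cIdeal (fun _ : Fin 1 => x) (C y) w := by
  unfold cIdeal at h ⊢
  have h3 := Ideal.mem_map_of_mem (trG z) h
  rw [Ideal.map_pow] at h3
  refine Ideal.pow_right_mono ?_ w h3
  rw [Ideal.map_le_iff_le_comap, Ideal.span_le]
  rintro g (rfl | rfl)
  · refine Ideal.mem_comap.2 (Ideal.subset_span (Or.inl ?_))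
    rw [trG_apply]
    simp only [sub_comp, X_comp, C_comp, C_sub, C_neg]
    ring
  · refine Ideal.mem_comap.2 (Ideal.subset_span (Or.inr ?_))
    rw [trG_apply, C_comp]
    rfl

theorem trG_inj (z : K) {G : K[X][X]} (h : trG z G = 0) : G = 0 := by
  have h1 : (trG z G).comp (X + C (C z)) = G := by
    rw [trG_apply, comp_assoc]
    simp
  rw [← h1, h, zero_comp]

/-- the translation of the second variable, on Laurent polynomials -/
noncomputable def tr (z : K) (f : (ℤ × ℤ) →₀ K) : (ℤ × ℤ) →₀ K := (tl K (trG z (Psi K f))).coeff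

theorem tr_coeff (z : K) {f : (ℤ × ℤ) →₀ K} (hpos : ∀ u ∈ f.support, 0 ≤ u.1 ∧ 0 ≤ u.2) {m : ℤ × ℤ}
    (hm : tr z f m ≠ 0) : (0 ≤ m.1 ∧ 0 ≤ m.2) ∧ ∃ u ∈ f.support, u.1 = m.1 ∧ m.2 ≤ u.2 := by
  unfold tr at hm
  rw [tl_coeff] at hm
  have h0 : 0 ≤ m.1 ∧ 0 ≤ m.2 := by
    by_contra h
    rw [if_neg h] at hm
    exact hm rfl
  refine ⟨h0, ?_⟩
  rw [if_pos h0, Psi_apply, map_sum, finsetSum_coeff, finsetSum_coeff] at hm
  obtain ⟨u, hu, hne⟩ := Finset.exists_ne_zero_of_sum_ne_zero hm
  refine ⟨u, hu, ?_⟩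
  have h1 : trG z (f u • Pool.Agent.H932R2.mon K (u.1.toNat, u.2.toNat)) =
      C (C (f u) * X ^ u.1.toNat) * (X + C (C (-z))) ^ u.2.toNat := by
    rw [trG_apply, Pool.Agent.H932R2.mon, Algebra.smul_def, Polynomial.algebraMap_apply,
      Polynomial.algebraMap_eq]
    simp only [mul_comp, C_comp, X_pow_comp, C_mul]
    ring
  rw [h1, coeff_C_mul, coeff_X_add_C_pow] at hne
  have h2 : ((C (-z) : K[X]) ^ (u.2.toNat - m.2.toNat) * ((u.2.toNat.choose m.2.toNat : ℕ) : K[X])) =
      C ((-z) ^ (u.2.toNat - m.2.toNat) * (u.2.toNat.choose m.2.toNat : K)) := by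
    rw [C_mul, C_pow, Polynomial.C_eq_natCast]
  rw [h2, mul_assoc, coeff_C_mul, coeff_mul_C, coeff_X_pow] at hne
  obtain ⟨p1, p2⟩ := hpos u hu
  have h3 : m.1.toNat = u.1.toNat := by
    by_contra h
    rw [if_neg h] at hne
    simp at hne
  have h4 : m.2.toNat ≤ u.2.toNat := by
    by_contra h
    rw [Nat.choose_eq_zero_of_lt (not_le.1 h)] at hne
    simp at hne
  omega

theorem Psi_tl {G : K[X][X]} : Psi K (tl K G).coeff = G := by
  induction G using Polynomial.induction_on' with
  | add p q hp hq => rw [map_add, AddMonoidAlgebra.coeff_add, map_add, hp, hq]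
  | monomial b P =>
    induction P using Polynomial.induction_on' with
    | add p q hp hq => rw [map_add, map_add, AddMonoidAlgebra.coeff_add, map_add, hp, hq]
    | monomial a c =>
      have h1 : (monomial b (monomial a c) : K[X][X]) = c • Pool.Agent.H932R2.mon K (a, b) := by
        rw [Pool.Agent.H932R2.mon, Algebra.smul_def, Polynomial.algebraMap_apply,
          Polynomial.algebraMap_eq, ← C_mul_X_pow_eq_monomial, ← C_mul_X_pow_eq_monomial, map_mul,
          mul_assoc]
      rw [h1, tl_mon, AddMonoidAlgebra.coeff_single]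
      unfold Psi
      rw [Finsupp.linearCombination_single]
      simp

theorem Psi_tr (z : K) (f : (ℤ × ℤ) →₀ K) : Psi K (tr z f) = trG z (Psi K f) := Psi_tl

theorem tr_LM [CharZero K] {x y z : K} (hx : x ≠ 0) (hy : y ≠ 0) (hyz : y - z ≠ 0) {w : ℕ}
    {f : (ℤ × ℤ) →₀ K} (hpos : ∀ u ∈ f.support, 0 ≤ u.1 ∧ 0 ≤ u.2) (hf : LM f x (y - z) w) :
    LM (tr z f) x y w :=
  LM_of_cIdeal hx hy (trG_cIdeal (Psi_mem_cIdeal hx hyz hpos hf))

/-- the first column -/
noncomputable def c0 (K : Type) [Field K] : ((ℤ × ℤ) →₀ K) →ₗ[K] K[X] :=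
  { toFun := fun f => (Psi K f).map (evalRingHom 0)
    map_add' := fun f g => by rw [map_add, Polynomial.map_add]
    map_smul' := fun c f => by
      rw [map_smul, RingHom.id_apply, smul_eq_C_mul, Algebra.smul_def, Polynomial.algebraMap_apply,
        Polynomial.algebraMap_eq, Polynomial.map_mul, Polynomial.map_C]
      simp }

theorem c0_apply (f : (ℤ × ℤ) →₀ K) : c0 K f = (Psi K f).map (evalRingHom 0) := rfl

theorem c0_tr (z : K) (f : (ℤ × ℤ) →₀ K) : c0 K (tr z f) = (c0 K f).comp (X + C (-z)) := by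
  rw [c0_apply, c0_apply, Psi_tr, trG_apply, Polynomial.map_comp]
  simp

theorem c0_coeff {f : (ℤ × ℤ) →₀ K} (hpos : ∀ u ∈ f.support, 0 ≤ u.1 ∧ 0 ≤ u.2) (b : ℕ) :
    (c0 K f).coeff b = f (0, (b : ℤ)) := by
  rw [c0_apply, coeff_map, Psi_apply, finsetSum_coeff, map_sum]
  have h1 : ∀ u : ℤ × ℤ, (evalRingHom (0 : K)) ((f u •
      Pool.Agent.H932R2.mon K (u.1.toNat, u.2.toNat)).coeff b) =
      if (u.1.toNat, u.2.toNat) = (0, b) then f u else 0 := by
    intro u
    rw [coe_evalRingHom, ← coeff_zero_eq_eval_zero, coeff_smul, coeff_smul,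
      Pool.Agent.TH545.SD.coeff_mon, smul_eq_mul]
    split_ifs <;> simp
  rw [Finset.sum_congr rfl fun u _ => h1 u]
  by_cases h : ((0, (b : ℤ)) : ℤ × ℤ) ∈ f.support
  · rw [Finset.sum_eq_single_of_mem _ h]
    · simp
    · intro u hu hne
      rw [if_neg]
      intro h2
      apply hne
      obtain ⟨p1, p2⟩ := hpos u hu
      simp only [Prod.mk.injEq] at h2
      ext
      · simp only; omega
      · simp only; omega
  · rw [Finsupp.notMem_support_iff.1 h]
    refine Finset.sum_eq_zero fun u hu => ?_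
    rw [if_neg]
    intro h2
    apply h
    obtain ⟨p1, p2⟩ := hpos u hu
    simp only [Prod.mk.injEq] at h2
    have : u = (0, (b : ℤ)) := by
      ext
      · simp only; omega
      · simp only; omega
    rwa [← this]

end tr

open Pool.Agent.TH545.SD Pool.Agent.TH772.QB in
/-- **the top exponents of a column**: if the exponents off the first column carry no curve and the
system has dimension at most `t`, then the exponents of the first column from `t` on may be added -/
theorem Emp_top {ι : Type} [Finite ι] {w : ι → ℕ} {S : Set (ℤ × ℤ)} (hfin : S.Finite)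
    (hpos : ∀ m ∈ S, 0 ≤ m.1 ∧ 0 ≤ m.2)
    (hdown : ∀ a b b' : ℤ, (a, b) ∈ S → 0 ≤ b' → b' ≤ b → (a, b') ∈ S) {t : ℕ}
    (h0 : Emp w {m ∈ S | m.1 ≠ 0}) (h1 : Emp (Sum.elim w (fun _ : Fin t => 1)) S) :
    Emp w {m ∈ S | m.1 ≠ 0 ∨ (t : ℤ) ≤ m.2} := by
  classical
  have : Fintype ι := Fintype.ofFinite ι
  obtain ⟨F1, hF1, hF1'⟩ := Emp_open (hfin.subset (Set.sep_subset _ _))
    (fun m hm => hpos m hm.1) h0
  obtain ⟨F2, hF2, hF2'⟩ := Emp_open hfin hpos h1
  let e1 : ι × Fin 2 → (ι ⊕ Fin t) × Fin 2 := Prod.map Sum.inl id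
  have he1 : Function.Injective e1 :=
    Function.Injective.prodMap Sum.inl_injective Function.injective_id
  have hne : MvPolynomial.rename e1 F1 * F2 ≠ 0 := by
    refine mul_ne_zero ?_ hF2
    rw [Ne, MvPolynomial.rename_eq_zero_iff_of_injective _ he1]
    exact hF1
  obtain ⟨P, hP⟩ : ∃ P : (ι ⊕ Fin t) × Fin 2 → ℚ,
      MvPolynomial.aeval P (MvPolynomial.rename e1 F1 * F2) ≠ 0 := by
    by_contra hcon
    push Not at hcon
    apply hne
    apply MvPolynomial.funext
    intro x
    rw [map_zero]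
    have := hcon x
    rwa [MvPolynomial.aeval_eq_eval] at this
  rw [map_mul, MvPolynomial.aeval_rename] at hP
  obtain ⟨hn1, hz1⟩ := hF1' (P ∘ e1) (left_ne_zero_of_mul hP)
  obtain ⟨hn2, hz2⟩ := hF2' P (right_ne_zero_of_mul hP)
  obtain ⟨x, hxd⟩ : ∃ x : ι → ℚ, ∀ i, x i = P (Sum.inl i, 0) := ⟨_, fun _ => rfl⟩
  obtain ⟨y, hyd⟩ : ∃ y : ι → ℚ, ∀ i, y i = P (Sum.inl i, 1) := ⟨_, fun _ => rfl⟩
  have hx : ∀ i, x i ≠ 0 := fun i => by rw [hxd]; exact hn1 (i, 0)
  have hy : ∀ i, y i ≠ 0 := fun i => by rw [hyd]; exact hn1 (i, 1)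
  have hd : Module.finrank ℚ (VS x y w S) ≤ t := by
    refine finrank_le (p := fun j => P (Sum.inr j, 0)) (q := fun j => P (Sum.inr j, 1))
      fun f hf hL hL' => hz2 f hf ?_
    rintro (i | j)
    · have := hL i
      rw [hxd, hyd] at this
      exact this
    · exact hL' j
  have hVfin := VS_fin (x := x) (y := y) (w := w) hfin
  obtain ⟨Z, hZ⟩ := wr t ((VS x y w S).map (c0 ℚ))
    ((Submodule.finrank_map_le (c0 ℚ) (VS x y w S)).trans hd)
  obtain ⟨z, hz⟩ := Infinite.exists_notMem_finset (Z ∪ Finset.univ.image y)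
  rw [Finset.notMem_union] at hz
  have hyz : ∀ i, y i - z ≠ 0 := by
    intro i h
    exact hz.2 (Finset.mem_image.2 ⟨i, Finset.mem_univ i, sub_eq_zero.1 h⟩)
  refine ⟨ℚ, inferInstance, inferInstance, x, fun i => y i - z, hx, hyz, fun f hf hL => ?_⟩
  have hfpos : ∀ u ∈ f.support, 0 ≤ u.1 ∧ 0 ≤ u.2 := fun u hu => hpos u (hf hu).1
  -- the translate
  have hgS : (↑(tr z f).support : Set (ℤ × ℤ)) ⊆ S := by
    rintro ⟨a, b⟩ hm
    obtain ⟨⟨p1, p2⟩, u, hu, h2, h3⟩ := tr_coeff z hfpos (Finsupp.mem_support_iff.1 hm)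
    refine hdown a u.2 b ?_ p2 h3
    have := (hf hu).1
    rw [← show u.1 = a from h2]
    exact this
  have hgL : ∀ i, LM (tr z f) (x i) (y i) (w i) := fun i => tr_LM (hx i) (hy i) (hyz i) hfpos (hL i)
  have hgpos : ∀ u ∈ (tr z f).support, 0 ≤ u.1 ∧ 0 ≤ u.2 := fun u hu => hpos u (hgS hu)
  have hdvd : X ^ t ∣ c0 ℚ f := by
    rw [X_pow_dvd_iff]
    intro b hb
    rw [c0_coeff hfpos]
    by_contra hne
    have := (hf (Finset.mem_coe.2 (Finsupp.mem_support_iff.2 hne))).2
    simp only [ne_eq, not_true_eq_false, false_or] at this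
    omega
  have hdvd' : (X - C z) ^ t ∣ c0 ℚ (tr z f) := by
    rw [c0_tr]
    obtain ⟨q, hq⟩ := hdvd
    rw [hq, mul_comp, X_pow_comp, C_neg, ← sub_eq_add_neg]
    exact Dvd.intro _ rfl
  have hc : c0 ℚ (tr z f) = 0 := hZ z hz.1 _ (Submodule.mem_map_of_mem ⟨hgS, hgL⟩) hdvd'
  have hg : tr z f = 0 := by
    refine hz1 _ ?_ ?_
    · rintro ⟨a, b⟩ hm
      refine ⟨hgS hm, ?_⟩
      rintro h2
      simp only at h2
      subst h2
      have h3 := hgS hm
      have h4 := (hpos _ h3).2
      simp only at h4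
      have h5 := c0_coeff hgpos b.toNat
      rw [hc, coeff_zero, Int.toNat_of_nonneg h4] at h5
      exact Finsupp.mem_support_iff.1 hm h5.symm
    · intro i
      have := hgL i
      rw [hxd, hyd] at this
      exact this
  have h6 := Psi_tr z f
  rw [hg, map_zero] at h6
  exact Psi_injOn hfpos (trG_inj z h6.symm)

end Pool.Agent.H902.CB
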